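import Pool.Agent.Lib.MP_b138e1_al.Defs

/-! Expander mixing in links, linear form. -/

set_option autoImplicit false

namespace Pool.Agent.Lib.MP_b138e1_al

/-- expander mixing with constant `lam` in the links of all nonempty faces `σ`: for two colours
`k ≠ l` not occurring in `σ`, a uniformly random chamber `C` containing `σ` and vertex sets `S`, `T`,
`|P(C k ∈ S, C l ∈ T) - P(C k ∈ S) P(C l ∈ T)| ≤ lam * (P(C k ∈ S) + P(C l ∈ T))` -/
def Cx.LinkMixing {V : Type} (X : Cx V) (lam : ℝ) : Prop :=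
  ∀ σ : Finset V, σ.Nonempty → ∀ k l : Fin 4, k ≠ l → (∀ a ∈ σ, X.col a ≠ k ∧ X.col a ≠ l) →
    ∀ S T : Set V,
      |pr (X.star σ) (fun C => C k ∈ S ∧ C l ∈ T) -
        pr (X.star σ) (fun C => C k ∈ S) * pr (X.star σ) (fun C => C l ∈ T)| ≤
      lam * (pr (X.star σ) (fun C => C k ∈ S) + pr (X.star σ) (fun C => C l ∈ T))

end Pool.Agent.Lib.MP_b138e1_al
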