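import Pool.Agent.Lib.MP_b138e1_al.Approx
import Pool.Agent.Lib.MP_b138e1_al.Exp

/-! A closed labelled cover gives a finite action of the extension; sofic implies residually finite. -/

set_option autoImplicit false

namespace Pool.Agent.Lib.MP_b138e1_al

open scoped Classical
open Finset

variable {V : Type} {X : Cx V} {G : Type} [Group G]

theorem Cx.Adj.symm {a b : V} (h : X.Adj a b) : X.Adj b a := ⟨h.1.symm, by rw [pair_comm]; exact h.2⟩

def Cx.Pth (X : Cx V) : V → List V → V → Prop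
  | a, [], b => a = b
  | a, c :: l, b => X.Adj a c ∧ Cx.Pth X c l b

theorem Cx.Pth.app {l l' : List V} {a b c : V} (h : X.Pth a l b) (h' : X.Pth b l' c) : X.Pth a (l ++ l') c := by
  induction l generalizing a with
  | nil => exact (show a = b from h) ▸ h'
  | cons d l ih => exact ⟨h.1, ih h.2⟩

section
variable {Λ : Labels X G} (Y : Str Λ)

def Str.Ed (q r : Pt V × G) : Prop := Y.E q.1 r.1 (q.2 * r.2⁻¹)

def Str.Wk : List V → Pt V × G → Pt V × G → Prop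
  | [], q, r => q = r
  | b :: l, q, r => ∃ s : Pt V × G, s.1.1 = b ∧ Y.Ed q s ∧ Str.Wk l s r

variable {Y} {q q' r r' s : Pt V × G} {l l' : List V} {a b c : V}

theorem Str.Ed.symm (h : Y.Ed q r) : Y.Ed r q := by simpa [Str.Ed] using Y.symm h

theorem Str.Ed.func (h : Y.Ed q r) (h' : Y.Ed q r') (e : r.1.1 = r'.1.1) : r = r' := by
  have := Y.func h h' e
  exact Prod.ext this.1 (by simpa using this.2)

theorem Str.Wk.func (h : Y.Wk l q r) (h' : Y.Wk l q r') : r = r' := by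
  induction l generalizing q with
  | nil => exact (show q = r from h).symm.trans h'
  | cons b l ih =>
    obtain ⟨s, a1, a2, a3⟩ := h
    obtain ⟨s', b1, b2, b3⟩ := h'
    obtain rfl := a2.func b2 (a1.trans b1.symm)
    exact ih a3 b3

theorem Str.Wk.inj (h : Y.Wk l q r) (h' : Y.Wk l q' r) (e : q.1.1 = q'.1.1) : q = q' := by
  induction l generalizing q q' with
  | nil => exact (show q = r from h).trans (show q' = r from h').symm
  | cons b l ih =>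
    obtain ⟨s, a1, a2, a3⟩ := h
    obtain ⟨s', b1, b2, b3⟩ := h'
    obtain rfl := ih a3 b3 (a1.trans b1.symm)
    exact a2.symm.func b2.symm e

theorem Str.Wk.app (h : Y.Wk l q r) (h' : Y.Wk l' r s) : Y.Wk (l ++ l') q s := by
  induction l generalizing q with
  | nil => exact (show q = r from h) ▸ h'
  | cons b l ih =>
    obtain ⟨t, a1, a2, a3⟩ := h
    exact ⟨t, a1, a2, ih a3⟩

theorem Str.Wk.split (h : Y.Wk (l ++ l') q s) : ∃ r, Y.Wk l q r ∧ Y.Wk l' r s := by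
  induction l generalizing q with
  | nil => exact ⟨q, rfl, h⟩
  | cons b l ih =>
    obtain ⟨t, a1, a2, a3⟩ := h
    obtain ⟨r, b1, b2⟩ := ih a3
    exact ⟨r, ⟨t, a1, a2, b1⟩, b2⟩

theorem Str.Wk.mul (h : Y.Wk l q r) (g : G) : Y.Wk l (q.1, q.2 * g) (r.1, r.2 * g) := by
  induction l generalizing q with
  | nil => rw [show q = r from h]; exact rfl
  | cons b l ih =>
    obtain ⟨t, a1, a2, a3⟩ := h
    exact ⟨(t.1, t.2 * g), a1, by simpa [Str.Ed, mul_assoc] using a2, ih a3⟩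

theorem Str.Wk.last (h : Y.Wk l q r) (p : X.Pth q.1.1 l b) : r.1.1 = b := by
  induction l generalizing q with
  | nil => exact (show q = r from h) ▸ p
  | cons c l ih =>
    obtain ⟨t, a1, -, a3⟩ := h
    exact ih a3 (a1 ▸ p.2)

theorem Str.Wk.mem (h : Y.Wk l q r) (p : q.1 ∈ Y.P) : r.1 ∈ Y.P := by
  induction l generalizing q with
  | nil => exact (show q = r from h) ▸ p
  | cons c l ih =>
    obtain ⟨t, -, a2, a3⟩ := h
    exact ih a3 (Str.mem' a2)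

theorem Cx.Pth.rev (h : X.Pth a l b) : ∃ l', X.Pth b l' a ∧
    ∀ (Y : Str Λ) q r, q.1.1 = a → Y.Wk l q r → Y.Wk l' r q := by
  induction l generalizing a with
  | nil => exact ⟨[], (show a = b from h).symm, fun _ _ _ _ e => (show _ = _ from e).symm⟩
  | cons c l ih =>
    obtain ⟨l', a1, a2⟩ := ih h.2
    exact ⟨l' ++ [a], a1.app ⟨h.1.symm, rfl⟩, fun Y q r e ⟨s, b1, b2, b3⟩ =>
      (a2 Y s r b1 b3).app ⟨q, e, b2.symm, rfl⟩⟩

theorem closed' (hw : Y.w = 0) {C : Cham V} (hC : C ∈ X.ch) {x : Pt V} (hx : x ∈ Y.P) {i j k : Fin 4}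
    (e : x.1 = C i) (h1 : i ≠ j) (h2 : i ≠ k) (h3 : j ≠ k) : Y.cl x (C j) (C k) := by
  by_contra c
  have a := Y.nc_le h1 h2 h3
  have b := card_le_N (X := X) (P := Y.P) (s := {C}) (Q := fun _ => True) (i := i)
    (A := fun C x => ¬ Y.cl x (C j) (C k)) hx (by simp [hC, e, c])
  rw [hw] at a
  have := b.trans a
  norm_num [pr] at this

theorem Str.ed_tot (hw : Y.w = 0) (hq : q.1 ∈ Y.P) (h : X.Adj q.1.1 b) : ∃ s, s.1.1 = b ∧ Y.Ed q s := by
  obtain ⟨C, hC, i, j, n, e, rfl⟩ := adj_iff.1 h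
  obtain ⟨k, -, h2, -, h3, -⟩ := ex_others i j n
  obtain ⟨y, g, a1, a2, -⟩ := (closed' hw hC hq e.symm n h2 h3).has
  exact ⟨(y, g⁻¹ * q.2), a1, by simpa [Str.Ed] using a2⟩

theorem Str.ed_tri (hw : Y.w = 0) (t : X.Tri q.1.1 r.1.1 s.1.1) (h : Y.Ed q r) (h' : Y.Ed q s) : Y.Ed r s := by
  obtain ⟨C, hC, i, j, k, h1, h2, h3, a1, a2, a3⟩ := tri_iff.1 t
  have := closed' hw hC (Y.mem h) a1.symm h1 h2 h3
  rw [a2, a3] at this
  simpa [Str.Ed, mul_assoc] using this.edge h h'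

theorem Str.wk_tot (hw : Y.w = 0) (hq : q.1 ∈ Y.P) (h : X.Pth q.1.1 l b) : ∃ r, Y.Wk l q r := by
  induction l generalizing q with
  | nil => exact ⟨q, rfl⟩
  | cons c l ih =>
    obtain ⟨s, a1, a2⟩ := Str.ed_tot hw hq h.1
    obtain ⟨r, hr⟩ := ih (Str.mem' a2) (a1 ▸ h.2)
    exact ⟨r, s, a1, a2, hr⟩

theorem Str.wk_sur (hw : Y.w = 0) (hr : r.1 ∈ Y.P) (h : X.Pth a l r.1.1) :
    ∃ q, q.1 ∈ Y.P ∧ q.1.1 = a ∧ Y.Wk l q r := by
  induction l generalizing a with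
  | nil => exact ⟨r, hr, (show a = _ from h).symm, rfl⟩
  | cons c l ih =>
    obtain ⟨s, a1, a2, a3⟩ := ih h.2
    obtain ⟨q, b1, b2⟩ := Str.ed_tot hw a1 (a2 ▸ h.1.symm)
    exact ⟨q, Str.mem' b2, b1, s, a2, b2.symm, a3⟩

theorem Str.edge_cnt (Y Y' : Str Λ) (h : X.Adj a b) :
    (K Y.P fun x => x.1 = a ∧ ¬ ∃ y g, y.1 = b ∧ Y.E x y g ∧ Y'.E x y g) ≤ Y.w + Y.d Y' := by
  obtain ⟨C, hC, i, j, n, rfl, rfl⟩ := adj_iff.1 h
  obtain ⟨k, -, h2, -, h3, -⟩ := ex_others i j n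
  have a1 := Y.le_d (Y' := Y') n
  have a2 := Y.nc_le n h2 h3
  have a4 : 0 ≤ Y.new Y' i := N_nonneg
  have a5 : _ ≤ Y.nc i j k := K_le_N hC
  have a6 : _ ≤ Y.lost Y' i j := K_le_N hC
  refine (K_or fun x _ hx => ?_).trans (add_le_add (a5.trans a2) (a6.trans (by linarith)))
  by_cases c : Y.cl x (C j) (C k)
  · obtain ⟨y, g, b1, b2, -⟩ := c.has
    exact Or.inr ⟨hx.1, y, g, b1, b2, fun e => hx.2 ⟨y, g, b1, b2, e⟩⟩
  · exact Or.inl ⟨hx.1, c⟩

theorem Str.walk_cnt (Y Y' : Str Λ) (h : X.Pth a l b) :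
    (K Y.P fun x => x.1 = a ∧ ¬ (x ∈ Y'.P ∧ ∀ g, ∃ r, Y.Wk l (x, g) r ∧ Y'.Wk l (x, g) r)) ≤
      (l.length + 1) * (Y.w + Y.d Y') := by
  induction l generalizing a with
  | nil =>
    obtain ⟨C, hC, e⟩ := X.cover a
    obtain ⟨j, hj⟩ := exists_ne (X.col a)
    have := Y.edge_cnt Y' (adj_ch hC hj.symm)
    rw [e] at this
    simp only [List.length_nil, Nat.cast_zero, zero_add, one_mul]
    exact (K_mono fun x _ hx => ⟨hx.1, fun ⟨y, g, _, _, c⟩ =>
      hx.2 ⟨Y'.mem c, fun g => ⟨_, rfl, rfl⟩⟩⟩).trans this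
  | cons c l ih =>
    have a1 := Y.edge_cnt Y' h.1
    have a2 := ih h.2
    have a3 := K_rel (P := Y.P) (Q := Y.P)
      (p := fun x => x.1 = a ∧ ∃ y g, y.1 = c ∧ Y.E x y g ∧
        ¬ (y ∈ Y'.P ∧ ∀ g, ∃ r, Y.Wk l (y, g) r ∧ Y'.Wk l (y, g) r))
      (q := fun x => x.1 = c ∧ ¬ (x ∈ Y'.P ∧ ∀ g, ∃ r, Y.Wk l (x, g) r ∧ Y'.Wk l (x, g) r))
      (fun x y => x.1 = a ∧ ∃ g, Y.E x y g)
      (fun x _ ⟨b1, y, g, b2, b3, b4⟩ => ⟨y, Str.mem' b3, ⟨b2, b4⟩, b1, g, b3⟩)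
      fun x x' y ⟨b1, g, b2⟩ ⟨c1, g', c2⟩ => (Y.func (Y.symm b2) (Y.symm c2) (b1.trans c1.symm)).1
    refine (K_or fun x _ hx => ?_).trans ((add_le_add a1 (a3.trans a2)).trans_eq (by
      simp only [List.length_cons, Nat.cast_add, Nat.cast_one]; ring))
    by_cases e : ∃ y g, y.1 = c ∧ Y.E x y g ∧ Y'.E x y g
    · obtain ⟨y, g, b1, b2, b3⟩ := e
      refine Or.inr ⟨hx.1, y, g, b1, b2, fun ⟨_, b4⟩ => hx.2 ⟨Y'.mem b3, fun k => ?_⟩⟩
      obtain ⟨r, c1, c2⟩ := b4 (g⁻¹ * k)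
      exact ⟨r, ⟨(y, g⁻¹ * k), b1, by simpa [Str.Ed] using b2, c1⟩,
        ⟨(y, g⁻¹ * k), b1, by simpa [Str.Ed] using b3, c2⟩⟩
    · exact Or.inl ⟨hx.1, e⟩

theorem walk_fin (hL : {g | ∃ a b, Λ.L a b g}.Finite) (l : List V) : ∃ F : Finset G,
    ∀ (Y : Str Λ) (A : G → ℕ → ℕ → Prop), (∀ x y g, Y.E x y g → A g x.2 y.2) →
      (∀ g ∈ F, ∀ h ∈ F, ∀ i j k, A g i j → A h j k → A (g * h) i k) → ∀ q r, Y.Wk l q r →
        q = r ∨ (q.2 * r.2⁻¹ ∈ F ∧ A (q.2 * r.2⁻¹) q.1.2 r.1.2) := by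
  induction l with
  | nil => exact ⟨∅, fun _ _ _ _ _ _ h => Or.inl h⟩
  | cons b l ih =>
    obtain ⟨F, hF⟩ := ih
    refine ⟨F ∪ hL.toFinset ∪ image₂ (· * ·) hL.toFinset F, fun Y A h1 h2 q r ⟨s, _, a2, a3⟩ => Or.inr ?_⟩
    have m : q.2 * s.2⁻¹ ∈ hL.toFinset := hL.mem_toFinset.2 ⟨_, _, Y.lab a2⟩
    have u : ∀ g ∈ F, g ∈ F ∪ hL.toFinset ∪ image₂ (· * ·) hL.toFinset F := fun g h =>
      mem_union_left _ (mem_union_left _ h)
    rcases hF Y A h1 (fun g hg h hh => h2 g (u g hg) h (u h hh)) s r a3 with rfl | ⟨b1, b2⟩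
    · exact ⟨mem_union_left _ (mem_union_right _ m), h1 _ _ _ a2⟩
    · rw [show q.2 * r.2⁻¹ = q.2 * s.2⁻¹ * (s.2 * r.2⁻¹) by group]
      exact ⟨mem_union_right _ (mem_image₂_of_mem m b1),
        h2 _ (mem_union_left _ (mem_union_right _ m)) _ (u _ b1) _ _ _ (h1 _ _ _ a2) b2⟩

end

variable (T : X.Tree)

noncomputable def up (a : V) : List V :=
  if _h : a = T.root then [] else T.par a :: up (T.par a)
termination_by T.dep a
decreasing_by exact (T.step a _h).2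

theorem up_root : up T T.root = [] := by rw [up, dif_pos rfl]

theorem up_ne {a : V} (h : a ≠ T.root) : up T a = T.par a :: up T (T.par a) := by rw [up, dif_neg h]

theorem tree_ind {P : V → Prop} (h0 : P T.root) (h1 : ∀ a, a ≠ T.root → P (T.par a) → P a) (a : V) : P a := by
  induction hn : T.dep a using Nat.strong_induction_on generalizing a with
  | _ n ih =>
    by_cases e : a = T.root
    · exact e ▸ h0
    · exact h1 a e (ih _ (hn ▸ (T.step a e).2) _ rfl)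

theorem up_pth (a : V) : X.Pth a (up T a) T.root :=
  tree_ind T (P := fun a => X.Pth a (up T a) T.root) (by rw [up_root]; exact rfl)
    (fun a e h => by rw [up_ne T e]; exact ⟨(T.step a e).1, h⟩) a

theorem of_inv (a b : V) : (PresentedGroup.of (a, b) : X.Pi1 T)⁻¹ = PresentedGroup.of (b, a) :=
  inv_eq_of_mul_eq_one_right (PresentedGroup.one_of_mem (Or.inr (Or.inr (Or.inl ⟨a, b, rfl⟩))))

variable {T} (p : G →* X.Pi1 T) (hp : Function.Surjective p)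

def lab : Labels X G where
  L a b g := p g = PresentedGroup.of (a, b)
  inv := fun h => by rw [map_inv, h, of_inv]
  mul := fun {a b c _ _} t h h' => by
    rw [map_mul, h, h']
    have : PresentedGroup.mk (X.rels T) _ = 1 := PresentedGroup.one_of_mem (Or.inr (Or.inr (Or.inr ⟨a, b, c, t, rfl⟩)))
    rw [map_mul, map_mul] at this
    rw [← of_inv T c a]
    exact eq_inv_of_mul_eq_one_left this
  ex := fun _ => hp _

variable {p hp} {Y : Str (lab p hp)} {q q' r r' s : Pt V × G} {a b c : V}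

theorem ed_lab (h : Y.Ed q r) : p r.2 = PresentedGroup.of (r.1.1, q.1.1) * p q.2 := by
  have : p (r.2 * q.2⁻¹) = _ := Y.lab h.symm
  rw [← this, map_mul, map_inv, inv_mul_cancel_right]

theorem up_lab (a : V) : ∀ q, q.1.1 = a → Y.Wk (up T a) q r → p q.2 = p r.2 :=
  tree_ind T (P := fun a => ∀ q, q.1.1 = a → Y.Wk (up T a) q r → p q.2 = p r.2)
    (fun q _ h => by rw [up_root] at h; rw [show q = r from h])
    (fun a e ih q e' h => by
      rw [up_ne T e] at h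
      obtain ⟨s, a1, a2, a3⟩ := h
      have : (PresentedGroup.of (a, T.par a) : X.Pi1 T) = 1 :=
        PresentedGroup.one_of_mem (Or.inr (Or.inl ⟨a, e, rfl⟩))
      rw [ed_lab a2.symm, e', a1, this, one_mul, ih s a1 a3]) a

variable (Y)

def RR (a b : V) (q r : Pt V × G) : Prop :=
  ∃ s t : Pt V × G, s.1.1 = b ∧ t.1.1 = a ∧ Y.Wk (up T b) s q ∧ Y.Ed s t ∧ Y.Wk (up T a) t r

def Fib : Type := {q : Pt V × G // q.1 ∈ Y.P ∧ q.1.1 = T.root}

variable {Y}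

theorem RR.symm (h : RR Y a b q r) : RR Y b a r q := by
  obtain ⟨s, t, a1, a2, a3, a4, a5⟩ := h
  exact ⟨t, s, a2, a1, a5, a4.symm, a3⟩

theorem RR.func (h : RR Y a b q r) (h' : RR Y a b q r') : r = r' := by
  obtain ⟨s, t, a1, a2, a3, a4, a5⟩ := h
  obtain ⟨s', t', b1, b2, b3, b4, b5⟩ := h'
  obtain rfl := a3.inj b3 (a1.trans b1.symm)
  obtain rfl := a4.func b4 (a2.trans b2.symm)
  exact a5.func b5

theorem RR.tot (hw : Y.w = 0) (h : X.Adj a b) (q : Fib Y) : ∃ r : Fib Y, RR Y a b q.1 r.1 := by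
  obtain ⟨s, a1, a2, a3⟩ := Str.wk_sur hw q.2.1 (q.2.2 ▸ up_pth T b)
  obtain ⟨t, b1, b2⟩ := Str.ed_tot hw a1 (a2 ▸ h.symm)
  have u : X.Pth t.1.1 (up T a) T.root := by rw [b1]; exact up_pth T a
  obtain ⟨r, c1⟩ := Str.wk_tot hw (Str.mem' b2) u
  exact ⟨⟨r, c1.mem (Str.mem' b2), c1.last u⟩, s, t, a2, b1, a3, b2, c1⟩

noncomputable def gen (hw : Y.w = 0) (e : V × V) : Equiv.Perm (Fib Y) :=
  if h : X.Adj e.1 e.2 then
    { toFun := fun q => (RR.tot hw h q).choose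
      invFun := fun q => (RR.tot hw h.symm q).choose
      left_inv := fun q => Subtype.ext ((RR.tot hw h.symm _).choose_spec.func (RR.tot hw h q).choose_spec.symm)
      right_inv := fun q => Subtype.ext ((RR.tot hw h _).choose_spec.func (RR.tot hw h.symm q).choose_spec.symm) }
  else 1

theorem gen_spec (hw : Y.w = 0) (h : X.Adj a b) (q : Fib Y) : RR Y a b q.1 (gen hw (a, b) q).1 := by
  rw [gen, dif_pos h]
  exact (RR.tot hw h q).choose_spec

theorem gen_rel (hw : Y.w = 0) : ∀ r ∈ X.rels T, FreeGroup.lift (gen hw) r = 1 := by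
  rintro _ (⟨a, b, h, rfl⟩ | ⟨a, h, rfl⟩ | ⟨a, b, rfl⟩ | ⟨a, b, c, h, rfl⟩)
  · rw [FreeGroup.lift_apply_of, gen, dif_neg h]
  · rw [FreeGroup.lift_apply_of]
    refine Equiv.ext fun q => Subtype.ext ?_
    obtain ⟨s, t, a1, a2, a3, a4, a5⟩ := gen_spec hw (T.step a h).1 q
    rw [up_ne T h] at a5
    obtain ⟨s', b1, b2, b3⟩ := a5
    obtain rfl := a4.symm.func b2 (a1.trans b1.symm)
    exact b3.func a3
  · rw [map_mul, FreeGroup.lift_apply_of, FreeGroup.lift_apply_of]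
    by_cases h : X.Adj a b
    · exact Equiv.ext fun q => Subtype.ext ((gen_spec hw h _).func (gen_spec hw h.symm q).symm)
    · rw [gen, gen, dif_neg h, dif_neg fun e => h (Cx.Adj.symm e), one_mul]
  · rw [map_mul, map_mul, FreeGroup.lift_apply_of, FreeGroup.lift_apply_of, FreeGroup.lift_apply_of]
    obtain ⟨C, hC, i, j, k, h1, h2, h3, rfl, rfl, rfl⟩ := tri_iff.1 h
    refine Equiv.ext fun q => Subtype.ext ?_
    obtain ⟨s, t, a1, a2, a3, a4, a5⟩ := gen_spec hw (adj_ch hC h2.symm) q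
    obtain ⟨t', u, b1, b2, b3, b4, b5⟩ := gen_spec hw (adj_ch hC h3) (gen hw (C k, C i) q)
    obtain rfl := a5.inj b3 (a2.trans b1.symm)
    obtain ⟨u', s', c1, c2, c3, c4, c5⟩ := gen_spec hw (adj_ch hC h1) (gen hw (C j, C k) (gen hw (C k, C i) q))
    obtain rfl := b5.inj c3 (b2.trans c1.symm)
    have := Str.ed_tri hw (by rw [a2, b2, a1]; exact tri_ch hC h3.symm h2.symm h1.symm) b4 a4.symm
    obtain rfl := this.func c4 (a1.trans c2.symm)
    exact c5.func a3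

noncomputable def rho (hw : Y.w = 0) : X.Pi1 T →* Equiv.Perm (Fib Y) := PresentedGroup.toGroup (gen_rel hw)

variable (p hp)

theorem loop (γ : X.Pi1 T) : ∃ l, X.Pth T.root l T.root ∧ ∀ (Y : Str (lab p hp)) (hw : Y.w = 0) (q : Fib Y),
    Y.Wk l q.1 (rho hw γ q).1 ∧ p (rho hw γ q).1.2 = γ * p q.1.2 := by
  have gn : ∀ a b, ∃ l, X.Pth T.root l T.root ∧ ∀ (Y : Str (lab p hp)) (hw : Y.w = 0) (q : Fib Y),
      Y.Wk l q.1 (rho hw (.of (a, b)) q).1 ∧ p (rho hw (.of (a, b)) q).1.2 = .of (a, b) * p q.1.2 := by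
    intro a b
    by_cases h : X.Adj a b
    · obtain ⟨l, a1, a2⟩ := (up_pth T b).rev (Λ := lab p hp)
      refine ⟨l ++ a :: up T a, a1.app ⟨h.symm, up_pth T a⟩, fun Y hw q => ?_⟩
      rw [rho, PresentedGroup.toGroup.of]
      obtain ⟨s, t, b1, b2, b3, b4, b5⟩ := gen_spec hw h q
      exact ⟨(a2 Y s _ b1 b3).app ⟨t, b2, b4, b5⟩, by
        rw [← up_lab a t b2 b5, ed_lab b4, b1, b2, up_lab b s b1 b3]⟩
    · have : (PresentedGroup.of (a, b) : X.Pi1 T) = 1 := PresentedGroup.one_of_mem (Or.inl ⟨a, b, h, rfl⟩)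
      exact ⟨[], rfl, fun Y hw q => by rw [this, map_one, one_mul]; exact ⟨rfl, rfl⟩⟩
  have : γ ∈ Subgroup.closure (Set.range PresentedGroup.of) := by
    rw [PresentedGroup.closure_range_of]; trivial
  induction this using Subgroup.closure_induction'' with
  | mem x hx =>
    obtain ⟨⟨a, b⟩, rfl⟩ := hx
    exact gn a b
  | inv_mem x hx =>
    obtain ⟨⟨a, b⟩, rfl⟩ := hx
    rw [of_inv]
    exact gn b a
  | one => exact ⟨[], rfl, fun Y hw q => by rw [map_one, one_mul]; exact ⟨rfl, rfl⟩⟩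
  | mul x y _ _ a b =>
    obtain ⟨l, a1, a2⟩ := a
    obtain ⟨l', b1, b2⟩ := b
    refine ⟨l' ++ l, b1.app a1, fun Y hw q => ?_⟩
    rw [map_mul, Equiv.Perm.mul_apply]
    exact ⟨(b2 Y hw q).1.app (a2 Y hw _).1, by rw [(a2 Y hw _).2, (b2 Y hw q).2, mul_assoc]⟩

variable {p hp}

def Fib.rm (q : Fib Y) (g : G) : Fib Y := ⟨(q.1.1, q.1.2 * g), q.2⟩

theorem rho_r (hw : Y.w = 0) (γ : X.Pi1 T) (q : Fib Y) (g : G) : rho hw γ (q.rm g) = (rho hw γ q).rm g := by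
  obtain ⟨l, -, h⟩ := loop p hp γ
  exact Subtype.ext ((h Y hw (q.rm g)).1.func ((h Y hw q).1.mul g))

theorem stab (hw : Y.w = 0) [Finite p.ker] (q : Fib Y) (e : q.1.2 = 1) :
    ∃ H : Subgroup G, H.FiniteIndex ∧ ∀ g ∈ H, rho hw (p g) q = q.rm g := by
  have rr : ∀ (q : Fib Y) g h, (q.rm g).rm h = q.rm (g * h) := fun q g h =>
    Subtype.ext (Prod.ext rfl (mul_assoc _ _ _))
  have r1 : ∀ q : Fib Y, q.rm 1 = q := fun q => Subtype.ext (Prod.ext rfl (mul_one _))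
  let _ : MulAction G (Fib Y) :=
    { smul := fun g q => (rho hw (p g) q).rm g⁻¹
      one_smul := fun q => by
        show (rho hw (p 1) q).rm 1⁻¹ = q
        rw [map_one, map_one, inv_one, r1]; rfl
      mul_smul := fun g h q => by
        show (rho hw (p (g * h)) q).rm (g * h)⁻¹ = (rho hw (p g) ((rho hw (p h) q).rm h⁻¹)).rm g⁻¹
        rw [rho_r, rr, map_mul, map_mul, mul_inv_rev]; rfl }
  have : Finite (MulAction.orbit G q) := by
    refine Finite.of_injective (β := Y.P × p.ker) (fun x => (⟨x.1.1.1, x.1.2.1⟩, ⟨x.1.1.2, ?_⟩))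
      fun x y h => Subtype.ext (Subtype.ext (Prod.ext (congrArg (·.1.1) h) (congrArg (·.2.1) h)))
    obtain ⟨_, g, rfl⟩ := x
    obtain ⟨l, -, h⟩ := loop p hp (p g)
    show p ((rho hw (p g) q).1.2 * g⁻¹) = 1
    rw [map_mul, (h Y hw q).2, e]
    simp
  have : Finite (G ⧸ MulAction.stabilizer G q) := Finite.of_equiv _ (MulAction.orbitEquivQuotientStabilizer G q)
  refine ⟨MulAction.stabilizer G q, Subgroup.finiteIndex_of_finite_quotient, fun g hg => ?_⟩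
  have h : (rho hw (p g) q).rm g⁻¹ = q := hg
  rw [← r1 (rho hw (p g) q), ← inv_mul_cancel g, ← rr, h]

theorem sofic_rf [Fintype V] {R : ℕ} (hm : X.Mix (lam0 R)) (ht : X.LinkTransitive) (hc : X.Cone R)
    (p : G →* X.Pi1 T) (hp : Function.Surjective p) [Finite p.ker] (hs : Sofic G) :
    Group.ResiduallyFinite G := by
  refine Group.residuallyFinite_iff_exists_finiteIndex.2 fun g hg => ?_
  have hu : ∀ {a b g g'}, (lab p hp).L a b g → (lab p hp).L a b g' → g⁻¹ * g' ∈ p.ker := fun h h' => by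
    rw [MonoidHom.mem_ker, map_mul, map_inv, show p _ = _ from h, show p _ = _ from h', inv_mul_cancel]
  have hL : {g | ∃ a b, (lab p hp).L a b g}.Finite := by
    choose f hf using fun e : V × V => hp (.of e)
    refine (Set.finite_range fun e : (V × V) × p.ker => f e.1 * e.2).subset ?_
    rintro g ⟨a, b, h⟩
    exact ⟨((a, b), ⟨_, hu (hf (a, b)) h⟩), by simp⟩
  obtain ⟨l, l1, l2⟩ := loop p hp (p g)
  obtain ⟨F, hF⟩ := walk_fin hL l
  obtain ⟨Y, A, a1, a2, a3, a4⟩ := approx' (Λ := lab p hp) hs p.ker (fun _ => hu)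
    (fun h z => by show p _ = _; rw [map_mul, show p _ = 1 from z, mul_one]; exact h) F
    (κ₀ := (l.length + 1) * (1 + 10 ^ 24 * (3 * R + 1))) (by positivity)
  obtain ⟨Y', hw, hd⟩ := descent (improve hm ht hc) Y
  have b1 := Y.walk_cnt Y' l1
  obtain ⟨x, x1, x2, x3, x4⟩ : ∃ x ∈ Y.P, x.1 = T.root ∧ x ∈ Y'.P ∧
      ∀ g, ∃ r, Y.Wk l (x, g) r ∧ Y'.Wk l (x, g) r := by
    by_contra c
    have b2 := (K_mono (P := Y.P) fun x hx (e : x.1 = T.root) => ⟨e, fun h => c ⟨x, hx, e, h⟩⟩).trans b1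
    have b3 : ((l.length : ℝ) + 1) * (Y.w + Y.d Y') ≤ (l.length + 1) * (Y.w + 10 ^ 24 * (3 * R + 1) * Y.w) := by
      gcongr
    linarith [a1 T.root]
  obtain ⟨H, h1, h2⟩ := stab hw (⟨(x, 1), x3, x2⟩ : Fib Y') rfl
  refine ⟨H, h1, fun h => hg ?_⟩
  obtain ⟨r, r1, r2⟩ := x4 1
  have c1 := (l2 Y' hw ⟨(x, 1), x3, x2⟩).1
  rw [h2 g h] at c1
  obtain rfl := c1.func r2
  rcases hF Y A a2 a3 _ _ r1 with e | ⟨e1, e2⟩
  · simpa [Fib.rm] using e.symm
  · simpa [Fib.rm] using a4 _ e1 _ e2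

theorem rf_sofic [Group.ResiduallyFinite G] : Sofic G := by
  intro F ε hε
  have := fun g : {g // g ∈ F ∧ g ≠ 1} => Group.exists_finiteIndexNormalSubgroup_notMem g.1 g.2.2
  choose H hH using this
  have : Finite {g // g ∈ F ∧ g ≠ 1} := (F.finite_toSet.subset fun _ h => h.1 : {g | g ∈ F ∧ g ≠ 1}.Finite)
  let Q := ∀ g, G ⧸ (H g).toSubgroup
  let f : G →* Q := MonoidHom.pi fun g => QuotientGroup.mk' _
  have : Finite Q := Pi.finite
  let e := Finite.equivFin Q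
  have n1 : 1 ≤ Nat.card Q := Nat.card_pos
  refine ⟨_, n1, fun g => e.permCongr (Equiv.mulLeft (f g)), fun g _ h _ => ?_, fun g hg ne => ?_⟩
  · rw [hamming, filter_false_of_mem fun i _ => by simp]
    simpa using hε
  · have n0 : ((Nat.card Q : ℕ) : ℝ) ≠ 0 := by exact_mod_cast (by omega : Nat.card Q ≠ 0)
    rw [hamming, filter_true_of_mem, card_univ, Fintype.card_fin, div_self n0]
    · linarith
    intro i _ c
    have : f g = 1 := by simpa [← Equiv.eq_symm_apply] using c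
    exact hH ⟨g, hg, ne⟩ ((QuotientGroup.eq_one_iff _).1 (congrFun this ⟨g, hg, ne⟩))

theorem sofic_iff (R : ℕ) : ∃ lam : ℝ, 0 < lam ∧ ∀ (V : Type) [Finite V] (X : Cx V),
    X.LinkMixing lam → X.LinkTransitive → X.Cone R → ∀ (T : X.Tree) (G : Type) [Group G] (p : G →* X.Pi1 T),
      Function.Surjective p → Finite p.ker → (Sofic G ↔ Group.ResiduallyFinite G) :=
  ⟨lam0 R, lam0_pos R, fun V _ X hm ht hc _ _ _ p hp _ => by
    have := Fintype.ofFinite V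
    exact ⟨sofic_rf (fun σ a k l b c S T => hm σ a k l b c {x | S x} {x | T x}) ht hc p hp, fun _ => rf_sofic⟩⟩

end Pool.Agent.Lib.MP_b138e1_al
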