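import Mathlib

/-! Sofic groups. -/

set_option autoImplicit false

namespace Pool.Agent.Lib.MP_b138e1_al

/-- normalised Hamming distance on `Sym(n)` -/
noncomputable def hamming {n : ℕ} (σ τ : Equiv.Perm (Fin n)) : ℝ :=
  ((Finset.univ.filter fun i : Fin n => σ i ≠ τ i).card : ℝ) / (n : ℝ)

/-- a group is sofic if it has almost multiplicative, almost free maps to finite symmetric groups -/
def Sofic (G : Type) [Group G] : Prop :=
  ∀ (F : Finset G) (ε : ℝ), 0 < ε → ∃ n : ℕ, 1 ≤ n ∧ ∃ φ : G → Equiv.Perm (Fin n),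
    (∀ g ∈ F, ∀ h ∈ F, hamming (φ (g * h)) (φ g * φ h) < ε) ∧
    ∀ g ∈ F, g ≠ 1 → 1 - ε < hamming (φ g) 1

end Pool.Agent.Lib.MP_b138e1_al
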