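import Pool.Agent.Lib.MP_b138e1_al.Fill
import Pool.Agent.Lib.MP_b138e1_al.Sof

-- part Pool.Agent.Lib.MP_b138e1_al.Prune
section

/-! Removing the region where many edges are missing. -/

set_option autoImplicit false

namespace Pool.Agent.Lib.MP_b138e1_al

open scoped Classical
open Finset

variable {V : Type} {X : Cx V} {G : Type} [Group G] {Λ : Labels X G} (Y : Str Λ)

noncomputable def Str.mu (t : Fin 4) (x : Pt V) : ℝ := pr (X.star {x.1}) fun D => ¬ Y.has x (D t)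

noncomputable def Str.gam (t : Fin 4) (x : Pt V) (b : V) : ℝ :=
  pr (X.star {x.1, b}) fun D => ¬ Y.has x (D t)

def Str.A (th : Fin 4 → ℝ) (t : Fin 4) (x : Pt V) : Prop := X.col x.1 ≠ t ∧ th t ≤ Y.mu t x

noncomputable def Str.q (th : Fin 4 → ℝ) (t k : Fin 4) (x : Pt V) : ℝ :=
  pr (X.star {x.1}) fun D => Y.nb (Y.A th t) x (D k)

def Str.A' (th : Fin 4 → ℝ) (x : Pt V) : Prop := ∃ k k', k ≠ k' ∧ k ≠ X.col x.1 ∧ k' ≠ X.col x.1 ∧
  1 / 2 ≤ Y.q th (X.col x.1) k x ∧ 1 / 2 ≤ Y.q th (X.col x.1) k' x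

def Str.D (th : Fin 4 → ℝ) (x : Pt V) : Prop := (∃ t, Y.A th t x) ∨ Y.A' th x

noncomputable def Str.cut (S : Pt V → Prop) : Str Λ where
  P := Y.P.filter S
  E x y g := Y.E x y g ∧ S x ∧ S y
  symm e := ⟨Y.symm e.1, e.2.2, e.2.1⟩
  func e e' := Y.func e.1 e'.1
  mem e := mem_filter.2 ⟨Y.mem e.1, e.2.1⟩
  lab e := Y.lab e.1

theorem Str.mem_cut {S : Pt V → Prop} {x : Pt V} : x ∈ (Y.cut S).P ↔ x ∈ Y.P ∧ S x := mem_filter

theorem N_sum_disj {P : Finset (Pt V)} {i : Fin 4} (s : Finset ℕ) (A : ℕ → Cham V → Pt V → Prop)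
    (B : Cham V → Pt V → Prop) (h : ∀ n C x, A n C x → B C x)
    (hd : ∀ n n' C x, A n C x → A n' C x → n = n') : ∑ n ∈ s, N X P i (A n) ≤ N X P i B := by
  simp only [N, NS]
  rw [sum_comm]
  refine sum_le_sum fun x _ => ?_
  rw [sum_comm]
  refine sum_le_sum fun C _ => ?_
  simp only [← sum_filter, sum_const, nsmul_eq_mul, mul_one]
  split_ifs with c
  · have : (s.filter fun n => x.1 = C i ∧ A n C x).card ≤ 1 := card_le_one.2 fun n hn n' hn' =>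
      hd n n' C x (mem_filter.1 hn).2.2 (mem_filter.1 hn').2.2
    exact_mod_cast this
  · rw [filter_false_of_mem fun n _ a => c ⟨a.1, h n C x a.2⟩]
    simp

variable {Y} {i j k l t : Fin 4} {lam μ m θ δ β : ℝ} {th : Fin 4 → ℝ}

theorem Str.mu_markov : θ * N X Y.P i (fun _ x => θ ≤ Y.mu t x) ≤ Y.miss i t :=
  (mkV (fun x => θ ≤ Y.mu t x) (fun x D => ¬ Y.has x (D t)) fun _ _ _ s => s).trans
    (N_mono fun _ _ _ _ _ s => s.2)

theorem Str.band (hμ : ∀ i j, i ≠ j → Y.miss i j ≤ μ) (hθ : 0 < θ) {J : ℕ} (hJ : 0 < J) (t : Fin 4) :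
    ∃ r, θ ≤ r ∧ r ≤ 2 * θ ∧ ∀ i, i ≠ t →
      θ * J * N X Y.P i (fun _ x => r ≤ Y.mu t x ∧ Y.mu t x < r + θ / J) ≤ 3 * μ := by
  obtain ⟨i, j, k, a1, a2, a3, -, -, -, a7⟩ := ex_three t
  have hJ' : (0 : ℝ) < J := by exact_mod_cast hJ
  have hδ : 0 < θ / J := by positivity
  let F : Fin 4 → ℕ → ℝ := fun i n => N X Y.P i fun _ x =>
    θ + n * (θ / J) ≤ Y.mu t x ∧ Y.mu t x < θ + n * (θ / J) + θ / J
  have key : ∀ i, t ≠ i → θ * ∑ n ∈ range J, F i n ≤ μ := fun i hi =>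
    (mul_le_mul_of_nonneg_left (N_sum_disj _ _ (fun _ x => θ ≤ Y.mu t x)
      (fun n _ _ s => le_trans (by nlinarith [n.cast_nonneg (α := ℝ)]) s.1) fun n n' _ _ s s' => by
        have b1 : (n : ℝ) < n' + 1 := lt_of_mul_lt_mul_right (by linarith [s.1, s'.2]) hδ.le
        have b2 : (n' : ℝ) < n + 1 := lt_of_mul_lt_mul_right (by linarith [s'.1, s.2]) hδ.le
        have b3 : n < n' + 1 := by exact_mod_cast b1
        have b4 : n' < n + 1 := by exact_mod_cast b2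
        omega) hθ.le).trans (Y.mu_markov.trans (hμ _ _ hi.symm))
  obtain ⟨n, hn, h⟩ := exists_le_of_sum_le (s := range J) ⟨0, mem_range.2 hJ⟩
    (f := fun n => θ * J * (F i n + F j n + F k n)) (g := fun _ => 3 * μ) (by
      rw [← mul_sum, sum_add_distrib, sum_add_distrib, sum_const, card_range, nsmul_eq_mul]
      nlinarith [key i a1, key j a2, key k a3])
  have hn' : (n : ℝ) ≤ J := by exact_mod_cast (mem_range.1 hn).le
  refine ⟨θ + n * (θ / J), by nlinarith [n.cast_nonneg (α := ℝ)], ?_, fun u hu => ?_⟩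
  · have : (J : ℝ) * (θ / J) = θ := by field_simp
    nlinarith
  have p : ∀ i, 0 ≤ θ * J * F i n := fun i => mul_nonneg (by positivity) N_nonneg
  change θ * J * F u n ≤ _
  have p1 := p i
  have p2 := p j
  have p3 := p k
  rcases a7 u hu with rfl | rfl | rfl <;> linarith

theorem Str.typ (hm : X.Mix lam) (h1 : i ≠ j) (h2 : i ≠ t) (h3 : j ≠ t) (S : Pt V → V → Prop) :
    |NS X Y.P i (fun C x => S x (C j)) (fun C x => Y.gam t x (C j)) -
      NS X Y.P i (fun C x => S x (C j)) (fun _ x => Y.mu t x)| ≤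
      lam * (N X Y.P i (fun C x => S x (C j)) + Y.miss i t) := by
  have a := mixV (P := Y.P) hm h1 h2 h3 S fun x c => ¬ Y.has x c
  rw [avgE S fun C x => ¬ Y.has x (C t)] at a
  refine le_of_eq_of_le ?_ a
  congr 2 <;> refine sum_congr rfl fun x _ => sum_congr rfl fun C _ => ?_ <;>
    exact if_ctx_congr Iff.rfl (fun c => by simp [Str.gam, Str.mu, c.1]) fun _ => rfl

variable (hm : X.Mix lam) (h0 : 0 ≤ lam) (hl : lam ≤ 1 / 10000)
  (hμ : ∀ i j, i ≠ j → Y.miss i j ≤ μ) (ho : ∀ i j k, i ≠ j → i ≠ k → j ≠ k → Y.opn i j k ≤ m)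
  (hθ : 0 < θ) (hθ' : θ ≤ 1 / 20) (hδ : 0 < δ) (hlδ : 6 * lam ≤ δ)
  (hth : ∀ t, θ ≤ th t ∧ th t ≤ 2 * θ ∧ ∀ i, i ≠ t →
    N X Y.P i (fun _ x => th t ≤ Y.mu t x ∧ Y.mu t x < th t + δ) ≤ β)
  (hβ1 : lam * μ ≤ δ * β) (hβ2 : m ≤ δ * β) (hβ3 : m ≤ β) (hβ4 : lam * μ ≤ θ * β)

include hm h0 hμ hδ hlδ hβ1 in
theorem Str.typ_up (h1 : i ≠ j) (h2 : i ≠ t) (h3 : j ≠ t) :
    N X Y.P i (fun C x => Y.mu t x + δ / 3 ≤ Y.gam t x (C j)) ≤ 6 * β := by
  have a := (abs_le.1 (Y.typ hm h1 h2 h3 fun x b => Y.mu t x + δ / 3 ≤ Y.gam t x b)).2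
  have b := NS_le (X := X) (P := Y.P) (i := i) (A := fun C x => Y.mu t x + δ / 3 ≤ Y.gam t x (C j))
    (f := fun _ x => Y.mu t x) (g := fun C x => Y.gam t x (C j)) (τ := -(δ / 3))
    fun _ _ _ _ _ s => by linarith
  have n := N_nonneg (X := X) (P := Y.P) (i := i) (A := fun C x => Y.mu t x + δ / 3 ≤ Y.gam t x (C j))
  refine le_of_mul_le_mul_left ?_ hδ
  nlinarith [mul_le_mul_of_nonneg_left (hμ _ _ h2) h0, mul_le_mul_of_nonneg_right hlδ n]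

include hm h0 hμ hδ hlδ hβ1 in
theorem Str.typ_dn (h1 : i ≠ j) (h2 : i ≠ t) (h3 : j ≠ t) :
    N X Y.P i (fun C x => Y.gam t x (C j) + δ / 3 ≤ Y.mu t x) ≤ 6 * β := by
  have a := (abs_le.1 (Y.typ hm h1 h2 h3 fun x b => Y.gam t x b + δ / 3 ≤ Y.mu t x)).1
  have b := NS_le (X := X) (P := Y.P) (i := i) (A := fun C x => Y.gam t x (C j) + δ / 3 ≤ Y.mu t x)
    (g := fun _ x => Y.mu t x) (f := fun C x => Y.gam t x (C j)) (τ := -(δ / 3))
    fun _ _ _ _ _ s => by linarith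
  have n := N_nonneg (X := X) (P := Y.P) (i := i) (A := fun C x => Y.gam t x (C j) + δ / 3 ≤ Y.mu t x)
  refine le_of_mul_le_mul_left ?_ hδ
  nlinarith [mul_le_mul_of_nonneg_left (hμ _ _ h2) h0, mul_le_mul_of_nonneg_right hlδ n]

include hm h0 hμ ho hδ hlδ hth hβ1 hβ2 in
theorem Str.bd (h1 : i ≠ j) (h2 : i ≠ t) (h3 : j ≠ t) :
    N X Y.P i (fun C x => ¬ Y.A th t x ∧ Y.nb (Y.A th t) x (C j)) ≤ 16 * β := by
  have a1 := (Y.N_nb (i := i) _).trans ((hth t).2.2 j h3)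
  have a2 := Str.typ_up hm h0 hμ hδ hlδ hβ1 h1 h2 h3
  have a3 := (Y.N_nb (i := i) _).trans (Str.typ_dn hm h0 hμ hδ hlδ hβ1 h1.symm h3 h2)
  let T : Pt V → V → Cham V → Prop := fun x b D => Y.has x b ∧ Y.has x (D t) ∧ ¬ Y.cl x b (D t)
  have a4 := (mkE (X := X) (P := Y.P) (i := i) (j := j) (τ := δ / 3)
    (fun x b => δ / 3 ≤ pr (X.star {x.1, b}) (T x b)) T fun _ _ _ _ _ s => s).trans
    ((N_mono fun _ _ _ _ _ s => s.2).trans (ho i j t h1 h2 h3))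
  have a5 : N X Y.P i (fun C x => δ / 3 ≤ pr (X.star {x.1, C j}) (T x (C j))) ≤ 3 * β :=
    le_of_mul_le_mul_left (by linarith) hδ
  refine (N_or fun C hC x _ e ⟨s, y, g, c1, c2, c3⟩ => ?_).trans ((add_le_add
    ((N_or fun _ _ _ _ _ s => s).trans (add_le_add a1 a2))
    ((N_or fun _ _ _ _ _ s => s).trans (add_le_add a3 a5))).trans_eq (by ring))
  have s' : Y.mu t x < th t := not_le.1 fun u => s ⟨by rwa [e, X.col_ch C hC], u⟩
  have d : Y.gam t y (C i) ≤ Y.gam t x (C j) + pr (X.star {x.1, C j}) (T x (C j)) := by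
    rw [Str.gam, Str.gam, c1, ← e, pair_comm]
    refine pr_or fun D _ u => (em (Y.has x (D t))).symm.imp id fun v =>
      ⟨⟨y, g, c1, c2, trivial⟩, v, fun r => u ((c1 ▸ r).move c2).symm.has⟩
  by_contra hc
  simp only [not_or, not_le] at hc
  have b1 : ¬ Y.mu t y < th t + δ := fun u => hc.1.1 ⟨y, g, c1, c2, c3.2, u⟩
  have b2 : ¬ Y.gam t y (C i) + δ / 3 ≤ Y.mu t y := fun u => hc.2.1 ⟨y, g, c1, c2, u⟩
  linarith [hc.1.2, hc.2.2]

include hμ hθ hth in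
theorem Str.A_le (i t : Fin 4) : θ * N X Y.P i (fun _ x => Y.A th t x) ≤ μ := by
  by_cases h : i = t
  · rw [N_false fun C hC x _ e s => s.1 (by rw [e, X.col_ch C hC, h]), mul_zero]
    exact N_nonneg.trans (hμ 0 1 (by decide))
  exact (mul_le_mul_of_nonneg_left (N_mono fun _ _ _ _ _ s => (hth t).1.trans s.2) hθ.le).trans
    (Y.mu_markov.trans (hμ _ _ h))

include hμ hθ hth in
theorem Str.D_le (i : Fin 4) : θ * N X Y.P i (fun _ x => Y.D th x) ≤ 10 * μ := by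
  obtain ⟨j, k, l, -, -, -, -, -, -, a7⟩ := ex_three i
  have key : ∀ j, θ * N X Y.P i (fun _ x => 1 / 2 ≤ Y.q th i j x) ≤ 2 * μ := fun j => by
    have := (mkV (X := X) (P := Y.P) (i := i) (fun x => 1 / 2 ≤ Y.q th i j x)
      (fun x D => Y.nb (Y.A th i) x (D j)) fun _ _ _ s => s).trans
      ((N_mono fun _ _ _ _ _ s => s.2).trans (Y.N_nb fun _ => Y.A th i))
    nlinarith [Str.A_le hμ hθ hth j i]
  have a1 : N X Y.P i (fun _ x => Y.A' th x) ≤ _ := (N_or fun C hC x _ e ⟨u, _, _, b1, _, b2, _⟩ => by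
    rw [e, X.col_ch C hC] at b1 b2
    rcases a7 u b1 with rfl | rfl | rfl
    exacts [Or.inl b2, Or.inr (Or.inl b2), Or.inr (Or.inr b2)]).trans (add_le_add_right
      (N_or (B := fun _ x => 1 / 2 ≤ Y.q th i k x) (A' := fun _ x => 1 / 2 ≤ Y.q th i l x)
        fun _ _ _ _ _ s => s) (N X Y.P i fun _ x => 1 / 2 ≤ Y.q th i j x))
  have a2 : N X Y.P i (fun _ x => ∃ t, Y.A th t x) ≤ _ := (N_or fun C hC x _ e ⟨u, b⟩ => by
    rcases a7 u (fun v => b.1 (by rw [e, X.col_ch C hC, v])) with rfl | rfl | rfl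
    exacts [Or.inl b, Or.inr (Or.inl b), Or.inr (Or.inr b)]).trans (add_le_add_right
      (N_or (B := fun _ x => Y.A th k x) (A' := fun _ x => Y.A th l x)
        fun _ _ _ _ _ s => s) (N X Y.P i fun _ x => Y.A th j x))
  have a3 : N X Y.P i (fun _ x => Y.D th x) ≤ _ := (N_or fun _ _ _ _ _ s => s).trans (add_le_add a2 a1)
  nlinarith [key j, key k, key l, Str.A_le hμ hθ hth i j, Str.A_le hμ hθ hth i k, Str.A_le hμ hθ hth i l,
    mul_le_mul_of_nonneg_left a3 hθ.le, (N_nonneg.trans (hμ 0 1 (by decide)) : 0 ≤ μ)]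

include hm h0 hμ ho hδ hlδ hth hβ1 hβ2 hβ3 in
theorem Str.cross (h1 : i ≠ j) (h2 : i ≠ k) (h3 : j ≠ k) : N X Y.P i (fun C x =>
    Y.nb (Y.A th i) x (C j) ∧ Y.nb (fun z => ¬ Y.A th i z) x (C k)) ≤ 17 * β := by
  have a := (Y.N_nb (i := i) _).trans (Str.bd hm h0 hμ ho hδ hlδ hth hβ1 hβ2 h3.symm h2.symm h1.symm)
  refine (N_or fun C _ x _ _ ⟨⟨y, g, c1, c2, c3⟩, z, h, c4, c5, c6⟩ => ?_).trans
    ((add_le_add (ho i j k h1 h2 h3) a).trans (by linarith))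
  by_cases u : Y.cl x (C j) (C k)
  · exact Or.inr ⟨z, h, c4, c5, c6, y, _, c1, (show Y.cl x z.1 y.1 from c1 ▸ c4 ▸ u.symm).edge c5 c2, c3⟩
  · exact Or.inl ⟨⟨y, g, c1, c2, trivial⟩, ⟨z, h, c4, c5, trivial⟩, u⟩

include hm h0 hl hμ ho hθ hθ' hδ hlδ hth hβ1 hβ2 hβ3 hβ4

theorem Str.caseB (h1 : i ≠ j) (h2 : i ≠ k) (h3 : j ≠ k) : N X Y.P i (fun C x =>
    (¬ Y.D th x ∧ Y.q th i k x < 1 / 2) ∧ Y.nb (Y.A th i) x (C j)) ≤ 50 * β := by
  have or1 : ∀ x c, ¬ Y.nb (fun z => ¬ Y.A th i z) x c → ¬ Y.has x c ∨ Y.nb (Y.A th i) x c :=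
    fun x c s => (em (Y.has x c)).symm.imp id fun ⟨y, g, c1, c2, _⟩ =>
      ⟨y, g, c1, c2, not_not.1 fun u => s ⟨y, g, c1, c2, u⟩⟩
  have a1 := upV (P := Y.P) (τ := 6 / 10) hm h1 h2 h3
    (fun x b => (¬ Y.D th x ∧ Y.q th i k x < 1 / 2) ∧ Y.nb (Y.A th i) x b)
    (fun x c => ¬ Y.nb (fun z => ¬ Y.A th i z) x c) fun C hC x _ e s => by
      have b1 : Y.mu k x < th k := not_le.1 fun u =>
        s.1.1 (Or.inl ⟨k, by rwa [e, X.col_ch C hC], u⟩)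
      have b2 : _ ≤ Y.mu k x + Y.q th i k x := pr_or fun D _ => or1 x (D k)
      linarith [(hth k).2.1, s.1.2]
  have a2 : N X Y.P i (fun C x => ¬ Y.nb (fun z => ¬ Y.A th i z) x (C k)) ≤ _ :=
    (N_or fun C _ x _ _ => or1 x (C k)).trans (add_le_add (hμ i k h2) (Y.N_nb fun _ => Y.A th i))
  have a3 := Str.A_le hμ hθ hth k i
  have a4 := Str.cross hm h0 hμ ho hδ hlδ hth hβ1 hβ2 hβ3 h1 h2 h3
  have a5 := (N_or fun C _ x _ _ s => (em (Y.nb (fun z => ¬ Y.A th i z) x (C k))).imp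
    (fun t => ⟨s.2, t⟩) fun t => ⟨s, t⟩).trans (add_le_add a4 a1)
  have n := N_nonneg (X := X) (P := Y.P) (i := i) (A := fun C x =>
    (¬ Y.D th x ∧ Y.q th i k x < 1 / 2) ∧ Y.nb (Y.A th i) x (C j))
  have hμ0 : 0 ≤ μ := N_nonneg.trans (hμ 0 1 (by decide))
  have b1 : lam * N X Y.P k (fun _ x => Y.A th i x) ≤ β :=
    le_of_mul_le_mul_left (by nlinarith [mul_le_mul_of_nonneg_left a3 h0]) hθ
  have b2 : 0 ≤ β := (mul_nonneg h0 N_nonneg).trans b1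
  nlinarith [mul_le_mul_of_nonneg_right hl n, mul_le_mul_of_nonneg_left a2 h0,
    mul_le_mul_of_nonneg_right hθ' b2]

omit hθ' in
theorem Str.caseC (h1 : i ≠ j) (h2 : i ≠ k) (h3 : j ≠ k) : N X Y.P i (fun C x =>
    1 / 2 ≤ Y.q th i j x ∧ Y.nb (fun z => ¬ Y.A th i z) x (C k)) ≤ 50 * β := by
  have a1 := loV (P := Y.P) (τ := 1 / 2) hm h2 h1 h3.symm
    (fun x c => 1 / 2 ≤ Y.q th i j x ∧ Y.nb (fun z => ¬ Y.A th i z) x c)
    (fun x b => Y.nb (Y.A th i) x b) fun _ _ _ _ _ s => s.1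
  have a2 := Y.N_nb (i := i) (j := j) fun _ => Y.A th i
  have a3 := Str.A_le hμ hθ hth j i
  have a4 := (N_mono fun C _ x _ _ (s : (1 / 2 ≤ Y.q th i j x ∧ Y.nb (fun z => ¬ Y.A th i z) x (C k)) ∧
    Y.nb (Y.A th i) x (C j)) => ⟨s.2, s.1.2⟩).trans
    (Str.cross hm h0 hμ ho hδ hlδ hth hβ1 hβ2 hβ3 h1 h2 h3)
  have n := N_nonneg (X := X) (P := Y.P) (i := i) (A := fun C x =>
    1 / 2 ≤ Y.q th i j x ∧ Y.nb (fun z => ¬ Y.A th i z) x (C k))
  have b1 : lam * N X Y.P j (fun _ x => Y.A th i x) ≤ β :=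
    le_of_mul_le_mul_left (by nlinarith [mul_le_mul_of_nonneg_left a3 h0]) hθ
  have b2 : 0 ≤ β := (mul_nonneg h0 N_nonneg).trans b1
  nlinarith [mul_le_mul_of_nonneg_right hl n, mul_le_mul_of_nonneg_left a2 h0]

theorem Str.extra (h1 : i ≠ j) : N X Y.P i (fun C x => ¬ Y.D th x ∧ Y.nb (Y.D th) x (C j)) ≤
    232 * β := by
  obtain ⟨k, l, a1, a2, a3, a4, a5, a6⟩ := ex_others i j h1
  have b1 := Str.bd hm h0 hμ ho hδ hlδ hth hβ1 hβ2 h1 a1 a3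
  have b2 := Str.bd hm h0 hμ ho hδ hlδ hth hβ1 hβ2 h1 a2 a4
  have b3 := Str.caseB hm h0 hl hμ ho hθ hθ' hδ hlδ hth hβ1 hβ2 hβ3 hβ4 h1 a1 a3
  have b4 := Str.caseB hm h0 hl hμ ho hθ hθ' hδ hlδ hth hβ1 hβ2 hβ3 hβ4 h1 a2 a4
  have b5 := (Y.N_nb (i := i) _).trans
    (Str.caseC hm h0 hl hμ ho hθ hδ hlδ hth hβ1 hβ2 hβ3 hβ4 a3 h1.symm a1.symm)
  have b6 := (Y.N_nb (i := i) _).trans
    (Str.caseC hm h0 hl hμ ho hθ hδ hlδ hth hβ1 hβ2 hβ3 hβ4 a4 h1.symm a2.symm)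
  refine (N_or fun C hC x _ e ⟨s, y, g, c1, c2, c3⟩ => ?_).trans ((add_le_add
    ((N_or fun _ _ _ _ _ s => s).trans (add_le_add b1 b2)) ((N_or fun _ _ _ _ _ s => s).trans
    (add_le_add ((N_or fun _ _ _ _ _ s => s).trans (add_le_add b3 b4))
      ((N_or fun _ _ _ _ _ s => s).trans (add_le_add b5 b6))))).trans_eq (by ring))
  have cx : X.col x.1 = i := e ▸ X.col_ch C hC i
  have cy : X.col y.1 = j := c1 ▸ X.col_ch C hC j
  have nA : ∀ t, ¬ Y.A th t x := fun t u => s (Or.inl ⟨t, u⟩)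
  rcases c3 with ⟨t, c3⟩ | ⟨u, u', d1, d2, d3, d4, d5⟩
  · by_cases ht : t = i
    · subst ht
      refine Or.inr (Or.inl ?_)
      by_contra hc
      simp only [not_or, not_and] at hc
      refine s (Or.inr ⟨k, l, a5, cx ▸ a1.symm, cx ▸ a2.symm, ?_, ?_⟩) <;> rw [cx] <;> by_contra hd
      · exact hc.1 ⟨s, not_le.1 hd⟩ ⟨y, g, c1, c2, c3⟩
      · exact hc.2 ⟨s, not_le.1 hd⟩ ⟨y, g, c1, c2, c3⟩
    rcases a6 t ht (fun v => c3.1 (cy.trans v.symm)) with rfl | rfl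
    exacts [Or.inl (Or.inl ⟨nA _, y, g, c1, c2, c3⟩), Or.inl (Or.inr ⟨nA _, y, g, c1, c2, c3⟩)]
  · rw [cy] at d2 d3 d4 d5
    have key : ∀ u, u ≠ i → u ≠ j → 1 / 2 ≤ Y.q th j u y → _ := fun u v1 v2 v3 =>
      (a6 u v1 v2).imp (fun r : u = k => (⟨y, g, c1, c2, r ▸ v3, x, _, e, Y.symm c2, nA j⟩ : Y.nb (fun y =>
        1 / 2 ≤ Y.q th j k y ∧ Y.nb (fun z => ¬ Y.A th j z) y (C i)) x (C j)))
        fun r : u = l => (⟨y, g, c1, c2, r ▸ v3, x, _, e, Y.symm c2, nA j⟩ : Y.nb (fun y =>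
        1 / 2 ≤ Y.q th j l y ∧ Y.nb (fun z => ¬ Y.A th j z) y (C i)) x (C j))
    by_cases v : u = i
    · exact Or.inr (Or.inr (key u' (fun r => d1 (v.trans r.symm)) d3 d5))
    · exact Or.inr (Or.inr (key u v d2 d4))

theorem Str.prune' : ∃ Z : Str Λ, (∀ i j, i ≠ j → θ * (Y.lost Z i j + Y.new Z i) ≤ 20 * μ) ∧
    (∀ i j k, i ≠ j → i ≠ k → j ≠ k → Z.opn i j k ≤ m) ∧
    (∀ i j, i ≠ j → Z.miss i j ≤ μ + 232 * β) ∧
    ∀ i j k, i ≠ j → i ≠ k → j ≠ k → Z.dbl i j k ≤ 2 * (θ * μ) + 2 * (lam * μ) + 464 * β := by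
  have ex := fun i j => Str.extra (i := i) (j := j) hm h0 hl hμ ho hθ hθ' hδ hlδ hth hβ1 hβ2 hβ3 hβ4
  have ms : ∀ x b, ¬ Y.D th x → ¬ (Y.cut fun x => ¬ Y.D th x).has x b →
      ¬ Y.has x b ∨ (¬ Y.D th x ∧ Y.nb (Y.D th) x b) := fun x b s t =>
    (em (Y.has x b)).symm.imp id fun ⟨y, g, c1, c2, _⟩ =>
      ⟨s, y, g, c1, c2, not_not.1 fun u => t ⟨y, g, c1, ⟨c2, s, u⟩, trivial⟩⟩
  refine ⟨Y.cut fun x => ¬ Y.D th x, fun i j _ => ?_, fun i j k h1 h2 h3 => ?_, fun i j h1 => ?_,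
    fun i j k h1 h2 h3 => ?_⟩
  · have a0 : Y.new (Y.cut fun x => ¬ Y.D th x) i = 0 :=
      N_false fun _ _ x hx _ e => e (Y.mem_cut.1 hx).1
    have a1 : Y.lost (Y.cut fun x => ¬ Y.D th x) i j ≤ _ := (N_or fun C _ x _ _ ⟨y, g, c1, c2, c3⟩ =>
      (em (Y.D th x)).imp id fun s => ⟨y, g, c1, c2, not_not.1 fun u => c3 ⟨c2, s, u⟩⟩).trans
      (add_le_add_right (Y.N_nb fun _ => Y.D th) (N X Y.P i fun _ x => Y.D th x))
    nlinarith [Str.D_le hμ hθ hth i, Str.D_le hμ hθ hth j, mul_le_mul_of_nonneg_left a1 hθ.le]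
  · refine (N_mono' fun C _ x hx _ ⟨⟨y, g, c1, c2, _⟩, ⟨z, h, c3, c4, _⟩, t⟩ => ?_).trans (ho i j k h1 h2 h3)
    exact ⟨(Y.mem_cut.1 hx).1, ⟨y, g, c1, c2.1, trivial⟩, ⟨z, h, c3, c4.1, trivial⟩, fun u => t
      ⟨y, z, g, h, c1, c3, c2, c4, (show Y.cl x y.1 z.1 from c1 ▸ c3 ▸ u).edge c2.1 c4.1,
        c2.2.2, c4.2.2⟩⟩
  · exact (N_or' fun C _ x hx _ t => (ms x _ (Y.mem_cut.1 hx).2 t).imp
      (fun u => ⟨(Y.mem_cut.1 hx).1, u⟩) fun u => ⟨(Y.mem_cut.1 hx).1, u⟩).trans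
      (add_le_add (hμ i j h1) (ex i j h1))
  · have a1 := upV (P := Y.P) (τ := 2 * θ) hm h1 h2 h3 (fun x b => ¬ Y.D th x ∧ ¬ Y.has x b)
      (fun x c => ¬ Y.has x c) fun C hC x _ e s => (not_le.1 fun u =>
        s.1 (Or.inl ⟨k, by rwa [e, X.col_ch C hC], u⟩)).le.trans (hth k).2.1
    have a2 : N X Y.P i (fun C x => ¬ Y.D th x ∧ ¬ Y.has x (C j)) ≤ μ :=
      (N_mono fun _ _ _ _ _ s => s.2).trans (hμ i j h1)
    have a3 : (Y.cut fun x => ¬ Y.D th x).dbl i j k ≤ _ := (N_or' fun C _ x hx _ t => by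
      have hx' := Y.mem_cut.1 hx
      rcases ms x _ hx'.2 t.1 with u | u
      · rcases ms x _ hx'.2 t.2 with v | v
        exacts [Or.inl ⟨hx'.1, ⟨hx'.2, u⟩, v⟩, Or.inr ⟨hx'.1, Or.inr v⟩]
      · exact Or.inr ⟨hx'.1, Or.inl u⟩).trans (add_le_add a1
        ((N_or fun _ _ _ _ _ s => s).trans (add_le_add (ex i j h1) (ex i k h2))))
    have a4 : N X Y.P i (fun C x => ¬ Y.has x (C k)) ≤ μ := hμ i k h2
    nlinarith [mul_le_mul_of_nonneg_left a2 h0, mul_le_mul_of_nonneg_left a2 hθ.le,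
      mul_le_mul_of_nonneg_left a4 h0]

end Pool.Agent.Lib.MP_b138e1_al
end

-- part Pool.Agent.Lib.MP_b138e1_al.Core
section

/-! The local-to-global theorem: every labelled cover with defect is close to a true cover. -/

set_option autoImplicit false

namespace Pool.Agent.Lib.MP_b138e1_al

open scoped Classical
open Finset

variable {V : Type} [Fintype V] {X : Cx V} {G : Type} [Group G] {Λ : Labels X G}

/-- the expansion constant that suffices for cones of radius `R` -/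
noncomputable def lam0 (R : ℕ) : ℝ := 1 / (10 ^ 62 * (3 * R + 1) ^ 4)

theorem lam0_pos (R : ℕ) : 0 < lam0 R := by unfold lam0; positivity

theorem improve {R : ℕ} (hm : X.Mix (lam0 R)) (ht : X.LinkTransitive) (hc : X.Cone R) (Y : Str Λ)
    (hW : 0 < Y.w) : ∃ Y' : Str Λ, Y'.w < Y.w ∧ Y.d Y' ≤ 10 ^ 24 * (3 * R + 1) * (Y.w - Y'.w) := by
  set r : ℝ := 3 * R + 1 with hr
  have r1 : 1 ≤ r := by rw [hr]; linarith [R.cast_nonneg (α := ℝ)]
  rcases Y.edgeMin_or with hE | ⟨Y', h1, h2⟩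
  swap
  · exact ⟨Y', h1, h2.trans (by gcongr; linarith)⟩
  obtain ⟨u, u0, u1, ur⟩ : ∃ u : ℝ, 0 < u ∧ u ≤ 1 ∧ r * u = 1 :=
    ⟨1 / r, by positivity, by rw [div_le_one (by positivity)]; exact r1, by field_simp⟩
  have el : lam0 R = u ^ 4 / 10 ^ 62 := by
    rw [lam0, ← hr, eq_one_div_of_mul_eq_one_right ur]
    field_simp
  rw [el] at hm
  set W := Y.w with hWd
  have p2 : u ^ 2 ≤ u := by nlinarith
  have p3 : u ^ 3 ≤ u ^ 2 := by nlinarith [pow_pos u0 2]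
  have p4 : u ^ 4 ≤ u ^ 3 := by nlinarith [pow_pos u0 3]
  have q4 : 0 < u ^ 4 := by positivity
  have w2 := mul_le_mul_of_nonneg_right p2 hW.le
  have w3 := mul_le_mul_of_nonneg_right p3 hW.le
  have w4 := mul_le_mul_of_nonneg_right p4 hW.le
  have w1 := mul_le_mul_of_nonneg_right u1 hW.le
  have w0 := mul_pos q4 hW
  have h0 : 0 ≤ u ^ 4 / 10 ^ 62 := by positivity
  have hl : u ^ 4 / 10 ^ 62 ≤ 1 / 10000 := by linarith
  have hμ : ∀ i j, i ≠ j → Y.trim.miss i j ≤ 1300000 * W := fun i j h => Y.trim_miss h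
  have ho : ∀ i j k, i ≠ j → i ≠ k → j ≠ k → Y.trim.opn i j k ≤ 2000000 * (u ^ 4 / 10 ^ 62 * W) :=
    fun i j k a b c => by
      obtain ⟨l, d, e, f⟩ := ex_fourth i j k a b c
      exact Y.trim_opn hm h0 hl a b d c e f hE
  have hθ : 0 < u / 10 ^ 14 := by positivity
  have hJ : ((10 ^ 31 * (3 * R + 1) ^ 2 : ℕ) : ℝ) = 10 ^ 31 * r ^ 2 := by rw [hr]; push_cast; norm_num
  choose th t1 t2 t3 using Y.trim.band hμ hθ (J := 10 ^ 31 * (3 * R + 1) ^ 2) (by positivity)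
  have eδ : u / 10 ^ 14 / (10 ^ 31 * r ^ 2) = u ^ 3 / 10 ^ 45 := by
    rw [eq_one_div_of_mul_eq_one_right ur]
    field_simp
  rw [hJ, eδ] at t3
  obtain ⟨Z, z1, z2, z3, z4⟩ := Str.prune' (β := u * W / 10 ^ 10) (δ := u ^ 3 / 10 ^ 45) (th := th)
    hm h0 hl hμ ho hθ (by linarith) (by positivity) (by linarith)
    (fun t => ⟨t1 t, t2 t, fun i hi => by
      have a := mul_le_mul_of_nonneg_left (t3 t i hi) u0.le
      have b : ∀ n, u * (u / 10 ^ 14 * (10 ^ 31 * r ^ 2) * n) = (r * u) ^ 2 * 10 ^ 17 * n :=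
        fun n => by ring
      rw [b, ur] at a
      linarith [mul_pos u0 hW]⟩)
    (by linarith) (by linarith) (by linarith) (by linarith)
  obtain ⟨Z', y1, y2⟩ := Z.fill ht hc z3 z2 z4
  rw [← hr] at y1 y2
  set e := 2 * (u / 10 ^ 14 * (1300000 * W)) + 2 * (u ^ 4 / 10 ^ 62 * (1300000 * W)) +
    464 * (u * W / 10 ^ 10) with he
  set m := 2000000 * (u ^ 4 / 10 ^ 62 * W) with hm'
  have e1 : e ≤ u * W / 2000000 := by rw [he]; linarith
  have e2 : m ≤ u * W / 2000000 := by rw [hm']; linarith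
  have e3 : r * (2 * e + 3 * m) ≤ 5 * W / 2000000 := by
    have := mul_le_mul_of_nonneg_left (show 2 * e + 3 * m ≤ 5 * (u * W) / 2000000 by linarith)
      (zero_le_one.trans r1)
    rwa [show r * (5 * (u * W) / 2000000) = r * u * (5 * W / 2000000) by ring, ur, one_mul] at this
  have f1 := Z'.w_le y2
  have f2 := Z.d_le y1
  have f3 := Y.d_le fun i j h => Y.trim_d h
  have f4 : Y.trim.d Z ≤ 24 * (r * (10 ^ 14 * 20 * (1300000 * W))) := Str.d_le fun i j h => by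
    have a := mul_le_mul_of_nonneg_left (z1 i j h) (zero_le_one.trans r1)
    have b : ∀ n, r * (u / 10 ^ 14 * n) = r * u / 10 ^ 14 * n := fun n => by ring
    rw [b, ur] at a
    linarith
  have f5 := Y.d_tri Y.trim Z'
  have f6 := Y.trim.d_tri Z Z'
  have g1 : Z'.w ≤ W / 2 := by linarith
  refine ⟨Z', by linarith, ?_⟩
  have g2 := mul_le_mul_of_nonneg_left g1 (zero_le_one.trans r1)
  have g3 := mul_le_mul_of_nonneg_right r1 hW.le
  linarith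

theorem core {R : ℕ} (hm : X.Mixing (lam0 R)) (ht : X.LinkTransitive) (hc : X.Cone R) (Y : Str Λ) :
    ∃ Y' : Str Λ, Y'.w = 0 ∧ Y.d Y' ≤ 10 ^ 24 * (3 * R + 1) * Y.w :=
  descent (improve (hm.mix (lam0_pos R).le) ht hc) Y

end Pool.Agent.Lib.MP_b138e1_al
end

-- part Pool.Agent.Lib.MP_b138e1_al.Approx
section

/-! A sofic approximation gives a labelled cover with small defect. -/

set_option autoImplicit false

namespace Pool.Agent.Lib.MP_b138e1_al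

open scoped Classical
open Finset

/-- a sofic approximation that is exact on a large set of good points -/
theorem Sofic.good {G : Type} [Group G] (hs : Sofic G) (S : Finset G) {δ : ℝ} (hδ : 0 < δ) :
    ∃ n : ℕ, 1 ≤ n ∧ ∃ (φ : G → Equiv.Perm (Fin n)) (B : Finset (Fin n)), (B.card : ℝ) ≤ δ * n ∧
      (∀ i ∉ B, ∀ g ∈ S, ∀ h ∈ S, φ (g * h) i = φ g (φ h i)) ∧
      ∀ i ∉ B, ∀ g ∈ S, g ≠ 1 → φ g i ≠ i := by
  set c : ℝ := (S.card : ℝ) with hc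
  have c0 : 0 ≤ c := Nat.cast_nonneg _
  obtain ⟨n, hn, φ, h1, h2⟩ := hs S (δ / (c * c + c + 1)) (by positivity)
  set ε := δ / (c * c + c + 1) with hε
  have ε0 : 0 < ε := by positivity
  have n0 : (0 : ℝ) < n := by exact_mod_cast hn
  refine ⟨n, hn, φ, (S ×ˢ S).biUnion (fun p => univ.filter fun i => φ (p.1 * p.2) i ≠ (φ p.1 * φ p.2) i) ∪
    S.biUnion fun g => univ.filter fun i => g ≠ 1 ∧ φ g i = i, ?_, fun i hi g hg h hh => ?_,
    fun i hi g hg e e' => hi ?_⟩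
  · have a1 : ∀ p ∈ S ×ˢ S, ((univ.filter fun i => φ (p.1 * p.2) i ≠ (φ p.1 * φ p.2) i).card : ℝ) ≤ ε * n :=
      fun p hp => by
        have := h1 _ (mem_product.1 hp).1 _ (mem_product.1 hp).2
        rw [hamming, div_lt_iff₀ n0] at this
        exact this.le
    have a2 : ∀ g ∈ S, ((univ.filter fun i => g ≠ 1 ∧ φ g i = i).card : ℝ) ≤ ε * n := fun g hg => by
      by_cases e : g = 1
      · simp only [e, ne_eq, not_true, false_and, filter_false, card_empty, Nat.cast_zero]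
        positivity
      have := h2 g hg e
      rw [hamming, lt_div_iff₀ n0] at this
      have t := card_filter_add_card_filter_not (s := (univ : Finset (Fin n))) fun i => φ g i = i
      rw [card_univ, Fintype.card_fin] at t
      have t' : ((univ.filter fun i => φ g i = i).card : ℝ) + (univ.filter fun i => ¬ φ g i = i).card = n := by
        exact_mod_cast t
      have t2 : ((univ.filter fun i => g ≠ 1 ∧ φ g i = i).card : ℝ) ≤ (univ.filter fun i => φ g i = i).card :=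
        Nat.cast_le.2 (card_le_card fun i hi => mem_filter.2 ⟨mem_univ _, (mem_filter.1 hi).2.2⟩)
      have t3 : ((univ.filter fun i => φ g i ≠ (1 : Equiv.Perm (Fin n)) i).card : ℝ) ≤
          (univ.filter fun i => ¬ φ g i = i).card :=
        Nat.cast_le.2 (card_le_card fun i hi => mem_filter.2 ⟨mem_univ _, (mem_filter.1 hi).2⟩)
      linarith [this.trans_le t3]
    have b1 := sum_le_card_nsmul _ _ _ a1
    have b2 := sum_le_card_nsmul _ _ _ a2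
    rw [nsmul_eq_mul, ← Nat.cast_sum] at b1 b2
    rw [card_product, Nat.cast_mul] at b1
    have e : δ * n = (c * c + c + 1) * (ε * n) := by rw [hε]; field_simp
    refine le_trans (Nat.cast_le.2 ((card_union_le _ _).trans (add_le_add card_biUnion_le card_biUnion_le))) ?_
    rw [Nat.cast_add, e]
    nlinarith [mul_pos ε0 n0]
  · by_contra e
    exact hi (mem_union_left _ (mem_biUnion.2 ⟨(g, h), mem_product.2 ⟨hg, hh⟩, mem_filter.2 ⟨mem_univ _, e⟩⟩))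
  · exact mem_union_right _ (mem_biUnion.2 ⟨g, hg, by simp [e, e']⟩)

variable {V : Type} [Fintype V] {X : Cx V} {G : Type} [Group G] {Λ : Labels X G}

theorem approx' (hs : Sofic G) (Z : Subgroup G) [Finite Z]
    (hu : ∀ {a b g g'}, X.Adj a b → Λ.L a b g → Λ.L a b g' → g⁻¹ * g' ∈ Z)
    (hz : ∀ {a b g z}, Λ.L a b g → z ∈ Z → Λ.L a b (g * z)) (F : Finset G) {κ₀ : ℝ} (hκ₀ : 0 ≤ κ₀) :
    ∃ (Y : Str Λ) (A : G → ℕ → ℕ → Prop), (∀ a, κ₀ * Y.w < K Y.P fun x => x.1 = a) ∧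
      (∀ x y g, Y.E x y g → A g x.2 y.2) ∧
      (∀ g ∈ F, ∀ h ∈ F, ∀ i j k, A g i j → A h j k → A (g * h) i k) ∧ ∀ g ∈ F, ∀ i, A g i i → g = 1 := by
  obtain ⟨κ, hκ'⟩ : ∃ κ : ℝ, κ = κ₀ * X.ch.card := ⟨_, rfl⟩
  have hκ : 0 ≤ κ := by rw [hκ']; positivity
  have hZ : (Z : Set G).Finite := Set.toFinite _
  have hL : {g | ∃ a b, X.Adj a b ∧ Λ.L a b g}.Finite := by
    choose f hf using fun p : {p : V × V // X.Adj p.1 p.2} => Λ.ex p.2
    refine (Set.finite_range fun p : {p : V × V // X.Adj p.1 p.2} × Z => f p.1 * p.2).subset ?_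
    rintro g ⟨a, b, h, hg⟩
    exact ⟨(⟨(a, b), h⟩, ⟨_, hu h (hf ⟨(a, b), h⟩) hg⟩), by simp⟩
  set S := hL.toFinset ∪ hZ.toFinset ∪ F with hS
  have sL : ∀ {a b g}, X.Adj a b → Λ.L a b g → g ∈ S := fun h hg => by
    simp only [hS, mem_union, Set.Finite.mem_toFinset]
    exact Or.inl (Or.inl ⟨_, _, h, hg⟩)
  have sF : ∀ {g}, g ∈ F → g ∈ S := fun h => mem_union_right _ h
  have sZ : ∀ {z}, z ∈ Z → z ∈ S := fun h => by simp [hS, h]
  have asy : ∀ {a b}, X.Adj a b → X.Adj b a := fun ⟨h, h'⟩ => ⟨h.symm, by rwa [pair_comm]⟩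
  set c : ℝ := (S.card : ℝ) with hc
  have c0 : 0 ≤ c := Nat.cast_nonneg _
  obtain ⟨n, hn, φ, B, hB, m1, m2⟩ := hs.good S (δ := 1 / (48 * κ * c * c + 2)) (by positivity)
  have one : ∀ i ∉ B, φ 1 i = i := fun i hi => by
    have := m1 i hi 1 (sZ Z.one_mem) 1 (sZ Z.one_mem)
    rw [mul_one] at this
    exact ((φ 1).injective this).symm
  have back : ∀ {i j g}, j ∉ B → g ∈ S → g⁻¹ ∈ S → φ g j = i → φ g⁻¹ i = j := fun hj hg hg' e => by
    rw [← e, ← m1 _ hj _ hg' _ hg, inv_mul_cancel, one _ hj]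
  set I := univ.filter fun i => i ∉ B ∧ ∀ j ∉ B, ∀ z ∈ Z, φ z i = j → i ≤ j with hI
  have rep : ∀ i ∉ B, ∃ j ∈ I, ∃ z ∈ Z, φ z j = i := fun i hi => by
    obtain ⟨j, hj, hm⟩ := exists_min_image (univ.filter fun j => j ∉ B ∧ ∃ z ∈ Z, φ z j = i) id
      ⟨i, by simpa using ⟨hi, 1, Z.one_mem, one i hi⟩⟩
    simp only [mem_filter, mem_univ, true_and, id] at hj hm
    obtain ⟨hj, z, z1, z2⟩ := hj
    refine ⟨j, mem_filter.2 ⟨mem_univ _, hj, fun k hk y hy e => hm k ⟨hk, z * y⁻¹, Z.mul_mem z1 (Z.inv_mem hy), ?_⟩⟩,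
      z, z1, z2⟩
    rw [m1 _ hk _ (sZ z1) _ (sZ (Z.inv_mem hy)), back hj (sZ hy) (sZ (Z.inv_mem hy)) e, z2]
  have iB : ∀ {i}, i ∈ I → i ∉ B := fun h => (mem_filter.1 h).2.1
  let Y : Str Λ :=
    { P := univ ×ˢ I.map Fin.valEmbedding
      E := fun x y g => ∃ i ∈ I, ∃ j ∈ I, x.2 = i ∧ y.2 = j ∧ X.Adj x.1 y.1 ∧ Λ.L x.1 y.1 g ∧ φ g j = i
      symm := fun ⟨i, hi, j, hj, a1, a2, a3, a4, a5⟩ =>
        ⟨j, hj, i, hi, a2, a1, asy a3, Λ.inv a4, back (iB hj) (sL a3 a4) (sL (asy a3) (Λ.inv a4)) a5⟩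
      func := fun {x y y' g g'} ⟨i, hi, j, hj, a1, a2, a3, a4, a5⟩ ⟨i', _, j', hj', b1, b2, _, b4, b5⟩ e => by
        obtain rfl : i = i' := Fin.ext (a1.symm.trans b1)
        have z1 := hu a3 a4 (e ▸ b4)
        have e1 : φ (g⁻¹ * g') j' = j := (φ g).injective (by
          rw [← m1 _ (iB hj') _ (sL a3 a4) _ (sZ z1), mul_inv_cancel_left, a5, b5])
        have e2 := back (iB hj') (sZ z1) (sZ (Z.inv_mem z1)) e1
        obtain rfl : j = j' := le_antisymm ((mem_filter.1 hj).2.2 _ (iB hj') _ (Z.inv_mem z1) e2)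
          ((mem_filter.1 hj').2.2 _ (iB hj) _ z1 e1)
        refine ⟨Prod.ext e (a2.trans b2.symm), ?_⟩
        by_contra ne
        exact m2 _ (iB hj) _ (sZ z1) (fun h => ne (inv_mul_eq_one.1 h)) e1
      mem := fun ⟨i, hi, _, _, a1, _⟩ => mem_product.2 ⟨mem_univ _, mem_map.2 ⟨i, hi, a1.symm⟩⟩
      lab := fun ⟨_, _, _, _, _, _, _, a4, _⟩ => a4 }
  set B' := S.biUnion fun g => B.image (φ g) with hB'
  have cB' : (B'.card : ℝ) ≤ c * B.card := by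
    rw [hc, ← Nat.cast_mul, Nat.cast_le]
    exact card_biUnion_le_card_mul _ _ _ fun g _ => card_image_le
  have nb : ∀ a b, X.Adj a b → ∀ i ∈ I, i ∉ B' → ∃ j ∈ I, ∃ g, Λ.L a b g ∧ φ g j = i := by
    intro a b h i _ hi
    obtain ⟨g, hg⟩ := Λ.ex h
    obtain ⟨j, hj, z, z1, z2⟩ := rep ((φ g).symm i) fun e =>
      hi (mem_biUnion.2 ⟨g, sL h hg, mem_image.2 ⟨_, e, by simp⟩⟩)
    exact ⟨j, hj, g * z, hz hg z1, by rw [m1 _ (iB hj) _ (sL h hg) _ (sZ z1), z2]; simp⟩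
  have hw : Y.w ≤ 24 * (X.ch.card * B'.card) := Str.w_le fun i j k h1 h2 h3 => by
    rw [Str.nc, N_eq, ← nsmul_eq_mul]
    refine sum_le_card_nsmul _ _ _ fun C hC => ?_
    rw [K, Nat.cast_le, ← card_map Fin.valEmbedding (s := B')]
    refine card_le_card_of_injOn Prod.snd (fun x hx => ?_) fun x hx y hy e => Prod.ext ?_ e
    · simp only [coe_filter, Set.mem_ofPred_eq] at hx
      obtain ⟨x1, x2, x3⟩ := hx
      obtain ⟨t, ht, e⟩ := mem_map.1 (mem_product.1 x1).2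
      refine mem_coe.2 (mem_map.2 ⟨t, ?_, e⟩)
      by_contra hb
      obtain ⟨p, hp, g, g1, g2⟩ := nb _ _ (adj_ch hC h1) t ht hb
      obtain ⟨q, hq, h, q1, q2⟩ := nb _ _ (adj_ch hC h2) t ht hb
      refine x3 ⟨(C j, p), (C k, q), g, h, rfl, rfl, ⟨t, ht, p, hp, e.symm, rfl, x2 ▸ adj_ch hC h1, x2 ▸ g1, g2⟩,
        ⟨t, ht, q, hq, e.symm, rfl, x2 ▸ adj_ch hC h2, x2 ▸ q1, q2⟩, p, hp, q, hq, rfl, rfl, adj_ch hC h3,
        Λ.mul (tri_ch hC h1.symm h3 h2) (Λ.inv g1) q1, ?_⟩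
      have s1 := sL (adj_ch hC h1.symm) (Λ.inv g1)
      rw [m1 _ (iB hq) _ s1 _ (sL (adj_ch hC h2) q1), q2, back (iB hp) (sL (adj_ch hC h1) g1) s1 g2]
    · simp only [coe_filter, Set.mem_ofPred_eq] at hx hy
      exact hx.2.1.trans hy.2.1.symm
  have hN : ∀ a, (I.card : ℝ) ≤ K Y.P fun x => x.1 = a := fun a => by
    rw [K, Nat.cast_le]
    refine card_le_card_of_injOn (fun i => (a, i.1)) (fun i hi => ?_) fun i _ j _ e => Fin.ext (Prod.ext_iff.1 e).2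
    simp only [coe_filter, Set.mem_ofPred_eq]
    exact ⟨mem_product.2 ⟨mem_univ _, mem_map.2 ⟨i, hi, rfl⟩⟩, trivial⟩
  have hI' : (n : ℝ) ≤ B.card + c * I.card := by
    have : (univ : Finset (Fin n)) ⊆ B ∪ S.biUnion fun g => I.image (φ g) := fun i _ => by
      by_cases e : i ∈ B
      · exact mem_union_left _ e
      obtain ⟨j, hj, z, z1, z2⟩ := rep i e
      exact mem_union_right _ (mem_biUnion.2 ⟨z, sZ z1, mem_image.2 ⟨j, hj, z2⟩⟩)
    have := (card_le_card this).trans ((card_union_le _ _).trans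
      (add_le_add le_rfl (card_biUnion_le_card_mul _ _ I.card fun g _ => card_image_le)))
    rw [card_univ, Fintype.card_fin] at this
    rw [hc]
    exact_mod_cast this
  refine ⟨Y, fun g i j => ∃ i' j' : Fin n, j' ∉ B ∧ i = i' ∧ j = j' ∧ φ g j' = i', fun a => lt_of_lt_of_le ?_ (hN a),
    ?_, ?_, ?_⟩
  rotate_left
  · rintro x y g ⟨i, _, j, hj, a1, a2, _, _, a5⟩
    exact ⟨i, j, iB hj, a1, a2, a5⟩
  · rintro g hg h hh i j k ⟨i', j', _, a2, a3, a4⟩ ⟨j'', k', b1, b2, b3, b4⟩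
    exact ⟨i', k', b1, a2, b3, by
      rw [m1 _ b1 _ (sF hg) _ (sF hh), b4, show j'' = j' from Fin.ext (b2.symm.trans a3), a4]⟩
  · rintro g hg i ⟨i', j', a1, a2, a3, a4⟩
    by_contra ne
    exact m2 _ a1 _ (sF hg) ne (a4.trans (Fin.ext (a2.symm.trans a3)))
  have c1 : 1 ≤ c := by rw [hc]; exact_mod_cast card_pos.2 ⟨1, sZ Z.one_mem⟩
  have n0 : (0 : ℝ) < n := by exact_mod_cast hn
  rw [one_div, ← div_eq_inv_mul, le_div_iff₀ (by positivity)] at hB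
  have b0 : (0 : ℝ) ≤ B.card := Nat.cast_nonneg _
  have k1 : c * (24 * κ * (c * B.card)) < c * I.card := by linarith
  have k2 := lt_of_mul_lt_mul_left k1 c0
  have k3 : κ₀ * Y.w ≤ 24 * κ * (c * B.card) := by
    calc κ₀ * Y.w ≤ κ₀ * (24 * (X.ch.card * (c * B.card))) := by
          refine mul_le_mul_of_nonneg_left (hw.trans ?_) hκ₀
          gcongr
      _ = _ := by rw [hκ']; ring
  exact k3.trans_lt k2

omit [Fintype V] in
theorem K_le_N {P : Finset (Pt V)} {i : Fin 4} {A : Cham V → Pt V → Prop} {C : Cham V} (hC : C ∈ X.ch) :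
    (K P fun x => x.1 = C i ∧ A C x) ≤ N X P i A := by
  rw [N_eq]
  exact single_le_sum (f := fun C : Cham V => K P fun x => x.1 = C i ∧ A C x) (fun _ _ => K_nonneg) hC

theorem approx (hs : Sofic G) (Z : Subgroup G) [Finite Z]
    (hu : ∀ {a b g g'}, X.Adj a b → Λ.L a b g → Λ.L a b g' → g⁻¹ * g' ∈ Z)
    (hz : ∀ {a b g z}, Λ.L a b g → z ∈ Z → Λ.L a b (g * z)) (hch : X.ch.Nonempty) {κ : ℝ} (hκ : 0 ≤ κ) :
    ∃ Y : Str Λ, κ * Y.w < N X Y.P 0 fun _ _ => True := by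
  obtain ⟨Y, -, h, -⟩ := approx' hs Z hu hz ∅ hκ
  obtain ⟨C, hC⟩ := hch
  exact ⟨Y, ((h (C 0)).trans_le (K_mono fun _ _ a => ⟨a, trivial⟩)).trans_le (K_le_N hC)⟩

theorem closed_cover {R : ℕ} (hm : X.Mix (lam0 R)) (ht : X.LinkTransitive) (hc : X.Cone R)
    (hs : Sofic G) (Z : Subgroup G) [Finite Z]
    (hu : ∀ {a b g g'}, X.Adj a b → Λ.L a b g → Λ.L a b g' → g⁻¹ * g' ∈ Z)
    (hz : ∀ {a b g z}, Λ.L a b g → z ∈ Z → Λ.L a b (g * z)) (hch : X.ch.Nonempty) :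
    ∃ Y : Str Λ, Y.w = 0 ∧ Y.P.Nonempty := by
  obtain ⟨Y, hY⟩ := approx hs Z hu hz hch (κ := 10 ^ 24 * (3 * R + 1) + 1) (by positivity)
  obtain ⟨Y', h1, h2⟩ := descent (improve hm ht hc) Y
  refine ⟨Y', h1, nonempty_iff_ne_empty.2 fun e => ?_⟩
  have a1 := Y.le_d (Y' := Y') (i := 0) (j := 1) (by decide)
  have a2 := Y.nc_le (i := 0) (j := 1) (k := 2) (by decide) (by decide) (by decide)
  have a3 : (N X Y.P 0 fun _ _ => True) ≤ Y.nc 0 1 2 + Y.lost Y' 0 1 := N_or fun C _ x _ _ _ => by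
    by_cases c : Y.cl x (C 1) (C 2)
    · obtain ⟨y, g, b1, b2, -⟩ := c.has
      exact Or.inr ⟨y, g, b1, b2, fun h => by simpa [e] using Y'.mem h⟩
    · exact Or.inl c
  have a4 : 0 ≤ Y.new Y' 0 := N_nonneg
  linarith

end Pool.Agent.Lib.MP_b138e1_al
end
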