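import Mathlib

/-! Four-coloured 3-dimensional simplicial complexes, their links and fundamental groups. -/

set_option autoImplicit false

namespace Pool.Agent.Lib.MP_b138e1_al

open scoped Classical

/-- the proportion of the elements of `s` that satisfy `A` -/
noncomputable def pr {α : Type} (s : Finset α) (A : α → Prop) : ℝ :=
  ((s.filter A).card : ℝ) / (s.card : ℝ)

/-- a finite pure 3-dimensional simplicial complex on the vertex set `V` whose vertices carry four
colours, every tetrahedron (chamber) having one vertex of each colour; the faces are the subsets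
of the chambers -/
structure Cx (V : Type) where
  col : V → Fin 4
  ch : Finset (Fin 4 → V)
  col_ch : ∀ C ∈ ch, ∀ t, col (C t) = t
  cover : ∀ a, ∃ C ∈ ch, C (col a) = a

variable {V : Type} (X : Cx V)

/-- the chambers containing all vertices of `σ` -/
noncomputable def Cx.star (σ : Finset V) : Finset (Fin 4 → V) :=
  X.ch.filter fun C => ∀ a ∈ σ, C (X.col a) = a

/-- `a b` is an edge -/
def Cx.Adj (a b : V) : Prop := a ≠ b ∧ (X.star {a, b}).Nonempty

/-- `a b c` is a triangle -/
def Cx.Tri (a b c : V) : Prop := a ≠ b ∧ a ≠ c ∧ b ≠ c ∧ (X.star {a, b, c}).Nonempty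

/-- `a b c d` is a tetrahedron -/
def Cx.Tet (a b c d : V) : Prop :=
  a ≠ b ∧ a ≠ c ∧ a ≠ d ∧ b ≠ c ∧ b ≠ d ∧ c ≠ d ∧ (X.star {a, b, c, d}).Nonempty

/-- expander mixing with constant `lam` in the links of all vertices and edges: between the
vertices of two colours `k ≠ l` of the link of a nonempty face, for the measure induced by the
uniform measure on chambers -/
def Cx.Mixing (lam : ℝ) : Prop :=
  ∀ σ : Finset V, σ.Nonempty → ∀ k l : Fin 4, k ≠ l → (∀ a ∈ σ, X.col a ≠ k ∧ X.col a ≠ l) →
    ∀ S T : Set V,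
      |pr (X.star σ) (fun C => C k ∈ S ∧ C l ∈ T) -
        pr (X.star σ) (fun C => C k ∈ S) * pr (X.star σ) (fun C => C l ∈ T)| ≤
      lam * Real.sqrt (pr (X.star σ) (fun C => C k ∈ S) * pr (X.star σ) (fun C => C l ∈ T))

/-- the colour-preserving automorphisms of every vertex link are transitive on its chambers -/
def Cx.LinkTransitive : Prop :=
  ∀ b : V, ∀ C ∈ X.star {b}, ∀ C' ∈ X.star {b}, ∃ σ : Equiv.Perm V,
    (∀ D : Fin 4 → V, D ∈ X.star {b} ↔ σ ∘ D ∈ X.star {b}) ∧ σ ∘ C = C'

/-- an elementary homotopy of edge paths in the link of `b`: across a triangle, or a backtrack -/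
def Cx.Step (b : V) (l l' : List V) : Prop :=
  ∃ (l₁ l₂ : List V) (a c : V),
    (∃ d, X.Tet b a d c ∧ l = l₁ ++ a :: c :: l₂ ∧ l' = l₁ ++ a :: d :: c :: l₂) ∨
    (X.Tri b a c ∧ l = l₁ ++ a :: l₂ ∧ l' = l₁ ++ a :: c :: a :: l₂)

/-- a homotopy of edge paths in the link of `b` made of at most `n` elementary homotopies -/
def Cx.Htp (b : V) : ℕ → List V → List V → Prop
  | 0, l, l' => l = l'
  | n + 1, l, l' => ∃ m, (l = m ∨ X.Step b l m ∨ X.Step b m l) ∧ Cx.Htp b n m l'

/-- every vertex link has a cone of radius `R`: an apex, paths of length at most `R` from the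
apex to all vertices, and for every edge a homotopy of at most `R` steps between the two paths -/
def Cx.Cone (R : ℕ) : Prop :=
  ∀ b : V, ∃ (a₀ : V) (P : V → List V), X.Adj b a₀ ∧
    (∀ a, X.Adj b a → (P a).length ≤ R ∧ (a₀ :: P a).IsChain (X.Tri b) ∧
      (a₀ :: P a).getLast (List.cons_ne_nil _ _) = a) ∧
    ∀ a c, X.Tri b a c → X.Htp b R (a₀ :: P a ++ [c]) (a₀ :: P c)

/-- a spanning tree of the 1-skeleton, rooted at `root`, given by its parent map -/
structure Cx.Tree where
  root : V
  par : V → V
  dep : V → ℕ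
  step : ∀ a, a ≠ root → X.Adj a (par a) ∧ dep (par a) < dep a

/-- the relators of the edge-path presentation of the fundamental group: one generator for each
ordered pair of vertices, killed if the pair is not an edge or is an edge of the tree -/
def Cx.rels (T : X.Tree) : Set (FreeGroup (V × V)) :=
  {r | (∃ a b, ¬ X.Adj a b ∧ r = FreeGroup.of (a, b)) ∨
    (∃ a, a ≠ T.root ∧ r = FreeGroup.of (a, T.par a)) ∨
    (∃ a b, r = FreeGroup.of (a, b) * FreeGroup.of (b, a)) ∨
    ∃ a b c, X.Tri a b c ∧ r = FreeGroup.of (a, b) * FreeGroup.of (b, c) * FreeGroup.of (c, a)}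

/-- the fundamental group of the complex -/
abbrev Cx.Pi1 (T : X.Tree) : Type := PresentedGroup (X.rels T)

end Pool.Agent.Lib.MP_b138e1_al
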