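import Pool.Agent.Lib.MP_b138e1_al.Defs

-- part Pool.Agent.Lib.MP_b138e1_al.Basic
section

/-! Counting over chambers, labelled covers with missing edges. -/

set_option autoImplicit false

namespace Pool.Agent.Lib.MP_b138e1_al

open scoped Classical
open Finset

section pr
variable {α : Type} {s : Finset α} {A B A' : α → Prop}

theorem pr_nonneg : 0 ≤ pr s A := by unfold pr; positivity

theorem pr_mono (h : ∀ c ∈ s, A c → B c) : pr s A ≤ pr s B := by
  unfold pr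
  gcongr with c hc
  exact h c hc

theorem pr_congr (h : ∀ c ∈ s, A c ↔ B c) : pr s A = pr s B :=
  le_antisymm (pr_mono fun c hc => (h c hc).1) (pr_mono fun c hc => (h c hc).2)

theorem pr_eq_sum : pr s A = (∑ c ∈ s, if A c then (1 : ℝ) else 0) / s.card := by
  simp [pr]

theorem pr_or (h : ∀ c ∈ s, A c → B c ∨ A' c) : pr s A ≤ pr s B + pr s A' := by
  simp only [pr_eq_sum, ← add_div, ← sum_add_distrib]
  gcongr with c hc
  have := h c hc
  split_ifs <;> simp_all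

theorem pr_not (hs : s.Nonempty) : pr s (fun c => ¬ A c) = 1 - pr s A := by
  have h : (s.card : ℝ) ≠ 0 := by exact_mod_cast hs.card_pos.ne'
  rw [eq_sub_iff_add_eq]
  simp only [pr_eq_sum, ← add_div, ← sum_add_distrib]
  rw [div_eq_one_iff_eq h, card_eq_sum_ones, Nat.cast_sum]
  refine sum_congr rfl fun c _ => ?_
  split_ifs <;> simp_all

theorem pr_false (h : ∀ c ∈ s, ¬ A c) : pr s A = 0 := by
  simp [pr, filter_false_of_mem h]

theorem pr_le_one : pr s A ≤ 1 := by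
  unfold pr
  exact div_le_one_of_le₀ (by exact_mod_cast card_filter_le _ _) (by positivity)

theorem pr_exists (h : 0 < pr s A) : ∃ c ∈ s, A c := by
  by_contra hc
  rw [pr_false fun c h1 h2 => hc ⟨c, h1, h2⟩] at h
  exact lt_irrefl _ h

theorem sum_avg {β : Type} (κ : α → β) (f : α → ℝ) :
    ∑ c ∈ s, f c = ∑ c ∈ s, (∑ c' ∈ s.filter (fun c' => κ c' = κ c), f c') /
      (s.filter (fun c' => κ c' = κ c)).card := by
  simp only [sum_div, sum_filter]
  rw [sum_comm]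
  refine sum_congr rfl fun c hc => ?_
  have h : ((s.filter fun c' => κ c' = κ c).card : ℝ) ≠ 0 := by
    exact_mod_cast (card_pos.2 ⟨c, by simp [hc]⟩).ne'
  refine (show f c = ∑ c' ∈ s.filter (fun c' => κ c' = κ c),
    f c / (s.filter fun c' => κ c' = κ c).card by rw [sum_const, nsmul_eq_mul]; field_simp).trans ?_
  rw [sum_filter]
  refine sum_congr rfl fun c' _ => ?_
  by_cases e : κ c' = κ c
  · simp [e]
  · simp [e, Ne.symm e]

theorem fib_mix {β : Type} (κ : α → β) (F : β → Finset α) (hF : ∀ c ∈ s, s.filter (fun c' => κ c' = κ c) = F (κ c))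
    (S T : α → Prop) (lam : ℝ)
    (h : ∀ c ∈ s, |pr (F (κ c)) (fun c => S c ∧ T c) - pr (F (κ c)) S * pr (F (κ c)) T| ≤
      lam * (pr (F (κ c)) S + pr (F (κ c)) T)) :
    |(∑ c ∈ s, if S c ∧ T c then (1 : ℝ) else 0) - ∑ c ∈ s, if S c then pr (F (κ c)) T else 0| ≤
      lam * ((∑ c ∈ s, if S c then (1 : ℝ) else 0) + ∑ c ∈ s, if T c then (1 : ℝ) else 0) := by
  have e1 : ∀ A : α → Prop, (∑ c ∈ s, if A c then (1 : ℝ) else 0) = ∑ c ∈ s, pr (F (κ c)) A := fun A => by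
    rw [sum_avg κ]
    exact sum_congr rfl fun c hc => by rw [hF c hc, pr_eq_sum]
  have e2 : (∑ c ∈ s, if S c then pr (F (κ c)) T else 0) =
      ∑ c ∈ s, pr (F (κ c)) S * pr (F (κ c)) T := by
    rw [sum_avg κ]
    refine sum_congr rfl fun c hc => ?_
    rw [pr_eq_sum (A := S), ← hF c hc, div_mul_eq_mul_div, sum_mul]
    congr 1
    refine sum_congr rfl fun c' hc' => ?_
    rw [(mem_filter.1 hc').2, hF c hc]
    split_ifs <;> simp
  have e3 := e1 fun c => S c ∧ T c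
  rw [e2, e1 S, e1 T, show (∑ c ∈ s, if S c ∧ T c then (1 : ℝ) else 0) = _ from
    (sum_congr rfl fun c _ => by congr).trans e3, ← sum_sub_distrib, ← sum_add_distrib, mul_sum]
  exact (abs_sum_le_sum_abs _ _).trans (sum_le_sum h)

end pr

variable {V : Type} {X : Cx V}

abbrev Cham (V : Type) := Fin 4 → V
abbrev Pt (V : Type) := V × ℕ

theorem mem_star {σ : Finset V} {C : Cham V} :
    C ∈ X.star σ ↔ C ∈ X.ch ∧ ∀ a ∈ σ, C (X.col a) = a := mem_filter

theorem mem_star1 {C D : Cham V} (hC : C ∈ X.ch) {i : Fin 4} :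
    D ∈ X.star {C i} ↔ D ∈ X.ch ∧ D i = C i := by
  simp [mem_star, X.col_ch C hC]

theorem mem_star2 {C D : Cham V} (hC : C ∈ X.ch) {i j : Fin 4} :
    D ∈ X.star {C i, C j} ↔ D ∈ X.ch ∧ D i = C i ∧ D j = C j := by
  simp [mem_star, X.col_ch C hC]

theorem ch_ne {C : Cham V} (hC : C ∈ X.ch) {i j : Fin 4} (h : i ≠ j) : C i ≠ C j := fun e =>
  h (by rw [← X.col_ch C hC i, e, X.col_ch C hC j])

theorem adj_ch {C : Cham V} (hC : C ∈ X.ch) {i j : Fin 4} (h : i ≠ j) : X.Adj (C i) (C j) :=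
  ⟨ch_ne hC h, C, by simp [mem_star, hC, X.col_ch C hC]⟩

theorem tri_ch {C : Cham V} (hC : C ∈ X.ch) {i j k : Fin 4} (h1 : i ≠ j) (h2 : i ≠ k) (h3 : j ≠ k) :
    X.Tri (C i) (C j) (C k) :=
  ⟨ch_ne hC h1, ch_ne hC h2, ch_ne hC h3, C, by simp [mem_star, hC, X.col_ch C hC]⟩

/-- linear form of mixing -/
def Cx.Mix (X : Cx V) (lam : ℝ) : Prop :=
  ∀ σ : Finset V, σ.Nonempty → ∀ k l : Fin 4, k ≠ l → (∀ a ∈ σ, X.col a ≠ k ∧ X.col a ≠ l) →
    ∀ S T : V → Prop,
      |pr (X.star σ) (fun C => S (C k) ∧ T (C l)) -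
        pr (X.star σ) (fun C => S (C k)) * pr (X.star σ) (fun C => T (C l))| ≤
      lam * (pr (X.star σ) (fun C => S (C k)) + pr (X.star σ) (fun C => T (C l)))

theorem Cx.Mixing.mix {lam : ℝ} (h : X.Mixing lam) (h0 : 0 ≤ lam) : X.Mix lam :=
  fun σ h1 k l h2 h3 S T => (h σ h1 k l h2 h3 {a | S a} {a | T a}).trans (by
    gcongr
    rw [Real.sqrt_le_iff]
    have a := pr_nonneg (s := X.star σ) (A := fun C => S (C k))
    have b := pr_nonneg (s := X.star σ) (A := fun C => T (C l))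
    exact ⟨by positivity, by simp only [Set.mem_ofPred_eq]; nlinarith [mul_nonneg a b]⟩)

/-- weighted count of pairs (chamber, point over its vertex of colour `i`) -/
noncomputable def NS (X : Cx V) (P : Finset (Pt V)) (i : Fin 4) (A : Cham V → Pt V → Prop)
    (f : Cham V → Pt V → ℝ) : ℝ :=
  ∑ x ∈ P, ∑ C ∈ X.ch, if x.1 = C i ∧ A C x then f C x else 0

noncomputable def N (X : Cx V) (P : Finset (Pt V)) (i : Fin 4) (A : Cham V → Pt V → Prop) : ℝ :=
  NS X P i A fun _ _ => 1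

variable {P : Finset (Pt V)} {i j k l : Fin 4} {A B A' : Cham V → Pt V → Prop}
  {f g : Cham V → Pt V → ℝ} {lam τ : ℝ}

theorem N_nonneg : 0 ≤ N X P i A :=
  sum_nonneg fun _ _ => sum_nonneg fun _ _ => by split_ifs <;> simp

theorem N_false (h : ∀ C ∈ X.ch, ∀ x ∈ P, x.1 = C i → ¬ A C x) : N X P i A = 0 :=
  sum_eq_zero fun x hx => sum_eq_zero fun C hC => if_neg fun a => h C hC x hx a.1 a.2

theorem N_or (h : ∀ C ∈ X.ch, ∀ x ∈ P, x.1 = C i → A C x → B C x ∨ A' C x) :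
    N X P i A ≤ N X P i B + N X P i A' := by
  simp only [N, NS, ← sum_add_distrib]
  gcongr with x hx C hC
  have := h C hC x hx
  split_ifs <;> simp_all

theorem N_mono' {Q : Finset (Pt V)} (h : ∀ C ∈ X.ch, ∀ x ∈ P, x.1 = C i → A C x → x ∈ Q ∧ B C x) :
    N X P i A ≤ N X Q i B := by
  simp only [N, NS]
  rw [sum_comm, sum_comm (s := Q)]
  refine sum_le_sum fun C hC => ?_
  simp only [← sum_filter, sum_const, nsmul_eq_mul, mul_one, Nat.cast_le]
  refine card_le_card fun x hx => ?_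
  simp only [mem_filter] at hx ⊢
  have := h C hC x hx.1 hx.2.1 hx.2.2
  exact ⟨this.1, hx.2.1, this.2⟩

theorem N_mono (h : ∀ C ∈ X.ch, ∀ x ∈ P, x.1 = C i → A C x → B C x) : N X P i A ≤ N X P i B :=
  N_mono' fun C hC x hx e a => ⟨hx, h C hC x hx e a⟩

theorem N_split (B : Cham V → Pt V → Prop) :
    N X P i A = N X P i (fun C x => A C x ∧ B C x) + N X P i (fun C x => A C x ∧ ¬ B C x) := by
  simp only [N, NS, ← sum_add_distrib]
  refine sum_congr rfl fun x _ => sum_congr rfl fun C _ => ?_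
  split_ifs <;> simp_all

theorem NS_le (h : ∀ C ∈ X.ch, ∀ x ∈ P, x.1 = C i → A C x → f C x ≤ g C x + τ) :
    NS X P i A f ≤ NS X P i A g + τ * N X P i A := by
  simp only [N, NS, ← sum_add_distrib, mul_sum]
  gcongr with x hx C hC
  have := h C hC x hx
  split_ifs <;> simp_all

theorem NS_zero : NS X P i A (fun _ _ => 0) = 0 := by simp [NS]

theorem NS_le_N (h : ∀ C ∈ X.ch, ∀ x ∈ P, x.1 = C i → A C x → f C x ≤ τ) :
    NS X P i A f ≤ τ * N X P i A := by
  simpa [NS_zero] using NS_le (g := fun _ _ => 0) (by simpa using h)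

theorem N_le_NS (h : ∀ C ∈ X.ch, ∀ x ∈ P, x.1 = C i → A C x → τ ≤ f C x) :
    τ * N X P i A ≤ NS X P i A f := by
  have := NS_le (f := fun _ _ => 0) (g := f) (τ := -τ) fun C hC x hx e a => by linarith [h C hC x hx e a]
  rw [NS_zero] at this
  linarith

theorem gen_mix {β : Type} (κ : Cham V → β) (F : β → Finset (Cham V))
    (hF : ∀ C ∈ X.ch, X.ch.filter (fun D => κ D = κ C) = F (κ C))
    (hκ : ∀ C D, κ D = κ C → D i = C i)
    (h : ∀ x, ∀ C ∈ X.ch, x.1 = C i → |pr (F (κ C)) (fun D => A D x ∧ B D x) -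
      pr (F (κ C)) (fun D => A D x) * pr (F (κ C)) (fun D => B D x)| ≤
      lam * (pr (F (κ C)) (fun D => A D x) + pr (F (κ C)) (fun D => B D x))) :
    |N X P i (fun C x => A C x ∧ B C x) - NS X P i A (fun C x => pr (F (κ C)) fun D => B D x)| ≤
      lam * (N X P i A + N X P i B) := by
  simp only [N, NS, ← sum_add_distrib, ← sum_sub_distrib, mul_sum (s := P)]
  refine (abs_sum_le_sum_abs _ _).trans (sum_le_sum fun x _ => ?_)
  have hm : ∀ C ∈ X.ch, ∀ D ∈ F (κ C), D i = C i := fun C hC D hD => by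
    rw [← hF C hC] at hD
    exact hκ _ _ (mem_filter.1 hD).2
  have := fib_mix κ F hF (fun C => x.1 = C i ∧ A C x) (fun C => x.1 = C i ∧ B C x) lam fun C hC => by
    by_cases e : x.1 = C i
    · have k1 : ∀ T : Cham V → Prop, pr (F (κ C)) (fun D => x.1 = D i ∧ T D) = pr (F (κ C)) T :=
        fun T => pr_congr fun D hD => by simp [hm C hC D hD, e]
      rw [k1, k1, pr_congr (B := fun D => A D x ∧ B D x) fun D hD => by simp [hm C hC D hD, e]]
      exact h x C hC e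
    · rw [pr_false, pr_false, pr_false] <;> simp +contextual [hm C hC, e]
  rw [sum_sub_distrib, sum_add_distrib]
  refine le_of_eq_of_le ?_ (this.trans (le_of_eq ?_))
  · congr 2
    · exact sum_congr rfl fun C _ => by split_ifs <;> simp_all
    · refine sum_congr rfl fun C hC => ?_
      split_ifs with c
      · exact pr_congr fun D hD => by simp [hm C hC D hD, c.1]
      · rfl
  · congr 2 <;> exact sum_congr rfl fun C _ => by congr

theorem fibV (i : Fin 4) : ∀ C ∈ X.ch, X.ch.filter (fun D => D i = C i) = X.star {C i} :=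
  fun C hC => by ext D; simp [mem_star1 hC]

theorem mixV (hm : X.Mix lam) (h1 : i ≠ k) (h2 : i ≠ l) (h3 : k ≠ l) (S T : Pt V → V → Prop) :
    |N X P i (fun C x => S x (C k) ∧ T x (C l)) - NS X P i (fun C x => S x (C k))
      (fun C x => pr (X.star {C i}) fun D => T x (D l))| ≤
      lam * (N X P i (fun C x => S x (C k)) + N X P i (fun C x => T x (C l))) :=
  gen_mix (fun C => C i) (fun a => X.star {a}) (fibV i) (fun _ _ e => e) fun x C hC _ =>
    hm _ (by simp) k l h3 (by simp [X.col_ch C hC, h1, h2]) (S x) (T x)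

theorem mixE (hm : X.Mix lam) (h1 : i ≠ k) (h2 : i ≠ l) (h3 : k ≠ l) (h4 : j ≠ k) (h5 : j ≠ l)
    (S T : Pt V → V → V → Prop) :
    |N X P i (fun C x => S x (C j) (C k) ∧ T x (C j) (C l)) - NS X P i (fun C x => S x (C j) (C k))
      (fun C x => pr (X.star {C i, C j}) fun D => T x (D j) (D l))| ≤
      lam * (N X P i (fun C x => S x (C j) (C k)) + N X P i (fun C x => T x (C j) (C l))) :=
  gen_mix (fun C => (C i, C j)) (fun a => X.star {a.1, a.2})
    (fun C hC => by ext D; simp [mem_star2 hC])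
    (fun _ _ e => congrArg Prod.fst e) fun x C hC _ => by
    dsimp only
    have e : ∀ D ∈ X.star {C i, C j}, D j = C j := fun D hD => ((mem_star2 hC).1 hD).2.2
    rw [pr_congr (s := X.star {C i, C j}) (A := fun D => S x (D j) (D k) ∧ T x (D j) (D l))
        (B := fun D => S x (C j) (D k) ∧ T x (C j) (D l)) fun D hD => by rw [e D hD],
      pr_congr (s := X.star {C i, C j}) (A := fun D => S x (D j) (D k))
        (B := fun D => S x (C j) (D k)) fun D hD => by rw [e D hD],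
      pr_congr (s := X.star {C i, C j}) (A := fun D => T x (D j) (D l))
        (B := fun D => T x (C j) (D l)) fun D hD => by rw [e D hD]]
    exact hm _ (by simp) k l h3 (by simp [X.col_ch C hC, h1, h2, h4, h5]) _ _

theorem const_mix {α : Type} {s : Finset α} {S T : α → Prop} (p : Prop) (h : ∀ c ∈ s, S c ↔ p) :
    |pr s (fun c => S c ∧ T c) - pr s S * pr s T| ≤ 0 * (pr s S + pr s T) := by
  rcases s.eq_empty_or_nonempty with rfl | hs
  · simp [pr]
  by_cases hp : p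
  · have : pr s S = 1 := by
      have := pr_not (A := S) hs
      rw [pr_false fun c hc => by simp [h c hc, hp]] at this
      linarith
    rw [this, pr_congr (B := T) fun c hc => by simp [h c hc, hp]]
    simp
  · rw [pr_false, pr_false (A := S)] <;> simp +contextual [h, hp]

theorem avgV (S : Pt V → Prop) (B : Cham V → Pt V → Prop) :
    N X P i (fun C x => S x ∧ B C x) = NS X P i (fun _ x => S x)
      (fun C x => pr (X.star {C i}) fun D => B D x) := by
  have := gen_mix (X := X) (P := P) (i := i) (A := fun _ x => S x) (B := B) (lam := 0) (fun C => C i)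
    (fun a => X.star {a}) (fibV i) (fun _ _ e => e) fun x C _ _ => const_mix (S x) fun _ _ => Iff.rfl
  simpa [sub_eq_zero] using this

theorem avgE (S : Pt V → V → Prop) (B : Cham V → Pt V → Prop) :
    N X P i (fun C x => S x (C j) ∧ B C x) = NS X P i (fun C x => S x (C j))
      (fun C x => pr (X.star {C i, C j}) fun D => B D x) := by
  have := gen_mix (X := X) (P := P) (i := i) (A := fun C x => S x (C j)) (B := B) (lam := 0)
    (fun C => (C i, C j)) (fun a => X.star {a.1, a.2})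
    (fun C hC => by ext D; simp [mem_star2 hC]) (fun _ _ e => congrArg Prod.fst e)
    fun x C hC _ => const_mix (S x (C j)) fun D hD => by rw [((mem_star2 hC).1 hD).2.2]
  simpa [sub_eq_zero] using this

theorem markovV (S : Pt V → Prop) (B : Cham V → Pt V → Prop)
    (h : ∀ C ∈ X.ch, ∀ x ∈ P, x.1 = C i → S x → τ ≤ pr (X.star {C i}) fun D => B D x) :
    τ * N X P i (fun _ x => S x) ≤ N X P i (fun C x => S x ∧ B C x) := by
  rw [avgV]
  exact N_le_NS h

theorem markovE (S : Pt V → V → Prop) (B : Cham V → Pt V → Prop)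
    (h : ∀ C ∈ X.ch, ∀ x ∈ P, x.1 = C i → S x (C j) → τ ≤ pr (X.star {C i, C j}) fun D => B D x) :
    τ * N X P i (fun C x => S x (C j)) ≤ N X P i (fun C x => S x (C j) ∧ B C x) := by
  rw [avgE]
  exact N_le_NS h

end Pool.Agent.Lib.MP_b138e1_al
end

-- part Pool.Agent.Lib.MP_b138e1_al.Str
section

/-! Labelled covers with missing edges, their defect and distance; the edge move. -/

set_option autoImplicit false

namespace Pool.Agent.Lib.MP_b138e1_al

open scoped Classical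
open Finset

variable {V : Type} {X : Cx V} {G : Type} [Group G]

structure Labels (X : Cx V) (G : Type) [Group G] where
  L : V → V → G → Prop
  inv : ∀ {a b g}, L a b g → L b a g⁻¹
  mul : ∀ {a b c g h}, X.Tri a b c → L a b g → L b c h → L a c (g * h)
  ex : ∀ {a b}, X.Adj a b → ∃ g, L a b g

structure Str (Λ : Labels X G) where
  P : Finset (Pt V)
  E : Pt V → Pt V → G → Prop
  symm : ∀ {x y g}, E x y g → E y x g⁻¹
  func : ∀ {x y y' g g'}, E x y g → E x y' g' → y.1 = y'.1 → y = y' ∧ g = g'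
  mem : ∀ {x y g}, E x y g → x ∈ P
  lab : ∀ {x y g}, E x y g → Λ.L x.1 y.1 g

variable {Λ : Labels X G} (Y : Str Λ)

def Str.cl (x : Pt V) (b c : V) : Prop :=
  ∃ y z g h, y.1 = b ∧ z.1 = c ∧ Y.E x y g ∧ Y.E x z h ∧ Y.E y z (g⁻¹ * h)

def Str.nb (S : Pt V → Prop) (x : Pt V) (b : V) : Prop := ∃ y g, y.1 = b ∧ Y.E x y g ∧ S y

def Str.has (x : Pt V) (b : V) : Prop := Y.nb (fun _ => True) x b

def Str.via (y : Pt V) (a : V) (z : Pt V) (m : G) : Prop :=
  ∃ x g h, x.1 = a ∧ Y.E y x g ∧ Y.E x z h ∧ m = g * h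

noncomputable def Str.nc (i j k : Fin 4) : ℝ := N X Y.P i fun C x => ¬ Y.cl x (C j) (C k)

noncomputable def Str.w : ℝ := ∑ σ : Equiv.Perm (Fin 4), Y.nc (σ 0) (σ 1) (σ 2)

noncomputable def Str.lost (Y' : Str Λ) (i j : Fin 4) : ℝ :=
  N X Y.P i fun C x => ∃ y g, y.1 = C j ∧ Y.E x y g ∧ ¬ Y'.E x y g

noncomputable def Str.new (Y' : Str Λ) (i : Fin 4) : ℝ := N X Y'.P i fun _ x => x ∉ Y.P

noncomputable def Str.d (Y' : Str Λ) : ℝ :=
  ∑ σ : Equiv.Perm (Fin 4), (Y.lost Y' (σ 0) (σ 1) + Y.new Y' (σ 0))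

variable {Y} {x y z : Pt V} {a b c d : V} {g h : G} {i j k l : Fin 4}
  {A B : Cham V → Pt V → Prop}

theorem Str.mem' (e : Y.E x y g) : y ∈ Y.P := Y.mem (Y.symm e)

theorem Str.cl.symm (e : Y.cl x b c) : Y.cl x c b := by
  obtain ⟨y, z, g, h, a1, a2, a3, a4, a5⟩ := e
  exact ⟨z, y, h, g, a2, a1, a4, a3, by simpa using Y.symm a5⟩

theorem Str.cl.edge (e : Y.cl x y.1 z.1) (e1 : Y.E x y g) (e2 : Y.E x z h) : Y.E y z (g⁻¹ * h) := by
  obtain ⟨y', z', g', h', a1, a2, a3, a4, a5⟩ := e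
  obtain ⟨rfl, rfl⟩ := Y.func a3 e1 a1
  obtain ⟨rfl, rfl⟩ := Y.func a4 e2 a2
  exact a5

theorem Str.cl.move (e : Y.cl x y.1 c) (e1 : Y.E x y g) : Y.cl y x.1 c := by
  obtain ⟨y', z, g', h, a1, a2, a3, a4, a5⟩ := e
  obtain ⟨rfl, rfl⟩ := Y.func a3 e1 a1
  exact ⟨x, z, _, _, rfl, a2, Y.symm a3, a5, by simpa using a4⟩

theorem Str.cl.has (e : Y.cl x b c) : Y.has x b := by
  obtain ⟨y, z, g, h, a1, -, a3, -⟩ := e
  exact ⟨y, g, a1, a3, trivial⟩

theorem Str.nb.has {S : Pt V → Prop} (e : Y.nb S x b) : Y.has x b := by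
  obtain ⟨y, g, a1, a2, -⟩ := e
  exact ⟨y, g, a1, a2, trivial⟩

theorem Str.nb.of {S : Pt V → Prop} (e : Y.nb S x y.1) (e1 : Y.E x y g) : S y := by
  obtain ⟨y', g', a1, a2, a3⟩ := e
  obtain ⟨rfl, rfl⟩ := Y.func a2 e1 a1
  exact a3

theorem Str.tet (e : Y.E x y g) (h1 : Y.cl x y.1 b) (h2 : Y.cl x y.1 d) (h3 : Y.cl x b d) :
    Y.cl y b d := by
  obtain ⟨u, v, p, q, rfl, rfl, a3, a4, a5⟩ := h3
  exact ⟨u, v, _, _, rfl, rfl, h1.edge e a3, h2.edge e a4, by simpa [mul_assoc] using a5⟩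

theorem N_rebase {P Q : Finset (Pt V)}
    (h : ∀ C ∈ X.ch, ∀ x ∈ P, x.1 = C i → A C x → ∃ y g, y.1 = C j ∧ Y.E x y g ∧ y ∈ Q ∧ B C y) :
    N X P i A ≤ N X Q j B := by
  simp only [N, NS]
  rw [sum_comm, sum_comm (s := Q)]
  refine sum_le_sum fun C hC => ?_
  simp only [← sum_filter, sum_const, nsmul_eq_mul, mul_one, Nat.cast_le]
  have := fun x : {x // x ∈ P.filter fun x => x.1 = C i ∧ A C x} =>
    h C hC x.1 (mem_filter.1 x.2).1 (mem_filter.1 x.2).2.1 (mem_filter.1 x.2).2.2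
  choose f g h1 h2 h3 h4 using this
  rw [← card_attach]
  refine card_le_card_of_injOn f (fun x _ => by simp [h1 x, h3 x, h4 x]) fun x _ x' _ e => ?_
  exact Subtype.ext (Y.func (Y.symm (h2 x)) (e ▸ Y.symm (h2 x'))
    ((mem_filter.1 x.2).2.1.trans (mem_filter.1 x'.2).2.1.symm)).1

theorem Str.rebase (Y : Str Λ)
    (h : ∀ C ∈ X.ch, ∀ x ∈ Y.P, x.1 = C i → A C x → ∃ y g, y.1 = C j ∧ Y.E x y g ∧ B C y) :
    N X Y.P i A ≤ N X Y.P j B :=
  N_rebase fun C hC x hx e a => by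
    obtain ⟨y, g, a1, a2, a3⟩ := h C hC x hx e a
    exact ⟨y, g, a1, a2, Str.mem' a2, a3⟩

theorem perm_ex : ∀ i j k : Fin 4, i ≠ j → i ≠ k → j ≠ k →
    ∃ σ : Equiv.Perm (Fin 4), σ 0 = i ∧ σ 1 = j ∧ σ 2 = k := by decide

theorem ex_others : ∀ i j : Fin 4, i ≠ j →
    ∃ k l, i ≠ k ∧ i ≠ l ∧ j ≠ k ∧ j ≠ l ∧ k ≠ l ∧ ∀ t, t ≠ i → t ≠ j → t = k ∨ t = l := by decide

theorem ex_fourth : ∀ i j k : Fin 4, i ≠ j → i ≠ k → j ≠ k → ∃ l, i ≠ l ∧ j ≠ l ∧ k ≠ l := by decide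

theorem other_two : ∀ i j k l t : Fin 4, i ≠ j → i ≠ k → i ≠ l → j ≠ k → j ≠ l → k ≠ l →
    t ≠ i → t ≠ j → t = k ∨ t = l := by decide

theorem Str.nc_le (h1 : i ≠ j) (h2 : i ≠ k) (h3 : j ≠ k) : Y.nc i j k ≤ Y.w := by
  obtain ⟨σ, rfl, rfl, rfl⟩ := perm_ex i j k h1 h2 h3
  exact single_le_sum (f := fun σ : Equiv.Perm (Fin 4) => Y.nc (σ 0) (σ 1) (σ 2))
    (fun _ _ => N_nonneg) (mem_univ σ)

theorem sum_perm_le {f : Equiv.Perm (Fin 4) → ℝ} {t : ℝ} (h : ∀ σ, f σ ≤ t) : ∑ σ, f σ ≤ 24 * t := by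
  have := sum_le_card_nsmul univ f t fun σ _ => h σ
  rwa [card_univ, Fintype.card_perm, Fintype.card_fin, nsmul_eq_mul,
    show ((Nat.factorial 4 : ℕ) : ℝ) = 24 by norm_num [Nat.factorial]] at this

theorem Str.w_le {t : ℝ} (h : ∀ i j k, i ≠ j → i ≠ k → j ≠ k → Y.nc i j k ≤ t) : Y.w ≤ 24 * t :=
  sum_perm_le fun σ => h _ _ _ (by simp) (by simp) (by simp)

theorem Str.d_le {Y' : Str Λ} {t : ℝ} (h : ∀ i j, i ≠ j → Y.lost Y' i j + Y.new Y' i ≤ t) :
    Y.d Y' ≤ 24 * t := sum_perm_le fun σ => h _ _ (by simp)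

theorem Str.le_d {Y' : Str Λ} (h1 : i ≠ j) : Y.lost Y' i j + Y.new Y' i ≤ Y.d Y' := by
  obtain ⟨k, -, h2, -, h3, -⟩ := ex_others i j h1
  obtain ⟨σ, rfl, rfl, rfl⟩ := perm_ex i j k h1 h2 h3
  exact single_le_sum (f := fun σ : Equiv.Perm (Fin 4) => Y.lost Y' (σ 0) (σ 1) + Y.new Y' (σ 0))
    (fun _ _ => add_nonneg N_nonneg N_nonneg) (mem_univ σ)

theorem Str.w_nonneg : 0 ≤ Y.w := sum_nonneg fun _ _ => N_nonneg

theorem N_nat {P : Finset (Pt V)} : ∃ n : ℕ, N X P i A = n :=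
  ⟨∑ x ∈ P, ∑ C ∈ X.ch, if x.1 = C i ∧ A C x then 1 else 0, by simp [N, NS]⟩

theorem Str.w_nat : ∃ n : ℕ, Y.w = n := by
  choose f hf using fun σ : Equiv.Perm (Fin 4) =>
    N_nat (X := X) (P := Y.P) (i := σ 0) (A := fun C x => ¬ Y.cl x (C (σ 1)) (C (σ 2)))
  exact ⟨∑ σ, f σ, by rw [Nat.cast_sum]; exact sum_congr rfl fun σ _ => hf σ⟩

theorem Str.d_self : Y.d Y = 0 :=
  sum_eq_zero fun σ _ => by simp +contextual [Str.lost, Str.new, N, NS]

theorem N_or' {P Q R : Finset (Pt V)} {A' : Cham V → Pt V → Prop}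
    (h : ∀ C ∈ X.ch, ∀ x ∈ P, x.1 = C i → A C x → (x ∈ Q ∧ B C x) ∨ (x ∈ R ∧ A' C x)) :
    N X P i A ≤ N X Q i B + N X R i A' :=
  (N_or h).trans (add_le_add (N_mono' fun _ _ _ _ _ a => a) (N_mono' fun _ _ _ _ _ a => a))

theorem Str.d_tri (Y₁ Y₂ : Str Λ) : Y.d Y₂ ≤ Y.d Y₁ + Y₁.d Y₂ := by
  rw [Str.d, Str.d, Str.d, ← sum_add_distrib]
  refine sum_le_sum fun σ _ => ?_
  have h1 : Y.lost Y₂ (σ 0) (σ 1) ≤ Y.lost Y₁ (σ 0) (σ 1) + Y₁.lost Y₂ (σ 0) (σ 1) :=
    N_or' fun C _ x hx _ ⟨y, g, a1, a2, a3⟩ => by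
      by_cases e : Y₁.E x y g
      exacts [Or.inr ⟨Y₁.mem e, y, g, a1, e, a3⟩, Or.inl ⟨hx, y, g, a1, a2, e⟩]
  have h2 : Y.new Y₂ (σ 0) ≤ Y.new Y₁ (σ 0) + Y₁.new Y₂ (σ 0) :=
    N_or' fun C _ x hx _ a => by
      by_cases e : x ∈ Y₁.P
      exacts [Or.inl ⟨e, a⟩, Or.inr ⟨hx, e⟩]
  linarith

/-- descent: an improving move for every defective cover leads to a true cover -/
theorem descent {K : ℝ} (h : ∀ Y : Str Λ, 0 < Y.w → ∃ Y' : Str Λ, Y'.w < Y.w ∧ Y.d Y' ≤ K * (Y.w - Y'.w))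
    (Y : Str Λ) : ∃ Y' : Str Λ, Y'.w = 0 ∧ Y.d Y' ≤ K * Y.w := by
  obtain ⟨n, hn⟩ := Y.w_nat
  induction n using Nat.strong_induction_on generalizing Y with
  | _ n ih =>
    rcases (Y.w_nonneg).eq_or_lt with e | e
    · exact ⟨Y, e.symm, by rw [Str.d_self, ← e, mul_zero]⟩
    obtain ⟨Y₁, a1, a2⟩ := h Y e
    obtain ⟨m, hm⟩ := Y₁.w_nat
    obtain ⟨Y₂, b1, b2⟩ := ih m (by rw [hm, hn] at a1; exact_mod_cast a1) Y₁ hm
    exact ⟨Y₂, b1, by linarith [Y.d_tri Y₁ Y₂]⟩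

theorem N_le_card {P : Finset (Pt V)} {s : Finset (Cham V)} {Q : Cham V → Prop}
    (h : ∀ C ∈ X.ch, ∀ x ∈ P, x.1 = C i → A C x → C ∈ s ∧ Q C)
    (hu : ∀ C x x', x.1 = C i → x'.1 = C i → A C x → A C x' → x = x') :
    N X P i A ≤ s.card * pr s Q := by
  have e : (s.card : ℝ) * pr s Q = (s.filter Q).card := by
    rcases s.eq_empty_or_nonempty with rfl | hs
    · simp
    have : (s.card : ℝ) ≠ 0 := by exact_mod_cast hs.card_pos.ne'
    unfold pr
    field_simp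
  rw [e, N, NS, sum_comm]
  simp only [← sum_filter, sum_const, nsmul_eq_mul, mul_one]
  calc _ ≤ ∑ C ∈ X.ch, if C ∈ s.filter Q then (1 : ℝ) else 0 := sum_le_sum fun C hC => by
        split_ifs with c
        · have : (P.filter fun x => x.1 = C i ∧ A C x).card ≤ 1 :=
            card_le_one.2 fun x hx x' hx' => hu C x x' (mem_filter.1 hx).2.1
              (mem_filter.1 hx').2.1 (mem_filter.1 hx).2.2 (mem_filter.1 hx').2.2
          exact_mod_cast this
        · rw [filter_false_of_mem fun x hx a => c (mem_filter.2 (h C hC x hx a.1 a.2))]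
          simp
    _ ≤ _ := by
        simp only [← sum_filter, sum_const, nsmul_eq_mul, mul_one, Nat.cast_le]
        exact card_le_card fun C hC => (mem_filter.1 hC).2

theorem card_le_N {P : Finset (Pt V)} {s : Finset (Cham V)} {Q : Cham V → Prop} (hy : y ∈ P)
    (h : ∀ C ∈ s, Q C → C ∈ X.ch ∧ y.1 = C i ∧ A C y) : s.card * pr s Q ≤ N X P i A := by
  have e : (s.card : ℝ) * pr s Q = (s.filter Q).card := by
    rcases s.eq_empty_or_nonempty with rfl | hs
    · simp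
    have : (s.card : ℝ) ≠ 0 := by exact_mod_cast hs.card_pos.ne'
    unfold pr
    field_simp
  rw [e, N, NS]
  refine le_trans ?_ (single_le_sum (f := fun x : Pt V => ∑ C ∈ X.ch,
    if x.1 = C i ∧ A C x then (1 : ℝ) else 0)
    (fun _ _ => sum_nonneg fun _ _ => by split_ifs <;> simp) hy)
  simp only [← sum_filter, sum_const, nsmul_eq_mul, mul_one, Nat.cast_le]
  exact card_le_card fun C hC => mem_filter.2 (h C (mem_filter.1 hC).1 (mem_filter.1 hC).2)

end Pool.Agent.Lib.MP_b138e1_al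
end

-- part Pool.Agent.Lib.MP_b138e1_al.Mix
section

/-! One-sided forms of the mixing inequalities. -/

set_option autoImplicit false

namespace Pool.Agent.Lib.MP_b138e1_al

open scoped Classical
open Finset

variable {V : Type} {X : Cx V} {P : Finset (Pt V)} {i j k l : Fin 4} {lam τ : ℝ}

theorem prE_fix {C : Cham V} (hC : C ∈ X.ch) {x : Pt V} (e : x.1 = C i) (T : V → Cham V → Prop) :
    pr (X.star {C i, C j}) (fun D => T (D j) D) = pr (X.star {x.1, C j}) fun D => T (C j) D := by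
  rw [e]
  exact pr_congr fun D hD => by rw [((mem_star2 hC).1 hD).2.2]

theorem upE (hm : X.Mix lam) (h1 : i ≠ k) (h2 : i ≠ l) (h3 : k ≠ l) (h4 : j ≠ k) (h5 : j ≠ l)
    (S T : Pt V → V → V → Prop) (h : ∀ C ∈ X.ch, ∀ x ∈ P, x.1 = C i → S x (C j) (C k) →
      pr (X.star {x.1, C j}) (fun D => T x (C j) (D l)) ≤ τ) :
    N X P i (fun C x => S x (C j) (C k) ∧ T x (C j) (C l)) ≤
      (τ + lam) * N X P i (fun C x => S x (C j) (C k)) + lam * N X P i (fun C x => T x (C j) (C l)) := by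
  have a := (abs_le.1 (mixE (P := P) hm h1 h2 h3 h4 h5 S T)).2
  have b := NS_le_N (f := fun C x => pr (X.star {C i, C j}) fun D => T x (D j) (D l))
    fun C hC x hx e s => (prE_fix hC e fun b D => T x b (D l)).trans_le (h C hC x hx e s)
  linarith

theorem loE (hm : X.Mix lam) (h1 : i ≠ k) (h2 : i ≠ l) (h3 : k ≠ l) (h4 : j ≠ k) (h5 : j ≠ l)
    (S T : Pt V → V → V → Prop) (h : ∀ C ∈ X.ch, ∀ x ∈ P, x.1 = C i → S x (C j) (C k) →
      τ ≤ pr (X.star {x.1, C j}) (fun D => T x (C j) (D l))) :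
    (τ - lam) * N X P i (fun C x => S x (C j) (C k)) ≤
      N X P i (fun C x => S x (C j) (C k) ∧ T x (C j) (C l)) +
        lam * N X P i (fun C x => T x (C j) (C l)) := by
  have a := (abs_le.1 (mixE (P := P) hm h1 h2 h3 h4 h5 S T)).1
  have b := N_le_NS (f := fun C x => pr (X.star {C i, C j}) fun D => T x (D j) (D l))
    fun C hC x hx e s => (h C hC x hx e s).trans_eq (prE_fix hC e fun b D => T x b (D l)).symm
  linarith

theorem upV (hm : X.Mix lam) (h1 : i ≠ k) (h2 : i ≠ l) (h3 : k ≠ l) (S T : Pt V → V → Prop)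
    (h : ∀ C ∈ X.ch, ∀ x ∈ P, x.1 = C i → S x (C k) → pr (X.star {x.1}) (fun D => T x (D l)) ≤ τ) :
    N X P i (fun C x => S x (C k) ∧ T x (C l)) ≤
      (τ + lam) * N X P i (fun C x => S x (C k)) + lam * N X P i (fun C x => T x (C l)) := by
  have a := (abs_le.1 (mixV (P := P) hm h1 h2 h3 S T)).2
  have b := NS_le_N (f := fun C x => pr (X.star {C i}) fun D => T x (D l))
    fun C hC x hx e s => e ▸ h C hC x hx e s
  linarith

theorem loV (hm : X.Mix lam) (h1 : i ≠ k) (h2 : i ≠ l) (h3 : k ≠ l) (S T : Pt V → V → Prop)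
    (h : ∀ C ∈ X.ch, ∀ x ∈ P, x.1 = C i → S x (C k) → τ ≤ pr (X.star {x.1}) (fun D => T x (D l))) :
    (τ - lam) * N X P i (fun C x => S x (C k)) ≤
      N X P i (fun C x => S x (C k) ∧ T x (C l)) + lam * N X P i (fun C x => T x (C l)) := by
  have a := (abs_le.1 (mixV (P := P) hm h1 h2 h3 S T)).1
  have b := N_le_NS (f := fun C x => pr (X.star {C i}) fun D => T x (D l))
    fun C hC x hx e s => e ▸ h C hC x hx e s
  linarith

theorem mkE (S : Pt V → V → Prop) (T : Pt V → V → Cham V → Prop)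
    (h : ∀ C ∈ X.ch, ∀ x ∈ P, x.1 = C i → S x (C j) → τ ≤ pr (X.star {x.1, C j}) (T x (C j))) :
    τ * N X P i (fun C x => S x (C j)) ≤ N X P i (fun C x => S x (C j) ∧ T x (C j) C) :=
  markovE S (fun C x => T x (C j) C) fun C hC x hx e s =>
    (h C hC x hx e s).trans_eq (prE_fix hC e (T x)).symm

theorem mkV (S : Pt V → Prop) (T : Pt V → Cham V → Prop)
    (h : ∀ x ∈ P, X.col x.1 = i → S x → τ ≤ pr (X.star {x.1}) (T x)) :
    τ * N X P i (fun _ x => S x) ≤ N X P i (fun C x => S x ∧ T x C) :=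
  markovV S (fun C x => T x C) fun C hC x hx e s => e ▸ h x hx (e ▸ X.col_ch C hC i) s

theorem pr_fiber {α K : Type} {s : Finset α} (A : α → Prop) (κ : α → K) (Z : Finset K) :
    ∑ ζ ∈ Z, pr s (fun c => A c ∧ κ c = ζ) = pr s fun c => A c ∧ κ c ∈ Z := by
  simp only [pr_eq_sum, ← sum_div]
  rw [sum_comm]
  congr 1
  refine sum_congr rfl fun c _ => ?_
  by_cases h : A c <;> simp [h]

theorem levelE (hm : X.Mix lam) (h0 : 0 ≤ lam) (h1 : i ≠ k) (h2 : i ≠ l) (h3 : k ≠ l) (h4 : j ≠ k)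
    (h5 : j ≠ l) {K : Type} (S : Pt V → V → V → Prop) (U : Pt V → V → Prop) (κ : Pt V → V → V → K)
    (hU : ∀ x b c, S x b c → U x b) (h : ∀ x b c, S x b c →
      pr (X.star {x.1, b}) (fun D => κ x b (D l) = κ x b c) ≤ τ) :
    N X P i (fun C x => S x (C j) (C k) ∧ κ x (C j) (C l) = κ x (C j) (C k)) ≤
      (τ + lam) * N X P i (fun C x => S x (C j) (C k)) + lam * N X P i (fun C x => U x (C j)) := by
  have av : ∀ T : Pt V → V → Cham V → Prop, N X P i (fun C x => T x (C j) C) =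
      NS X P i (fun _ _ => True) fun C x => pr (X.star {x.1, C j}) (T x (C j)) := fun T => by
    have := avgE (X := X) (P := P) (i := i) (j := j) (fun _ _ => True) fun C x => T x (C j) C
    simp only [true_and] at this
    rw [this]
    exact sum_congr rfl fun x _ => sum_congr rfl fun C hC => by
      split_ifs with c
      exacts [prE_fix hC c.1 (T x), rfl]
  rw [av fun x b C => S x b (C k) ∧ κ x b (C l) = κ x b (C k), av fun x b C => S x b (C k),
    av fun x b _ => U x b]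
  simp only [NS, mul_sum, ← sum_add_distrib]
  refine sum_le_sum fun x _ => sum_le_sum fun C hC => ?_
  split_ifs with c
  swap
  · simp
  set s := X.star {x.1, C j} with hs
  set b := C j with hb
  by_cases u : U x b
  swap
  · rw [pr_false fun D _ a => u (hU _ _ _ a.1), pr_false fun D _ a => u (hU _ _ _ a),
      pr_false fun D _ a => u a]
    simp
  have hsn : s.Nonempty := ⟨C, by rw [hs, c.1]; exact (mem_star2 hC).2 ⟨hC, rfl, rfl⟩⟩
  have e1 : pr s (fun _ => U x b) = 1 := by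
    have := pr_not (A := fun _ => U x b) hsn
    rw [pr_false fun _ _ a => a u] at this
    linarith
  set Z := (s.filter fun D => S x b (D k)).image fun D => κ x b (D k) with hZ
  have mZ : ∀ D ∈ s, S x b (D k) → κ x b (D k) ∈ Z := fun D hD a =>
    mem_image_of_mem _ (mem_filter.2 ⟨hD, a⟩)
  have e2 := pr_fiber (s := s) (fun D => S x b (D k)) (fun D => κ x b (D k)) Z
  have e3 := pr_fiber (s := s) (fun D => S x b (D k) ∧ κ x b (D l) = κ x b (D k))
    (fun D => κ x b (D k)) Z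
  have e4 := pr_fiber (s := s) (fun _ => True) (fun D => κ x b (D l)) Z
  rw [pr_congr (B := fun D => S x b (D k)) fun D hD => ⟨fun a => a.1, fun a => ⟨a, mZ D hD a⟩⟩] at e2
  rw [pr_congr (B := fun D => S x b (D k) ∧ κ x b (D l) = κ x b (D k))
    fun D hD => ⟨fun a => a.1, fun a => ⟨a, mZ D hD a.1⟩⟩] at e3
  have e5 : lam * ∑ ζ ∈ Z, pr s (fun D => True ∧ κ x b (D l) = ζ) ≤ lam * 1 :=
    mul_le_mul_of_nonneg_left (e4 ▸ pr_le_one) h0
  rw [e1, ← e2, ← e3]
  refine le_trans ?_ (add_le_add_right e5 _)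
  rw [mul_sum, mul_sum, ← sum_add_distrib]
  refine sum_le_sum fun ζ hζ => ?_
  obtain ⟨D, hD, rfl⟩ := mem_image.1 hζ
  have t := h x b (D k) (mem_filter.1 hD).2
  have := (abs_le.1 (hm {x.1, b} (by simp) k l h3
    (by simp [c.1, hb, X.col_ch C hC, h1, h2, h4, h5]) (fun a => S x b a ∧ κ x b a = κ x b (D k))
    fun a => κ x b a = κ x b (D k))).2
  rw [← hs] at t this
  rw [pr_congr (B := fun E => (S x b (E k) ∧ κ x b (E k) = κ x b (D k)) ∧ κ x b (E l) = κ x b (D k))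
    fun E _ => ⟨fun a => ⟨⟨a.1.1, a.2⟩, a.1.2.trans a.2⟩, fun a => ⟨⟨a.1.1, a.2.trans a.1.2.symm⟩, a.1.2⟩⟩]
  simp only [true_and]
  nlinarith [mul_le_mul_of_nonneg_left t (pr_nonneg (s := s)
    (A := fun E => S x b (E k) ∧ κ x b (E k) = κ x b (D k)))]

variable {G : Type} [Group G] {Λ : Labels X G} (Y : Str Λ)

theorem Str.N_nb (B : Cham V → Pt V → Prop) :
    N X Y.P i (fun C x => Y.nb (B C) x (C j)) ≤ N X Y.P j B := Y.rebase fun _ _ _ _ _ a => a

theorem ex_three : ∀ i : Fin 4, ∃ j k l, i ≠ j ∧ i ≠ k ∧ i ≠ l ∧ j ≠ k ∧ j ≠ l ∧ k ≠ l ∧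
    ∀ t, t ≠ i → t = j ∨ t = k ∨ t = l := by decide

end Pool.Agent.Lib.MP_b138e1_al
end
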