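import Pool.Agent.Lib.MP_b138e1_al.Move
import Pool.Agent.Lib.MP_b138e1_al.Mix

-- part Pool.Agent.Lib.MP_b138e1_al.Local
section

/-! Thin edges between good points close up into triangles. -/

set_option autoImplicit false

namespace Pool.Agent.Lib.MP_b138e1_al

open scoped Classical
open Finset

variable {V : Type} {X : Cx V} {G : Type} [Group G] {Λ : Labels X G} (Y : Str Λ)

def Str.thin (x : Pt V) (b : V) : Prop :=
  ∀ k, k ≠ X.col x.1 → k ≠ X.col b → pr (X.star {x.1, b}) (fun D => ¬ Y.cl x b (D k)) ≤ 1 / 100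

def Str.good (x : Pt V) : Prop :=
  ∀ j, j ≠ X.col x.1 → pr (X.star {x.1}) (fun D => ¬ Y.thin x (D j)) ≤ 1 / 2000

def Str.ok (x : Pt V) (b : V) : Prop := Y.thin x b ∧ Y.nb Y.good x b

def Str.hot (x : Pt V) (b : V) (k l : Fin 4) : Prop :=
  Y.good x ∧ 35 / 1000 ≤ pr (X.star {x.1, b}) fun D => ¬ Y.cl x (D k) (D l)

variable {Y} {x y z : Pt V} {a b c d : V} {g h m : G} {i j k l : Fin 4} {lam : ℝ} {C : Cham V}

theorem Str.cl_iff (e : Y.E x y g) : Y.cl x y.1 c ↔ Y.cl y x.1 c :=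
  ⟨fun a => a.move e, fun a => a.move (Y.symm e)⟩

theorem Str.thin.move (t : Y.thin x y.1) (e : Y.E x y g) : Y.thin y x.1 := fun k h1 h2 => by
  simpa only [pair_comm x.1, Str.cl_iff e] using t k h2 h1

theorem Str.thin.le (t : Y.thin x (C j)) (hC : C ∈ X.ch) (e : x.1 = C i) (h1 : i ≠ k) (h2 : j ≠ k) :
    pr (X.star {x.1, C j}) (fun D => ¬ Y.cl x (C j) (D k)) ≤ 1 / 100 :=
  t k (by rw [e, X.col_ch C hC]; exact h1.symm) (by rw [X.col_ch C hC]; exact h2.symm)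

theorem star2_ne (hC : C ∈ X.ch) (e : x.1 = C i) : (X.star {x.1, C j}).Nonempty :=
  ⟨C, by rw [e]; exact (mem_star2 hC).2 ⟨hC, rfl, rfl⟩⟩

theorem star1_ne (hC : C ∈ X.ch) (e : x.1 = C i) : (X.star {x.1}).Nonempty :=
  ⟨C, by rw [e]; exact (mem_star1 hC).2 ⟨hC, rfl⟩⟩

theorem Str.fat_le (h1 : i ≠ j) : N X Y.P i (fun C x => ¬ Y.thin x (C j)) ≤ 200 * Y.w := by
  obtain ⟨k, l, a1, a2, a3, a4, -, a6⟩ := ex_others i j h1
  have key : ∀ k, i ≠ k → j ≠ k → N X Y.P i (fun C x => 1 / 100 <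
      pr (X.star {x.1, C j}) fun D => ¬ Y.cl x (C j) (D k)) ≤ 100 * Y.w := fun k b1 b2 => by
    have := (mkE (X := X) (P := Y.P) (i := i) (j := j) (τ := 1 / 100)
      (fun x b => 1 / 100 < pr (X.star {x.1, b}) fun D => ¬ Y.cl x b (D k))
      (fun x b D => ¬ Y.cl x b (D k)) fun _ _ _ _ _ s => s.le).trans
      ((N_mono fun _ _ _ _ _ s => s.2).trans (Y.nc_le h1 b1 b2))
    linarith
  refine (N_or fun C hC x _ e t => ?_).trans
    ((add_le_add (key k a1 a3) (key l a2 a4)).trans_eq (by ring))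
  simp only [Str.thin, not_forall, not_le, e, X.col_ch C hC] at t ⊢
  obtain ⟨u, u1, u2, u3⟩ := t
  rcases a6 u u1 u2 with rfl | rfl
  exacts [Or.inl u3, Or.inr u3]

theorem Str.bad_le : N X Y.P i (fun _ x => ¬ Y.good x) ≤ 1200000 * Y.w := by
  obtain ⟨j, k, l, a1, a2, a3, -, -, -, a6⟩ := ex_three i
  have key : ∀ j, i ≠ j → N X Y.P i (fun _ x => 1 / 2000 <
      pr (X.star {x.1}) fun D => ¬ Y.thin x (D j)) ≤ 400000 * Y.w := fun j b1 => by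
    have := (mkV (X := X) (P := Y.P) (i := i) (τ := 1 / 2000)
      (fun x => 1 / 2000 < pr (X.star {x.1}) fun D => ¬ Y.thin x (D j))
      (fun x D => ¬ Y.thin x (D j)) fun _ _ _ s => s.le).trans
      ((N_mono fun _ _ _ _ _ s => s.2).trans (Y.fat_le b1))
    linarith
  refine (N_or fun C hC x _ e t => ?_).trans ((add_le_add (key j a1) ((N_or
    fun _ _ _ _ _ s => s).trans (add_le_add (key k a2) (key l a3)))).trans_eq (by ring))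
  simp only [Str.good, not_forall, not_le, e, X.col_ch C hC] at t ⊢
  obtain ⟨u, u1, u3⟩ := t
  rcases a6 u u1 with rfl | rfl | rfl
  exacts [Or.inl u3, Or.inr (Or.inl u3), Or.inr (Or.inr u3)]

theorem Str.via_cl (v : Y.via y d z m) (h : Y.cl y z.1 d) : Y.E y z m := by
  obtain ⟨u, p, q, rfl, a1, a2, rfl⟩ := v
  have := (h.symm.move a1).edge (Y.symm a1) a2
  simpa using this

theorem Str.via_uniq {z' : Pt V} {m' : G} (v : Y.via y d z m) (v' : Y.via y d z' m') (e : z.1 = z'.1) :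
    z = z' ∧ m = m' := by
  obtain ⟨u, p, q, b1, a1, a2, rfl⟩ := v
  obtain ⟨u', p', q', b2, a1', a2', rfl⟩ := v'
  obtain ⟨rfl, rfl⟩ := Y.func a1 a1' (b1.trans b2.symm)
  obtain ⟨rfl, rfl⟩ := Y.func a2 a2' e
  exact ⟨rfl, rfl⟩

theorem Str.via_step (v : Y.via y d z m) (h1 : Y.cl y a d) (h2 : Y.cl z a d) : Y.via y a z m := by
  obtain ⟨u, p, q, rfl, a1, a2, rfl⟩ := v
  obtain ⟨x, g, e1, e2, -⟩ := h1.has
  obtain ⟨x', g', e3, e4, -⟩ := h2.has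
  have b1 := (e1 ▸ h1).edge e2 a1
  have b2 := (e3 ▸ h2).edge e4 (Y.symm a2)
  obtain ⟨rfl, b3⟩ := Y.func (Y.symm b1) (Y.symm b2) (e1.trans e3.symm)
  refine ⟨x, g, g'⁻¹, e1, e2, Y.symm e4, ?_⟩
  rw [inv_inj, inv_mul_eq_iff_eq_mul] at b3
  simp [b3, mul_assoc]

variable (hm : X.Mix lam) (h0 : 0 ≤ lam) (hl : lam ≤ 1 / 10000)
  (h1 : i ≠ j) (h2 : i ≠ k) (h3 : i ≠ l) (h4 : j ≠ k) (h5 : j ≠ l) (h6 : k ≠ l)
include hm h0 h1 h2 h3 h4 h5 h6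

theorem Str.thinmix (S : Pt V → V → V → Prop) (h : ∀ x b c, S x b c → Y.thin x b) :
    N X Y.P i (fun C x => S x (C j) (C k) ∧ ¬ Y.cl x (C j) (C l)) ≤
      (1 / 100 + lam) * N X Y.P i (fun C x => S x (C j) (C k)) + lam * Y.w :=
  (upE hm h2 h3 h6 h4 h5 S (fun x b d => ¬ Y.cl x b d) fun _ hC _ _ e s =>
    (h _ _ _ s).le hC e h3 h5).trans (by gcongr; exact Y.nc_le h1 h3 h5)

omit h3 h5 h6 in
theorem Str.goodmix (S : Pt V → V → Prop) (h : ∀ x b, S x b → Y.good x) :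
    N X Y.P i (fun C x => S x (C j) ∧ ¬ Y.thin x (C k)) ≤
      (1 / 2000 + lam) * N X Y.P i (fun C x => S x (C j)) + lam * (200 * Y.w) :=
  (upV hm h1 h2 h4 S (fun x c => ¬ Y.thin x c) fun C hC _ _ e s =>
    h _ _ s k (by rw [e, X.col_ch C hC]; exact h2.symm)).trans (by gcongr; exact Y.fat_le h2)

include hl in
theorem Str.hot_le : N X Y.P i (fun C x => Y.hot x (C j) k l) ≤ 9000 * (lam * Y.w) := by
  have a1 := mkE (X := X) (P := Y.P) (i := i) (j := j) (fun x b => Y.hot x b k l)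
    (fun x _ D => ¬ Y.cl x (D k) (D l)) fun _ _ _ _ _ s => s.2
  have a2 := Str.goodmix hm h0 h1 h2 h4 (fun x b => Y.hot x b k l) fun _ _ s => s.1
  have a3 := Str.thinmix hm h0 h2 h1 h3 h4.symm h6 h5 (fun x c b => Y.hot x b k l ∧ Y.thin x c)
    fun _ _ _ s => s.2
  have a4 : N X Y.P i (fun C x => Y.hot x (C j) k l ∧ Y.thin x (C k)) ≤ _ :=
    N_mono (B := fun C x => Y.hot x (C j) k l) fun _ _ _ _ _ s => s.1
  have a5 := a1.trans ((N_or fun C _ x _ _ s => (em (Y.thin x (C k))).imp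
    (fun t => ⟨⟨s.1, t⟩, s.2⟩) fun t => ⟨s.1, t⟩).trans (add_le_add a3 a2))
  have n := N_nonneg (X := X) (P := Y.P) (i := i) (A := fun C x => Y.hot x (C j) k l)
  have n' := N_nonneg (X := X) (P := Y.P) (i := i) (A := fun C x => Y.hot x (C j) k l ∧ Y.thin x (C k))
  nlinarith [mul_le_mul_of_nonneg_right hl n, mul_le_mul_of_nonneg_right hl n',
    mul_nonneg h0 Y.w_nonneg]

include hl in
omit h0 in
theorem Str.special (hE : Y.EdgeMin) (hC : C ∈ X.ch) (ey : y.1 = C j) (ez : z.1 = C k) (hn : ¬ Y.E y z m)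
    (hb : 1 / 4 < pr (X.star {C j, C k}) fun D => Y.via y (D l) z m) :
    7 / 100 ≤ pr (X.star {C j, C k}) (fun D => ¬ Y.cl y (D i) (D l)) +
      pr (X.star {C j, C k}) (fun D => ¬ Y.cl z (D i) (D l)) := by
  have a1 := hE C hC i j k l h1 h2 h3 h4 h5 h6 y z m ey ez hn
  have hs : (X.star {C j, C k}).Nonempty := ⟨C, (mem_star2 hC).2 ⟨hC, rfl, rfl⟩⟩
  have hc : ∀ a ∈ ({C j, C k} : Finset V), X.col a ≠ i ∧ X.col a ≠ l := by
    simp [X.col_ch C hC, h1.symm, h2.symm, h5, h6]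
  have b1 := (abs_le.1 (hm _ (by simp) i l h3 hc (fun a => ¬ Y.via y a z m) fun d => Y.via y d z m)).1
  have b2 := (abs_le.1 (hm _ (by simp) i l h3 hc (fun a => Y.via y a z m) fun d => ¬ Y.via y d z m)).1
  rw [pr_not hs] at b1 b2
  have c1 := pr_or (s := X.star {C j, C k}) (A := fun D => ¬ Y.via y (D i) z m ∧ Y.via y (D l) z m)
    (B := fun D => ¬ Y.cl y (D i) (D l)) (A' := fun D => ¬ Y.cl z (D i) (D l)) fun D _ s =>
      not_and_or.1 fun t => s.1 (Str.via_step s.2 t.1 t.2)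
  have c2 := pr_or (s := X.star {C j, C k}) (A := fun D => Y.via y (D i) z m ∧ ¬ Y.via y (D l) z m)
    (B := fun D => ¬ Y.cl y (D i) (D l)) (A' := fun D => ¬ Y.cl z (D i) (D l)) fun D _ s =>
      not_and_or.1 fun t => s.2 (Str.via_step s.1 t.1.symm t.2.symm)
  have d1 := pr_le_one (s := X.star {C j, C k}) (A := fun D => Y.via y (D i) z m)
  have d2 := pr_le_one (s := X.star {C j, C k}) (A := fun D => Y.via y (D l) z m)
  have d3 := pr_nonneg (s := X.star {C j, C k}) (A := fun D => Y.via y (D i) z m)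
  generalize pr (X.star {C j, C k}) (fun D => Y.via y (D i) z m) = α at *
  generalize pr (X.star {C j, C k}) (fun D => Y.via y (D l) z m) = β at *
  rcases le_total α (7 / 10) with e | e
  · nlinarith [mul_nonneg (sub_nonneg.2 e) (sub_nonneg.2 hb.le),
      mul_nonneg (sub_nonneg.2 hl) (by linarith : 0 ≤ 1 - α + β)]
  · nlinarith [mul_nonneg (sub_nonneg.2 e) (by linarith : 0 ≤ 7 / 10 - β),
      mul_nonneg (sub_nonneg.2 hl) (by linarith : 0 ≤ α + (1 - β))]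

include hl in
theorem Str.open_le (hE : Y.EdgeMin) : N X Y.P i (fun C x => Y.ok x (C j) ∧ Y.ok x (C k) ∧
    ¬ Y.cl x (C j) (C k)) ≤ 30000 * (lam * Y.w) := by
  let M : Pt V → V → V → Prop := fun x b c => Y.ok x b ∧ Y.ok x c ∧ ¬ Y.cl x b c
  let M' : Pt V → V → V → Prop := fun y c a => Y.nb (fun x => M x y.1 c) y a
  let Q : Pt V → V → V → Pt V → G → Prop := fun y c a z m =>
    z.1 = c ∧ Y.via y a z m ∧ ¬ Y.E y z m ∧ Y.good y ∧ Y.good z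
  let big : Pt V → V → V → Prop := fun y c a => ∃ z m, Q y c a z m ∧
    1 / 4 < pr (X.star {y.1, c}) fun D => Y.via y (D l) z m
  let κ : Pt V → V → V → Set (Pt V × G) := fun y c a => {ζ | ζ.1.1 = c ∧ Y.via y a ζ.1 ζ.2}
  let S : Pt V → V → V → Prop := fun y c a =>
    M' y c a ∧ ¬ Y.thin y c ∧ ¬ big y c a ∧ ∃ z m, Q y c a z m
  change N X Y.P i (fun C x => M x (C j) (C k)) ≤ _
  have m1 : N X Y.P j (fun C y => M' y (C k) (C i)) ≤ N X Y.P i fun C x => M x (C j) (C k) :=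
    Y.rebase fun C _ y _ e ⟨x, g, a1, a2, a3⟩ => ⟨x, g, a1, a2, e ▸ a3⟩
  have a1 := Str.thinmix hm h0 h1 h2 h3 h4 h5 h6 M fun _ _ _ s => s.1.1
  have a2 := Str.thinmix hm h0 h2 h1 h3 h4.symm h6 h5 (fun x c b => M x b c) fun _ _ _ s => s.2.1.1
  have a3 := Str.thinmix hm h0 h4 h1.symm h5 h2.symm h6 h3 (fun y c a => M' y c a ∧ Y.thin y c)
    fun _ _ _ s => s.2
  have a3' : N X Y.P j (fun C y => M' y (C k) (C i) ∧ Y.thin y (C k)) ≤ _ :=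
    (N_mono fun _ _ _ _ _ s => s.1).trans m1
  have a4 := levelE (P := Y.P) (τ := 1 / 4) hm h0 h1.symm h5 h3 h2.symm h6 S (fun y c => ¬ Y.thin y c) κ
    (fun _ _ _ s => s.2.1) fun y c a ⟨_, _, s, z, m, q⟩ => by
      refine (pr_mono fun D _ e => ?_).trans (not_lt.1 fun t => s ⟨z, m, q, t⟩)
      exact (show (z, m) ∈ κ y c (D l) from e ▸ ⟨q.1, q.2.1⟩).2
  have a4' : N X Y.P j (fun C y => S y (C k) (C i)) ≤ _ := (N_mono fun _ _ _ _ _ s => s.1).trans m1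
  have a5 := Y.fat_le h4
  have a6 := Y.hot_le hm h0 hl h4 h1.symm h5 h2.symm h6 h3
  have a7 := (Y.N_nb (i := j) _).trans ((Y.N_nb (i := i) _).trans
    (Y.hot_le hm h0 hl h4.symm h2.symm h6 h1.symm h5 h3))
  have b1 : N X Y.P j (fun C y => big y (C k) (C i)) ≤ _ :=
    (N_or fun C hC y _ e ⟨z, m, ⟨q1, q2, q3, q4, q5⟩, t⟩ => by
      have := Str.special hm hl h1 h2 h3 h4 h5 h6 hE hC e q1 q3 (e ▸ t)
      by_cases u : 35 / 1000 ≤ pr (X.star {C j, C k}) fun D => ¬ Y.cl y (D i) (D l)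
      · exact Or.inl ⟨q4, e ▸ u⟩
      · obtain ⟨x, p, q, c1, c2, c3, -⟩ := q2
        exact Or.inr ⟨x, p, c1, c2, z, q, q1, c3, q5, by rw [q1, pair_comm]; linarith⟩).trans
      (add_le_add a6 a7)
  have b2 : N X Y.P i (fun C x => M x (C j) (C k) ∧ Y.cl x (C j) (C l) ∧ Y.cl x (C k) (C l)) ≤
      N X Y.P j fun C y => M' y (C k) (C i) ∧ ∃ z m, Q y (C k) (C i) z m ∧ Y.via y (C l) z m :=
    Y.rebase fun C _ x _ e ⟨s, t1, t2⟩ => by
      obtain ⟨y, g, c1, c2, c3⟩ := s.1.2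
      obtain ⟨z, h, c4, c5, c6⟩ := s.2.1.2
      obtain ⟨v, p, c7, c8, -⟩ := t1.symm.has
      rw [← c1, ← c7] at t1
      rw [← c4, ← c7] at t2
      refine ⟨y, g, c1, c2, ⟨x, _, e, Y.symm c2, c1 ▸ s⟩, z, g⁻¹ * h, ⟨c4, ⟨x, _, _, e, Y.symm c2, c5, rfl⟩,
        fun t => s.2.2 ⟨y, z, g, h, c1, c4, c2, c5, t⟩, c3, c6⟩,
        v, _, _, c7, t1.edge c2 c8, Y.symm (t2.edge c5 c8), by simp [mul_assoc]⟩
  have b3 : N X Y.P j (fun C y => M' y (C k) (C i) ∧ ∃ z m, Q y (C k) (C i) z m ∧ Y.via y (C l) z m) ≤ _ :=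
    (N_or fun C _ y _ _ ⟨s, z, m, q, v⟩ => by
      by_cases t : Y.thin y (C k)
      · exact Or.inl ⟨⟨s, t⟩, fun u => q.2.2.1 (Str.via_cl v (q.1 ▸ u))⟩
      by_cases u : big y (C k) (C i)
      · exact Or.inr (Or.inl u)
      refine Or.inr (Or.inr ⟨⟨s, t, u, z, m, q⟩, Set.ext fun ζ => ⟨fun r => ?_, fun r => ?_⟩⟩)
      · obtain ⟨r1, r2⟩ := Str.via_uniq v r.2 (q.1.trans r.1.symm)
        exact ⟨r.1, r1 ▸ r2 ▸ q.2.1⟩
      · obtain ⟨r1, r2⟩ := Str.via_uniq q.2.1 r.2 (q.1.trans r.1.symm)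
        exact ⟨r.1, r1 ▸ r2 ▸ v⟩).trans
      (add_le_add a3 ((N_or fun _ _ _ _ _ s => s).trans (add_le_add b1 a4)))
  have b4 : N X Y.P i (fun C x => M x (C j) (C k)) ≤ _ :=
    (N_or fun C _ x _ _ s => by
      by_cases t : Y.cl x (C j) (C l)
      · by_cases u : Y.cl x (C k) (C l)
        exacts [Or.inr (Or.inr ⟨s, t, u⟩), Or.inr (Or.inl ⟨s, u⟩)]
      · exact Or.inl ⟨s, t⟩).trans
      (add_le_add a1 ((N_or fun _ _ _ _ _ s => s).trans (add_le_add a2 (b2.trans b3))))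
  have n := N_nonneg (X := X) (P := Y.P) (i := i) (A := fun C x => M x (C j) (C k))
  nlinarith [mul_le_mul_of_nonneg_right hl n, mul_le_mul_of_nonneg_left a3' h0,
    mul_le_mul_of_nonneg_left a4' h0, mul_le_mul_of_nonneg_left a5 h0, mul_nonneg h0 Y.w_nonneg]

end Pool.Agent.Lib.MP_b138e1_al
end

-- part Pool.Agent.Lib.MP_b138e1_al.Trim
section

/-! Keeping only the thin edges between good points. -/

set_option autoImplicit false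

namespace Pool.Agent.Lib.MP_b138e1_al

open scoped Classical
open Finset

variable {V : Type} {X : Cx V} {G : Type} [Group G] {Λ : Labels X G} (Y : Str Λ)

def Str.odd (x : Pt V) (b : V) (k l : Fin 4) : Prop :=
  Y.good x ∧ Y.nb Y.good x b ∧ 1 / 100 ≤ pr (X.star {x.1, b}) (fun D => ¬ Y.cl x b (D k)) ∧
    1 / 4 ≤ pr (X.star {x.1, b}) fun D => Y.cl x b (D l)

/-- missing edges -/
noncomputable def Str.miss (i j : Fin 4) : ℝ := N X Y.P i fun C x => ¬ Y.has x (C j)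

/-- open corners with both edges present -/
noncomputable def Str.opn (i j k : Fin 4) : ℝ :=
  N X Y.P i fun C x => Y.has x (C j) ∧ Y.has x (C k) ∧ ¬ Y.cl x (C j) (C k)

/-- corners with both edges missing -/
noncomputable def Str.dbl (i j k : Fin 4) : ℝ :=
  N X Y.P i fun C x => ¬ Y.has x (C j) ∧ ¬ Y.has x (C k)

/-- the thin edges between good points -/
noncomputable def Str.trim : Str Λ where
  P := Y.P.filter Y.good
  E x y g := Y.E x y g ∧ Y.good x ∧ Y.good y ∧ Y.thin x y.1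
  symm e := ⟨Y.symm e.1, e.2.2.1, e.2.1, e.2.2.2.move e.1⟩
  func e e' := Y.func e.1 e'.1
  mem e := mem_filter.2 ⟨Y.mem e.1, e.2.1⟩
  lab e := Y.lab e.1

variable {Y} {x y z : Pt V} {a b c d : V} {g h m : G} {i j k l : Fin 4} {lam : ℝ} {C : Cham V}

theorem Str.thin.has (t : Y.thin x (C j)) (hC : C ∈ X.ch) (e : x.1 = C i) (h1 : i ≠ j) :
    Y.has x (C j) := by
  obtain ⟨k, -, a1, -, a2, -⟩ := ex_others i j h1
  have := t.le hC e a1 a2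
  rw [pr_not (star2_ne hC e)] at this
  obtain ⟨D, -, hD⟩ := pr_exists (s := X.star {x.1, C j}) (A := fun D => Y.cl x (C j) (D k)) (by linarith)
  exact hD.has

theorem Str.odd.move (o : Y.odd x y.1 k l) (e : Y.E x y g) : Y.odd y x.1 k l :=
  ⟨o.2.1.of e, ⟨x, _, rfl, Y.symm e, o.1⟩, by simpa only [pair_comm x.1, Str.cl_iff e] using o.2.2⟩

variable (hm : X.Mix lam) (h0 : 0 ≤ lam) (hl : lam ≤ 1 / 10000)
  (h1 : i ≠ j) (h2 : i ≠ k) (h3 : i ≠ l) (h4 : j ≠ k) (h5 : j ≠ l) (h6 : k ≠ l)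
include hm h0 h1 h2 h3 h4 h5 h6

theorem Str.odd_half : N X Y.P i (fun C x => (Y.odd x (C j) k l ∧ ¬ Y.cl x (C j) (C k)) ∧
    ¬ Y.cl x (C k) (C l)) ≤
    (1 / 100 + lam) * N X Y.P i (fun C x => Y.odd x (C j) k l ∧ ¬ Y.cl x (C j) (C k)) +
    (1 / 2000 + lam) * N X Y.P i (fun C x => Y.odd x (C j) k l) + 201 * (lam * Y.w) := by
  have a2 := Str.goodmix hm h0 h1 h2 h4 (fun x b => Y.odd x b k l) fun _ _ s => s.1
  have a3 := Str.thinmix hm h0 h2 h1 h3 h4.symm h6 h5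
    (fun x c b => (Y.odd x b k l ∧ ¬ Y.cl x b c) ∧ Y.thin x c) fun _ _ _ s => s.2
  have a4 : N X Y.P i (fun C x => (Y.odd x (C j) k l ∧ ¬ Y.cl x (C j) (C k)) ∧ Y.thin x (C k)) ≤ _ :=
    N_mono (B := fun C x => Y.odd x (C j) k l ∧ ¬ Y.cl x (C j) (C k)) fun _ _ _ _ _ s => s.1
  refine ((N_or fun C _ x _ _ s => (em (Y.thin x (C k))).imp
    (fun t => ⟨⟨s.1, t⟩, s.2⟩) fun t => ⟨s.1.1, t⟩).trans (add_le_add a3 a2)).trans ?_
  nlinarith [mul_le_mul_of_nonneg_left a4 h0]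

include hl in
theorem Str.odd_le : N X Y.P i (fun C x => Y.odd x (C j) k l) ≤ 500000 * (lam * Y.w) := by
  have a1 := mkE (X := X) (P := Y.P) (i := i) (j := j) (fun x b => Y.odd x b k l)
    (fun x b D => ¬ Y.cl x b (D k)) fun _ _ _ _ _ s => s.2.2.1
  have a2 := loE (P := Y.P) (τ := 1 / 4) hm h2 h3 h6 h4 h5 (fun x b c => Y.odd x b k l ∧ ¬ Y.cl x b c)
    (fun x b d => Y.odd x b k l ∧ Y.cl x b d) fun _ _ _ _ _ s =>
      s.1.2.2.2.trans (pr_mono fun _ _ t => ⟨s.1, t⟩)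
  have a3 : N X Y.P i (fun C x => Y.odd x (C j) k l ∧ Y.cl x (C j) (C l)) ≤ _ :=
    N_mono (B := fun C x => Y.odd x (C j) k l) fun _ _ _ _ _ s => s.1
  have a4 := Y.odd_half hm h0 h1 h2 h3 h4 h5 h6
  have a5 := Y.odd_half hm h0 h1.symm h4 h5 h2 h3 h6
  have a6 : N X Y.P j (fun C y => Y.odd y (C i) k l ∧ ¬ Y.cl y (C i) (C k)) ≤
      N X Y.P i (fun C x => Y.odd x (C j) k l ∧ ¬ Y.cl x (C j) (C k)) :=
    Y.rebase fun C _ y _ e s => by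
      obtain ⟨x, g, c1, c2, -⟩ := s.1.2.1
      exact ⟨x, g, c1, c2, e ▸ (c1 ▸ s.1).move c2, fun t => s.2 (c1 ▸ (e ▸ t).move (Y.symm c2))⟩
  have a7 : N X Y.P j (fun C y => Y.odd y (C i) k l) ≤ N X Y.P i (fun C x => Y.odd x (C j) k l) :=
    Y.rebase fun C _ y _ e s => by
      obtain ⟨x, g, c1, c2, -⟩ := s.2.1
      exact ⟨x, g, c1, c2, e ▸ (c1 ▸ s).move c2⟩
  have a8 : N X Y.P i (fun C x => (Y.odd x (C j) k l ∧ ¬ Y.cl x (C j) (C k)) ∧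
      Y.odd x (C j) k l ∧ Y.cl x (C j) (C l)) ≤ _ :=
    (N_or fun C _ x _ e s => by
      by_cases t : Y.cl x (C k) (C l)
      · obtain ⟨y, g, c1, c2, -⟩ := s.1.1.2.1
        refine Or.inr ⟨y, g, c1, c2, ⟨e ▸ (c1 ▸ s.1.1).move c2,
          fun u => s.1.2 (c1 ▸ (e ▸ u).move (Y.symm c2))⟩, fun u => s.1.2 ?_⟩
        obtain ⟨v, p, c3, c4, -⟩ := s.2.2.symm.has
        have d1 : Y.cl x y.1 v.1 := c1 ▸ c3 ▸ s.2.2
        have d2 := (c3 ▸ t).symm.move c4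
        have d3 := (c3 ▸ u).symm.move (d1.edge c2 c4)
        exact c1 ▸ Str.tet (Y.symm c4) (d1.symm.move c4) d2 d3
      · exact Or.inl ⟨s.1, t⟩).trans (add_le_add a4 ((Y.N_nb (i := i) _).trans a5))
  have n := N_nonneg (X := X) (P := Y.P) (i := i)
    (A := fun C x => Y.odd x (C j) k l ∧ ¬ Y.cl x (C j) (C k))
  have n' := N_nonneg (X := X) (P := Y.P) (i := i) (A := fun C x => Y.odd x (C j) k l)
  nlinarith [mul_le_mul_of_nonneg_right hl n, mul_le_mul_of_nonneg_right hl n',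
    mul_le_mul_of_nonneg_left a3 h0, mul_le_mul_of_nonneg_left a6 h0, mul_le_mul_of_nonneg_left a7 h0,
    mul_nonneg h0 Y.w_nonneg]

include hl in
theorem Str.onefat_le : N X Y.P i (fun C x => Y.good x ∧ Y.nb Y.good x (C j) ∧ ¬ Y.thin x (C j) ∧
    Y.cl x (C j) (C k) ∧ Y.thin x (C k) ∧ Y.nb (fun u => Y.thin u (C j)) x (C k)) ≤
    1500000 * (lam * Y.w) := by
  let T : Pt V → V → V → Prop := fun x b c => Y.good x ∧ Y.nb Y.good x b ∧ ¬ Y.thin x b ∧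
    Y.cl x b c ∧ Y.thin x c ∧ Y.nb (fun u => Y.thin u b) x c
  let T' : Pt V → V → V → Prop := fun u b a => Y.nb (fun x => T x b u.1) u a ∧ Y.thin u b
  let p : Pt V → V → ℝ := fun x b => pr (X.star {x.1, b}) fun D => Y.cl x b (D l)
  change N X Y.P i (fun C x => T x (C j) (C k)) ≤ _
  have a1 := Str.thinmix hm h0 h2 h1 h3 h4.symm h6 h5 (fun x c b => T x b c) fun _ _ _ s => s.2.2.2.2.1
  have a2 := Str.thinmix hm h0 h4.symm h2.symm h6 h1.symm h5 h3 T' fun _ _ _ s => s.2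
  have a2' : N X Y.P k (fun C u => T' u (C j) (C i)) ≤ N X Y.P i fun C x => T x (C j) (C k) :=
    Y.rebase fun C _ u _ e ⟨⟨x, g, c1, c2, c3⟩, _⟩ => ⟨x, g, c1, c2, e ▸ c3⟩
  have a3 := upE (P := Y.P) (τ := 1 / 4) hm h2 h3 h6 h4 h5 (fun x b c => T x b c ∧ p x b ≤ 1 / 4)
    (fun x b d => ¬ Y.thin x b ∧ Y.cl x b d) fun _ _ _ _ _ s =>
      (pr_mono fun _ _ t => t.2).trans s.2
  have a3' : N X Y.P i (fun C x => T x (C j) (C k) ∧ p x (C j) ≤ 1 / 4) ≤ _ :=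
    N_mono (B := fun C x => T x (C j) (C k)) fun _ _ _ _ _ s => s.1
  have a4 : N X Y.P i (fun C x => ¬ Y.thin x (C j) ∧ Y.cl x (C j) (C l)) ≤ _ :=
    (N_mono fun _ _ _ _ _ s => s.1).trans (Y.fat_le h1)
  have a5 := Y.odd_le hm h0 hl h1 h2 h3 h4 h5 h6
  have a6 := Y.odd_le hm h0 hl h1 h3 h2 h5 h4 h6.symm
  have b1 : N X Y.P i (fun C x => T x (C j) (C k) ∧ ¬ p x (C j) ≤ 1 / 4) ≤ _ :=
    (N_or fun C hC x _ e ⟨s, t⟩ => by
      by_cases u : 1 / 100 ≤ pr (X.star {x.1, C j}) fun D => ¬ Y.cl x (C j) (D k)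
      · exact Or.inl ⟨s.1, s.2.1, u, (not_le.1 t).le⟩
      have v := s.2.2.1
      simp only [Str.thin, not_forall, not_le] at v
      obtain ⟨r, r1, r2, r3⟩ := v
      rw [e, X.col_ch C hC] at r1
      rw [X.col_ch C hC] at r2
      rcases other_two i j k l r h1 h2 h3 h4 h5 h6 r1 r2 with rfl | rfl
      · exact absurd r3.le u
      rw [pr_not (star2_ne hC e)] at u
      exact Or.inr ⟨s.1, s.2.1, r3.le, by linarith⟩).trans (add_le_add a5 a6)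
  have b2 : N X Y.P i (fun C x => T x (C j) (C k) ∧ ¬ Y.cl x (C j) (C l)) ≤ _ :=
    (N_or fun C _ x _ e ⟨s, t⟩ => by
      by_cases v : Y.cl x (C k) (C l)
      · obtain ⟨u, g, c1, c2, c3⟩ := s.2.2.2.2.2
        exact Or.inr ⟨u, g, c1, c2, ⟨⟨x, _, e, Y.symm c2, c1 ▸ s⟩, c3⟩, fun r => t
          (Str.tet (Y.symm c2) ((c1 ▸ s.2.2.2.1.symm).move c2) ((c1 ▸ v).move c2) r)⟩
      · exact Or.inl ⟨s, v⟩).trans (add_le_add a1 ((Y.N_nb (i := i) _).trans a2))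
  have b3 : N X Y.P i (fun C x => T x (C j) (C k)) ≤ _ :=
    (N_or fun C _ x _ _ s => by
      by_cases t : Y.cl x (C j) (C l)
      · by_cases u : p x (C j) ≤ 1 / 4
        exacts [Or.inr (Or.inl ⟨⟨s, u⟩, s.2.2.1, t⟩), Or.inr (Or.inr ⟨s, u⟩)]
      · exact Or.inl ⟨s, t⟩).trans (add_le_add b2 ((N_or fun _ _ _ _ _ s => s).trans (add_le_add a3 b1)))
  have n := N_nonneg (X := X) (P := Y.P) (i := i) (A := fun C x => T x (C j) (C k))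
  nlinarith [mul_le_mul_of_nonneg_right hl n, mul_le_mul_of_nonneg_left a3' h0,
    mul_le_mul_of_nonneg_left a2' h0, mul_le_mul_of_nonneg_left a4 h0, mul_nonneg h0 Y.w_nonneg]

include hl in
theorem Str.trim_opn (hE : Y.EdgeMin) : Y.trim.opn i j k ≤ 2000000 * (lam * Y.w) := by
  have a1 := Y.open_le hm h0 hl h1 h2 h3 h4 h5 h6 hE
  have a2 := (Y.N_nb (i := i) _).trans (Y.onefat_le hm h0 hl h4 h1.symm h5 h2.symm h6 h3)
  refine (N_or' fun C _ x hx e ⟨⟨y, g, c1, c2, _⟩, ⟨z, h, c3, c4, _⟩, t⟩ => ?_).trans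
    ((add_le_add a1 a2).trans (by nlinarith [mul_nonneg h0 Y.w_nonneg]))
  have hx' := (mem_filter.1 hx).1
  by_cases u : Y.cl x (C j) (C k)
  · have d1 : Y.cl x y.1 z.1 := c1 ▸ c3 ▸ u
    have d2 := d1.edge c2.1 c4.1
    refine Or.inr ⟨hx', y, g, c1, c2.1, c2.2.2.1, ⟨z, _, c3, d2, c4.2.2.1⟩, fun v => t
      ⟨y, z, g, h, c1, c3, c2, c4, d2, c2.2.2.1, c4.2.2.1, c3 ▸ v⟩, e ▸ c3 ▸ (d1.move c2.1).symm,
      e ▸ c2.2.2.2.move c2.1, x, _, e, Y.symm c2.1, c3 ▸ c4.2.2.2⟩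
  · exact Or.inl ⟨hx', ⟨c1 ▸ c2.2.2.2, y, g, c1, c2.1, c2.2.2.1⟩,
      ⟨c3 ▸ c4.2.2.2, z, h, c3, c4.1, c4.2.2.1⟩, u⟩

omit hm h0 h2 h3 h4 h5 h6

theorem Str.trim_miss : Y.trim.miss i j ≤ 1300000 * Y.w := by
  have a2 := (Y.N_nb (i := i) _).trans (Y.bad_le (i := j))
  refine (N_or' fun C hC x hx e t => ?_).trans
    ((add_le_add (Y.fat_le h1) a2).trans (by linarith [Y.w_nonneg]))
  have hx' := mem_filter.1 hx
  by_cases u : Y.thin x (C j)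
  · obtain ⟨y, g, c1, c2, -⟩ := u.has hC e h1
    exact Or.inr ⟨hx'.1, y, g, c1, c2, fun v => t ⟨y, g, c1, ⟨c2, hx'.2, v, c1 ▸ u⟩, trivial⟩⟩
  · exact Or.inl ⟨hx'.1, u⟩

theorem Str.trim_d : Y.lost Y.trim i j + Y.new Y.trim i ≤ 2500000 * Y.w := by
  have a0 : Y.new Y.trim i = 0 := N_false fun _ _ x hx _ e => e (mem_filter.1 hx).1
  have a1 := Y.trim_miss h1
  have a2 : Y.lost Y.trim i j ≤ _ := (N_or' fun C _ x hx _ ⟨y, g, c1, c2, c3⟩ => by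
    by_cases u : Y.good x
    · refine Or.inl ⟨mem_filter.2 ⟨hx, u⟩, fun ⟨y', g', d1, d2, _⟩ => c3 ?_⟩
      obtain ⟨rfl, rfl⟩ := Y.func c2 d2.1 (c1.trans d1.symm)
      exact d2
    · exact Or.inr ⟨hx, u⟩).trans (add_le_add a1 Y.bad_le)
  linarith

end Pool.Agent.Lib.MP_b138e1_al
end

-- part Pool.Agent.Lib.MP_b138e1_al.Path
section

/-! Transport along paths in a link, among the points that miss the centre of the link. -/

set_option autoImplicit false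

namespace Pool.Agent.Lib.MP_b138e1_al

open scoped Classical
open Finset

variable {V : Type} {X : Cx V} {G : Type} [Group G] {Λ : Labels X G} (Y : Str Λ)

noncomputable def K (P : Finset (Pt V)) (p : Pt V → Prop) : ℝ := (P.filter p).card

section K
variable {P Q : Finset (Pt V)} {p q r : Pt V → Prop}

theorem K_nonneg : 0 ≤ K P p := Nat.cast_nonneg _

theorem K_rel (R : Pt V → Pt V → Prop) (h : ∀ x ∈ P, p x → ∃ y ∈ Q, q y ∧ R x y)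
    (hi : ∀ x x' y, R x y → R x' y → x = x') : K P p ≤ K Q q := by
  have := fun x : {x // x ∈ P.filter p} => h x.1 (mem_filter.1 x.2).1 (mem_filter.1 x.2).2
  choose f h1 h2 h3 using this
  rw [K, K, Nat.cast_le, ← card_attach]
  exact card_le_card_of_injOn f (fun x _ => by simp [h1 x, h2 x]) fun x _ x' _ e =>
    Subtype.ext (hi _ _ _ (h3 x) (e ▸ h3 x'))

theorem K_mono (h : ∀ x ∈ P, p x → q x) : K P p ≤ K P q :=
  K_rel Eq (fun x hx a => ⟨x, hx, h x hx a, rfl⟩) fun _ _ _ a b => a.trans b.symm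

theorem K_or (h : ∀ x ∈ P, p x → q x ∨ r x) : K P p ≤ K P q + K P r := by
  rw [K, K, K, ← Nat.cast_add, Nat.cast_le]
  refine le_trans (card_le_card fun x hx => ?_) (card_union_le _ _)
  simp only [mem_union, mem_filter] at hx ⊢
  exact (h x hx.1 hx.2).imp (fun a => ⟨hx.1, a⟩) fun a => ⟨hx.1, a⟩

theorem K_false (h : ∀ x ∈ P, ¬ p x) : K P p = 0 := by simp [K, filter_false_of_mem h]

theorem N_eq (i : Fin 4) (A : Cham V → Pt V → Prop) :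
    N X P i A = ∑ C ∈ X.ch, K P fun x => x.1 = C i ∧ A C x := by
  rw [N, NS, sum_comm]
  refine sum_congr rfl fun C _ => ?_
  rw [K, card_filter, Nat.cast_sum]
  exact sum_congr rfl fun x _ => by split_ifs <;> simp

end K

def Str.T (b : V) : List V → Pt V → Pt V → G → Prop
  | [], _, _, _ => False
  | a :: l, x, y, g => x.1 = a ∧ x ∈ Y.P ∧ ¬ Y.has x b ∧
      ((l = [] ∧ y = x ∧ g = 1) ∨ ∃ u p q, Y.E x u p ∧ Str.T b l u y q ∧ g = p * q)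

def Str.Hcl (b : V) (x : Pt V) (c d : V) : Prop :=
  ∃ u v p q, u.1 = c ∧ v.1 = d ∧ Y.E x u p ∧ Y.E x v q ∧ Y.E u v (p⁻¹ * q) ∧ ¬ Y.has u b ∧ ¬ Y.has v b

noncomputable def Str.cnt (b a c d : V) : ℝ := K Y.P fun x => x.1 = a ∧ ¬ Y.has x b ∧ ¬ Y.Hcl b x c d

noncomputable def Str.bad (C : Cham V) : ℝ :=
  ∑ σ : Equiv.Perm (Fin 4), Y.cnt (C (σ 0)) (C (σ 1)) (C (σ 2)) (C (σ 3))

noncomputable def Str.loss (b : V) (l l' : List V) : ℝ :=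
  K Y.P fun x => ∃ y g, Y.T b l x y g ∧ ¬ Y.T b l' x y g

noncomputable def Str.und (b a : V) (l : List V) : ℝ :=
  K Y.P fun x => x.1 = a ∧ ¬ Y.has x b ∧ ¬ ∃ y g, Y.T b l x y g

noncomputable def Str.unc (b e : V) (l : List V) : ℝ :=
  K Y.P fun y => y.1 = e ∧ ¬ Y.has y b ∧ ¬ ∃ x g, Y.T b l x y g

variable {Y} {a b c d : V} {l l' : List V} {x x' y y' : Pt V} {g g' : G}

theorem Str.T.head (h : Y.T b (a :: l) x y g) : x.1 = a := h.1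

theorem Str.T.fst (h : Y.T b l x y g) : x ∈ Y.P ∧ ¬ Y.has x b := by
  cases l
  exacts [h.elim, ⟨h.2.1, h.2.2.1⟩]

theorem Str.T.snd (h : Y.T b l x y g) : y ∈ Y.P ∧ ¬ Y.has y b := by
  induction l generalizing x g with
  | nil => exact h.elim
  | cons a l ih =>
    obtain ⟨-, h1, h2, ⟨-, rfl, -⟩ | ⟨u, p, q, -, h3, -⟩⟩ := h
    exacts [⟨h1, h2⟩, ih h3]

theorem Str.T.same (h : Y.T b l x y g) (h' : Y.T b l x' y' g') : x.1 = x'.1 := by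
  cases l
  exacts [h.elim, h.1.trans h'.1.symm]

theorem Str.T.func (h : Y.T b l x y g) (h' : Y.T b l x y' g') : y = y' ∧ g = g' := by
  induction l generalizing x g g' with
  | nil => exact h.elim
  | cons a l ih =>
    obtain ⟨-, -, -, ⟨rfl, rfl, rfl⟩ | ⟨u, p, q, h2, h3, rfl⟩⟩ := h <;>
    obtain ⟨-, -, -, ⟨e, rfl, rfl⟩ | ⟨u', p', q', h2', h3', rfl⟩⟩ := h'
    · exact ⟨rfl, rfl⟩
    · exact h3'.elim
    · subst e; exact h3.elim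
    · obtain ⟨rfl, rfl⟩ := Y.func h2 h2' (h3.same h3')
      obtain ⟨rfl, rfl⟩ := ih h3 h3'
      exact ⟨rfl, rfl⟩

theorem Str.T.inj (h : Y.T b l x y g) (h' : Y.T b l x' y g') : x = x' := by
  induction l generalizing x x' g g' with
  | nil => exact h.elim
  | cons a l ih =>
    obtain ⟨e1, -, -, ⟨rfl, rfl, rfl⟩ | ⟨u, p, q, h2, h3, rfl⟩⟩ := h <;>
    obtain ⟨e2, -, -, ⟨e, rfl, rfl⟩ | ⟨u', p', q', h2', h3', rfl⟩⟩ := h'
    · rfl
    · exact h3'.elim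
    · subst e; exact h3.elim
    · obtain rfl := ih h3 h3'
      exact (Y.func (Y.symm h2) (Y.symm h2') (e1.trans e2.symm)).1

theorem Str.T.last (h : Y.T b (a :: l) x y g) : y.1 = (a :: l).getLast (List.cons_ne_nil _ _) := by
  induction l generalizing a x g with
  | nil =>
    obtain ⟨e, -, -, ⟨-, rfl, -⟩ | ⟨u, p, q, -, h3, -⟩⟩ := h
    exacts [e, h3.elim]
  | cons c l ih =>
    obtain ⟨-, -, -, ⟨e, -⟩ | ⟨u, p, q, -, h3, -⟩⟩ := h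
    exacts [absurd e (List.cons_ne_nil _ _), ih h3]

theorem Str.T.lab (h : Y.T b (a :: l) x y g) (hc : (a :: l).IsChain (X.Tri b)) {k : G}
    (hk : Λ.L b a k) : Λ.L b y.1 (k * g) := by
  induction l generalizing a x g k with
  | nil =>
    obtain ⟨e, -, -, ⟨-, rfl, rfl⟩ | ⟨u, p, q, -, h3, -⟩⟩ := h
    exacts [by simpa [e] using hk, h3.elim]
  | cons c l ih =>
    obtain ⟨rfl, -, -, ⟨e, -⟩ | ⟨u, p, q, h2, h3, rfl⟩⟩ := h
    · exact absurd e (List.cons_ne_nil _ _)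
    rw [List.isChain_cons_cons] at hc
    obtain rfl := h3.head
    exact mul_assoc k p q ▸ ih h3 hc.2 (Λ.mul hc.1 hk (Y.lab h2))

theorem Str.T_split (l₁ l₂ : List V) : Y.T b (l₁ ++ a :: l₂) x y g ↔
    ∃ u p q, Y.T b (l₁ ++ [a]) x u p ∧ Y.T b (a :: l₂) u y q ∧ g = p * q := by
  induction l₁ generalizing x g with
  | nil =>
    refine ⟨fun h => ⟨x, 1, g, ⟨h.1, h.2.1, h.2.2.1, Or.inl ⟨rfl, rfl, rfl⟩⟩, h, (one_mul g).symm⟩, ?_⟩
    rintro ⟨u, p, q, ⟨-, -, -, ⟨-, rfl, rfl⟩ | ⟨_, _, _, -, h3, -⟩⟩, h, rfl⟩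
    exacts [(one_mul q).symm ▸ h, h3.elim]
  | cons c l ih =>
    constructor
    · rintro ⟨e1, e2, e3, ⟨e, -⟩ | ⟨u, p, q, h2, h3, rfl⟩⟩
      · simp at e
      obtain ⟨v, r, s, h4, h5, rfl⟩ := ih.1 h3
      exact ⟨v, p * r, s, ⟨e1, e2, e3, Or.inr ⟨u, p, r, h2, h4, rfl⟩⟩, h5, (mul_assoc _ _ _).symm⟩
    · rintro ⟨v, _, s, ⟨e1, e2, e3, ⟨e, -⟩ | ⟨u, p, r, h2, h4, rfl⟩⟩, h5, rfl⟩
      · simp at e
      exact ⟨e1, e2, e3, Or.inr ⟨u, p, r * s, h2, ih.2 ⟨v, r, s, h4, h5, rfl⟩, mul_assoc _ _ _⟩⟩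

theorem Str.T_snoc (h : Y.T b (a :: l ++ [c]) x y g) :
    ∃ u p q, Y.T b (a :: l) x u p ∧ Y.E u y q ∧ g = p * q := by
  induction l generalizing a x g with
  | nil =>
    obtain ⟨e1, e2, e3, ⟨e, -⟩ | ⟨u, p, q, h2, ⟨-, -, -, ⟨-, rfl, rfl⟩ | ⟨_, _, _, -, h3, -⟩⟩, rfl⟩⟩ := h
    · simp at e
    · exact ⟨x, 1, p, ⟨e1, e2, e3, Or.inl ⟨rfl, rfl, rfl⟩⟩, h2, by simp⟩
    · exact h3.elim
  | cons d l ih =>
    obtain ⟨e1, e2, e3, ⟨e, -⟩ | ⟨u, p, q, h2, h3, rfl⟩⟩ := h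
    · simp at e
    obtain ⟨v, r, s, h4, h5, rfl⟩ := ih h3
    exact ⟨v, p * r, s, ⟨e1, e2, e3, Or.inr ⟨u, p, r, h2, h4, rfl⟩⟩, h5, (mul_assoc _ _ _).symm⟩

theorem Str.T_cons (h : Y.T b (a :: c :: l) x y g) :
    ∃ u p q, u.1 = c ∧ Y.E x u p ∧ Y.T b (c :: l) u y q ∧ g = p * q := by
  obtain ⟨-, -, -, ⟨e, -⟩ | ⟨u, p, q, h2, h3, rfl⟩⟩ := h
  exacts [absurd e (List.cons_ne_nil _ _), ⟨u, p, q, h3.head, h2, h3, rfl⟩]

theorem Str.loss_local (l₁ m m' : List V) (h : ∀ u y q, Y.Hcl b u c d → Y.T b (a :: m) u y q →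
    Y.T b (a :: m') u y q) : Y.loss b (l₁ ++ a :: m) (l₁ ++ a :: m') ≤ Y.cnt b a c d :=
  K_rel (fun x u => ∃ p, Y.T b (l₁ ++ [a]) x u p) (fun x _ ⟨y, g, h1, h2⟩ => by
    obtain ⟨u, p, q, h3, h4, rfl⟩ := (Str.T_split _ _).1 h1
    exact ⟨u, h4.fst.1, ⟨h4.head, h4.fst.2, fun t => h2 ((Str.T_split _ _).2
      ⟨u, p, q, h3, h u y q t h4, rfl⟩)⟩, p, h3⟩) fun _ _ _ ⟨_, h1⟩ ⟨_, h2⟩ => h1.inj h2

theorem Str.loss_tri (l₁ l₂ : List V) :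
    Y.loss b (l₁ ++ a :: c :: l₂) (l₁ ++ a :: d :: c :: l₂) ≤ Y.cnt b a c d ∧
    Y.loss b (l₁ ++ a :: d :: c :: l₂) (l₁ ++ a :: c :: l₂) ≤ Y.cnt b a c d := by
  refine ⟨Str.loss_local _ _ _ ?_, Str.loss_local _ _ _ ?_⟩
  · rintro x y g ⟨u, v, p, q, rfl, rfl, a1, a2, a3, -, a5⟩ h
    obtain ⟨u', p', r, b1, b2, b3, rfl⟩ := Str.T_cons h
    obtain ⟨rfl, rfl⟩ := Y.func b2 a1 b1
    exact ⟨h.1, h.2.1, h.2.2.1, Or.inr ⟨v, q, _, a2, ⟨rfl, Str.mem' a2, a5,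
      Or.inr ⟨_, _, r, Y.symm a3, b3, rfl⟩⟩, by simp [mul_assoc]⟩⟩
  · rintro x y g ⟨u, v, p, q, rfl, rfl, a1, a2, a3, -, -⟩ h
    obtain ⟨v', q', r, b1, b2, b3, rfl⟩ := Str.T_cons h
    obtain ⟨rfl, rfl⟩ := Y.func b2 a2 b1
    obtain ⟨u', s, r', c1, c2, c3, rfl⟩ := Str.T_cons b3
    obtain ⟨rfl, rfl⟩ := Y.func c2 (Y.symm a3) c1
    exact ⟨h.1, h.2.1, h.2.2.1, Or.inr ⟨_, p, r', a1, c3, by simp [mul_assoc]⟩⟩

theorem Str.loss_back (l₁ l₂ : List V) :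
    Y.loss b (l₁ ++ a :: l₂) (l₁ ++ a :: c :: a :: l₂) ≤ Y.cnt b a c d ∧
    Y.loss b (l₁ ++ a :: c :: a :: l₂) (l₁ ++ a :: l₂) ≤ Y.cnt b a c d := by
  refine ⟨Str.loss_local _ _ _ ?_, Str.loss_local _ _ _ ?_⟩
  · rintro x y g ⟨u, v, p, q, rfl, rfl, a1, -, -, a4, -⟩ h
    exact ⟨h.1, h.2.1, h.2.2.1, Or.inr ⟨u, p, _, a1, ⟨rfl, Str.mem' a1, a4,
      Or.inr ⟨x, _, g, Y.symm a1, h, rfl⟩⟩, by simp⟩⟩
  · rintro x y g - h
    obtain ⟨u, p, r, -, b2, b3, rfl⟩ := Str.T_cons h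
    obtain ⟨x', s, r', c1, c2, c3, rfl⟩ := Str.T_cons b3
    obtain ⟨rfl, rfl⟩ := Y.func c2 (Y.symm b2) (c1.trans h.1.symm)
    simpa using c3

theorem Str.loss_trans (l'' : List V) : Y.loss b l l'' ≤ Y.loss b l l' + Y.loss b l' l'' :=
  K_or fun x _ ⟨y, g, h1, h2⟩ => (em (Y.T b l' x y g)).symm.imp (fun t => ⟨y, g, h1, t⟩)
    fun t => ⟨y, g, t, h2⟩

theorem Str.loss_self : Y.loss b l l = 0 := K_false fun _ _ ⟨_, _, h1, h2⟩ => h2 h1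

theorem Str.und_one : Y.und b a [a] = 0 := K_false fun x hx ⟨h1, h2, h3⟩ =>
  h3 ⟨x, 1, h1, hx, h2, Or.inl ⟨rfl, rfl, rfl⟩⟩

theorem Str.unc_one : Y.unc b a [a] = 0 := K_false fun x hx ⟨h1, h2, h3⟩ =>
  h3 ⟨x, 1, h1, hx, h2, Or.inl ⟨rfl, rfl, rfl⟩⟩

theorem Str.und_cons : Y.und b a (a :: c :: l) ≤ Y.cnt b a c d + Y.und b c (c :: l) :=
  (K_or (r := fun x => x.1 = a ∧ ¬ Y.has x b ∧ Y.Hcl b x c d ∧ ¬ ∃ y g, Y.T b (a :: c :: l) x y g)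
    fun x _ h => (em (Y.Hcl b x c d)).symm.imp (fun t => ⟨h.1, h.2.1, t⟩)
      fun t => ⟨h.1, h.2.1, t, h.2.2⟩).trans (add_le_add_right (K_rel
    (fun x u => x.1 = a ∧ ∃ p, Y.E x u p)
    (fun x hx ⟨h1, h2, ⟨u, _, p, _, a1, _, a3, _, _, a6, _⟩, h4⟩ => ⟨u, Str.mem' a3,
      ⟨a1, a6, fun ⟨y, g, t⟩ => h4 ⟨y, _, h1, hx, h2, Or.inr ⟨u, p, g, a3, t, rfl⟩⟩⟩, h1, p, a3⟩)
    fun _ _ _ ⟨e, _, h⟩ ⟨e', _, h'⟩ => (Y.func (Y.symm h) (Y.symm h') (e.trans e'.symm)).1) _)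

theorem Str.unc_cons {e : V} : Y.unc b e (a :: c :: l) ≤ Y.cnt b c a d + Y.unc b e (c :: l) :=
  (K_or (q := fun y => (∃ u g, Y.T b (c :: l) u y g) ∧ ¬ ∃ x g, Y.T b (a :: c :: l) x y g)
    fun y _ h => (em (∃ u g, Y.T b (c :: l) u y g)).imp (fun t => ⟨t, h.2.2⟩)
      fun t => ⟨h.1, h.2.1, t⟩).trans (add_le_add_left (K_rel
    (fun y u => ∃ g, Y.T b (c :: l) u y g)
    (fun y _ ⟨⟨u, g, t⟩, h⟩ => ⟨u, t.fst.1, ⟨t.head, t.fst.2, fun ⟨x, _, p, _, a1, _, a3, _, _, a6, _⟩ =>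
      h ⟨x, _, a1, Str.mem' a3, a6, Or.inr ⟨u, _, g, Y.symm a3, t, rfl⟩⟩⟩, g, t⟩)
    fun _ _ _ ⟨_, h⟩ ⟨_, h'⟩ => (h.func h').1) _)

theorem perm_ex4 : ∀ i j k l : Fin 4, i ≠ j → i ≠ k → i ≠ l → j ≠ k → j ≠ l → k ≠ l →
    ∃ σ : Equiv.Perm (Fin 4), σ 0 = i ∧ σ 1 = j ∧ σ 2 = k ∧ σ 3 = l := by decide

theorem Str.le_bad (C : Cham V) {i j k l : Fin 4} (h1 : i ≠ j) (h2 : i ≠ k) (h3 : i ≠ l) (h4 : j ≠ k)
    (h5 : j ≠ l) (h6 : k ≠ l) : Y.cnt (C i) (C j) (C k) (C l) ≤ Y.bad C := by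
  obtain ⟨σ, rfl, rfl, rfl, rfl⟩ := perm_ex4 i j k l h1 h2 h3 h4 h5 h6
  exact single_le_sum (f := fun σ : Equiv.Perm (Fin 4) =>
    Y.cnt (C (σ 0)) (C (σ 1)) (C (σ 2)) (C (σ 3))) (fun _ _ => K_nonneg) (mem_univ σ)

theorem Str.bad_nonneg (C : Cham V) : 0 ≤ Y.bad C := sum_nonneg fun _ _ => K_nonneg

theorem Str.sum_bad {m e : ℝ} (ho : ∀ i j k, i ≠ j → i ≠ k → j ≠ k → Y.opn i j k ≤ m)
    (hd : ∀ i j k, i ≠ j → i ≠ k → j ≠ k → Y.dbl i j k ≤ e) :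
    ∑ C ∈ X.ch, Y.bad C ≤ 24 * (2 * e + 3 * m) := by
  simp only [Str.bad]
  rw [sum_comm]
  refine sum_perm_le fun σ => ?_
  generalize ht : σ 0 = t
  generalize hi : σ 1 = i
  generalize hj : σ 2 = j
  generalize hk : σ 3 = k
  have h1 : i ≠ t := by simp [← hi, ← ht]
  have h2 : j ≠ t := by simp [← hj, ← ht]
  have h3 : k ≠ t := by simp [← hk, ← ht]
  have h4 : i ≠ j := by simp [← hi, ← hj]
  have h5 : i ≠ k := by simp [← hi, ← hk]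
  have h6 : j ≠ k := by simp [← hj, ← hk]
  have b1 := (Y.N_nb (i := i) _).trans (ho j i t h4.symm h2 h1)
  have b2 := (Y.N_nb (i := i) _).trans (ho k i t h5.symm h3 h1)
  refine (N_eq i fun C x => ¬ Y.has x (C t) ∧ ¬ Y.Hcl (C t) x (C j) (C k)).symm.trans_le
    ((N_or fun C _ x _ ex ⟨s, u⟩ => ?_).trans ((add_le_add ((N_or fun _ _ _ _ _ s => s).trans
      (add_le_add (hd i t j h1 h4 h2.symm) (hd i t k h1 h5 h3.symm)))
      ((N_or fun _ _ _ _ _ s => s).trans (add_le_add (ho i j k h4 h5 h6)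
        ((N_or fun _ _ _ _ _ s => s).trans (add_le_add b1 b2))))).trans_eq (by ring)))
  by_cases c1 : Y.has x (C j)
  swap
  · exact Or.inl (Or.inl ⟨s, c1⟩)
  by_cases c2 : Y.has x (C k)
  swap
  · exact Or.inl (Or.inr ⟨s, c2⟩)
  by_cases c3 : Y.cl x (C j) (C k)
  swap
  · exact Or.inr (Or.inl ⟨c1, c2, c3⟩)
  obtain ⟨y, z, g, h, d1, d2, d3, d4, d5⟩ := c3
  have key : ∀ y g, Y.E x y g → Y.has y (C t) →
      Y.has y (C i) ∧ Y.has y (C t) ∧ ¬ Y.cl y (C i) (C t) := fun y g e1 e2 =>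
    ⟨⟨x, _, ex, Y.symm e1, trivial⟩, e2, fun r => s ((ex ▸ r).move (Y.symm e1)).symm.has⟩
  by_cases c4 : Y.has y (C t)
  · exact Or.inr (Or.inr (Or.inl ⟨y, g, d1, d3, key y g d3 c4⟩))
  exact Or.inr (Or.inr (Or.inr ⟨z, h, d2, d4, key z h d4
    (not_not.1 fun c5 => u ⟨y, z, g, h, d1, d2, d3, d4, d5, c4, c5⟩)⟩))

end Pool.Agent.Lib.MP_b138e1_al
end

-- part Pool.Agent.Lib.MP_b138e1_al.Cone
section

/-! Averaging a cone over the automorphisms of the link. -/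

set_option autoImplicit false

namespace Pool.Agent.Lib.MP_b138e1_al

open scoped Classical
open Finset

variable {V : Type} {X : Cx V} {G : Type} [Group G] {Λ : Labels X G} {Y : Str Λ} {a b c d : V}

theorem col_ne {C : Cham V} (h1 : C (X.col a) = a) (h2 : C (X.col b) = b) (h : a ≠ b) :
    X.col a ≠ X.col b := fun e => h (by rw [← h1, e, h2])

theorem adj_iff : X.Adj a b ↔ ∃ C ∈ X.ch, ∃ i j, i ≠ j ∧ C i = a ∧ C j = b := by
  refine ⟨fun ⟨h, C, hC⟩ => ?_, ?_⟩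
  · simp only [mem_star, mem_insert, mem_singleton, forall_eq_or_imp, forall_eq] at hC
    exact ⟨C, hC.1, _, _, col_ne hC.2.1 hC.2.2 h, hC.2⟩
  · rintro ⟨C, hC, i, j, h, rfl, rfl⟩
    exact adj_ch hC h

theorem tri_iff : X.Tri a b c ↔
    ∃ C ∈ X.ch, ∃ i j k, i ≠ j ∧ i ≠ k ∧ j ≠ k ∧ C i = a ∧ C j = b ∧ C k = c := by
  refine ⟨fun ⟨h1, h2, h3, C, hC⟩ => ?_, ?_⟩
  · simp only [mem_star, mem_insert, mem_singleton, forall_eq_or_imp, forall_eq] at hC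
    exact ⟨C, hC.1, _, _, _, col_ne hC.2.1 hC.2.2.1 h1, col_ne hC.2.1 hC.2.2.2 h2,
      col_ne hC.2.2.1 hC.2.2.2 h3, hC.2⟩
  · rintro ⟨C, hC, i, j, k, h1, h2, h3, rfl, rfl, rfl⟩
    exact tri_ch hC h1 h2 h3

theorem tet_ex (h : X.Tet a b c d) : ∃ C ∈ X.ch, ∃ i j k l, i ≠ j ∧ i ≠ k ∧ i ≠ l ∧ j ≠ k ∧ j ≠ l ∧
    k ≠ l ∧ C i = a ∧ C j = b ∧ C k = c ∧ C l = d := by
  obtain ⟨h1, h2, h3, h4, h5, h6, C, hC⟩ := h
  simp only [mem_star, mem_insert, mem_singleton, forall_eq_or_imp, forall_eq] at hC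
  obtain ⟨e0, e1, e2, e3, e4⟩ := hC
  exact ⟨C, e0, _, _, _, _, col_ne e1 e2 h1, col_ne e1 e3 h2, col_ne e1 e4 h3, col_ne e2 e3 h4,
    col_ne e2 e4 h5, col_ne e3 e4 h6, e1, e2, e3, e4⟩

theorem mem_star_of {C : Cham V} (hC : C ∈ X.ch) {t : Fin 4} (e : C t = b) : C ∈ X.star {b} :=
  e ▸ (mem_star1 hC).2 ⟨hC, rfl⟩

theorem of_mem_star {C : Cham V} (hC : C ∈ X.star {b}) : C ∈ X.ch ∧ C (X.col b) = b := by
  simpa [mem_star] using hC

def Cx.aut (X : Cx V) (b : V) : Subgroup (Equiv.Perm V) where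
  carrier := {σ | ∀ D : Cham V, D ∈ X.star {b} ↔ σ ∘ D ∈ X.star {b}}
  mul_mem' {σ τ} h h' D := (h' D).trans (h (τ ∘ D))
  one_mem' _ := Iff.rfl
  inv_mem' {σ} h D := by
    have := h (⇑σ⁻¹ ∘ D)
    rw [this, show σ ∘ ⇑σ⁻¹ ∘ D = D from funext fun t => by simp]

theorem aut_ch {σ : Equiv.Perm V} (h : σ ∈ X.aut b) {C : Cham V} (hC : C ∈ X.ch) {t : Fin 4}
    (e : C t = b) : σ ∘ C ∈ X.ch ∧ σ (C t) = b := by
  have := of_mem_star ((h C).1 (mem_star_of hC e))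
  rw [← e, X.col_ch C hC, e] at this
  exact ⟨this.1, e ▸ this.2⟩

theorem aut_adj {σ : Equiv.Perm V} (h : σ ∈ X.aut b) (t : X.Adj b a) : X.Adj b (σ a) := by
  obtain ⟨C, hC, i, j, h1, e, rfl⟩ := adj_iff.1 t
  exact adj_iff.2 ⟨_, (aut_ch h hC e).1, i, j, h1, (aut_ch h hC e).2, rfl⟩

theorem aut_tri {σ : Equiv.Perm V} (h : σ ∈ X.aut b) (t : X.Tri b a c) : X.Tri b (σ a) (σ c) := by
  obtain ⟨C, hC, i, j, k, h1, h2, h3, e, rfl, rfl⟩ := tri_iff.1 t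
  exact tri_iff.2 ⟨_, (aut_ch h hC e).1, i, j, k, h1, h2, h3, (aut_ch h hC e).2, rfl, rfl⟩

theorem sum_aut (σ : X.aut b) (f : Cham V → ℝ) :
    ∑ C ∈ X.star {b}, f (σ.1 ∘ C) = ∑ C ∈ X.star {b}, f C :=
  sum_nbij' (fun C => σ.1 ∘ C) (fun C => ⇑σ.1⁻¹ ∘ C) (fun C h => (σ.2 C).1 h)
    (fun C h => ((X.aut b).inv_mem σ.2 C).1 h) (fun C _ => funext fun t => by simp)
    (fun C _ => funext fun t => by simp) fun _ _ => rfl

variable [Fintype V]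

theorem avg_aut (ht : X.LinkTransitive) (f : Cham V → ℝ) {C : Cham V} (hC : C ∈ X.star {b}) :
    (X.star {b}).card * ∑ σ : X.aut b, f (σ.1 ∘ C) =
      Fintype.card (X.aut b) * ∑ D ∈ X.star {b}, f D := by
  have h : ∀ D ∈ X.star {b}, ∑ σ : X.aut b, f (σ.1 ∘ C) = ∑ σ : X.aut b, f (σ.1 ∘ D) := fun D hD => by
    obtain ⟨τ, h1, rfl⟩ := ht b C hC D hD
    exact (Fintype.sum_equiv (Equiv.mulRight (⟨τ, h1⟩ : X.aut b)) _ _ fun σ => rfl).symm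
  rw [← nsmul_eq_mul, ← sum_const, sum_congr rfl h, sum_comm]
  simp [sum_aut]

section
variable {A : ℝ} (hA : ∀ C ∈ X.star {b}, ∑ σ : X.aut b, Y.bad (σ.1 ∘ C) ≤ A)
include hA

theorem sum_cnt {C : Cham V} (hC : C ∈ X.ch) {i j k l : Fin 4} (h1 : i ≠ j) (h2 : i ≠ k) (h3 : i ≠ l)
    (h4 : j ≠ k) (h5 : j ≠ l) (h6 : k ≠ l) (e : C i = b) :
    ∑ σ : X.aut b, Y.cnt b (σ.1 (C j)) (σ.1 (C k)) (σ.1 (C l)) ≤ A :=
  (sum_le_sum fun σ _ => by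
    have := Y.le_bad (σ.1 ∘ C) h1 h2 h3 h4 h5 h6
    rwa [Function.comp_apply, (aut_ch σ.2 hC e).2] at this).trans (hA C (mem_star_of hC e))

theorem sum_cnt' (t : X.Tri b a c) : ∃ d, ∑ σ : X.aut b, Y.cnt b (σ.1 a) (σ.1 c) (σ.1 d) ≤ A ∧
    ∑ σ : X.aut b, Y.cnt b (σ.1 c) (σ.1 a) (σ.1 d) ≤ A := by
  obtain ⟨C, hC, i, j, k, h1, h2, h3, e, rfl, rfl⟩ := tri_iff.1 t
  obtain ⟨l, h4, h5, h6⟩ := ex_fourth i j k h1 h2 h3
  exact ⟨C l, sum_cnt hA hC h1 h2 h4 h3 h5 h6 e, sum_cnt hA hC h2 h1 h4 h3.symm h6 h5 e⟩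

theorem sum_step {l l' : List V} (h : X.Step b l l') :
    ∑ σ : X.aut b, Y.loss b (l.map σ.1) (l'.map σ.1) ≤ A ∧
    ∑ σ : X.aut b, Y.loss b (l'.map σ.1) (l.map σ.1) ≤ A := by
  obtain ⟨l₁, l₂, a, c, ⟨d, t, rfl, rfl⟩ | ⟨t, rfl, rfl⟩⟩ := h
  · obtain ⟨C, hC, i, j, k, l, h1, h2, h3, h4, h5, h6, e, rfl, rfl, rfl⟩ := tet_ex t
    have := sum_cnt hA hC h1 h3 h2 h5 h4 h6.symm e
    simp only [List.map_append, List.map_cons]
    exact ⟨(sum_le_sum fun σ _ => (Str.loss_tri _ _).1).trans this,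
      (sum_le_sum fun σ _ => (Str.loss_tri _ _).2).trans this⟩
  · obtain ⟨d, this, -⟩ := sum_cnt' hA t
    simp only [List.map_append, List.map_cons]
    exact ⟨(sum_le_sum fun σ _ => (Str.loss_back _ _).1).trans this,
      (sum_le_sum fun σ _ => (Str.loss_back _ _).2).trans this⟩

theorem sum_htp (h0 : 0 ≤ A) {n : ℕ} {l l' : List V} (h : X.Htp b n l l') :
    ∑ σ : X.aut b, Y.loss b (l.map σ.1) (l'.map σ.1) ≤ n * A := by
  induction n generalizing l with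
  | zero =>
    obtain rfl := h
    simp [Str.loss_self]
  | succ n ih =>
    obtain ⟨m, h1, h2⟩ := h
    have : ∑ σ : X.aut b, Y.loss b (l.map σ.1) (m.map σ.1) ≤ A := by
      rcases h1 with rfl | h1 | h1
      exacts [by simpa [Str.loss_self] using h0, (sum_step hA h1).1, (sum_step hA h1).2]
    refine (sum_le_sum fun σ _ => Str.loss_trans (l' := m.map σ.1) _).trans ?_
    rw [sum_add_distrib]
    push_cast
    linarith [ih h2]

theorem sum_und {l : List V} (h : (a :: l).IsChain (X.Tri b)) :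
    ∑ σ : X.aut b, Y.und b (σ.1 a) ((a :: l).map σ.1) ≤ l.length * A ∧
    ∑ σ : X.aut b, Y.unc b (σ.1 ((a :: l).getLast (List.cons_ne_nil _ _))) ((a :: l).map σ.1) ≤
      l.length * A := by
  induction l generalizing a with
  | nil => simp [Str.und_one, Str.unc_one]
  | cons c l ih =>
    rw [List.isChain_cons_cons] at h
    obtain ⟨d, h1, h2⟩ := sum_cnt' hA h.1
    obtain ⟨h3, h4⟩ := ih h.2
    simp only [List.map_cons, List.length_cons, List.getLast_cons_cons] at h3 h4 ⊢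
    push_cast
    constructor
    · refine (sum_le_sum fun σ _ => Str.und_cons (d := σ.1 d)).trans ?_
      rw [sum_add_distrib]
      linarith
    · refine (sum_le_sum fun σ _ => Str.unc_cons (d := σ.1 d)).trans ?_
      rw [sum_add_distrib]
      linarith

end

/-- apex points whose section is not parallel along the edge `a c` -/
noncomputable def Str.U (Y : Str Λ) (b a₀ : V) (l l' : List V) : ℝ :=
  K Y.P fun x₀ => x₀.1 = a₀ ∧ ¬ Y.has x₀ b ∧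
    ¬ ∃ x z g h, Y.T b l x₀ x g ∧ Y.E x z h ∧ Y.T b l' x₀ z (g * h)

omit [Fintype V] in
theorem Str.U_le {l l' : List V} :
    Y.U b a (a :: l) l' ≤ Y.und b a (a :: l ++ [c]) + Y.loss b (a :: l ++ [c]) l' :=
  K_or fun x _ ⟨h1, h2, h3⟩ => (em (∃ y g, Y.T b (a :: l ++ [c]) x y g)).symm.imp
    (fun t => ⟨h1, h2, t⟩) fun ⟨y, g, t⟩ => ⟨y, g, t, fun s => by
      obtain ⟨u, p, q, c1, c2, rfl⟩ := Str.T_snoc t
      exact h3 ⟨u, y, p, q, c1, c2, s⟩⟩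

theorem good_cone {R : ℕ} (ht : X.LinkTransitive) (hc : X.Cone R) (Y : Str Λ) (b : V) :
    ∃ (a₀ : V) (Q : V → List V), X.Adj b a₀ ∧
      (∀ a, X.Adj b a → ∀ x₀ x g, Y.T b (Q a) x₀ x g →
        x₀.1 = a₀ ∧ x.1 = a ∧ ∀ h, Λ.L b a₀ h → Λ.L b a (h * g)) ∧
      ∑ C ∈ X.star {b}, ∑ π : Equiv.Perm (Fin 4), (if π 0 = X.col b then
        Y.U b a₀ (Q (C (π 1))) (Q (C (π 2))) + Y.unc b (C (π 1)) (Q (C (π 1))) else 0) ≤
      24 * (3 * R + 1) * ∑ C ∈ X.star {b}, Y.bad C := by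
  obtain ⟨a₀, P, h1, h2, h3⟩ := hc b
  set n : ℝ := ((X.star {b}).card : ℝ) with hn
  set B := ∑ C ∈ X.star {b}, Y.bad C with hB
  have n0 : 0 < n := by
    obtain ⟨C, hC, e⟩ := X.cover b
    exact Nat.cast_pos.2 (card_pos.2 ⟨C, mem_star_of hC e⟩)
  have B0 : 0 ≤ B := sum_nonneg fun C _ => Y.bad_nonneg C
  set A := Fintype.card (X.aut b) * B / n with hA
  have A0 : 0 ≤ A := by positivity
  have hA' : ∀ C ∈ X.star {b}, ∑ σ : X.aut b, Y.bad (σ.1 ∘ C) ≤ A := fun C hC => by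
    rw [hA, le_div_iff₀ n0, mul_comm, avg_aut ht Y.bad hC]
  let F : X.aut b → Cham V → Equiv.Perm (Fin 4) → ℝ := fun σ C π => if π 0 = X.col b then
    Y.U b (σ.1 a₀) ((a₀ :: P (C (π 1))).map σ.1) ((a₀ :: P (C (π 2))).map σ.1) +
      Y.unc b (σ.1 (C (π 1))) ((a₀ :: P (C (π 1))).map σ.1) else 0
  have key : ∀ C ∈ X.star {b}, ∀ π, ∑ σ, F σ C π ≤ (3 * R + 1) * A := fun C hC π => by
    by_cases e : π 0 = X.col b
    swap
    · simp only [F, if_neg e, sum_const_zero]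
      positivity
    simp only [F, if_pos e]
    obtain ⟨c1, c2⟩ := of_mem_star hC
    rw [← e] at c2
    have t : X.Tri b (C (π 1)) (C (π 2)) := c2 ▸ tri_ch c1 (by simp) (by simp) (by simp)
    obtain ⟨d1, d2, d3⟩ := h2 (C (π 1)) (c2 ▸ adj_ch c1 (by simp))
    have e1 := (sum_und hA' d2).2
    rw [d3] at e1
    have e2 := (sum_und hA' (l := P (C (π 1)) ++ [C (π 2)]) (d2.append (.singleton _) (by
      rw [List.getLast?_eq_some_getLast (List.cons_ne_nil _ _), d3]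
      simpa using t))).1
    have e3 := sum_htp hA' A0 (h3 _ _ t)
    have d1' : ((P (C (π 1))).length : ℝ) ≤ R := by exact_mod_cast d1
    rw [sum_add_distrib]
    have e4 : ∑ σ : X.aut b, Y.U b (σ.1 a₀) ((a₀ :: P (C (π 1))).map σ.1) ((a₀ :: P (C (π 2))).map σ.1)
        ≤ _ := (sum_le_sum fun σ _ => by
          simpa using Str.U_le (c := σ.1 (C (π 2)))).trans_eq sum_add_distrib |>.trans
        (add_le_add (by simpa using e2) (by simpa using e3))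
    nlinarith [mul_le_mul_of_nonneg_right d1' A0]
  obtain ⟨σ, -, hσ⟩ := exists_le_of_sum_le (s := (univ : Finset (X.aut b))) univ_nonempty
    (f := fun σ => ∑ C ∈ X.star {b}, ∑ π, F σ C π) (g := fun _ => 24 * (3 * R + 1) * B) (by
      rw [sum_comm]
      refine (sum_le_sum fun C hC => (sum_comm.trans_le (sum_perm_le (key C hC)))).trans_eq ?_
      rw [sum_const, sum_const, nsmul_eq_mul, nsmul_eq_mul, card_univ, ← hn, hA]
      field_simp)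
  refine ⟨σ.1 a₀, fun a => (a₀ :: P (σ.1⁻¹ a)).map σ.1, aut_adj σ.2 h1, fun a ha x₀ x g t => ?_, ?_⟩
  · obtain ⟨-, d2, d3⟩ := h2 _ (aut_adj ((X.aut b).inv_mem σ.2) ha)
    have e : x.1 = a := by
      have := Str.T.last t
      rw [this]
      exact (List.getLast_map (l := a₀ :: P (σ.1⁻¹ a)) _).trans (by rw [d3]; simp)
    exact ⟨t.head, e, fun h hh => e ▸ Str.T.lab t
      (List.isChain_map_of_isChain σ.1 (fun _ _ => aut_tri σ.2) d2) hh⟩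
  · rw [← sum_aut σ]
    simpa [F] using hσ

end Pool.Agent.Lib.MP_b138e1_al
end

-- part Pool.Agent.Lib.MP_b138e1_al.Fill
section

/-! Filling the holes with new points. -/

set_option autoImplicit false

namespace Pool.Agent.Lib.MP_b138e1_al

open scoped Classical
open Finset

variable {V : Type} [Fintype V] {X : Cx V} {G : Type} [Group G] {Λ : Labels X G} (Y : Str Λ)

structure Str.Cones where
  ap : V → V
  Q : V → V → List V
  g₀ : V → G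
  M : ℕ
  lt : ∀ x ∈ Y.P, x.2 < M
  spec : ∀ b a, X.Adj b a → ∀ x₀ x g, Y.T b (Q b a) x₀ x g →
    x₀.1 = ap b ∧ x.1 = a ∧ Λ.L b a (g₀ b * g)

variable {Y} (c : Y.Cones)

def Str.Cones.NE (y x : Pt V) (g : G) : Prop :=
  ∃ x₀ h, y.2 = c.M + x₀.2 ∧ X.Adj y.1 x.1 ∧ Y.T y.1 (c.Q y.1 x.1) x₀ x h ∧ g = c.g₀ y.1 * h

def Str.Cones.New (y : Pt V) : Prop :=
  ∃ x₀ ∈ Y.P, x₀.1 = c.ap y.1 ∧ ¬ Y.has x₀ y.1 ∧ y.2 = c.M + x₀.2

noncomputable def Str.Cones.pts : Finset (Pt V) :=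
  Y.P ∪ univ.biUnion fun b => (Y.P.filter fun x₀ => x₀.1 = c.ap b ∧ ¬ Y.has x₀ b).image
    fun x₀ => (b, c.M + x₀.2)

theorem Str.Cones.mem_pts {y : Pt V} : y ∈ c.pts ↔ y ∈ Y.P ∨ c.New y := by
  simp only [Str.Cones.pts, mem_union, mem_biUnion, mem_univ, true_and, mem_image, mem_filter]
  refine or_congr_right ⟨?_, fun ⟨x₀, h1, h2, h3, h4⟩ => ⟨y.1, x₀, ⟨h1, h2, h3⟩, Prod.ext rfl h4.symm⟩⟩
  rintro ⟨b, x₀, ⟨h1, h2, h3⟩, rfl⟩
  exact ⟨x₀, h1, h2, h3, rfl⟩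

variable {c}

omit [Fintype V] in
theorem Str.Cones.NE.not_mem {x y : Pt V} {g : G} (h : c.NE y x g) : y ∉ Y.P := fun t => by
  obtain ⟨x₀, _, h1, -⟩ := h
  have := c.lt y t
  omega

omit [Fintype V] in
theorem Str.Cones.NE.old {x y : Pt V} {g : G} (h : c.NE y x g) : x ∈ Y.P ∧ ¬ Y.has x y.1 := by
  obtain ⟨x₀, _, -, -, h1, -⟩ := h
  exact h1.snd

variable (c)

noncomputable def Str.Cones.fill : Str Λ where
  P := c.pts
  E x y g := Y.E x y g ∨ c.NE x y g ∨ c.NE y x g⁻¹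
  symm := by
    rintro x y g (h | h | h)
    exacts [Or.inl (Y.symm h), Or.inr (Or.inr (by simpa using h)), Or.inr (Or.inl h)]
  func := by
    rintro x y y' g g' (h | h | h) (h' | h' | h') e
    · exact Y.func h h' e
    · exact absurd (Y.mem h) h'.not_mem
    · exact absurd ⟨y, g, e, h, trivial⟩ h'.old.2
    · exact absurd (Y.mem h') h.not_mem
    · obtain ⟨u, p, a1, a2, a3, rfl⟩ := h
      obtain ⟨u', p', b1, b2, b3, rfl⟩ := h'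
      obtain rfl : u = u' := Prod.ext ((c.spec _ _ a2 _ _ _ a3).1.trans (c.spec _ _ b2 _ _ _ b3).1.symm)
        (by omega)
      obtain ⟨rfl, rfl⟩ := a3.func (e ▸ b3)
      exact ⟨rfl, rfl⟩
    · exact absurd h'.old.1 h.not_mem
    · exact absurd ⟨y', g', e.symm, h', trivial⟩ h.old.2
    · exact absurd h.old.1 h'.not_mem
    · obtain ⟨u, p, a1, -, a3, a4⟩ := h
      obtain ⟨u', p', b1, -, b3, b4⟩ := h'
      rw [← e] at b3 b4
      obtain rfl := a3.inj b3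
      obtain ⟨-, rfl⟩ := a3.func b3
      exact ⟨Prod.ext e (a1.trans b1.symm), inv_injective (a4.trans b4.symm)⟩
  mem := by
    rintro x y g (h | ⟨u, p, a1, a2, a3, -⟩ | h)
    · exact c.mem_pts.2 (Or.inl (Y.mem h))
    · exact c.mem_pts.2 (Or.inr ⟨u, a3.fst.1, (c.spec _ _ a2 _ _ _ a3).1, a3.fst.2, a1⟩)
    · exact c.mem_pts.2 (Or.inl h.old.1)
  lab := by
    rintro x y g (h | ⟨u, p, -, a2, a3, rfl⟩ | ⟨u, p, -, a2, a3, a4⟩)
    · exact Y.lab h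
    · exact (c.spec _ _ a2 _ _ _ a3).2.2
    · exact inv_inv g ▸ Λ.inv (a4 ▸ (c.spec _ _ a2 _ _ _ a3).2.2)

noncomputable def Str.Cones.U (b a a' : V) : ℝ := Y.U b (c.ap b) (c.Q b a) (c.Q b a')

noncomputable def Str.Cones.phi (b a a' : V) : ℝ := c.U b a a' + Y.unc b a (c.Q b a)

theorem Str.Cones.closed {b a a' : V} (h1 : X.Adj b a) (h2 : X.Adj b a') {y x₀ x z : Pt V} {g h : G}
    (e1 : y.1 = b) (e2 : y.2 = c.M + x₀.2) (t1 : Y.T b (c.Q b a) x₀ x g) (t2 : Y.E x z h)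
    (t3 : Y.T b (c.Q b a') x₀ z (g * h)) : c.fill.cl y a a' ∧ c.fill.cl x b a' := by
  obtain rfl := (c.spec _ _ h1 _ _ _ t1).2.1
  obtain rfl := (c.spec _ _ h2 _ _ _ t3).2.1
  subst e1
  have k1 : c.fill.E y x _ := Or.inr (Or.inl ⟨x₀, g, e2, h1, t1, rfl⟩)
  have k2 : c.fill.cl y x.1 z.1 := ⟨x, z, _, _, rfl, rfl, k1,
    Or.inr (Or.inl ⟨x₀, _, e2, h2, t3, rfl⟩), Or.inl (by simpa [mul_assoc] using t2)⟩
  exact ⟨k2, k2.move k1⟩

theorem Str.Cones.K_new {b a a' : V} (h1 : X.Adj b a) (h2 : X.Adj b a') :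
    K c.pts (fun y => y.1 = b ∧ c.New y ∧ ¬ c.fill.cl y a a') ≤ c.U b a a' :=
  K_rel (fun y x₀ => y.1 = b ∧ y.2 = c.M + x₀.2) (fun y _ ⟨e, ⟨x₀, a1, a2, a3, a4⟩, s⟩ =>
    ⟨x₀, a1, ⟨e ▸ a2, e ▸ a3, fun ⟨_, _, _, _, t1, t2, t3⟩ => s (c.closed h1 h2 e a4 t1 t2 t3).1⟩, e, a4⟩)
    fun _ _ _ s t => Prod.ext (s.1.trans t.1.symm) (s.2.trans t.2.symm)

theorem Str.Cones.K_old {b a a' : V} (h1 : X.Adj b a) (h2 : X.Adj b a') :
    K Y.P (fun x => x.1 = a ∧ ¬ Y.has x b ∧ ¬ c.fill.cl x b a') ≤ c.phi b a a' :=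
  (K_or (q := fun x => (∃ x₀ g, Y.T b (c.Q b a) x₀ x g) ∧ ¬ c.fill.cl x b a') fun _ _ s =>
    (em _).imp (fun t => ⟨t, s.2.2⟩) fun t => ⟨s.1, s.2.1, t⟩).trans (add_le_add_left
    (K_rel (fun x x₀ => ∃ g, Y.T b (c.Q b a) x₀ x g) (fun x _ ⟨⟨x₀, g, t⟩, s⟩ =>
      ⟨x₀, t.fst.1, ⟨(c.spec _ _ h1 _ _ _ t).1, t.fst.2, fun ⟨x', _, _, _, t1, t2, t3⟩ => s
        ((t1.func t).1 ▸ (c.closed (y := (b, c.M + x₀.2)) h1 h2 rfl rfl t1 t2 t3).2)⟩, g, t⟩)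
      fun _ _ _ ⟨_, s⟩ ⟨_, t⟩ => (s.func t).1) _)

theorem Str.Cones.K_cnt {b a a' : V} (h1 : X.Adj b a) :
    K c.pts (fun y => y.1 = b ∧ y ∉ Y.P) ≤ c.U b a a' + K Y.P (fun x => x.1 = a ∧ ¬ Y.has x b) :=
  (K_rel (q := fun x₀ => x₀.1 = c.ap b ∧ ¬ Y.has x₀ b) (fun y x₀ => y.1 = b ∧ y.2 = c.M + x₀.2)
    (fun y hy ⟨e, s⟩ => by
      obtain ⟨x₀, a1, a2, a3, a4⟩ := (c.mem_pts.1 hy).resolve_left s
      exact ⟨x₀, a1, ⟨e ▸ a2, e ▸ a3⟩, e, a4⟩)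
    fun _ _ _ s t => Prod.ext (s.1.trans t.1.symm) (s.2.trans t.2.symm)).trans
  ((K_or (r := fun x₀ => ∃ x g, Y.T b (c.Q b a) x₀ x g) fun _ _ s => (em _).symm.imp
    (fun t => ⟨s.1, s.2, fun ⟨x, _, g, _, t1, _⟩ => t ⟨x, g, t1⟩⟩) id).trans (add_le_add_right
    (K_rel (fun x₀ x => ∃ g, Y.T b (c.Q b a) x₀ x g) (fun _ _ ⟨x, g, t⟩ =>
      ⟨x, t.snd.1, ⟨(c.spec _ _ h1 _ _ _ t).2.1, t.snd.2⟩, g, t⟩)
      fun _ _ _ ⟨_, s⟩ ⟨_, t⟩ => s.inj t) _))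

theorem sum_star (f : V → Cham V → ℝ) :
    ∑ b, ∑ C ∈ X.star {b}, f b C = ∑ C ∈ X.ch, ∑ t, f (C t) C := by
  have : ∀ b, ∑ C ∈ X.star {b}, f b C = ∑ C ∈ X.ch, ∑ t, if C t = b then f b C else 0 := fun b => by
    rw [Cx.star, sum_filter]
    refine sum_congr rfl fun C hC => ?_
    rw [sum_eq_single (X.col b) (fun t _ ht => if_neg fun e => ht (by rw [← e, X.col_ch C hC])) (by simp)]
    simp
  rw [sum_congr rfl fun b _ => this b, sum_comm]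
  refine sum_congr rfl fun C _ => ?_
  rw [sum_comm]
  simp

theorem Str.fill {R : ℕ} (ht : X.LinkTransitive) (hc : X.Cone R) (Y : Str Λ) {μ m e : ℝ}
    (hμ : ∀ i j, i ≠ j → Y.miss i j ≤ μ) (ho : ∀ i j k, i ≠ j → i ≠ k → j ≠ k → Y.opn i j k ≤ m)
    (hd : ∀ i j k, i ≠ j → i ≠ k → j ≠ k → Y.dbl i j k ≤ e) :
    ∃ Z : Str Λ, (∀ i j, i ≠ j → Y.lost Z i j + Y.new Z i ≤ μ + 2304 * (3 * R + 1) * (2 * e + 3 * m)) ∧
      ∀ i j k, i ≠ j → i ≠ k → j ≠ k →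
        Z.nc i j k ≤ m + e + 3 * (2304 * (3 * R + 1) * (2 * e + 3 * m)) := by
  choose ap Q h1 h2 h3 using good_cone ht hc Y
  choose g₀ hg using fun b => Λ.ex (h1 b)
  let c : Y.Cones := ⟨ap, Q, g₀, Y.P.sup Prod.snd + 1, fun x hx => Nat.lt_succ_of_le (le_sup (f := Prod.snd) hx),
    fun b a ha x₀ x g t => ⟨(h2 b a ha x₀ x g t).1, (h2 b a ha x₀ x g t).2.1,
      (h2 b a ha x₀ x g t).2.2 _ (hg b)⟩⟩
  set Ψ := 2304 * (3 * (R : ℝ) + 1) * (2 * e + 3 * m)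
  have p0 : ∀ b a a', 0 ≤ c.phi b a a' := fun _ _ _ => add_nonneg K_nonneg K_nonneg
  have tot : ∑ π : Equiv.Perm (Fin 4), ∑ C ∈ X.ch, c.phi (C (π 0)) (C (π 1)) (C (π 2)) ≤ Ψ := by
    have a1 := sum_le_sum fun b (_ : b ∈ univ) => h3 b
    rw [← mul_sum, sum_star, sum_star fun _ C => Y.bad C] at a1
    rw [sum_comm]
    refine le_of_eq_of_le (sum_congr rfl fun C hC => ?_) (a1.trans ?_)
    · rw [sum_comm]
      refine sum_congr rfl fun π _ => ?_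
      simp only [X.col_ch C hC, sum_ite_eq, mem_univ, if_true]
      rfl
    · simp only [sum_const, card_univ, Fintype.card_fin, nsmul_eq_mul, ← mul_sum]
      have := Y.sum_bad ho hd
      have r : (0 : ℝ) ≤ 3 * R + 1 := by positivity
      push_cast
      nlinarith [mul_le_mul_of_nonneg_left this r]
  have one : ∀ i j k, i ≠ j → i ≠ k → j ≠ k → ∑ C ∈ X.ch, c.phi (C i) (C j) (C k) ≤ Ψ :=
    fun i j k b1 b2 b3 => by
    obtain ⟨σ, rfl, rfl, rfl⟩ := perm_ex i j k b1 b2 b3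
    exact (single_le_sum (f := fun π : Equiv.Perm (Fin 4) =>
      ∑ C ∈ X.ch, c.phi (C (π 0)) (C (π 1)) (C (π 2)))
      (fun _ _ => sum_nonneg fun _ _ => p0 _ _ _) (mem_univ σ)).trans tot
  have Ule : ∀ b a a', c.U b a a' ≤ c.phi b a a' := fun _ _ _ => le_add_of_nonneg_right K_nonneg
  refine ⟨c.fill, fun i j b1 => ?_, fun i j k b1 b2 b3 => ?_⟩
  · obtain ⟨k, -, b2, -, b3, -⟩ := ex_others i j b1
    have a0 : Y.lost c.fill i j = 0 := N_false fun _ _ _ _ _ ⟨_, _, _, s, t⟩ => t (Or.inl s)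
    have a1 : Y.new c.fill i ≤ _ := (N_eq _ _).trans_le (sum_le_sum fun C hC =>
      (c.K_cnt (a' := C k) (adj_ch hC b1)).trans (add_le_add_left (Ule _ _ _) _))
    rw [sum_add_distrib, ← N_eq j fun C x => ¬ Y.has x (C i)] at a1
    have a2 : N X Y.P j (fun C x => ¬ Y.has x (C i)) ≤ μ := hμ j i b1.symm
    linarith [one i j k b1 b2 b3]
  · have a1 : N X c.pts i (fun C y => c.New y ∧ ¬ c.fill.cl y (C j) (C k)) ≤ Ψ :=
      ((N_eq _ _).trans_le (sum_le_sum fun C hC =>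
        (c.K_new (adj_ch hC b1) (adj_ch hC b2)).trans (Ule _ _ _))).trans (one i j k b1 b2 b3)
    have a2 : ∀ j k, i ≠ j → i ≠ k → j ≠ k →
        N X Y.P i (fun C x => ¬ Y.has x (C j) ∧ ¬ c.fill.cl x (C j) (C k)) ≤ Ψ := fun j k b1 b2 b3 =>
      ((N_eq _ _).trans_le (sum_le_sum fun C hC =>
        c.K_old (adj_ch hC b1.symm) (adj_ch hC b3))).trans (one j i k b1.symm b3 b2)
    refine (N_or' fun C _ x hx _ s => ?_).trans ((add_le_add a1 ((N_or fun _ _ _ _ _ s => s).trans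
      (add_le_add (ho i j k b1 b2 b3) ((N_or fun _ _ _ _ _ s => s).trans
        (add_le_add (a2 j k b1 b2 b3) (a2 k j b2 b1 b3.symm)))))).trans
      (by linarith [N_nonneg.trans (hd i j k b1 b2 b3)]))
    rcases c.mem_pts.1 hx with hx | hx
    swap
    · exact Or.inl ⟨c.mem_pts.2 (Or.inr hx), hx, s⟩
    refine Or.inr ⟨hx, ?_⟩
    by_cases d1 : Y.has x (C j)
    swap
    · exact Or.inr (Or.inl ⟨d1, s⟩)
    by_cases d2 : Y.has x (C k)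
    swap
    · exact Or.inr (Or.inr ⟨d2, fun t => s t.symm⟩)
    exact Or.inl ⟨d1, d2, fun ⟨y, z, g, h, t1, t2, t3, t4, t5⟩ =>
      s ⟨y, z, g, h, t1, t2, Or.inl t3, Or.inl t4, Or.inl t5⟩⟩

end Pool.Agent.Lib.MP_b138e1_al
end
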