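import Pool.Agent.Lib.MP_b138e1_al.Toep

/-! Mixing between coset spaces of a finite group from a second moment estimate. -/

set_option autoImplicit false

namespace Pool.Agent.Lib.MP_b138e1_al

open scoped Classical
open Finset

section av
variable {L : Type} [Group L] [Fintype L] {Γ K₁ K₂ : Subgroup L} {f h : L → ℝ}

noncomputable def av (Γ : Subgroup L) (f : L → ℝ) : ℝ := univ.expect fun g : Γ => f g

noncomputable def ind (A : Prop) : ℝ := if A then 1 else 0

theorem ind_nonneg {A : Prop} : 0 ≤ ind A := by unfold ind; split_ifs <;> simp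

theorem ind_le {A : Prop} : ind A ≤ 1 := by unfold ind; split_ifs <;> simp

theorem ind_and {A B : Prop} : ind (A ∧ B) = ind A * ind B := by unfold ind; split_ifs <;> simp_all

theorem ind_not {A : Prop} : ind (¬ A) = 1 - ind A := by unfold ind; split_ifs <;> simp_all

theorem av_right {k : L} (hk : k ∈ Γ) : av Γ (fun g => f (g * k)) = av Γ f :=
  Fintype.expect_equiv (Equiv.mulRight (⟨k, hk⟩ : Γ)) _ _ fun _ => rfl

theorem av_left {k : L} (hk : k ∈ Γ) : av Γ (fun g => f (k * g)) = av Γ f :=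
  Fintype.expect_equiv (Equiv.mulLeft (⟨k, hk⟩ : Γ)) _ _ fun _ => rfl

theorem av_comm (F : L → L → ℝ) : av Γ (fun g => av K₁ (F g)) = av K₁ fun k => av Γ fun g => F g k :=
  expect_comm _ _ _

theorem av_const (c : ℝ) : av Γ (fun _ => c) = c := expect_const univ_nonempty c

theorem av_mono (e : ∀ g ∈ Γ, f g ≤ h g) : av Γ f ≤ av Γ h := expect_le_expect fun g _ => e g g.2

theorem av_congr (e : ∀ g ∈ Γ, f g = h g) : av Γ f = av Γ h :=
  le_antisymm (av_mono fun g a => (e g a).le) (av_mono fun g a => (e g a).ge)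

theorem av_add : av Γ (fun g => f g + h g) = av Γ f + av Γ h := expect_add_distrib _ _ _

theorem av_mul (c : ℝ) : av Γ (fun g => c * f g) = c * av Γ f := (mul_expect _ _ _).symm

theorem av_mul' (c : ℝ) : av Γ (fun g => f g * c) = av Γ f * c := (expect_mul _ _ _).symm

theorem av_nonneg (e : ∀ g, 0 ≤ f g) : 0 ≤ av Γ f := expect_nonneg fun g _ => e g

theorem av_eq : av Γ f = (∑ g ∈ univ.filter (· ∈ Γ), f g) / (univ.filter (· ∈ Γ)).card := by
  rw [av, expect_eq_sum_div_card, card_univ, Fintype.card_subtype, sum_subtype (p := (· ∈ Γ)) (univ.filter (· ∈ Γ)) (by simp)]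

theorem av_sub (l : K₁ ≤ Γ) : ∃ ρ : ℝ, 0 < ρ ∧ ∀ f, av Γ (fun g => ind (g ∈ K₁) * f g) = ρ * av K₁ f := by
  have p : ∀ Γ : Subgroup L, (0 : ℝ) < (univ.filter (· ∈ Γ)).card := fun Γ => by
    exact_mod_cast card_pos.2 ⟨1, by simp⟩
  refine ⟨_, div_pos (p K₁) (p Γ), fun f => ?_⟩
  have := p K₁
  rw [av_eq, av_eq, show ∑ g ∈ univ.filter (· ∈ Γ), ind (g ∈ K₁) * f g = ∑ g ∈ univ.filter (· ∈ K₁), f g by
    simp only [sum_filter, ind]
    refine sum_congr rfl fun g _ => ?_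
    have := @l g
    split_ifs <;> simp_all]
  field_simp

theorem mixG {lam : ℝ} (h0 : 0 < lam) (l : K₂ ≤ Γ) (hh : ∀ g, h g * h g = h g)
    (hfac : ∀ k ∈ K₂, ∃ k₃ ∈ Γ, ∀ g, f (g * k) = f (g * k₃) ∧ h (g * k₃) = h g)
    (h2 : av K₂ (fun k => av Γ fun g => f g * f (g * k)) ≤ av Γ f ^ 2 + 4 * lam ^ 2 * av Γ f) :
    |av Γ (fun g => f g * h g) - av Γ f * av Γ h| ≤ lam * (av Γ f + av Γ h) := by
  set p := av Γ f with hp
  set A : L → ℝ := fun g => av K₂ fun k => f (g * k) with hA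
  have e1 : av Γ (fun g => A g * h g) = av Γ fun g => f g * h g := by
    simp only [hA, ← av_mul']
    rw [av_comm, ← av_const (Γ := K₂) (av Γ fun g => f g * h g)]
    refine av_congr fun k hk => ?_
    obtain ⟨k₃, a, b⟩ := hfac k hk
    rw [← av_right (f := fun g => f g * h g) a]
    exact av_congr fun g _ => by rw [(b g).1, (b g).2]
  have e2 : av Γ A = p := by
    rw [hA, av_comm, ← av_const (Γ := K₂) p]
    exact av_congr fun k hk => av_right (l hk)
  have e3 : av Γ (fun g => A g * A g) = av Γ fun g => f g * A g := by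
    rw [← av_const (Γ := K₂) (av Γ fun g => f g * A g)]
    nth_rewrite 1 [hA]
    simp only [← av_mul']
    rw [av_comm]
    refine av_congr fun k hk => ?_
    rw [← av_right (f := fun g => f g * A g) (l hk)]
    refine av_congr fun g _ => congrArg _ ?_
    simp only [hA, mul_assoc]
    exact (av_left (f := fun k => f (g * k)) hk).symm
  have e4 : av Γ (fun g => f g * A g) = av K₂ fun k => av Γ fun g => f g * f (g * k) := by
    simp only [hA, ← av_mul]
    rw [av_comm]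
  have e5 : ∀ s : ℝ, s * s = 1 → 4 * lam * (s * (av Γ (fun g => A g * h g) - p * av Γ h)) ≤
      4 * lam * (lam * (p + av Γ h)) := fun s hs => by
    have : av Γ (fun g => 4 * lam * s * (A g * h g) + (-4 * lam * s * p) * h g) ≤
        av Γ fun g => A g * A g + (-2 * p) * A g + p ^ 2 + 4 * lam ^ 2 * h g := av_mono fun g _ => by
      have := sq_nonneg (s * (A g - p) - 2 * lam * h g)
      have e : (s * (A g - p) - 2 * lam * h g) ^ 2 = s * s * (A g - p) ^ 2 - 4 * lam * s * (A g - p) * h g +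
        4 * lam ^ 2 * (h g * h g) := by ring
      rw [e, hs, hh] at this
      linarith
    simp only [av_add, av_mul, av_const, e2, e3, e4] at this
    linarith
  have a := le_of_mul_le_mul_left (e5 1 (by simp)) (by positivity)
  have b := le_of_mul_le_mul_left (e5 (-1) (by simp)) (by positivity)
  rw [← e1, abs_le]
  constructor <;> linarith

theorem second {η : ℝ} (l1 : K₁ ≤ Γ) (l2 : K₂ ≤ Γ) (gen : L → Prop) (f0 : ∀ g, 0 ≤ f g) (f1 : ∀ g, f g ≤ 1)
    (hf : ∀ k ∈ K₁, ∀ g, f (g * k) = f g) (hg : ∀ k ∈ K₁, ∀ k' ∈ K₁, ∀ x, gen (k * x * k') ↔ gen x)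
    (ex : ∀ x ∈ Γ, gen x → ∃ k ∈ K₁, ∃ k' ∈ K₁, k * x * k' ∈ K₂)
    (un : ∀ x ∈ K₂, gen x → ∀ k ∈ K₁, ∀ k' ∈ K₁, k * x * k' ∈ K₂ → k ∈ K₂)
    (p1 : av Γ (fun x => ind (¬ gen x)) ≤ η) (p2 : av K₂ (fun x => ind (¬ gen x)) ≤ η) :
    av K₂ (fun k => av Γ fun g => f g * f (g * k)) ≤ av Γ f ^ 2 + 2 * η * av Γ f := by
  set p := av Γ f with hp
  set F : L → ℝ := fun k => av Γ fun g => f g * f (g * k) with hF
  set c := av K₁ fun k => ind (k ∈ K₂) with hc
  obtain ⟨ρ, ρ0, hρ⟩ := av_sub l2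
  let n : L → ℝ := fun x => av K₁ fun k => av K₁ fun k' => ind (k * x * k' ∈ K₂)
  have hn : ∀ x ∈ Γ, gen x → n x = c * c := fun x hx g => by
    obtain ⟨k, a, k', b, e⟩ := ex x hx g
    have : n x = n (k * x * k') := by
      simp only [n]
      rw [← av_right (Γ := K₁) a]
      refine av_congr fun u _ => ?_
      rw [← av_left (Γ := K₁) b]
      simp only [mul_assoc]
    rw [this, hc, ← av_mul']
    refine av_congr fun u hu => ?_
    rw [← av_mul]
    refine av_congr fun v hv => ?_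
    rw [← ind_and]
    refine congrArg _ (propext ⟨fun t => ?_, fun t => mul_mem (mul_mem t.1 e) t.2⟩)
    have := un _ e ((hg k a k' b x).2 g) u hu v hv t
    exact ⟨this, (K₂.mul_mem_cancel_left (mul_mem this e)).1 t⟩
  have key : ∀ Φ : L → ℝ, (∀ k ∈ K₁, ∀ k' ∈ K₁, ∀ x, Φ (k * x * k') = Φ x) →
      av Γ (fun x => ind (gen x) * Φ x) * (c * c) = ρ * av K₂ fun x => ind (gen x) * Φ x := fun Φ hΦ => by
    rw [← hρ, ← av_mul', av_congr (h := fun x => ind (gen x) * Φ x * n x) fun x hx => by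
      by_cases g : gen x
      · rw [hn x hx g]
      · simp [ind, g]]
    simp only [n, ← av_mul]
    rw [av_comm, ← av_const (Γ := K₁) (av Γ fun g => ind (g ∈ K₂) * _)]
    refine av_congr fun k a => ?_
    rw [av_comm, ← av_const (Γ := K₁) (av Γ fun g => ind (g ∈ K₂) * _)]
    refine av_congr fun k' b => ?_
    rw [← av_right (f := fun g => ind (g ∈ K₂) * _) (l1 b), ← av_left (f := fun g => ind (g * k' ∈ K₂) * _) (l1 a)]
    exact av_congr fun x _ => by rw [hg k a k' b, hΦ k a k' b, mul_comm]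
  have k1 := key (fun _ => 1) fun _ _ _ _ _ => rfl
  have k2 := key F fun k a k' b x => by
    simp only [hF]
    rw [← av_right (f := fun g => f g * f (g * x)) (l1 a)]
    exact av_congr fun g _ => by rw [← mul_assoc, hf k' b, hf k a, mul_assoc]
  have F0 : ∀ x, 0 ≤ F x := fun x => av_nonneg fun g => mul_nonneg (f0 _) (f0 _)
  have F1 : ∀ x, F x ≤ p := fun x => av_mono fun g _ => mul_le_of_le_one_right (f0 _) (f1 _)
  have F2 : av Γ F = p ^ 2 := by
    rw [hF, av_comm, sq, ← av_mul']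
    exact av_congr fun g hg => by rw [av_mul, av_left (f := f) hg]
  have a1 : av Γ (fun x => ind (gen x) * F x) ≤ p ^ 2 :=
    F2 ▸ av_mono fun x _ => mul_le_of_le_one_left (F0 x) ind_le
  have a2 : av K₂ (fun x => ind (gen x) * 1) ≤ 1 := (av_mono fun x _ => by simpa using ind_le).trans (av_const 1).le
  have a3 : av Γ (fun x => ind (gen x) * 1) + av Γ (fun x => ind (¬ gen x)) = 1 := by
    rw [← av_add]
    exact (av_congr fun x _ => by rw [ind_not]; ring).trans (av_const 1)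
  set y := av K₂ fun x => ind (gen x) * F x with hy
  have y0 : 0 ≤ y := av_nonneg fun x => mul_nonneg ind_nonneg (F0 x)
  have y1 : y ≤ p := (av_mono fun x _ => (mul_le_of_le_one_left (F0 x) ind_le).trans (F1 x)).trans (av_const p).le
  have a4 : av K₂ F ≤ y + av K₂ (fun x => ind (¬ gen x)) * p := by
    rw [← av_mul', hy, ← av_add]
    refine av_mono fun x _ => ?_
    have := mul_le_mul_of_nonneg_left (F1 x) (ind_nonneg (A := ¬ gen x))
    rw [ind_not] at this ⊢
    linarith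
  set P := av Γ fun x => ind (gen x) * 1 with hP
  have P0 : 0 ≤ P := av_nonneg fun x => by simpa using ind_nonneg
  have b1 : ρ * (y * P) ≤ ρ * p ^ 2 :=
    calc ρ * (y * P) = av Γ (fun x => ind (gen x) * F x) * (P * (c * c)) := by rw [← mul_assoc, ← k2]; ring
      _ ≤ p ^ 2 * (ρ * 1) := by rw [k1]; gcongr; exact mul_nonneg ρ0.le (av_nonneg fun x => by simpa using ind_nonneg)
      _ = _ := by ring
  have b2 := le_of_mul_le_mul_left b1 ρ0
  have η0 : 0 ≤ η := (av_nonneg fun x => ind_nonneg).trans p1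
  have b3 := mul_le_mul_of_nonneg_right p2 (y0.trans y1)
  have b4 := mul_le_mul_of_nonneg_left y1 η0
  have b5 := mul_le_mul_of_nonneg_left (show 1 - η ≤ P by linarith) y0
  linarith

theorem av_rare {K : Type} [Fintype K] [Nonempty K] (x : K → L) (hx : ∀ a, x a ∈ Γ) (E : L → Prop)
    (hE : ∀ g a b, E (x a * g) → E (x b * g) → a = b) : av Γ (fun g => ind (E g)) ≤ 1 / Fintype.card K := by
  rw [le_div_iff₀ (by exact_mod_cast Fintype.card_pos), mul_comm, ← card_univ, ← nsmul_eq_mul, ← sum_const,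
    sum_congr rfl fun a _ => (av_left (f := fun g => ind (E g)) (hx a)).symm, ← av_const (Γ := Γ) 1]
  simp only [av]
  rw [← expect_sum_comm]
  refine expect_le_expect fun g _ => ?_
  simp only [ind, sum_boole, Nat.cast_le_one]
  exact card_le_one.2 fun a ha b hb => hE g a b (mem_filter.1 ha).2 (mem_filter.1 hb).2

theorem av_two : av Γ (fun k => av Γ fun g => f g * f (g * k)) = av Γ f ^ 2 := by
  rw [av_comm, sq, ← av_mul']
  exact av_congr fun g hg => by rw [av_mul, av_left (f := f) hg]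

end av

open Matrix

variable {K : Type} [Field K]

def Ce (M : Mat K) : Subgroup (GL4 K) where
  carrier := {g | cn g M = M}
  mul_mem' {a b} h h' := by
    show cn (a * b) M = M
    rw [cn_mul, h', h]
  one_mem' := cn_one M
  inv_mem' {a} h := by
    show cn a⁻¹ M = M
    rw [← show cn a M = M from h, ← cn_mul, inv_mul_cancel, cn_one, h]

theorem mem_Ce {M : Mat K} {g : GL4 K} : g ∈ Ce M ↔ cn g M = M := Iff.rfl

theorem mem_Ce' {M : Mat K} {g : GL4 K} : g ∈ Ce M ↔ g.1 * M = M * g.1 := by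
  rw [mem_Ce, cn_apply, Units.mul_inv_eq_iff_eq_mul]

theorem cn_inv (g : GL4 K) (M : Mat K) : cn g⁻¹ (cn g M) = M := by rw [← cn_mul, inv_mul_cancel, cn_one]

theorem cn_inv' (g : GL4 K) (M : Mat K) : cn g (cn g⁻¹ M) = M := by rw [← cn_mul, mul_inv_cancel, cn_one]

theorem flagD (σ : Equiv.Perm (Fin 4)) : Flag (Dp σ : Fin 4 → Mat K) := by
  simpa only [cn_one] using flag_conj (1 : GL4 K) σ

theorem D_one (σ : Equiv.Perm (Fin 4)) : (Dp σ 1 : Mat K) = single (σ 0) (σ 0) 1 := by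
  ext i j
  simp only [Dp, diagonal_apply, single_apply, Fin.lt_one_iff, Equiv.symm_apply_eq]
  rcases eq_or_ne i j with rfl | e
  · simp [eq_comm]
  · rw [if_neg e, if_neg fun c => e (c.1.symm.trans c.2)]

theorem tv_inv {i j : Fin 4} (h : i ≠ j) (a : K) : (tv i j a)⁻¹ = tv i j (-a) := by
  rw [inv_eq_iff_mul_eq_one, ← tv_add h, add_neg_cancel]
  exact Units.ext (by simp [tv_val h])

theorem tv_Ce {i j : Fin 4} (h : i ≠ j) (a : K) {d : Fin 4 → K} (e : d i = d j) :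
    tv i j a ∈ Ce (diagonal d) := by
  rw [mem_Ce', tv_val h, add_mul, mul_add, one_mul, mul_one, add_right_inj]
  ext p q
  simp only [diagonal_mul, mul_diagonal, single_apply]
  split_ifs with c
  · rw [← c.1, ← c.2, e, mul_comm]
  · simp

variable [Fintype K]

theorem rare {Γ : Subgroup (GL4 K)} {a b : Fin 4} (n : a ≠ b) (h1 : ∀ t, tv a b t ∈ Γ) (h2 : ∀ t, tv b a t ∈ Γ) :
    av Γ (fun x => ind (¬ ((1 - single a a 1) * cn x (single a a 1)).trace ≠ 0)) ≤ 2 / Fintype.card K := by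
  have a1 := av_rare _ h2 (fun x => x.1 a a * (x⁻¹).1 a a = 1 ∧ (x⁻¹).1 a b ≠ 0) fun g s t hs ht => by
    simp only [_root_.mul_inv_rev, tv_inv n.symm, Units.val_mul, tv_val n.symm, mul_add, add_mul, mul_one,
      one_mul, Matrix.add_apply, single_mul_apply_of_ne _ _ _ _ _ n, mul_single_apply_same,
      mul_single_apply_of_ne _ _ _ _ _ n.symm, add_zero] at hs ht
    have g0 : g.1 a a ≠ 0 := fun e => by simp [e] at hs
    refine mul_left_cancel₀ (mul_ne_zero g0 hs.2) ?_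
    linear_combination ht.1 - hs.1
  have a2 := av_rare _ h1 (fun x => (x⁻¹).1 a a ≠ 0 ∧ (x⁻¹).1 a b = 0) fun g s t hs ht => by
    simp only [_root_.mul_inv_rev, tv_inv n, Units.val_mul, tv_val n, mul_add, mul_one,
      Matrix.add_apply, mul_single_apply_same, mul_single_apply_of_ne _ _ _ _ _ n, add_zero] at hs ht
    refine mul_left_cancel₀ hs.1 ?_
    linear_combination ht.2 - hs.2
  refine le_trans (av_mono fun x _ => ?_) (av_add.trans_le ((add_le_add a1 a2).trans_eq (by ring)))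
  by_cases c : ((1 - single a a 1) * cn x (single a a 1)).trace = 0
  · rw [sub_mul, one_mul, trace_sub, cn_trace, trace_single_mul, cn_apply, sub_eq_zero] at c
    have e : x.1 a a * (x⁻¹).1 a a = 1 := by
      rw [trace_single_eq_same] at c
      rw [c]
      simp [mul_apply, single_apply, ite_and]
    have := right_ne_zero_of_mul_eq_one e
    refine ind_le.trans ?_
    by_cases d : (x⁻¹).1 a b = 0 <;> simp [ind, -coe_units_inv, *]
  · simp only [ind, ne_eq, c, not_false_iff, not_true, if_false]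
    exact add_nonneg ind_nonneg ind_nonneg

def MX (Γ : Subgroup (GL4 K)) (A B : Mat K) (lam : ℝ) : Prop := ∀ S T : Mat K → Prop,
  |av Γ (fun g => ind (S (cn g A)) * ind (T (cn g B))) -
    av Γ (fun g => ind (S (cn g A))) * av Γ fun g => ind (T (cn g B))| ≤
  lam * (av Γ (fun g => ind (S (cn g A))) + av Γ fun g => ind (T (cn g B)))

variable (hK : Big K) (σ : Equiv.Perm (Fin 4)) {lam : ℝ} (h0 : 0 < lam) (hq : 1 ≤ lam ^ 2 * Fintype.card K)
include hK

omit [Fintype K] in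
theorem jn_uniq {P O J : Mat K} (hP : Le P P) (hO : R1 O) (ht : ((1 - P) * O).trace ≠ 0) (hJ : Le J J)
    (h1 : Le P J) (h2 : Le O J) (e : J.trace = P.trace + 1) : J = Jn P O :=
  sub_eq_zero.1 (tr_zero hK ((jn_idem hP hO ht).sub hJ (jn_le h1 h2))
    (by rw [trace_sub, e, jn_trace hP ht, sub_self]))

include hq in
theorem sec {T : Mat K} (hT : T = 1 ∨ T = Dp σ 3) (S : Mat K → Prop) :
    av (Ce T ⊓ Ce (Dp σ 2)) (fun k => av (Ce T) fun g => ind (S (cn g (Dp σ 1))) * ind (S (cn (g * k) (Dp σ 1)))) ≤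
      av (Ce T) (fun g => ind (S (cn g (Dp σ 1)))) ^ 2 + 4 * lam ^ 2 * av (Ce T) fun g => ind (S (cn g (Dp σ 1))) := by
  have fl : Flag (Dp σ : Fin 4 → Mat K) := flagD σ
  have i1 := (fl 1).2 1 le_rfl
  have i2 := (fl 2).2 2 le_rfl
  have l12 := (fl 1).2 2 (by decide)
  have t1 : (Dp σ 1 : Mat K).trace = 1 := by simpa using (fl 1).1
  have t2 : (Dp σ 2 : Mat K).trace = 2 := by simpa using (fl 2).1
  have l1 : Le (Dp σ 1) T := by
    rcases hT with rfl | rfl
    exacts [le_one', (fl 1).2 3 (by decide)]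
  have cj : ∀ J, Le J J → J.trace = 2 → Le (Dp σ 1) J → Le J T →
      ∃ k ∈ Ce T ⊓ Ce (Dp σ 1), cn k (Dp σ 2) = J := fun J a b c d => by
    rcases hT with rfl | rfl
    · obtain ⟨P, p1, p2, p3⟩ := flag2 hK (r := 1) (s := 2) (by decide) i1 a c (fl 1).1 (by simpa using b)
      obtain ⟨k, hk⟩ := p1.conj hK σ
      exact ⟨k, ⟨map_one _, (hk 1).trans p2⟩, (hk 2).trans p3⟩
    · obtain ⟨k, hk⟩ := (flag3 i1 a ((fl 3).2 3 le_rfl) c d t1 b (by simpa using (fl 3).1)).conj hK σ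
      exact ⟨k, ⟨hk 3, hk 1⟩, hk 2⟩
  have r1 : ∀ x : GL4 K, R1 (cn x (Dp σ 1)) := fun x => r1_of hK (i1.cn x) (by rw [cn_trace, t1])
  have n : σ 0 ≠ σ 1 := σ.injective.ne (by decide)
  have m : ∀ r : Fin 4, 1 < r → ∀ t : K, tv (σ 0) (σ 1) t ∈ Ce (Dp σ r) ∧ tv (σ 1) (σ 0) t ∈ Ce (Dp σ r) :=
    fun r h t => ⟨tv_Ce n t (by simp [h, zero_lt_one.trans h]), tv_Ce n.symm t (by simp [h, zero_lt_one.trans h])⟩
  have m' : ∀ t : K, tv (σ 0) (σ 1) t ∈ Ce T ∧ tv (σ 1) (σ 0) t ∈ Ce T := fun t => by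
    rcases hT with rfl | rfl
    exacts [⟨map_one _, map_one _⟩, m 3 (by decide) t]
  refine (second (K₁ := Ce T ⊓ Ce (Dp σ 1)) (η := 2 / Fintype.card K) inf_le_left inf_le_left
    (fun x => ((1 - Dp σ 1) * cn x (Dp σ 1)).trace ≠ 0) (fun _ => ind_nonneg) (fun _ => ind_le)
    (fun k hk g => by rw [cn_mul, hk.2]) (fun k hk k' hk' x => ?_) (fun x hx g => ?_)
    (fun x hx g k hk k' hk' e => ⟨hk.1, ?_⟩) ?_ ?_).trans ?_
  · rw [cn_mul, hk'.2, cn_mul, ← cn_trace k⁻¹, map_mul, map_sub, map_one, cn_inv, (Ce _).inv_mem hk.2]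
  · have o : Le (cn x (Dp σ 1)) T := hx ▸ l1.cn x
    obtain ⟨k, a, b⟩ := cj _ (jn_idem i1 (r1 x) g) (by rw [jn_trace i1 g, t1]; norm_num) (jn_left i1) (jn_le l1 o)
    obtain ⟨k', a', b'⟩ := cj _ ((jn_idem i1 (r1 x) g).cn x⁻¹) (by rw [cn_trace, jn_trace i1 g, t1]; norm_num)
      (by simpa only [cn_inv] using (jn_right (r1 x) g).cn x⁻¹) (inv_mem hx ▸ (jn_le l1 o).cn x⁻¹)
    refine ⟨k⁻¹, inv_mem a, k', a', mul_mem (mul_mem ((Ce _).inv_mem a.1) hx) a'.1, mem_Ce.2 ?_⟩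
    rw [cn_mul, cn_mul, b', cn_inv', ← b, cn_inv]
  · have u1 := jn_uniq hK i1 (r1 x) g i2 l12 (hx.2 ▸ l12.cn x) (by rw [t1, t2]; norm_num)
    have e' := (l12.cn (k * x * k')).cn k⁻¹
    rw [e.2, cn_mul, hk'.2, cn_mul, cn_inv] at e'
    have u2 := jn_uniq hK i1 (r1 x) g (i2.cn k⁻¹) ((Ce _).inv_mem hk.2 ▸ l12.cn k⁻¹) e'
      (by rw [cn_trace, t1, t2]; norm_num)
    exact (Ce _).inv_mem_iff.1 (u2.trans u1.symm)
  · rw [D_one]
    exact rare n (fun t => (m' t).1) fun t => (m' t).2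
  · rw [D_one]
    exact rare n (fun t => ⟨(m' t).1, (m 2 (by decide) t).1⟩) fun t => ⟨(m' t).2, (m 2 (by decide) t).2⟩
  · have q0 : (0 : ℝ) < Fintype.card K := by exact_mod_cast Fintype.card_pos
    refine add_le_add le_rfl (mul_le_mul_of_nonneg_right ?_ (av_nonneg fun _ => ind_nonneg))
    rw [← mul_div_assoc, div_le_iff₀ q0]
    linarith

omit hK [Fintype K] in
theorem factor {k : GL4 K} (h : k ∈ Ce (Dp σ 2)) :
    ∃ k₃ ∈ Ce (Dp σ 2 : Mat K), cn k (Dp σ 1) = cn k₃ (Dp σ 1) ∧ cn k₃ (Dp σ 3) = Dp σ 3 := by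
  have fl : Flag (Dp σ : Fin 4 → Mat K) := flagD σ
  have i := ((fl 2).2 2 le_rfl).1
  have a := (fl 1).2 2 (by decide)
  have b := (fl 2).2 3 (by decide)
  set D : Mat K := Dp σ 2
  have e : ∀ k : GL4 K, k ∈ Ce D → (k.1 * D + (1 - D)) * ((k⁻¹).1 * D + (1 - D)) = 1 := fun k h => by
    have c := mem_Ce'.1 (inv_mem h)
    rw [mul_add, add_mul, add_mul, mul_assoc k.1, ← mul_assoc D, ← c, mul_assoc _ D D, i,
      Units.mul_inv_cancel_left, c, ← mul_assoc (1 - D), mul_assoc k.1]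
    simp [mul_sub, sub_mul, i]
  have c := mem_Ce'.1 h
  refine ⟨⟨_, _, e k h, e k⁻¹ (inv_mem h)⟩, mem_Ce'.2 ?_, ?_, mem_Ce'.2 ?_⟩
  · simp [mul_add, add_mul, mul_sub, sub_mul, i, mul_assoc, ← mul_assoc D, ← c]
  · show _ = (k.1 * D + (1 - D)) * _ * ((k⁻¹).1 * D + (1 - D))
    rw [mem_Ce'.1 (inv_mem h), add_mul, mul_assoc k.1, a.2, sub_mul, one_mul, a.2, sub_self, add_zero, mul_add,
      ← mul_assoc, mul_assoc k.1, a.1, mul_assoc k.1 _ (1 - D), mul_sub, mul_one, a.1, sub_self, mul_zero,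
      add_zero, cn_apply]
  · show (k.1 * D + (1 - D)) * _ = _ * (k.1 * D + (1 - D))
    rw [add_mul, mul_assoc, b.1, mul_add, c, ← mul_assoc, b.2, sub_mul, mul_sub, one_mul, mul_one, b.1, b.2]

omit hK in
theorem ind_sq (A : Prop) : ind A * ind A = ind A := by rw [← ind_and, and_self]

include h0

include hq in
theorem mx1 {T : Mat K} (hT : T = 1 ∨ T = Dp σ 3) : MX (Ce T) (Dp σ 1) (Dp σ 2) lam := fun S _ =>
  mixG h0 inf_le_left (fun _ => ind_sq _) (fun k hk => ⟨k, hk.1, fun g => ⟨rfl, by rw [cn_mul, hk.2]⟩⟩)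
    (sec hK σ hq hT S)

include hq in
theorem mx3 : MX (Ce (1 : Mat K)) (Dp σ 1) (Dp σ 3) lam := fun S _ =>
  mixG h0 inf_le_left (fun _ => ind_sq _) (fun k hk => by
    obtain ⟨k₃, -, a, b⟩ := factor σ hk.2
    exact ⟨k₃, map_one _, fun g => ⟨by rw [cn_mul, cn_mul, a], by rw [cn_mul, b]⟩⟩)
    (sec hK σ hq (Or.inl rfl) S)

omit hK in
theorem mx2 : MX (Ce (Dp σ 2 : Mat K)) (Dp σ 1) (Dp σ 3) lam := fun S _ =>
  mixG h0 le_rfl (fun _ => ind_sq _) (fun k hk => by
    obtain ⟨k₃, c, a, b⟩ := factor σ hk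
    exact ⟨k₃, c, fun g => ⟨by rw [cn_mul, cn_mul, a], by rw [cn_mul, b]⟩⟩)
    (av_two.trans_le (le_add_of_nonneg_right (mul_nonneg (by positivity) (av_nonneg fun _ => ind_nonneg))))

omit hK h0 in
theorem MX.symm {Γ : Subgroup (GL4 K)} {A B : Mat K} (h : MX Γ A B lam) : MX Γ B A lam := fun S T => by
  simpa only [mul_comm, add_comm] using h T S

omit hK h0 in
theorem MX.compl {Γ : Subgroup (GL4 K)} {A B : Mat K} (h : MX Γ A B lam) : MX Γ (1 - A) (1 - B) lam :=
  fun S T => by simpa only [map_sub, map_one] using h (fun M => S (1 - M)) fun M => T (1 - M)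

end Pool.Agent.Lib.MP_b138e1_al
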