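import Pool.Agent.Lib.MP_b138e1_al.Fill
import Pool.Agent.Lib.MP_b138e1_al.GMix

-- part Pool.Agent.Lib.MP_b138e1_al.ACone
section

/-! Cones in ranked links with generic joins. -/

set_option autoImplicit false

namespace Pool.Agent.Lib.MP_b138e1_al

variable {V : Type} {X : Cx V} {b a c d e : V} {n k : ℕ} {l l' m m' : List V}

theorem htp_refl : ∀ n, X.Htp b n l l
  | 0 => rfl
  | n + 1 => ⟨l, Or.inl rfl, htp_refl n⟩

theorem Cx.Htp.trans (h : X.Htp b n l m) (h' : X.Htp b k m l') : X.Htp b (n + k) l l' := by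
  induction n generalizing l with
  | zero => rwa [zero_add, show l = m from h]
  | succ n ih =>
    obtain ⟨u, a, c⟩ := h
    rw [Nat.add_right_comm]
    exact ⟨u, a, ih c⟩

theorem Cx.Htp.symm (h : X.Htp b n l m) : X.Htp b n m l := by
  induction n generalizing l with
  | zero => exact Eq.symm h
  | succ n ih =>
    obtain ⟨u, a, c⟩ := h
    exact (ih c).trans (k := 1) ⟨l, a.imp Eq.symm Or.symm, rfl⟩

theorem Cx.Htp.mono (h : X.Htp b n l m) (e : n ≤ k) : X.Htp b k l m := by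
  obtain ⟨k, rfl⟩ := Nat.exists_eq_add_of_le e
  exact h.trans (htp_refl k)

theorem Cx.Step.ctx (h : X.Step b l m) (p s : List V) : X.Step b (p ++ l ++ s) (p ++ m ++ s) := by
  obtain ⟨u, v, a, c, ⟨d, h, rfl, rfl⟩ | ⟨h, rfl, rfl⟩⟩ := h
  · exact ⟨p ++ u, v ++ s, a, c, Or.inl ⟨d, h, by simp, by simp⟩⟩
  · exact ⟨p ++ u, v ++ s, a, c, Or.inr ⟨h, by simp, by simp⟩⟩

theorem Cx.Htp.ctx (h : X.Htp b n l m) (p s : List V) : X.Htp b n (p ++ l ++ s) (p ++ m ++ s) := by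
  induction n generalizing l with
  | zero => exact congrArg (p ++ · ++ s) h
  | succ n ih =>
    obtain ⟨u, a, c⟩ := h
    exact ⟨_, a.imp (congrArg (p ++ · ++ s)) (Or.imp (·.ctx p s) (·.ctx p s)), ih c⟩

theorem htp_tet (h : X.Tet b a d c) (p s : List V) : X.Htp b 1 (p ++ a :: c :: s) (p ++ a :: d :: c :: s) :=
  ⟨_, Or.inr (Or.inl ⟨p, s, a, c, Or.inl ⟨d, h, rfl, rfl⟩⟩), rfl⟩

theorem htp_back (h : X.Tri b a c) (p s : List V) : X.Htp b 1 (p ++ a :: s) (p ++ a :: c :: a :: s) :=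
  ⟨_, Or.inr (Or.inl ⟨p, s, a, c, Or.inr ⟨h, rfl, rfl⟩⟩), rfl⟩

def lst : V → List V → V
  | a, [] => a
  | _, c :: l => lst c l

theorem lst_eq : ∀ (a : V) (l : List V), (a :: l).getLast (List.cons_ne_nil _ _) = lst a l
  | _, [] => rfl
  | _, c :: l => lst_eq c l

theorem lst_app : ∀ (a : V) (l m : List V), lst a (l ++ m) = lst (lst a l) m
  | _, [], _ => rfl
  | _, c :: l, m => lst_app c l m

theorem chain_app {R : V → V → Prop} : ∀ {a : V} {l m : List V}, (a :: l).IsChain R → (lst a l :: m).IsChain R →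
    (a :: (l ++ m)).IsChain R
  | _, [], _, _, h => h
  | _, _ :: _, _, h, h' => List.isChain_cons_cons.2
      ⟨(List.isChain_cons_cons.1 h).1, chain_app (List.isChain_cons_cons.1 h).2 h'⟩

theorem htp_app : ∀ {a : V} {l : List V}, X.Htp b n (lst a l :: m) (lst a l :: m') →
    X.Htp b n (a :: (l ++ m)) (a :: (l ++ m'))
  | _, [], h => h
  | a, c :: l, h => by simpa using (htp_app (a := c) (l := l) h).ctx [a] []

/-- a link with a rank function, an order and generic joins with rank one vertices -/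
structure Ranked (X : Cx V) (b : V) where
  r : V → ℕ
  lt : V → V → Prop
  lt_r : ∀ {a c}, lt a c → X.Adj b a ∧ X.Adj b c ∧ r a < r c
  trans : ∀ {a c d}, lt a c → lt c d → lt a d
  r_le : ∀ {a}, X.Adj b a → r a ≤ 3
  tri : ∀ {a c}, X.Tri b a c ↔ lt a c ∨ lt c a
  tet : ∀ {a c d}, lt a c → lt c d → ∃ C ∈ X.ch, ∃ i j k l, i ≠ j ∧ i ≠ k ∧ i ≠ l ∧ j ≠ k ∧ j ≠ l ∧ k ≠ l ∧
    C i = b ∧ C j = a ∧ C k = c ∧ C l = d
  base : ∃ a, X.Adj b a ∧ r a = 1
  bot : ∀ {c}, X.Adj b c → ∃ a, X.Adj b a ∧ r a = 1 ∧ (a = c ∨ lt a c)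
  gen : ∀ (t : Option V) (l : List V), l.length ≤ 40 → (∀ T ∈ t, X.Adj b T ∧ r T = 3) →
    (∀ z ∈ l, X.Adj b z ∧ r z ≤ 2 ∧ ∀ T ∈ t, lt z T) → ∃ (o : V) (j : V → V), r o = 1 ∧ ∀ z ∈ l,
      lt o (j z) ∧ lt z (j z) ∧ r (j z) = r z + 1 ∧ (r z = 1 → ∀ T ∈ t, lt (j z) T) ∧
        ∀ z' ∈ l, lt z z' → lt (j z) (j z')

namespace Ranked

variable (D : Ranked X b)

theorem tets (h : D.lt a c) (h' : D.lt c d) : (X.Tet b a c d ∧ X.Tet b a d c) ∧ (X.Tet b c a d ∧ X.Tet b d c a) ∧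
    X.Tet b c d a := by
  obtain ⟨C, hC, i, j, k, l, h1, h2, h3, h4, h5, h6, rfl, rfl, rfl, rfl⟩ := D.tet h h'
  have := fun {i j : Fin 4} (h : i ≠ j) => ch_ne hC h
  refine ⟨⟨?_, ?_⟩, ⟨?_, ?_⟩, ?_⟩ <;> refine ⟨this ?_, this ?_, this ?_, this ?_, this ?_, this ?_, C, ?_⟩ <;>
    simp [mem_star, hC, X.col_ch C hC, h1, h2, h3, h4, h5, h6, h4.symm, h5.symm, h6.symm]

def Low (t : Option V) (z : V) : Prop := X.Adj b z ∧ D.r z ≤ 2 ∧ ∀ T ∈ t, D.lt z T

def Pth (t : Option V) (n : ℕ) (a : V) (l : List V) : Prop :=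
  l.length ≤ n ∧ (a :: l).IsChain (X.Tri b) ∧ ∀ z ∈ l, D.Low t z

variable {D} {t : Option V}

theorem conn (ht : ∀ T ∈ t, X.Adj b T ∧ D.r T = 3) (ha : D.Low t a) (hc : D.Low t c) :
    ∃ l, D.Pth t 6 a l ∧ lst a l = c := by
  obtain ⟨a', a1, a2, a3⟩ := D.bot ha.1
  obtain ⟨c', c1, c2, c3⟩ := D.bot hc.1
  have lo : ∀ {a a'}, D.Low t a → X.Adj b a' → D.r a' = 1 → a' = a ∨ D.lt a' a → D.Low t a' :=
    fun h h1 h2 h3 => ⟨h1, by omega, fun T hT => h3.elim (fun e => e ▸ h.2.2 T hT) (D.trans · (h.2.2 T hT))⟩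
  have a4 := lo ha a1 a2 a3
  have c4 := lo hc c1 c2 c3
  obtain ⟨o, j, o1, h⟩ := D.gen t [a', c'] (by simp) ht (by simpa using ⟨a4, c4⟩)
  obtain ⟨p1, p2, p3, p4, -⟩ := h a' (by simp)
  obtain ⟨q1, q2, q3, q4, -⟩ := h c' (by simp)
  have p5 : D.Low t (j a') := ⟨(D.lt_r p1).2.1, by omega, p4 a2⟩
  have q5 : D.Low t (j c') := ⟨(D.lt_r q1).2.1, by omega, q4 c2⟩
  have o2 := lo p5 (D.lt_r p1).1 o1 (Or.inr p1)
  rcases a3 with rfl | a3 <;> rcases c3 with rfl | c3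
  · exact ⟨[j a', o, j c', c'], ⟨by simp, by simp [D.tri, *], by simp [*]⟩, rfl⟩
  · exact ⟨[j a', o, j c', c', c], ⟨by simp, by simp [D.tri, *], by simp [*]⟩, rfl⟩
  · exact ⟨[a', j a', o, j c', c'], ⟨by simp, by simp [D.tri, *], by simp [*]⟩, rfl⟩
  · exact ⟨[a', j a', o, j c', c', c], ⟨by simp, by simp [D.tri, *], by simp [*]⟩, rfl⟩

theorem Pth.app (h : D.Pth none n a l) (h' : D.Pth t k (lst a l) m) : D.Pth none (n + k) a (l ++ m) :=
  ⟨by simpa using add_le_add h.1 h'.1, chain_app h.2.1 h'.2.1, fun z hz =>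
    (List.mem_append.1 hz).elim (h.2.2 z) fun e => ⟨(h'.2.2 z e).1, (h'.2.2 z e).2.1, by simp⟩⟩

theorem slide {L : List V} {o : V} {j : V → V} (h : ∀ z ∈ L, D.lt o (j z) ∧ D.lt z (j z) ∧
    ∀ z' ∈ L, D.lt z z' → D.lt (j z) (j z')) : ∀ {a : V} {l : List V}, (a :: l).IsChain (X.Tri b) →
      (∀ z ∈ a :: l, z ∈ L) → X.Htp b (3 * l.length) (o :: j a :: a :: l) [o, j (lst a l), lst a l]
  | _, [], _, _ => rfl
  | a, c :: l, hc, hL => by
    obtain ⟨t, hc⟩ := List.isChain_cons_cons.1 hc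
    obtain ⟨a1, a2, a3⟩ := h a (hL a (by simp))
    obtain ⟨c1, c2, c3⟩ := h c (hL c (by simp))
    have : X.Htp b (1 + 1 + 1) (o :: j a :: a :: c :: l) (o :: j c :: c :: l) := by
      rcases D.tri.1 t with t | t
      · have u := a3 c (hL c (by simp)) t
        exact ((htp_tet (D.tets t c2).1.2 [o, j a] l).trans
          (htp_tet (D.tets a2 u).2.1.1 [o] (c :: l)).symm).trans (htp_tet (D.tets a1 u).1.1 [] (c :: l)).symm
      · have u := c3 a (hL a (by simp)) t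
        exact ((htp_tet (D.tets t a2).2.1.2 [o] l).symm.trans
          (htp_tet (D.tets c2 u).2.1.2 [o] l)).trans (htp_tet (D.tets c1 u).1.2 [] (c :: l)).symm
    exact (this.trans (slide h hc fun z hz => hL z (List.mem_cons_of_mem _ hz))).mono (by simp; omega)

theorem homot (ha : D.Low none a) (h : D.Pth none 12 a l) (h' : D.Pth none 6 a m) (e : lst a l = lst a m) :
    X.Htp b 58 (a :: l) (a :: m) := by
  obtain ⟨o, j, -, g⟩ := D.gen none (a :: (l ++ m)) (by simp; linarith [h.1, h'.1]) (by simp) (by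
    simp only [List.mem_cons, List.mem_append]
    rintro z (rfl | hz | hz)
    exacts [ha, h.2.2 z hz, h'.2.2 z hz])
  have g' := fun z hz => And.intro (g z hz).1 (And.intro (g z hz).2.1 (g z hz).2.2.2.2)
  obtain ⟨a1, a2, -⟩ := g a (by simp)
  have k : ∀ l n, X.Htp b n (o :: j a :: a :: l) [o, j (lst a l), lst a l] →
      X.Htp b (1 + 1 + n) (a :: l) [a, j a, o, j (lst a l), lst a l] := fun l n h =>
    ((htp_back (D.tri.2 (Or.inl a2)) [] l).trans (htp_back (D.tri.2 (Or.inr a1)) [a] (a :: l))).trans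
      (by simpa using h.ctx [a, j a] [])
  have k1 := k l _ (slide g' h.2.1 (by simp +contextual [or_imp]))
  have k2 := k m _ (slide g' h'.2.1 (by simp +contextual [or_imp]))
  rw [e] at k1
  exact (k1.trans k2.symm).mono (by linarith [h.1, h'.1])

theorem fan {T : V} : ∀ {a : V} {l : List V}, (a :: l).IsChain (X.Tri b) → (∀ z ∈ a :: l, D.Low (some T) z) →
    X.Htp b l.length (a :: T :: m) (a :: (l ++ T :: m))
  | _, [], _, _ => rfl
  | a, c :: l, hc, hL => by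
    obtain ⟨t, hc⟩ := List.isChain_cons_cons.1 hc
    have a1 := (hL a (by simp)).2.2 T rfl
    have c1 := (hL c (by simp)).2.2 T rfl
    have : X.Tet b a c T := (D.tri.1 t).elim (fun t => (D.tets t c1).1.1) fun t => (D.tets t a1).2.1.1
    have f := (fan hc fun z hz => hL z (List.mem_cons_of_mem _ hz)).ctx [a] []
    simp only [List.append_nil] at f
    exact ((htp_tet this [] m).trans f).mono (by simp; omega)

theorem cone (D : Ranked X b) : ∃ (a₀ : V) (P : V → List V), X.Adj b a₀ ∧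
    (∀ a, X.Adj b a → (P a).length ≤ 100 ∧ (a₀ :: P a).IsChain (X.Tri b) ∧
      (a₀ :: P a).getLast (List.cons_ne_nil _ _) = a) ∧
    ∀ a c, X.Tri b a c → X.Htp b 100 (a₀ :: P a ++ [c]) (a₀ :: P c) := by
  obtain ⟨o, o1, o2⟩ := D.base
  have o3 : D.Low none o := ⟨o1, by omega, by simp⟩
  have : ∀ a, ∃ l, X.Adj b a → (D.r a ≤ 2 → D.Pth none 6 o l ∧ lst o l = a) ∧
      (D.r a = 3 → ∃ m, D.Pth none 6 o m ∧ D.Low (some a) (lst o m) ∧ l = m ++ [a]) := fun a => by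
    by_cases h : X.Adj b a
    swap
    · exact ⟨[], fun h' => absurd h' h⟩
    by_cases e : D.r a ≤ 2
    · obtain ⟨l, hl⟩ := conn (t := none) (by simp) o3 ⟨h, e, by simp⟩
      exact ⟨l, fun _ => ⟨fun _ => hl, fun _ => by omega⟩⟩
    obtain ⟨y, y1, y2, y3⟩ := D.bot h
    obtain ⟨l, hl, rfl⟩ := conn (t := none) (c := y) (by simp) o3 ⟨y1, by omega, by simp⟩
    exact ⟨l ++ [a], fun _ => ⟨fun c => absurd c e, fun _ => ⟨l, hl, ⟨y1, by omega, by
      simpa using y3.resolve_left fun c => e (by rw [← c]; omega)⟩, rfl⟩⟩⟩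
  choose P hP using this
  refine ⟨o, P, o1, fun a h => ?_, fun a c t => ?_⟩
  · rw [lst_eq]
    by_cases e : D.r a ≤ 2
    · obtain ⟨p, q⟩ := (hP a h).1 e
      exact ⟨p.1.trans (by norm_num), p.2.1, q⟩
    obtain ⟨m, p, q, e'⟩ := (hP a h).2 (by have := D.r_le h; omega)
    rw [e', lst_app]
    exact ⟨by simp; linarith [p.1], chain_app p.2.1 (by simp [D.tri, q.2.2 a rfl]), rfl⟩
  have ad : X.Adj b a ∧ X.Adj b c ∧ D.r a ≠ D.r c := (D.tri.1 t).elim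
    (fun t => ⟨(D.lt_r t).1, (D.lt_r t).2.1, (D.lt_r t).2.2.ne⟩)
    fun t => ⟨(D.lt_r t).2.1, (D.lt_r t).1, (D.lt_r t).2.2.ne'⟩
  have ra := D.r_le ad.1
  have rc := D.r_le ad.2.1
  have rd := ad.2.2
  by_cases e : D.r a ≤ 2 <;> by_cases e' : D.r c ≤ 2
  · obtain ⟨p, q⟩ := (hP a ad.1).1 e
    obtain ⟨p', q'⟩ := (hP c ad.2.1).1 e'
    have u : D.Pth none 6 (lst o (P a)) [c] := ⟨by simp, by simp [q, t], by simpa using ⟨ad.2.1, e', by simp⟩⟩
    exact (homot o3 (p.app u) p' (by rw [lst_app, q']; rfl)).mono (by norm_num)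
  · obtain ⟨p, q⟩ := (hP a ad.1).1 e
    obtain ⟨m, p', q', e''⟩ := (hP c ad.2.1).2 (by omega)
    have lo : D.Low (some c) a := ⟨ad.1, e, by
      simpa using (D.tri.1 t).resolve_right fun t => by have := (D.lt_r t).2.2; omega⟩
    obtain ⟨l, l1, l2⟩ := conn (t := some c) (by simpa using ⟨ad.2.1, by omega⟩) lo q'
    have f := fan (D := D) (m := []) l1.2.1 (by simpa using ⟨lo, l1.2.2⟩)
    rw [← q] at l1 l2 f
    have g := (homot o3 (p.app l1) p' (by rw [lst_app, l2])).ctx [] [c]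
    rw [e'']
    exact ((htp_app f).trans (by simpa using g)).mono (by linarith [l1.1])
  · obtain ⟨m, p, q, e''⟩ := (hP a ad.1).2 (by omega)
    obtain ⟨p', q'⟩ := (hP c ad.2.1).1 e'
    have lo : D.Low (some a) c := ⟨ad.2.1, e', by
      simpa using (D.tri.1 t).resolve_left fun t => by have := (D.lt_r t).2.2; omega⟩
    obtain ⟨l, l1, l2⟩ := conn (t := some a) (by simpa using ⟨ad.1, by omega⟩) q lo
    have f := htp_app (fan (D := D) (m := [c]) l1.2.1 (by simpa using ⟨q, l1.2.2⟩))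
    have g := homot o3 (p.app l1) p' (by rw [lst_app, l2, q'])
    have u : X.Htp b 1 (lst o (m ++ l) :: []) (lst o (m ++ l) :: [a, c]) := by
      rw [lst_app, l2]
      exact htp_back (D.tri.2 (D.tri.1 t).symm) [] []
    have u' := (htp_app u).symm
    rw [List.append_nil, List.append_assoc] at u'
    rw [e'']
    exact (((show X.Htp b _ _ _ by simpa using f).trans u').trans g).mono (by linarith [l1.1])
  · omega

end Ranked

end Pool.Agent.Lib.MP_b138e1_al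
end

-- part Pool.Agent.Lib.MP_b138e1_al.Split
section

/-! A finite complex all of whose vertex links are the split building of `K ^ 4`. -/

set_option autoImplicit false

namespace Pool.Agent.Lib.MP_b138e1_al

theorem six : ∀ r s t : Fin 4, r ≠ 0 → s ≠ 0 → t ≠ 0 → r ≠ s → r ≠ t → s ≠ t →
    (r = 1 ∧ s = 2 ∧ t = 3) ∨ (r = 2 ∧ s = 1 ∧ t = 3) ∨ (r = 1 ∧ s = 3 ∧ t = 2) ∨ (r = 3 ∧ s = 1 ∧ t = 2) ∨
    (r = 3 ∧ s = 2 ∧ t = 1) ∨ (r = 2 ∧ s = 3 ∧ t = 1) := by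
  intro r s t
  fin_cases r <;> fin_cases s <;> fin_cases t <;> simp

open scoped Classical
open Finset Matrix

theorem pr_image {L α : Type} [Group L] [Fintype L] {Γ B : Subgroup L} (l : B ≤ Γ) (m : L → α)
    (hm : ∀ g g', m g = m g' ↔ g⁻¹ * g' ∈ B) {s : Finset α} (hs : ∀ c, c ∈ s ↔ ∃ g ∈ Γ, m g = c) (A : α → Prop) :
    pr s A = av Γ fun g => ind (A (m g)) := by
  set β := (univ.filter (· ∈ B)).card with hβ
  have β0 : (β : ℝ) ≠ 0 := by exact_mod_cast (card_pos.2 ⟨1, by simp⟩).ne'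
  have k : ∀ A : α → Prop, (univ.filter fun g => g ∈ Γ ∧ A (m g)).card = (s.filter A).card * β := fun A => by
    rw [card_eq_sum_card_fiberwise (f := m) (t := s.filter A) fun g hg => by
      simp only [coe_filter, mem_univ, true_and, Set.mem_ofPred_eq] at hg ⊢
      exact ⟨(hs _).2 ⟨g, hg.1, rfl⟩, hg.2⟩, ← smul_eq_mul, ← sum_const]
    refine sum_congr rfl fun c hc => ?_
    obtain ⟨g, hg, rfl⟩ := (hs c).1 (mem_filter.1 hc).1
    refine card_bijective (g⁻¹ * ·) (Group.mulLeft_bijective _) fun x => ?_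
    simp only [mem_filter, mem_univ, true_and, ← hm]
    exact ⟨fun h => h.2.symm, fun h => ⟨⟨by simpa using mul_mem hg (l ((hm _ _).1 h)), h ▸ (mem_filter.1 hc).2⟩,
      h.symm⟩⟩
  have k1 := k fun _ => True
  simp only [and_true, filter_true] at k1
  rw [av_eq, k1, pr, show ∑ g ∈ univ.filter (· ∈ Γ), ind (A (m g)) = ((s.filter A).card * β : ℕ) by
    rw [← k]
    simp [ind, filter_filter]]
  push_cast
  rw [mul_div_mul_right _ _ β0]

variable {K : Type} [Field K]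

def eps (k : Fin 4) : GL4 K := dg fun j => if j < k then -1 else 1

abbrev VV (K : Type) [Field K] := Fin 4 × GL4 K

def vv (q : GL4 K × GL4 K) : Cham (VV K) := fun k => (k, q.1 * eps k * q.2⁻¹)

def io (k : Fin 4) : GL4 K →* GL4 K × GL4 K := (MonoidHom.id _).prod (MulAut.conj (eps k)⁻¹).toMonoidHom

theorem io_apply (k : Fin 4) (g : GL4 K) : io k g = (g, (eps k)⁻¹ * g * eps k) := by simp [io]

theorem vv_eq {q q' : GL4 K × GL4 K} {i : Fin 4} : vv q i = vv q' i ↔ ∃ g, io i g = q⁻¹ * q' := by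
  simp only [vv, io_apply, Prod.ext_iff, true_and, Prod.fst_mul, Prod.fst_inv, Prod.snd_mul, Prod.snd_inv,
    exists_eq_left]
  exact ⟨fun h => calc _ = (eps i)⁻¹ * q.1⁻¹ * (q'.1 * eps i * q'.2⁻¹) * q'.2 := by group
      _ = _ := by rw [← h]; group,
    fun h => calc _ = q.1 * eps i * (q.2⁻¹ * q'.2) * q'.2⁻¹ := by group
      _ = _ := by rw [← h]; group⟩

theorem io_lev {k l : Fin 4} {g : GL4 K} (h2 : (2 : K) ≠ 0) : io k g = io l g ↔ Lev k l g := by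
  have e : ∀ k i j, ((eps k)⁻¹ * g * eps k : GL4 K).1 i j = if (i < k ↔ j < k) then g.1 i j else - g.1 i j :=
    fun k i j => by
      show (diagonal _ * g.1 * diagonal _ : Mat K) i j = _
      rw [mul_diagonal, diagonal_mul]
      by_cases a : i < k <;> by_cases b : j < k <;> simp [a, b]
  simp only [io_apply, Prod.ext_iff, true_and, Units.ext_iff, ← Matrix.ext_iff, e, Lev]
  refine forall_congr' fun i => forall_congr' fun j => ?_
  have n : ∀ x : K, (x = -x ↔ x = 0) ∧ (-x = x ↔ x = 0) := fun x =>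
    ⟨⟨fun h => (mul_eq_zero.1 (show 2 * x = 0 by linear_combination h)).resolve_left h2, fun h => by simp [h]⟩,
      fun h => (mul_eq_zero.1 (show 2 * x = 0 by linear_combination -h)).resolve_left h2, fun h => by simp [h]⟩
  by_cases a : i < k <;> by_cases b : j < k <;> by_cases c : i < l <;> by_cases d : j < l <;> simp [a, b, c, d, n]

def sn (i k : Fin 4) : K := if k < i then -1 else 1

theorem sn_sq (i k : Fin 4) : (sn i k : K) * sn i k = 1 := by unfold sn; split_ifs <;> simp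

theorem eps_div (i k : Fin 4) :
    (eps k * (eps i)⁻¹ : GL4 K).1 = (sn i k : K) • (1 - (2 : K) • Dp (Equiv.addRight i) (k - i)) := by
  have : ∀ i k j : Fin 4, (j < k ↔ j < i) ↔ (k < i ↔ j + -i < k - i) := by decide
  show diagonal _ * diagonal _ = _
  rw [diagonal_mul_diagonal]
  ext a b
  rcases eq_or_ne a b with rfl | e
  · have := this i k a
    by_cases p : a < k <;> by_cases q : a < i <;> by_cases r : k < i <;> by_cases s : a + -i < k - i <;>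
      simp [Dp, sn, p, q, r, s] at this ⊢ <;> norm_num
  · simp [Dp, e]

noncomputable def Pm (b a : VV K) : Mat K := (2⁻¹ : K) • (1 - (sn b.1 a.1 : K) • (a.2 * b.2⁻¹).1)

theorem pm_vv (h2 : (2 : K) ≠ 0) (q : GL4 K × GL4 K) (i k : Fin 4) :
    Pm (vv q i) (vv q k) = cn q.1 (Dp (Equiv.addRight i) (k - i)) := by
  have : ((vv q k).2 * (vv q i).2⁻¹).1 = cn q.1 (eps k * (eps i)⁻¹ : GL4 K).1 := by
    rw [cn_apply, ← Units.val_mul, ← Units.val_mul]
    congr 1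
    simp only [vv]
    group
  rw [Pm, this, eps_div, map_smul, smul_smul]
  simp only [vv]
  rw [sn_sq, one_smul, map_sub, map_one, map_smul, sub_sub_cancel, smul_smul, inv_mul_cancel₀ h2, one_smul]

theorem pm_ext (h2 : (2 : K) ≠ 0) {b a a' : VV K} (h : a.1 = a'.1) (e : Pm b a = Pm b a') : a = a' := by
  rw [Pm, Pm, ← h, smul_right_inj (inv_ne_zero h2), sub_right_inj,
    smul_right_inj (left_ne_zero_of_mul_eq_one (sn_sq _ _))] at e
  exact Prod.ext h (mul_right_cancel (Units.ext e))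

variable [Fintype K]

variable (K) in
noncomputable def XX : Cx (VV K) where
  col := Prod.fst
  ch := univ.image vv
  col_ch C h t := by
    obtain ⟨q, -, rfl⟩ := mem_image.1 h
    rfl
  cover a := ⟨vv (a.2 * (eps a.1)⁻¹, 1), mem_image_of_mem _ (mem_univ _), by simp [vv]⟩

theorem mem_XX {C : Cham (VV K)} : C ∈ (XX K).ch ↔ ∃ q, vv q = C := by simp [XX]

omit [Fintype K] in
def tr (u : GL4 K × GL4 K) : Equiv.Perm (VV K) where
  toFun a := (a.1, u.1 * a.2 * u.2⁻¹)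
  invFun a := (a.1, u.1⁻¹ * a.2 * u.2)
  left_inv a := by simp [mul_assoc]
  right_inv a := by simp [mul_assoc]

omit [Fintype K] in
theorem tr_vv (u p : GL4 K × GL4 K) : tr u ∘ vv p = vv (u * p) :=
  funext fun k => by simp [tr, vv, mul_assoc]

theorem XX_trans : (XX K).LinkTransitive := by
  intro b C hC C' hC'
  obtain ⟨h1, h2⟩ := of_mem_star hC
  obtain ⟨h1', h2'⟩ := of_mem_star hC'
  obtain ⟨q, rfl⟩ := mem_XX.1 h1
  obtain ⟨q', rfl⟩ := mem_XX.1 h1'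
  have e : tr (q' * q⁻¹) ∘ vv q = vv q' := by rw [tr_vv, inv_mul_cancel_right]
  have eb : tr (q' * q⁻¹) b = b := by
    have := congrFun e ((XX K).col b)
    rwa [Function.comp, h2, h2'] at this
  refine ⟨tr (q' * q⁻¹), fun D => ?_, e⟩
  generalize q' * q⁻¹ = u at eb
  simp only [mem_star, mem_singleton, forall_eq, mem_XX, Function.comp_apply]
  refine and_congr ⟨fun ⟨p, hp⟩ => ⟨u * p, by rw [← tr_vv, hp]⟩, fun ⟨p, hp⟩ => ⟨u⁻¹ * p, ?_⟩⟩ ?_
  · refine (tr u).injective.comp_left ?_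
    simp only [tr_vv, mul_inv_cancel_left, hp]
  · nth_rewrite 4 [← eb]
    exact (tr u).injective.eq_iff.symm

variable (hK : Big K)
include hK

omit [Fintype K] in
theorem Big.two : (2 : K) ≠ 0 := by exact_mod_cast hK.1 2 (by norm_num) (by norm_num)

theorem ch_flag {C : Cham (VV K)} (hC : C ∈ (XX K).ch) (i : Fin 4) : Flag fun r => Pm (C i) (C (r + i)) := by
  obtain ⟨q, rfl⟩ := mem_XX.1 hC
  simpa only [pm_vv hK.two, add_sub_cancel_right] using flag_conj q.1 (Equiv.addRight i)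

theorem flag_ch (b : VV K) {P : Fin 4 → Mat K} (h : Flag P) : ∃ C ∈ (XX K).ch, C b.1 = b ∧
    (∀ r, Pm b (C (r + b.1)) = P r) ∧ ∀ a, Pm b a = P (a.1 - b.1) → C a.1 = a := by
  obtain ⟨g, hg⟩ := h.conj hK (Equiv.addRight b.1)
  have e : vv (g, b.2⁻¹ * g * eps b.1) b.1 = b := by simp [vv, mul_assoc]
  have := pm_vv hK.two (g, b.2⁻¹ * g * eps b.1) b.1
  rw [e] at this
  exact ⟨_, mem_XX.2 ⟨_, rfl⟩, e, fun r => by rw [this, add_sub_cancel_right, hg],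
    fun a ha => pm_ext hK.two rfl (by rw [this, hg, ha])⟩

omit hK in
def Lk (b a : VV K) : Prop := a.1 - b.1 ≠ 0 ∧ Le (Pm b a) (Pm b a) ∧ (Pm b a).trace = (a.1 - b.1).1

theorem lk_of {C : Cham (VV K)} (hC : C ∈ (XX K).ch) {i j : Fin 4} (n : i ≠ j) : Lk (C i) (C j) := by
  have f := ch_flag hK hC i (j - i)
  have a : (C i).1 = i := (XX K).col_ch C hC i
  have b : (C j).1 = j := (XX K).col_ch C hC j
  simp only [sub_add_cancel] at f
  rw [Lk, a, b]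
  exact ⟨sub_ne_zero.2 n.symm, by simpa using f.2 _ le_rfl, f.1⟩

theorem adj_lk {b a : VV K} : (XX K).Adj b a ↔ Lk b a := by
  refine ⟨fun h => ?_, fun h => ?_⟩
  · obtain ⟨C, hC, i, j, n, rfl, rfl⟩ := adj_iff.1 h
    exact lk_of hK hC n
  · obtain ⟨P, p, -, e⟩ := flag2 hK (Fin.pos_iff_ne_zero.2 h.1) zero_le' h.2.1 zero_le' (by simp) h.2.2
    obtain ⟨C, hC, c1, -, c2⟩ := flag_ch hK b p
    exact adj_iff.2 ⟨C, hC, _, _, (sub_ne_zero.1 h.1).symm, c1, c2 a e.symm⟩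

theorem mk_lk (b : VV K) {r : Fin 4} (n : r ≠ 0) {A : Mat K} (h : Le A A) (t : A.trace = r.1) :
    ∃ a, Lk b a ∧ a.1 - b.1 = r ∧ Pm b a = A := by
  obtain ⟨P, p, -, e⟩ := flag2 hK (Fin.pos_iff_ne_zero.2 n) zero_le' h zero_le' (by simp) t
  obtain ⟨C, hC, -, c, -⟩ := flag_ch hK b p
  have a : (C (r + b.1)).1 - b.1 = r := by rw [show (C _).1 = _ from (XX K).col_ch C hC _, add_sub_cancel_right]
  exact ⟨C (r + b.1), by rw [Lk, a, c, e]; exact ⟨n, h, t⟩, a, (c r).trans e⟩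

noncomputable def ranked (b : VV K) : Ranked (XX K) b where
  r a := (a.1 - b.1).1
  lt a c := Lk b a ∧ Lk b c ∧ a.1 - b.1 < c.1 - b.1 ∧ Le (Pm b a) (Pm b c)
  lt_r h := ⟨(adj_lk hK).2 h.1, (adj_lk hK).2 h.2.1, h.2.2.1⟩
  trans h h' := ⟨h.1, h'.2.1, h.2.2.1.trans h'.2.2.1, h.2.2.2.trans h'.2.2.2⟩
  r_le _ := Nat.le_of_lt_succ (Fin.is_lt _)
  tri := fun {a c} => by
    have key : ∀ {a c}, Lk b a ∧ Lk b c ∧ a.1 - b.1 < c.1 - b.1 ∧ Le (Pm b a) (Pm b c) →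
        (XX K).Tri b a c ∧ (XX K).Tri b c a := fun {a c} ⟨h1, h2, h3, h4⟩ => by
      obtain ⟨P, p, e, e'⟩ := flag2 hK h3 h1.2.1 h2.2.1 h4 h1.2.2 h2.2.2
      obtain ⟨C, hC, c1, -, c2⟩ := flag_ch hK b p
      have n1 := (sub_ne_zero.1 h1.1).symm
      have n2 := (sub_ne_zero.1 h2.1).symm
      have n3 : a.1 ≠ c.1 := fun e => h3.ne (by rw [e])
      exact ⟨tri_iff.2 ⟨C, hC, _, _, _, n1, n2, n3, c1, c2 a e.symm, c2 c e'.symm⟩,
        tri_iff.2 ⟨C, hC, _, _, _, n2, n1, n3.symm, c1, c2 c e'.symm, c2 a e.symm⟩⟩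
    refine ⟨fun h => ?_, fun h => h.elim (fun h => (key h).1) fun h => (key h).2⟩
    obtain ⟨C, hC, i, j, k, n1, n2, n3, rfl, rfl, rfl⟩ := tri_iff.1 h
    have f := ch_flag hK hC i
    have e : ∀ t, (C t).1 = t := (XX K).col_ch C hC
    simp only [e]
    rcases lt_or_gt_of_ne (show j - i ≠ k - i by simpa using n3) with l | l
    · exact Or.inl ⟨lk_of hK hC n1, lk_of hK hC n2, l, by simpa using (f _).2 _ l.le⟩
    · exact Or.inr ⟨lk_of hK hC n2, lk_of hK hC n1, l, by simpa using (f _).2 _ l.le⟩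
  tet := fun {a c d} ⟨h1, h2, h3, h4⟩ ⟨_, h5, h6, h7⟩ => by
    obtain ⟨e1, e2, e3⟩ : a.1 - b.1 = 1 ∧ c.1 - b.1 = 2 ∧ d.1 - b.1 = 3 :=
      (by decide : ∀ x y z : Fin 4, x ≠ 0 → x < y → y < z → x = 1 ∧ y = 2 ∧ z = 3) _ _ _ h1.1 h3 h6
    obtain ⟨C, hC, c1, -, c2⟩ := flag_ch hK b (flag3 h1.2.1 h2.2.1 h5.2.1 h4 h7 (by simpa [e1] using h1.2.2)
      (by simpa [e2] using h2.2.2) (by simpa [e3] using h5.2.2))
    exact ⟨C, hC, _, _, _, _, (sub_ne_zero.1 h1.1).symm, (sub_ne_zero.1 h2.1).symm, (sub_ne_zero.1 h5.1).symm,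
      fun e => h3.ne (by rw [e]), fun e => (h3.trans h6).ne (by rw [e]), fun e => h6.ne (by rw [e]), c1,
      c2 a (by rw [e1]; rfl), c2 c (by rw [e2]; rfl), c2 d (by rw [e3]; rfl)⟩
  base := by
    obtain ⟨a, h, e, -⟩ := mk_lk hK b (r := 1) (by decide) ((flagD 1 1).2 1 le_rfl) (flagD 1 1).1
    exact ⟨a, (adj_lk hK).2 h, by rw [e]; rfl⟩
  bot := fun {c} h => by
    have h' := (adj_lk hK).1 h
    by_cases e : c.1 - b.1 = 1
    · exact ⟨c, h, by rw [e]; rfl, Or.inl rfl⟩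
    obtain ⟨P, p, -, e'⟩ := flag2 hK (Fin.pos_iff_ne_zero.2 h'.1) zero_le' h'.2.1 zero_le' (by simp) h'.2.2
    obtain ⟨a, a1, a2, a3⟩ := mk_lk hK b (r := 1) (by decide) ((p 1).2 1 le_rfl) (p 1).1
    have l : 1 < c.1 - b.1 := (by decide : ∀ x : Fin 4, x ≠ 0 → x ≠ 1 → 1 < x) _ h'.1 e
    exact ⟨a, (adj_lk hK).2 a1, by rw [a2]; rfl, Or.inr ⟨a1, h', a2 ▸ l, a3 ▸ e' ▸ (p 1).2 _ l.le⟩⟩
  gen := fun t l hl ht hz => by
    obtain ⟨T, t1, ⟨n, t2, t3, t4⟩, t5, t6⟩ : ∃ T : Mat K, Le T T ∧ (∃ n : ℕ, 3 ≤ n ∧ n ≤ 4 ∧ T.trace = n) ∧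
        (∀ z ∈ l, Le (Pm b z) T) ∧ ∀ u ∈ t, Pm b u = T := by
      rcases t with _ | u
      · exact ⟨1, le_one', ⟨4, by simp, by simp, by simp⟩, fun _ _ => le_one', by simp⟩
      · have := (adj_lk hK).1 (ht u rfl).1
        exact ⟨_, this.2.1, ⟨3, by simp, by simp, (ht u rfl).2 ▸ this.2.2⟩,
          fun z h => ((hz z h).2.2 u rfl).2.2.2, by simp⟩
    have ne : ∀ (m : ℕ) (P : Mat K), m ≤ 2 → P.trace = m → P ≠ T := fun m P a e c =>
      hK.1 (n - m) (by omega) (by omega) (by rw [Nat.cast_sub (by omega), ← t4, ← e, c, sub_self])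
    obtain ⟨O, o1, o2, o3⟩ := generic (insert 0 (l.toFinset.image (Pm b))) t1 (by simp) (by
      simp only [mem_insert, mem_image, List.mem_toFinset, forall_eq_or_imp]
      refine ⟨⟨zero_le', ne 0 _ (by simp) (by simp)⟩, ?_⟩
      rintro _ ⟨z, h, rfl⟩
      exact ⟨t5 z h, ne _ _ (hz z h).2.1 ((adj_lk hK).1 (hz z h).1).2.2⟩) (lt_of_le_of_lt (by
        exact_mod_cast (card_insert_le _ _).trans (by
          linarith [card_image_le (s := l.toFinset) (f := Pm b), l.toFinset_card_le])) hK.2)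
    obtain ⟨o, p1, p2, p3⟩ := mk_lk hK b (r := 1) (by decide) o1.idem (by simpa using o1.trace)
    have g : ∀ z ∈ l, ((1 - Pm b z) * O).trace ≠ 0 := fun z h => o3 _ (mem_insert_of_mem (mem_image_of_mem _ (List.mem_toFinset.2 h)))
    have lk := fun z h => (adj_lk hK).1 (hz z h).1
    have : ∀ z, ∃ y, z ∈ l → Lk b y ∧ (y.1 - b.1).1 = (z.1 - b.1).1 + 1 ∧ Pm b y = Jn (Pm b z) O := fun z => by
      by_cases h : z ∈ l
      swap
      · exact ⟨z, fun c => absurd c h⟩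
      obtain ⟨y, y1, y2, y3⟩ := mk_lk hK b (r := ⟨(z.1 - b.1).1 + 1, by have := (hz z h).2.1; omega⟩)
        (Fin.ne_of_val_ne (Nat.succ_ne_zero _)) (jn_idem (lk z h).2.1 o1 (g z h)) (by
          rw [jn_trace (lk z h).2.1 (g z h), (lk z h).2.2]
          simp)
      exact ⟨y, fun _ => ⟨y1, by rw [y2], y3⟩⟩
    choose j hj using this
    refine ⟨o, j, by rw [p2]; rfl, fun z h => ?_⟩
    obtain ⟨j1, j2, j3⟩ := hj z h
    have z0 := Fin.pos_iff_ne_zero.2 (lk z h).1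
    refine ⟨⟨p1, j1, by rw [p2, Fin.lt_def, j2]; simpa using z0, by rw [p3, j3]; exact jn_right o1 (g z h)⟩,
      ⟨lk z h, j1, by rw [Fin.lt_def, j2]; simp, j3 ▸ jn_left (lk z h).2.1⟩, j2, fun e u hu =>
      ⟨j1, (adj_lk hK).1 (ht u hu).1, by rw [Fin.lt_def, j2, e, (ht u hu).2]; simp, ?_⟩, fun z' h' e =>
      ⟨j1, (hj z' h').1, by rw [Fin.lt_def, j2, (hj z' h').2.1]; simpa using e.2.2.1, ?_⟩⟩
    · rw [j3, t6 u hu]
      exact jn_le (t5 z h) o2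
    · rw [j3, (hj z' h').2.2]
      exact jn_le (e.2.2.2.trans (jn_left (lk z' h').2.1)) (jn_right o1 (g z' h'))

theorem XX_cone : (XX K).Cone 100 := fun b => (ranked hK b).cone

variable {lam : ℝ} (h0 : 0 < lam) (hq : 1 ≤ lam ^ 2 * Fintype.card K)
include h0 hq

theorem mx_all (σ : Equiv.Perm (Fin 4)) {r s t : Fin 4} (h1 : r ≠ 0) (h2 : s ≠ 0) (h3 : t ≠ 0) (h4 : r ≠ s)
    (h5 : r ≠ t) (h6 : s ≠ t) :
    MX (Ce (1 : Mat K)) (Dp σ r) (Dp σ s) lam ∧ MX (Ce (Dp σ t : Mat K)) (Dp σ r) (Dp σ s) lam := by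
  have c : ∀ r : Fin 4, r ≠ 0 → (1 : Mat K) - Dp (Fin.revPerm.trans σ) (-r) = Dp σ r := fun r n => by
    have : ∀ r x : Fin 4, r ≠ 0 → (x.rev < -r ↔ ¬ x < r) := by decide
    ext i j
    rcases eq_or_ne i j with rfl | e
    · have := this r (σ.symm i) n
      by_cases p : σ.symm i < r <;> simp [Dp, this, p, -not_lt]
    · simp [Dp, e]
  have a1 := mx1 hK σ h0 hq (Or.inl rfl)
  have a2 := mx3 hK σ h0 hq
  have a3 := (mx1 hK (Fin.revPerm.trans σ) h0 hq (Or.inl rfl)).compl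
  have b1 := mx1 hK σ h0 hq (Or.inr rfl)
  have b2 := mx2 (K := K) σ h0
  have b3 := (mx1 hK (Fin.revPerm.trans σ) h0 hq (Or.inr rfl)).compl
  have e : Ce (Dp (Fin.revPerm.trans σ) 3 : Mat K) = Ce (Dp σ 1) := Subgroup.ext fun g => by
    rw [← c 1 (by decide), mem_Ce, mem_Ce, map_sub, map_one, sub_right_inj]
    rfl
  have c2 : (1 : Mat K) - Dp (Fin.revPerm.trans σ) 2 = Dp σ 2 := c 2 (by decide)
  have c3 : (1 : Mat K) - Dp (Fin.revPerm.trans σ) 1 = Dp σ 3 := c 3 (by decide)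
  rw [c2, c3] at a3 b3
  rw [e] at b3
  rcases six r s t h1 h2 h3 h4 h5 h6 with
    ⟨rfl, rfl, rfl⟩ | ⟨rfl, rfl, rfl⟩ | ⟨rfl, rfl, rfl⟩ | ⟨rfl, rfl, rfl⟩ | ⟨rfl, rfl, rfl⟩ | ⟨rfl, rfl, rfl⟩
  exacts [⟨a1, b1⟩, ⟨a1.symm, b1.symm⟩, ⟨a2, b2⟩, ⟨a2.symm, b2.symm⟩, ⟨a3, b3⟩, ⟨a3.symm, b3.symm⟩]

theorem XX_mix : (XX K).Mix lam := by
  intro σ ⟨a, ha⟩ k l n hσ S T
  rcases ((XX K).star σ).eq_empty_or_nonempty with e | ⟨C, hC⟩
  · simp [e, pr]
  obtain ⟨h1, h2⟩ := mem_star.1 hC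
  obtain ⟨q, rfl⟩ := mem_XX.1 h1
  set i := (XX K).col a with hi
  obtain ⟨j, j1, j2, j3⟩ := ex_fourth i k l (hσ a ha).1 (hσ a ha).2 n
  set D : Fin 4 → Mat K := fun t => Dp (Equiv.addRight i) (t - i) with hD
  let m : GL4 K → Cham (VV K) := fun g => vv (q * io i g)
  have m0 : ∀ g, m g i = vv q i := fun g => (vv_eq.2 ⟨g, by simp⟩).symm
  have m1 : ∀ g t, Pm (vv q i) (m g t) = cn q.1 (cn g (D t)) := fun g t => by
    rw [← m0 g, pm_vv hK.two, ← cn_mul]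
    rfl
  have m2 : ∀ g g' t, m g t = m g' t ↔ g⁻¹ * g' ∈ Ce (D t) := fun g g' t => by
    rw [mem_Ce, cn_mul]
    refine ⟨fun e => ?_, fun e => pm_ext hK.two (b := vv q i) rfl (by rw [m1, m1, ← cn_inv' g (cn g' _), e])⟩
    have := m1 g t
    rw [e, m1] at this
    rw [← cn_inv q.1 (cn g' _), this, cn_inv, cn_inv]
  have m3 : m 1 = vv q := by simp [m]
  have key : ∀ U : Mat K, (∀ g ∈ ⨅ t, Ce (D t), g ∈ Ce U) → (∀ g, m g ∈ (XX K).star σ ↔ g ∈ Ce U) →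
      MX (Ce U) (D k) (D l) lam → _ := fun U u1 u2 u3 => by
    have p := pr_image (Γ := Ce U) u1 m (fun g g' => by simp only [funext_iff, m2, Subgroup.mem_iInf])
      (s := (XX K).star σ) fun C => ⟨fun hC => by
        obtain ⟨p, rfl⟩ := mem_XX.1 (mem_star.1 hC).1
        obtain ⟨g, hg⟩ := vv_eq.1 ((h2 a ha).trans ((mem_star.1 hC).2 a ha).symm)
        have : m g = vv p := by simp only [m, hi, hg, mul_inv_cancel_left]
        exact ⟨g, (u2 g).1 (this ▸ hC), this⟩, fun ⟨g, h, e⟩ => e ▸ (u2 g).2 h⟩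
    have f : ∀ (S : VV K → Prop) t g, S (m g t) ↔
        ∃ x, x.1 = t ∧ Pm (vv q i) x = cn q.1 (cn g (D t)) ∧ S x := fun S t g =>
      ⟨fun h => ⟨_, rfl, m1 g t, h⟩, fun ⟨x, x1, x2, x3⟩ =>
        pm_ext hK.two (b := vv q i) (a := x) (a' := m g t) x1 (x2.trans (m1 g t).symm) ▸ x3⟩
    have := u3 (fun M => ∃ x, x.1 = k ∧ Pm (vv q i) x = cn q.1 M ∧ S x)
      fun M => ∃ x, x.1 = l ∧ Pm (vv q i) x = cn q.1 M ∧ T x
    simp only [← f, ← ind_and] at this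
    rw [← p fun C => S (C k) ∧ T (C l), ← p fun C => S (C k), ← p fun C => T (C l)] at this
    exact this
  obtain ⟨x1, x2⟩ := mx_all hK h0 hq (Equiv.addRight i) (sub_ne_zero.2 (hσ a ha).1.symm)
    (sub_ne_zero.2 (hσ a ha).2.symm) (sub_ne_zero.2 j1.symm) (sub_left_inj.not.2 n) (sub_left_inj.not.2 j2)
    (sub_left_inj.not.2 j3)
  have cs : ∀ c ∈ σ, (XX K).col c = i ∨ (XX K).col c = j := fun c hc =>
    other_two k l i j _ n (hσ a ha).1.symm j2 (hσ a ha).2.symm j3 j1 (hσ c hc).1 (hσ c hc).2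
  by_cases c : ∃ c ∈ σ, (XX K).col c = j
  · obtain ⟨c, c1, c2⟩ := c
    refine key _ (fun g h => Subgroup.mem_iInf.1 h j) (fun g => ?_) x2
    have := m2 1 g j
    rw [inv_one, one_mul, m3] at this
    rw [← this, mem_star]
    refine ⟨fun h => by rw [← c2, h.2 c c1, h2 c c1], fun h => ⟨mem_XX.2 ⟨_, rfl⟩, fun d hd => ?_⟩⟩
    rcases cs d hd with e | e <;> rw [e, ← h2 d hd, e]
    exacts [m0 g, h.symm]
  · refine key _ (fun g _ => map_one _) (fun g => ⟨fun _ => map_one _, fun _ => mem_star.2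
      ⟨mem_XX.2 ⟨_, rfl⟩, fun d hd => ?_⟩⟩) x1
    have e := (cs d hd).resolve_right fun e => c ⟨d, hd, e⟩
    rw [e, ← h2 d hd, e, m0]

end Pool.Agent.Lib.MP_b138e1_al
end
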