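import Mathlib

-- part Pool.Agent.Lib.MP_b138e1_al.Stein
section

/-! Steinberg relations of rank two over a commutative ring; symbols. -/

set_option autoImplicit false

namespace Pool.Agent.Lib.MP_b138e1_al

structure St (A F : Type) [CommRing A] [Group F] where
  x : Fin 3 → Fin 3 → A → F
  add : ∀ {i j}, i ≠ j → ∀ a b, x i j (a + b) = x i j a * x i j b
  com : ∀ {i j k l}, i ≠ j → k ≠ l → j ≠ k → i ≠ l → ∀ a b, Commute (x i j a) (x k l b)
  rel : ∀ {i j k}, i ≠ j → j ≠ k → i ≠ k → ∀ a b, x i j a * x j k b = x i k (a * b) * x j k b * x i j a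

theorem three : ∀ i j k l : Fin 3, i ≠ j → i ≠ k → j ≠ k → l = i ∨ l = j ∨ l = k := by decide

theorem third : ∀ i j : Fin 3, i ≠ j → ∃ k, i ≠ k ∧ j ≠ k := by decide

namespace St

variable {A F : Type} [CommRing A] [Group F] (S : St A F) {i j k l : Fin 3}

theorem zero (h : i ≠ j) : S.x i j 0 = 1 := by
  have := S.add h 0 0
  rw [add_zero] at this
  exact left_eq_mul.1 this

theorem neg (h : i ≠ j) (a : A) : S.x i j (-a) = (S.x i j a)⁻¹ := by
  rw [eq_inv_iff_mul_eq_one, ← S.add h, neg_add_cancel, S.zero h]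

theorem c1 (h1 : i ≠ j) (h2 : j ≠ k) (h3 : i ≠ k) (a b : A) :
    MulAut.conj (S.x i j a) (S.x j k b) = S.x i k (a * b) * S.x j k b := by
  rw [MulAut.conj_apply, S.rel h1 h2 h3, mul_inv_cancel_right]

theorem c2 (h1 : i ≠ j) (h2 : j ≠ k) (h3 : i ≠ k) (a b : A) :
    MulAut.conj (S.x i j a) (S.x k i b) = S.x k j (-(b * a)) * S.x k i b := by
  rw [MulAut.conj_apply, S.neg h2.symm, eq_inv_mul_iff_mul_eq, ← mul_assoc, ← mul_assoc,
    ← S.rel h3.symm h1 h2.symm, mul_inv_cancel_right]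

theorem c0 (h1 : i ≠ j) (h2 : k ≠ l) (h3 : j ≠ k) (h4 : i ≠ l) (a b : A) :
    MulAut.conj (S.x i j a) (S.x k l b) = S.x k l b := by
  rw [MulAut.conj_apply, (S.com h1 h2 h3 h4 a b).eq, mul_inv_cancel_right]

theorem sand (h1 : i ≠ j) (h2 : k ≠ l) (h3 : j ≠ k) (h4 : i ≠ l) (a b c : A) (e : a + c = 0) :
    S.x i j a * S.x k l b * S.x i j c = S.x k l b := by
  rw [(S.com h1 h2 h3 h4 a b).eq, mul_assoc, ← S.add h1, e, S.zero h1, mul_one]

theorem comm (h1 : i ≠ j) (h2 : j ≠ k) (h3 : i ≠ k) (a b : A) :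
    S.x i k (a * b) = S.x i j a * S.x j k b * (S.x i j a)⁻¹ * (S.x j k b)⁻¹ := by
  rw [S.rel h1 h2 h3]
  group

def w (i j : Fin 3) (u : Aˣ) : F := S.x i j u * S.x j i (-u⁻¹ : Aˣ) * S.x i j u

def h (i j : Fin 3) (u : Aˣ) : F := S.w i j u * S.w i j (-1)

section
variable (h1 : i ≠ j) (h2 : j ≠ k) (h3 : i ≠ k) (u : Aˣ) (a : A)
include h1 h2 h3

theorem w1 : MulAut.conj (S.w i j u) (S.x i k a) = S.x j k (-(u⁻¹ : Aˣ) * a) := by
  simp only [w, map_mul, MulAut.mul_apply]
  rw [S.c0 h1 h3 h1.symm h3, S.c1 h1.symm h3 h2, map_mul, S.c1 h1 h2 h3, S.c0 h1 h3 h1.symm h3,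
    S.sand h3 h2 h2.symm h3 _ _ _ (by simp)]
  simp

theorem w2 : MulAut.conj (S.w i j u) (S.x j k a) = S.x i k (u * a) := by
  simp only [w, map_mul, MulAut.mul_apply]
  rw [S.c1 h1 h2 h3, map_mul, map_mul, S.c1 h1.symm h3 h2, S.c0 h1.symm h2 h1 h2, ← map_mul,
    S.sand h2 h3 h3.symm h2 _ _ _ (by simp), S.c0 h1 h3 h1.symm h3]

theorem w3 : MulAut.conj (S.w i j u) (S.x k i a) = S.x k j (-(a * u)) := by
  simp only [w, map_mul, MulAut.mul_apply]
  rw [S.c2 h1 h2 h3, map_mul, map_mul, S.c2 h1.symm h3 h2, S.c0 h1.symm h3.symm h3 h1.symm, ← map_mul,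
    S.sand h3.symm h2.symm h3 h2.symm _ _ _ (by simp), S.c0 h1 h2.symm h2 h1]

theorem w4 : MulAut.conj (S.w i j u) (S.x k j a) = S.x k i (a * (u⁻¹ : Aˣ)) := by
  simp only [w, map_mul, MulAut.mul_apply]
  rw [S.c0 h1 h2.symm h2 h1, S.c2 h1.symm h3 h2, map_mul, S.c2 h1 h2 h3, S.c0 h1 h2.symm h2 h1,
    S.sand h2.symm h3.symm h2 h3.symm _ _ _ (by simp)]
  simp

end

theorem w5 (h1 : i ≠ j) (u : Aˣ) (a : A) :
    MulAut.conj (S.w i j u) (S.x i j a) = S.x j i (-((u⁻¹ : Aˣ) * a * (u⁻¹ : Aˣ))) := by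
  obtain ⟨k, h3, h2⟩ := third i j h1
  rw [← mul_one a, S.comm h3 h2.symm h1]
  simp only [map_mul, map_inv, S.w1 h1 h2 h3, S.w4 h1 h2 h3]
  rw [← S.comm h2 h3.symm h1.symm]
  simp

theorem w6 (h1 : i ≠ j) (u : Aˣ) (a : A) :
    MulAut.conj (S.w i j u) (S.x j i a) = S.x i j (-(u * a * u)) := by
  obtain ⟨k, h3, h2⟩ := third i j h1
  rw [← mul_one a, S.comm h2 h3.symm h1.symm]
  simp only [map_mul, map_inv, S.w2 h1 h2 h3, S.w3 h1 h2 h3]
  rw [← S.comm h3 h2.symm h1]
  simp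

theorem w_neg (h1 : i ≠ j) (u : Aˣ) : S.w i j (-u) = (S.w i j u)⁻¹ := by
  simp [w, S.neg h1, ← S.neg h1.symm, mul_assoc]

theorem w_swap (h1 : i ≠ j) (u : Aˣ) : S.w i j u = S.w j i (-u⁻¹) := by
  have : S.w i j u = MulAut.conj (S.w i j u) (S.w i j u) := by simp
  rw [this]
  nth_rewrite 2 [w]
  simp only [map_mul, S.w5 h1, S.w6 h1]
  simp [w]

/-- conjugation by `g` scales the root elements by the diagonal matrix `d` -/
def Dg (g : F) (d : Fin 3 → Aˣ) : Prop :=
  ∀ k l, k ≠ l → ∀ a, MulAut.conj g (S.x k l a) = S.x k l (d k * a * ((d l)⁻¹ : Aˣ))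

variable {S}

theorem Dg.mul {g g' : F} {d d' : Fin 3 → Aˣ} (h : S.Dg g d) (h' : S.Dg g' d') : S.Dg (g * g') (d * d') :=
  fun k l e a => by
    rw [map_mul, MulAut.mul_apply, h' k l e, h k l e]
    congr 1
    simp only [Pi.mul_apply, mul_inv, Units.val_mul]
    ring

theorem Dg.inv {g : F} {d : Fin 3 → Aˣ} (h : S.Dg g d) : S.Dg g⁻¹ d⁻¹ := fun k l e a => by
  rw [map_inv, MulAut.inv_apply, MulEquiv.symm_apply_eq, h k l e]
  simp [mul_assoc]

theorem Dg.w {g : F} {d : Fin 3 → Aˣ} (h : S.Dg g d) (h1 : i ≠ j) (u : Aˣ) :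
    MulAut.conj g (S.w i j u) = S.w i j (d i * u * (d j)⁻¹) := by
  simp only [St.w, map_mul, h i j h1, h j i h1.symm]
  simp [mul_assoc, mul_comm, mul_left_comm]

theorem Dg.comm {g : F} (h : S.Dg g 1) (h1 : i ≠ j) (u : Aˣ) : Commute g (S.h i j u) := by
  have := fun u => h.w h1 u
  simp only [MulAut.conj_apply, Pi.one_apply, one_mul, inv_one, mul_one, mul_inv_eq_iff_eq_mul] at this
  exact Commute.mul_right (this u) (this _)

variable (S)

theorem h_dg (h1 : i ≠ j) (u : Aˣ) : S.Dg (S.h i j u) (Pi.mulSingle i u * Pi.mulSingle j u⁻¹) := by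
  obtain ⟨m, h3, h2⟩ := third i j h1
  intro k l e a
  rw [h, map_mul, MulAut.mul_apply]
  rcases three i j m k h1 h3 h2 with rfl | rfl | rfl <;> rcases three _ _ _ l h1 h3 h2 with rfl | rfl | rfl <;>
    first
    | exact absurd rfl e
    | simp [S.w5 h1, S.w6 h1, S.w1 h1 h2 h3, S.w2 h1 h2 h3, S.w3 h1 h2 h3, S.w4 h1 h2 h3, h1,
        h1.symm, h2.symm, h3.symm, -MulAut.conj_apply]

/-- the symbol -/
def c (a b : Aˣ) : F := S.h 0 1 a * S.h 0 1 b * (S.h 0 1 (a * b))⁻¹

theorem c_dg (a b : Aˣ) : S.Dg (S.c a b) 1 := by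
  have := ((S.h_dg (i := 0) (j := 1) (by decide) a).mul (S.h_dg (i := 0) (j := 1) (by decide) b)).mul
    (S.h_dg (i := 0) (j := 1) (by decide) (a * b)).inv
  rwa [show _ * _ * _ = (1 : Fin 3 → Aˣ) by
    rw [mul_inv_eq_one, mul_mul_mul_comm, ← Pi.mulSingle_mul, ← Pi.mulSingle_mul, mul_inv]] at this

theorem c_com (a b u : Aˣ) (h1 : i ≠ j) : Commute (S.c a b) (S.h i j u) := (S.c_dg a b).comm h1 u

theorem c_comc (a b a' b' : Aˣ) : Commute (S.c a b) (S.c a' b') :=
  ((S.c_com a b _ (by decide)).mul_right (S.c_com a b _ (by decide))).mul_right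
    (S.c_com a b _ (by decide)).inv_right

theorem c_eq (a b : Aˣ) : S.c a b = S.h 0 1 a * (MulAut.conj (S.h 0 2 b) (S.h 0 1 a))⁻¹ := by
  have := S.h_dg (i := 0) (j := 2) (by decide) b
  rw [show S.h 0 1 a = S.w 0 1 a * S.w 0 1 (-1) from rfl, map_mul, this.w (by decide), this.w (by decide)]
  simp [c, h, S.w_neg (i := 0) (j := 1) (by decide), mul_assoc, mul_comm b a]

theorem h_mul (a b : Aˣ) : S.h 0 1 a * S.h 0 1 b = S.c a b * S.h 0 1 (a * b) := by simp [c]

theorem c_mul_left (a a' b : Aˣ) : S.c (a * a') b = S.c a b * S.c a' b := by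
  have e : S.h 0 1 (a * a') = (S.c a a')⁻¹ * (S.h 0 1 a * S.h 0 1 a') := by rw [h_mul]; simp
  have e2 : MulAut.conj (S.h 0 2 b) (S.c a a') = S.c a a' := by
    rw [MulAut.conj_apply, ← (S.c_com a a' b (by decide)).eq, mul_inv_cancel_right]
  have k1 := (S.c_com a' b a (i := 0) (j := 1) (by decide)).eq
  have k2 := (S.c_comc a a' a b).inv_left.eq
  have k3 := (S.c_comc a a' a' b).inv_left.eq
  have k4 := (S.c_comc a b a' b).eq
  calc S.c (a * a') b = (S.c a a')⁻¹ * (S.h 0 1 a * S.c a' b * (S.h 0 1 a)⁻¹ * S.c a b) * S.c a a' := by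
        rw [c_eq, e, map_mul, map_mul, map_inv, e2, S.c_eq a' b, S.c_eq a b]
        group
    _ = _ := by
        rw [← k1, mul_inv_cancel_right, ← mul_assoc, k3, mul_assoc (S.c a' b), k2, k4]
        group

theorem c_mul_right (a b b' : Aˣ) : S.c a (b * b') = S.c a b * S.c a b' := by
  have e1 : S.h 0 1 a * S.h 0 1 b * S.h 0 1 b' = S.c a b * (S.c a b' * S.c b b') * S.h 0 1 (a * b * b') := by
    rw [h_mul, mul_assoc, h_mul, c_mul_left, mul_assoc (S.c a b)]
  have e2 : S.h 0 1 a * S.h 0 1 b * S.h 0 1 b' = S.c a (b * b') * S.c b b' * S.h 0 1 (a * b * b') := by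
    rw [mul_assoc, h_mul, ← mul_assoc, ← (S.c_com b b' a (by decide)).eq, mul_assoc, h_mul, ← mul_assoc,
      (S.c_comc b b' _ _).eq, mul_assoc a]
  rw [e1, mul_left_inj, ← mul_assoc, mul_left_inj] at e2
  exact e2.symm

def cl (b : Aˣ) : Aˣ →* F := MonoidHom.mk' (S.c · b) fun a a' => S.c_mul_left a a' b

def cr (a : Aˣ) : Aˣ →* F := MonoidHom.mk' (S.c a) (S.c_mul_right a)

theorem c_pow (a b : Aˣ) (m n : ℕ) : S.c (a ^ m) (b ^ n) = S.c a b ^ (m * n) :=
  (map_pow (S.cl _) a m).trans (by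
    rw [mul_comm, pow_mul]
    exact congrArg (· ^ m) (map_pow (S.cr a) b n))

theorem c_one_sub (u v : Aˣ) (e : (u : A) + v = 1) : S.c u v = 1 := by
  have n : (0 : Fin 3) ≠ 1 := by decide
  have a1 := S.w6 n u 1
  have a2 := S.w6 n (-v) 1
  rw [S.w_neg n, MulAut.conj_apply, inv_inv, mul_assoc, inv_mul_eq_iff_eq_mul] at a2
  rw [MulAut.conj_apply, mul_inv_eq_iff_eq_mul] at a1
  have a3 : S.w 0 1 (-1) = S.x 1 0 1 * S.x 0 1 (-1) * S.x 1 0 1 := by
    rw [S.w_swap n]
    simp [w]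
  have : S.w 0 1 u * S.w 0 1 (-1) * S.w 0 1 v = S.w 0 1 (u * v) := by
    rw [a3, mul_assoc, mul_assoc, a2, ← mul_assoc, ← mul_assoc, ← mul_assoc, a1]
    simp only [w, mul_assoc]
    rw [← mul_assoc (S.x 0 1 (-1)), ← S.add n, ← mul_assoc (S.x 0 1 u) (S.x 0 1 _), ← S.add n,
      show (u : A) + (-1 + v) = 0 by linear_combination e, S.zero n, one_mul (S.x 1 0 _ * _), ← mul_assoc (S.x 1 0 _) (S.x 1 0 _),
      ← S.add n.symm, ← S.add n, ← mul_assoc, ← S.add n]
    congr 2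
    · simp only [Units.val_mul]
      linear_combination (-u : A) * e
    · congr 1
      simp only [Units.val_neg, mul_inv, Units.val_mul]
      linear_combination (-(u⁻¹ : Aˣ) * (v⁻¹ : Aˣ) : A) * e + ((v⁻¹ : Aˣ) : A) * u.inv_mul +
        ((u⁻¹ : Aˣ) : A) * v.inv_mul
    · congr 1
      simp only [Units.val_neg, Units.val_mul]
      linear_combination (-v : A) * e
  rw [c, mul_inv_eq_one, h, h, h, ← mul_assoc, this]

theorem c_neg_self {K : Type} [Field K] (S : St K F) (a : Kˣ) : S.c a (-a) = 1 := by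
  by_cases e : a = 1
  · rw [e]
    exact map_one (S.cl _)
  have n1 : 1 - (a : K) ≠ 0 := fun h => e (Units.ext (sub_eq_zero.1 h).symm)
  have n2 : 1 - ((a⁻¹ : Kˣ) : K) ≠ 0 := fun h => e (inv_eq_one.1 (Units.ext (sub_eq_zero.1 h).symm))
  have e1 := S.c_one_sub a (Units.mk0 _ n1) (by simp)
  have e2 := S.c_one_sub a⁻¹ (Units.mk0 _ n2) (by simp)
  have e3 : S.c a (Units.mk0 _ n2) = 1 := inv_eq_one.1 ((map_inv (S.cl _) a).symm.trans e2)
  rw [show Units.mk0 _ n1 = -a * Units.mk0 _ n2 from Units.ext (by simp [mul_sub]), c_mul_right, e3,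
    mul_one] at e1
  exact e1

theorem c_field {K : Type} [Field K] [Finite K] (S : St K F) (a b : Kˣ) : S.c a b = 1 := by
  have := Fintype.ofFinite K
  obtain ⟨z, hz⟩ := IsCyclic.exists_monoid_generator (α := Kˣ)
  have pw : ∀ a b, ∃ n : ℕ, S.c a b = S.c z z ^ n := fun a b => by
    obtain ⟨m, rfl⟩ := hz a
    obtain ⟨n, rfl⟩ := hz b
    exact ⟨_, S.c_pow z z m n⟩
  have e1 : S.c z z = S.c z (-1) := by
    have := S.c_mul_right z (-z) (-1)
    rwa [c_neg_self, one_mul, neg_mul_neg, mul_one] at this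
  have e2 : S.c z z ^ 2 = 1 := by
    rw [e1, sq, ← c_mul_right, neg_mul_neg, mul_one]
    exact map_one (S.cr z)
  have s1 : ∀ a b, S.c a (b * b) = 1 := fun a b => by
    obtain ⟨n, e⟩ := pw a b
    rw [c_mul_right, e, ← sq, ← pow_mul, mul_comm, pow_mul, e2, one_pow]
  have s2 : ∀ a b, S.c (a * a) b = 1 := fun a b => by
    obtain ⟨n, e⟩ := pw a b
    rw [c_mul_left, e, ← sq, ← pow_mul, mul_comm, pow_mul, e2, one_pow]
  have s3 : ∀ y : K, (z : K) * (y * y) = 1 → S.c z z = 1 := fun y hy => by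
    have n : y ≠ 0 := by rintro rfl; simp at hy
    have := s1 z (z * Units.mk0 y n)
    rwa [show z * Units.mk0 y n * (z * Units.mk0 y n) = z from Units.ext (by
      simp only [Units.val_mul, Units.val_mk0]; linear_combination (z : K) * hy)] at this
  suffices S.c z z = 1 by
    obtain ⟨n, e⟩ := pw a b
    rw [e, this, one_pow]
  by_cases h2 : ringChar K = 2
  · have : CharP K 2 := ringChar.of_eq h2
    rw [e1, show (-1 : Kˣ) = 1 from Units.ext (by simpa using CharTwo.neg_eq (1 : K))]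
    exact map_one (S.cr z)
  obtain ⟨x, y, e⟩ := FiniteField.exists_root_sum_quadratic (f := Polynomial.C (z : K) * Polynomial.X ^ 2)
    (g := Polynomial.C (z : K) * Polynomial.X ^ 2 - 1) (by compute_degree!) (by compute_degree!)
    (FiniteField.odd_card_of_char_ne_two h2)
  simp only [Polynomial.eval_mul, Polynomial.eval_C, Polynomial.eval_pow, Polynomial.eval_X,
    Polynomial.eval_sub, Polynomial.eval_one] at e
  by_cases hx : x = 0
  · exact s3 y (by rw [hx] at e; linear_combination e)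
  by_cases hy : y = 0
  · exact s3 x (by rw [hy] at e; linear_combination e)
  have := S.c_one_sub (z * (Units.mk0 x hx * Units.mk0 x hx)) (z * (Units.mk0 y hy * Units.mk0 y hy))
    (by simp only [Units.val_mul, Units.val_mk0]; linear_combination e)
  rwa [c_mul_left, s2, mul_one, c_mul_right, s1, mul_one] at this

/-- pull back along an additive and multiplicative map -/
def comap {B : Type} [CommRing B] (f : B → A) (h1 : ∀ a b, f (a + b) = f a + f b)
    (h2 : ∀ a b, f (a * b) = f a * f b) : St B F where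
  x i j a := S.x i j (f a)
  add h a b := by rw [h1, S.add h]
  com a b c d _ _ := S.com a b c d _ _
  rel a b c _ _ := by rw [h2, S.rel a b c]

theorem c_comap {B : Type} [CommRing B] (f : B →+* A) (a b : Bˣ) :
    (S.comap f f.map_add f.map_mul).c a b = S.c (Units.map f a) (Units.map f b) := by
  simp [c, h, w, comap]

theorem orth {e f : A} (he : e * e = e) (hf : e * f = 0) (h1 : i ≠ j) (h2 : k ≠ l) (a b : A) :
    Commute (S.x i j (e * a)) (S.x k l (f * b)) := by
  have k1 : ∀ {i j k}, i ≠ j → j ≠ k → i ≠ k → ∀ a b, a * b = 0 → Commute (S.x i j a) (S.x j k b) :=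
    fun h1 h2 h3 a b e => by rw [Commute, SemiconjBy, S.rel h1 h2 h3, e, S.zero h3, one_mul]
  by_cases e1 : j = k <;> by_cases e2 : i = l
  · subst e1 e2
    obtain ⟨m, h3, h4⟩ := third i j h1
    rw [show e * a = e * a * e by linear_combination (-a) * he, S.comm h3 h4.symm h1]
    have a1 := (k1 h2 h3 h4 (f * b) (e * a) (by linear_combination (a * b) * hf)).symm
    have a2 := k1 h4.symm h2 h3.symm e (f * b) (by linear_combination b * hf)
    exact ((a1.mul_left a2).mul_left a1.inv_left).mul_left a2.inv_left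
  · subst e1
    exact k1 h1 h2 e2 _ _ (by linear_combination (a * b) * hf)
  · subst e2
    exact (k1 h2 h1 (Ne.symm e1) _ _ (by linear_combination (a * b) * hf)).symm
  · exact S.com h1 h2 e1 e2 _ _

def we (e : A) (u : Aˣ) : F := S.x 0 1 (e * u) * S.x 1 0 (e * (-u⁻¹ : Aˣ)) * S.x 0 1 (e * u)

def he (e : A) (u : Aˣ) : F := S.we e u * S.we e (-1)

theorem he_congr {e : A} {u v : Aˣ} (h : e * u = e * v) : S.he e u = S.he e v := by
  have : e * (-u⁻¹ : Aˣ) = e * (-v⁻¹ : Aˣ) := by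
    simp only [Units.val_neg]
    linear_combination ((u⁻¹ : Aˣ) * (v⁻¹ : Aˣ) : A) * h - e * (v⁻¹ : Aˣ) * u.inv_mul +
      e * (u⁻¹ : Aˣ) * v.inv_mul
  simp only [he, we, h, this]

theorem he_one (e : A) : S.he e 1 = 1 := by
  have n : (0 : Fin 3) ≠ 1 := by decide
  simp [he, we, S.neg n, S.neg n.symm, mul_assoc]

theorem h_split {e : A} (he : e * e = e) (u : Aˣ) : S.h 0 1 u = S.he e u * S.he (1 - e) u := by
  have n : (0 : Fin 3) ≠ 1 := by decide
  have hf : e * (1 - e) = 0 := by linear_combination -he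
  have o := fun {i j k l} => S.orth (i := i) (j := j) (k := k) (l := l) he hf
  have sp : ∀ {i j}, i ≠ j → ∀ a, S.x i j a = S.x i j (e * a) * S.x i j ((1 - e) * a) := fun h a => by
    rw [← S.add h]
    congr 1
    ring
  have k1 : ∀ u, S.w 0 1 u = S.we e u * S.we (1 - e) u := fun u => by
    rw [w, sp n, sp n.symm, (o n.symm n _ _).symm.mul_mul_mul_comm,
      ((o n n _ _).mul_right (o n n.symm _ _)).symm.mul_mul_mul_comm]
    rfl
  have k2 : Commute (S.we (1 - e) u) (S.we e (-1)) := by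
    refine Commute.symm (Commute.mul_left (Commute.mul_left ?_ ?_) ?_) <;>
      refine Commute.mul_right (Commute.mul_right ?_ ?_) ?_ <;> exact o (by decide) (by decide) _ _
  rw [h, k1, k1, k2.mul_mul_mul_comm]
  rfl

theorem c_pi {ι : Type} [Finite ι] {K : ι → Type} [∀ i, Field (K i)] [∀ i, Finite (K i)]
    (S : St (∀ i, K i) F) (a b : (∀ i, K i)ˣ) : S.c a b = 1 := by
  classical
  let s : ∀ i, (K i)ˣ → (∀ i, K i)ˣ := fun i u => MulEquiv.piUnits.symm (Pi.mulSingle i u)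
  have gen : ∀ φ : (∀ i, K i)ˣ →* F, (∀ i u, φ (s i u) = 1) → ∀ a, φ a = 1 := fun φ h a => by
    have := Subgroup.pi_mem_of_mulSingle_mem (H := (φ.comp MulEquiv.piUnits.symm.toMonoidHom).ker)
      (MulEquiv.piUnits a) fun i => h i _
    simpa using this
  refine gen (S.cl b) (fun i u => gen (S.cr _) (fun j v => ?_) b) a
  have he : (Pi.single i 1 : ∀ i, K i) * Pi.single i 1 = Pi.single i 1 := by rw [← Pi.single_mul, mul_one]
  have o1 : ∀ u, S.he (1 - Pi.single i 1) (s i u) = 1 := fun u =>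
    (S.he_congr (v := 1) (by ext t; rcases eq_or_ne t i with rfl | e <;> simp [s, *])).trans (S.he_one _)
  show S.c (s i u) (s j v) = 1
  by_cases e : j = i
  · subst e
    let T := S.comap (Pi.single j) (Pi.single_add j) (Pi.single_mul j)
    have k : ∀ u, S.h 0 1 (s j u) = T.h 0 1 u := fun u => by
      have e1 : ∀ (a : ∀ i, K i), Pi.single j 1 * a = Pi.single j (a j) := fun a => by
        ext t
        by_cases e : t = j
        · subst e
          simp
        · simp [e]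
      rw [S.h_split he, o1, mul_one]
      simp [St.he, we, h, w, T, comap, e1, s]
    have := T.c_field u v
    rwa [c, ← k, ← k, ← k, show s j (u * v) = s j u * s j v by simp [s, Pi.mulSingle_mul]] at this
  · have o2 : S.he (Pi.single i 1) (s j v) = 1 :=
      (S.he_congr (v := 1) (by ext t; by_cases e' : t = i <;> simp [s, e', Ne.symm e])).trans (S.he_one _)
    rw [c, mul_inv_eq_one, S.h_split he, S.h_split he (s j v), S.h_split he (_ * _), o1, o2, mul_one, one_mul,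
      S.he_congr (u := s i u * s j v) (v := s i u) (by ext t; by_cases e' : t = i <;> simp [s, e', Ne.symm e]),
      S.he_congr (u := s i u * s j v) (v := s j v) (by ext t; rcases eq_or_ne t i with rfl | e' <;> simp [s, *])]

/-- symbols over a finite ring of characteristic `p` are `p`-torsion -/
theorem c_finite [Finite A] (p : ℕ) [Fact p.Prime] [CharP A p] (a b : Aˣ) :
    ∃ n : ℕ, S.c a b ^ p ^ n = 1 := by
  obtain ⟨n, hn⟩ := IsArtinianRing.isNilpotent_nilradical (R := A)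
  let f : A ⧸ nilradical A →+* A := Ideal.Quotient.lift _ (iterateFrobenius A p n) fun x hx => by
    have := Ideal.pow_mem_pow hx n
    rw [hn, Submodule.zero_eq_bot, Submodule.mem_bot] at this
    exact pow_eq_zero_of_le (Nat.lt_pow_self (Fact.out : p.Prime).one_lt).le this
  let e := (IsArtinianRing.quotNilradicalEquivPi A).toRingEquiv
  let _ := fun I : MaximalSpectrum A => Ideal.Quotient.field I.asIdeal
  let g := (e.toRingHom.comp (Ideal.Quotient.mk _)).toMonoidHom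
  have : ∀ I : MaximalSpectrum A, Finite (A ⧸ I.asIdeal) := fun I =>
    Finite.of_surjective _ Ideal.Quotient.mk_surjective
  have := (S.comap (f.comp e.symm.toRingHom) (map_add _) (map_mul _)).c_pi (Units.map g a) (Units.map g b)
  have k : ∀ a : Aˣ, Units.map (f.comp e.symm.toRingHom : (∀ I : MaximalSpectrum A, A ⧸ I.asIdeal) →* A) (Units.map g a) = a ^ p ^ n :=
    fun a => Units.ext (by simp [f, g]; rfl)
  rw [c_comap, k, k, c_pow, ← pow_add] at this
  exact ⟨_, this⟩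

end St

end Pool.Agent.Lib.MP_b138e1_al
end

-- part Pool.Agent.Lib.MP_b138e1_al.Affine
section

/-! Four compatible copies of `GL 4 K` in a finite group: the centre of the affine group dies. -/

set_option autoImplicit false

namespace Pool.Agent.Lib.MP_b138e1_al

open Matrix Equiv

section gen
variable {A F : Type} [CommRing A] [Group F]

/-- a Steinberg system from relations between additive generators -/
def St.ofGen (x : Fin 3 → Fin 3 → A → F) (Gn : A → Prop)
    (ind : ∀ P : A → Prop, P 0 → (∀ a b, P a → P b → P (a + b)) → (∀ g, Gn g → P g) → ∀ a, P a)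
    (add : ∀ {i j}, i ≠ j → ∀ a b, x i j (a + b) = x i j a * x i j b)
    (com : ∀ {i j k l}, i ≠ j → k ≠ l → j ≠ k → i ≠ l → ∀ a b, Gn a → Gn b → Commute (x i j a) (x k l b))
    (rel : ∀ {i j k}, i ≠ j → j ≠ k → i ≠ k → ∀ a b, Gn a → Gn b →
      x i j a * x j k b = x i k (a * b) * x j k b * x i j a) : St A F :=
  have zero : ∀ {i j}, i ≠ j → x i j 0 = 1 := fun h => by
    have := add h 0 0
    rw [add_zero] at this
    exact left_eq_mul.1 this
  have com' : ∀ {i j k l}, i ≠ j → k ≠ l → j ≠ k → i ≠ l → ∀ a b, Commute (x i j a) (x k l b) :=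
    fun h1 h2 h3 h4 a b => ind _ (by simp [zero h1]) (fun a a' p q => add h1 a a' ▸ p.mul_left q)
      (fun a ha => ind _ (by simp [zero h2]) (fun b b' p q => add h2 b b' ▸ p.mul_right q)
        (fun b hb => com h1 h2 h3 h4 a b ha hb) b) a
  { x := x
    add := add
    com := com'
    rel := fun {i j k} h1 h2 h3 a b => ind (fun a => x i j a * x j k b = x i k (a * b) * x j k b * x i j a)
      (by simp [zero h1, zero h3])
      (fun a a' p q => by
        rw [add h1, mul_assoc, q, ← mul_assoc, ← mul_assoc, (com' h1 h3 h1.symm h3 _ _).eq, mul_assoc (x i k _),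
          p, add_mul, add_comm, add h3]
        simp only [mul_assoc])
      (fun a ha => ind (fun b => x i j a * x j k b = x i k (a * b) * x j k b * x i j a)
        (by simp [zero h2, zero h3])
        (fun b b' p q => by
          rw [add h2, ← mul_assoc, p, mul_assoc, q, mul_add, add h3]
          simp only [mul_assoc]
          rw [← mul_assoc (x j k b), (com' h2 h3 h3.symm h2 _ _).eq, mul_assoc])
        (fun b hb => rel h1 h2 h3 a b ha hb) b) a }

end gen

variable {K : Type} [Field K]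

abbrev GL4 (K : Type) [Field K] := GL (Fin 4) K

def tv (i j : Fin 4) (a : K) : GL4 K :=
  if h : i = j then 1 else ⟨transvection i j a, transvection i j (-a),
    by simp [transvection_mul_transvection_same _ _ h], by simp [transvection_mul_transvection_same _ _ h]⟩

theorem tv_val {i j : Fin 4} (h : i ≠ j) (a : K) : (tv i j a).1 = 1 + single i j a := by
  simp [tv, h, transvection]

def pm : Perm (Fin 4) →* GL4 K := permMatrixHom.toHomUnits

theorem pm_val (σ : Perm (Fin 4)) (i j : Fin 4) : (pm σ : GL4 K).1 i j = if i = σ j then 1 else 0 := by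
  show σ⁻¹.permMatrix K i j = _
  simp [PEquiv.toMatrix_apply, Equiv.symm_apply_eq]

theorem pm_tv (σ : Perm (Fin 4)) {i j : Fin 4} (h : i ≠ j) (a : K) :
    pm σ * tv i j a * (pm σ)⁻¹ = tv (σ i) (σ j) a := by
  rw [mul_inv_eq_iff_eq_mul]
  refine Units.ext ?_
  rw [Units.val_mul, Units.val_mul, tv_val h, tv_val (σ.injective.ne h), mul_add, add_mul, mul_one, one_mul,
    add_right_inj]
  ext k l
  simp only [mul_apply, pm_val, single_apply, ite_and, mul_ite, ite_mul, mul_zero, zero_mul, mul_one, one_mul,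
    Finset.sum_ite_eq, Finset.sum_ite_eq', Finset.mem_univ, if_true, σ.injective.eq_iff]
  split_ifs <;> simp_all

theorem tv_add {i j : Fin 4} (h : i ≠ j) (a b : K) : tv i j (a + b) = tv i j a * tv i j b :=
  Units.ext (by simp [tv_val h, mul_add, add_mul, single_add, h.symm]; abel)

theorem tv_com {i j k l : Fin 4} (h1 : i ≠ j) (h2 : k ≠ l) (h3 : j ≠ k) (h4 : i ≠ l) (a b : K) :
    Commute (tv i j a) (tv k l b) :=
  Units.ext (by simp [tv_val h1, tv_val h2, mul_add, add_mul, h3, h4.symm]; abel)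

theorem tv_rel {i j k : Fin 4} (h1 : i ≠ j) (h2 : j ≠ k) (h3 : i ≠ k) (a b : K) :
    tv i j a * tv j k b = tv i k (a * b) * tv j k b * tv i j a :=
  Units.ext (by
    simp [tv_val h1, tv_val h2, tv_val h3, mul_add, add_mul, h2.symm, h3.symm, add_assoc, add_comm,
      add_left_comm])

def dg (d : Fin 4 → Kˣ) : GL4 K :=
  ⟨diagonal fun i => d i, diagonal fun i => (d i)⁻¹, by simp, by simp⟩

/-- `g` lies in the Levi subgroup common to the vertices `k` and `l` -/
def Lev (k l : Fin 4) (g : GL4 K) : Prop := ∀ i j, ¬ ((i < k ↔ i < l) ↔ (j < k ↔ j < l)) → g.1 i j = 0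

theorem lev_pm {k l : Fin 4} {σ : Perm (Fin 4)} (h : ∀ j, (σ j < k ↔ σ j < l) ↔ (j < k ↔ j < l)) :
    Lev k l (pm σ : GL4 K) := fun i j e => by
  rw [pm_val, if_neg]
  rintro rfl
  exact e (h j)

theorem lev_tv {k l i j : Fin 4} (n : i ≠ j) (h : (i < k ↔ i < l) ↔ (j < k ↔ j < l)) (a : K) :
    Lev k l (tv i j a) := fun i' j' e => by
  rw [tv_val n, Matrix.add_apply, one_apply_ne, single_apply_of_ne, add_zero]
  · rintro ⟨rfl, rfl⟩
    exact e h
  · rintro rfl
    exact e Iff.rfl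

theorem lev_dg {k l : Fin 4} (d : Fin 4 → Kˣ) : Lev k l (dg d) := fun i j e =>
  diagonal_apply_ne _ (by rintro rfl; exact e Iff.rfl)

def Wu (u : Kˣ) : GL4 K := tv 0 1 (u : K) * tv 1 0 ((-u⁻¹ : Kˣ) : K) * tv 0 1 (u : K)

theorem Wu_mul (u : Kˣ) : Wu u * Wu (-1) = dg ![u, u⁻¹, 1, 1] := Units.ext (by
  have n : (0 : Fin 4) ≠ 1 := by decide
  simp only [Wu, Units.val_mul, tv_val n, tv_val n.symm, dg]
  ext i j
  fin_cases i <;> fin_cases j <;> simp [mul_add, add_mul, one_apply])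

variable {F : Type} [Group F] (ψ : Fin 4 → GL4 K →* F)

def cj (k : Fin 4) (σ : Perm (Fin 4)) : MulAut F := MulAut.conj (ψ k (pm σ))

theorem cj_mul (k : Fin 4) (σ τ : Perm (Fin 4)) : cj ψ k (σ * τ) = cj ψ k σ * cj ψ k τ := by simp [cj]

theorem cj_tv (k : Fin 4) (σ : Perm (Fin 4)) {i j : Fin 4} (h : i ≠ j) (a : K) :
    cj ψ k σ (ψ k (tv i j a)) = ψ k (tv (σ i) (σ j) a) := by
  rw [cj, MulAut.conj_apply, ← pm_tv σ h, map_mul, map_mul, map_inv]

def sg (a : Fin 4) : MulAut F := cj ψ 3 (swap a 3) * cj ψ 0 (swap a 3)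

variable {ψ} (hc : ∀ k l g, Lev k l g → ψ k g * (ψ l g)⁻¹ ∈ Subgroup.center F) (h2 : (2 : K) ≠ 0)
include hc

theorem conj_eq {k l : Fin 4} {g : GL4 K} (h : Lev k l g) : MulAut.conj (ψ k g) = MulAut.conj (ψ l g) := by
  ext y
  obtain ⟨z, hz, e1⟩ : ∃ z ∈ Subgroup.center F, ψ k g = z * ψ l g := ⟨_, hc k l _ h, by simp⟩
  rw [e1, map_mul, MulAut.mul_apply, MulAut.conj_apply z, ← Subgroup.mem_center_iff.1 hz, mul_inv_cancel_right]

theorem cj_eq (k l : Fin 4) (σ : Perm (Fin 4)) (h : ∀ j, (σ j < k ↔ σ j < l) ↔ (j < k ↔ j < l)) :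
    cj ψ k σ = cj ψ l σ := conj_eq hc (lev_pm h)

include h2

theorem tv_eq (k l : Fin 4) {i j : Fin 4} (n : i ≠ j) (h : (i < k ↔ i < l) ↔ (j < k ↔ j < l)) (a : K) :
    ψ k (tv i j a) = ψ l (tv i j a) := by
  let d : GL4 K := dg (Pi.mulSingle i (Units.mk0 2 h2))
  have e : d * tv i j a * d⁻¹ = tv i j a * tv i j a := by
    rw [← tv_add n, mul_inv_eq_iff_eq_mul]
    refine Units.ext ?_
    rw [Units.val_mul, Units.val_mul, tv_val n, tv_val n, mul_add, add_mul, mul_one, one_mul, add_right_inj]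
    ext p q
    simp only [d, dg, diagonal_mul, mul_diagonal, single_apply]
    split_ifs with c
    · simp [← c.1, ← c.2, n.symm, two_mul]
    · simp
  obtain ⟨z, hz, e1⟩ : ∃ z ∈ Subgroup.center F, ψ k (tv i j a) = z * ψ l (tv i j a) :=
    ⟨_, hc k l _ (lev_tv n h a), by simp⟩
  have c := Subgroup.mem_center_iff.1 hz
  have e2 : ∀ k, MulAut.conj (ψ k d) (ψ k (tv i j a)) = ψ k (tv i j a) * ψ k (tv i j a) := fun k => by
    rw [← map_mul, ← e, map_mul, map_mul, map_inv, MulAut.conj_apply]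
  have e3 := e2 k
  rw [conj_eq hc (lev_dg _ : Lev k l d), e1, map_mul, e2, MulAut.conj_apply, c, mul_inv_cancel_right,
    mul_assoc, mul_right_inj, ← mul_assoc, c, mul_assoc, eq_comm, mul_eq_right] at e3
  rw [e1, e3, one_mul]

theorem sg_fix {i j k : Fin 4} (n : i ≠ j) (a1 : i ≠ k) (a2 : j ≠ k) (b1 : i < 3) (b2 : j < 3) (a : K) :
    sg ψ k (ψ 0 (tv i j a)) = ψ 0 (tv i j a) := by
  have e := tv_eq hc h2 0 3 n (by simp [b1, b2]) a
  rw [sg, MulAut.mul_apply, cj_tv ψ _ _ n, swap_apply_of_ne_of_ne a1 b1.ne, swap_apply_of_ne_of_ne a2 b2.ne,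
    e, cj_tv ψ _ _ n, swap_apply_of_ne_of_ne a1 b1.ne, swap_apply_of_ne_of_ne a2 b2.ne]

omit hc h2 in
theorem braid {G : Type} [Group G] {p q r : G} (r1 : p * q * p = q * p * q) (r2 : q * r * q = r * q * r)
    (r3 : r * p * r = p * r * p) (r4 : p * p = 1) : Commute (r * (p * q * p)) (r * p * r * q) :=
  calc r * (p * q * p) * (r * p * r * q) = r * p * q * (p * p) * r * p * q := by rw [r3]; group
    _ = r * p * q * r * p * q * (p * p) := by rw [r4]; group
    _ = r * p * q * r * (p * q * p) * p := by group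
    _ = r * p * (q * r * q) * p * q * p := by rw [r1]; group
    _ = _ := by rw [r2]; group

omit hc h2 in
theorem swf : ∀ a b : Fin 4, a < b → b < 3 →
    ((∀ j, (swap a b j < 0 ↔ swap a b j < 3) ↔ (j < 0 ↔ j < 3)) ∧
      (∀ j, (swap b 3 j < 0 ↔ swap b 3 j < b) ↔ (j < 0 ↔ j < b)) ∧
      ∀ j, (swap a 3 j < 3 ↔ swap a 3 j < b) ↔ (j < 3 ↔ j < b)) ∧
    (swap a 3 = swap a b * swap b 3 * swap a b ∧ swap b 3 = swap a 3 * swap a b * swap a 3 ∧
      swap a b * swap b 3 * swap a b = swap b 3 * swap a b * swap b 3 ∧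
      swap b 3 * swap a 3 * swap b 3 = swap a 3 * swap b 3 * swap a 3 ∧
      swap a 3 * swap a b * swap a 3 = swap a b * swap a 3 * swap a b) ∧
    (((3 : Fin 4) < 0 ↔ 3 < b) ↔ (b < 0 ↔ b < b)) ∧ ((a < b ↔ a < 3) ↔ (3 < b ↔ (3 : Fin 4) < 3)) ∧
      ((a < 3 ↔ a < 0) ↔ (b < 3 ↔ b < 0)) := by decide

theorem sg_pair {a b : Fin 4} (h : a < b) (hb : b < 3) : Commute (sg ψ a) (sg ψ b) ∧
    (∀ c, sg ψ a (ψ 0 (tv a b c)) = ψ b (tv a b c) ∧ sg ψ a (ψ 0 (tv b a c)) = ψ b (tv b a c)) ∧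
    ∀ c, sg ψ b (ψ b (tv a b c)) = ψ 0 (tv a b c) ∧ sg ψ b (ψ b (tv b a c)) = ψ 0 (tv b a c) := by
  obtain ⟨⟨f1, f2, f3⟩, ⟨s1, s2, r1, r2, r3⟩, g1, g2, g3⟩ := swf a b h hb
  have e1 := cj_eq hc _ _ _ f1
  have e2 := cj_eq hc _ _ _ f2
  have e3 := cj_eq hc _ _ _ f3
  have n1 := h.ne
  have n2 := hb.ne
  have n3 := (h.trans hb).ne
  refine ⟨?_, fun c => ⟨?_, ?_⟩, fun c => ⟨?_, ?_⟩⟩
  · have t1 := congrArg (cj ψ 0) s1
    have t2 := congrArg (cj ψ 3) s2
    have t3 := congrArg (cj ψ 0) r1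
    have t4 := congrArg (cj ψ b) r2
    have t5 := congrArg (cj ψ 3) r3
    simp only [cj_mul, ← e1, ← e2, ← e3] at t1 t2 t3 t4 t5
    rw [sg, sg, t1, t2]
    exact braid t3 t4 t5 (by rw [← cj_mul, Equiv.swap_mul_self]; simp [cj])
  · rw [sg, MulAut.mul_apply, cj_tv ψ _ _ n1, swap_apply_left, swap_apply_of_ne_of_ne n1.symm n2,
      tv_eq hc h2 0 b n2.symm g1, e3, cj_tv ψ _ _ n2.symm, swap_apply_right, swap_apply_of_ne_of_ne n1.symm n2]
  · rw [sg, MulAut.mul_apply, cj_tv ψ _ _ n1.symm, swap_apply_left, swap_apply_of_ne_of_ne n1.symm n2,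
      tv_eq hc h2 0 b n2 g1.symm, e3, cj_tv ψ _ _ n2, swap_apply_right, swap_apply_of_ne_of_ne n1.symm n2]
  · rw [sg, MulAut.mul_apply, e2, cj_tv ψ _ _ n1, swap_apply_left, swap_apply_of_ne_of_ne n1 n3,
      tv_eq hc h2 b 3 n3 g2, cj_tv ψ _ _ n3, swap_apply_right, swap_apply_of_ne_of_ne n1 n3,
      tv_eq hc h2 3 0 n1 g3]
  · rw [sg, MulAut.mul_apply, e2, cj_tv ψ _ _ n1.symm, swap_apply_left, swap_apply_of_ne_of_ne n1 n3,
      tv_eq hc h2 b 3 n3.symm g2.symm, cj_tv ψ _ _ n3.symm, swap_apply_right, swap_apply_of_ne_of_ne n1 n3,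
      tv_eq hc h2 3 0 n1.symm g3.symm]

open MulAction

variable (ψ) in
def x0 (i j : Fin 3) (a : K) : F := ψ 0 (tv i.castSucc j.castSucc a)

variable (ψ) in
def s0 (i : Fin 3) : MulAut F := sg ψ i.castSucc

variable (ψ) in
def yy (i j : Fin 3) (m : ℤ) (a : K) : F := (s0 ψ i ^ m) • x0 ψ i j a

variable {i j k l : Fin 3}

theorem s0_com (i j : Fin 3) : Commute (s0 ψ i) (s0 ψ j) := by
  rcases lt_trichotomy i j with h | rfl | h
  · exact (sg_pair hc h2 (a := i.castSucc) h (Fin.castSucc_lt_last j)).1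
  · exact Commute.refl _
  · exact (sg_pair hc h2 (a := j.castSucc) h (Fin.castSucc_lt_last i)).1.symm

theorem s0_fix (h1 : i ≠ j) (h3 : i ≠ k) (h4 : j ≠ k) (a : K) : s0 ψ k ∈ stabilizer (MulAut F) (x0 ψ i j a) :=
  sg_fix hc h2 (Fin.castSucc_inj.not.2 h1) (Fin.castSucc_inj.not.2 h3) (Fin.castSucc_inj.not.2 h4)
    (Fin.castSucc_lt_last i) (Fin.castSucc_lt_last j) a

theorem s0_two (h1 : i ≠ j) (a : K) : s0 ψ i * s0 ψ j ∈ stabilizer (MulAut F) (x0 ψ i j a) := by
  rcases lt_or_gt_of_ne h1 with h | h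
  · obtain ⟨c, d, e⟩ := sg_pair hc h2 (a := i.castSucc) h (Fin.castSucc_lt_last j)
    rw [(s0_com hc h2 i j).eq]
    exact (congrArg (sg ψ j.castSucc) (d a).1).trans (e a).1
  · obtain ⟨c, d, e⟩ := sg_pair hc h2 (a := j.castSucc) h (Fin.castSucc_lt_last i)
    exact (congrArg (sg ψ i.castSucc) (d a).2).trans (e a).2

theorem yy_eq (h1 : i ≠ j) (h3 : i ≠ k) (h4 : j ≠ k) (m n r : ℤ) (a : K) :
    (s0 ψ i ^ m * s0 ψ j ^ n * s0 ψ k ^ r) • x0 ψ i j a = yy ψ i j (m - n) a := by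
  have e : s0 ψ i ^ m * s0 ψ j ^ n = s0 ψ i ^ (m - n) * (s0 ψ i * s0 ψ j) ^ n := by
    rw [(s0_com hc h2 i j).mul_zpow, ← mul_assoc, ← _root_.zpow_add, sub_add_cancel]
  rw [e, mul_smul, mul_smul, zpow_mem (s0_fix hc h2 h1 h3 h4 a) r, zpow_mem (s0_two hc h2 h1 a) n, yy]

/-- any three root groups on three indices can be moved to the base vertex simultaneously -/
theorem ex_move (h1 : i ≠ j) (h3 : i ≠ k) (h4 : j ≠ k) (m n r : ℤ) : ∃ τ : MulAut F, ∀ a,
    (τ (x0 ψ i j a) = yy ψ i j (m - n) a ∧ τ (x0 ψ i k a) = yy ψ i k (m - r) a) ∧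
    τ (x0 ψ j k a) = yy ψ j k (n - r) a ∧ τ (x0 ψ k j a) = yy ψ k j (r - n) a := by
  have c := fun i j m n => (s0_com hc h2 i j).zpow_zpow m n
  refine ⟨s0 ψ i ^ m * s0 ψ j ^ n * s0 ψ k ^ r, fun a => ⟨⟨yy_eq hc h2 h1 h3 h4 m n r a, ?_⟩, ?_, ?_⟩⟩
  · rw [← yy_eq hc h2 h3 h1 h4.symm m r n, (c j k n r).right_comm]
    rfl
  · rw [← yy_eq hc h2 h4 h1.symm h3.symm n r m, (c i j m n).eq, (c i k m r).right_comm]
    rfl
  · rw [← yy_eq hc h2 h4.symm h3.symm h1.symm r n m, (c i j m n).eq, (c i k m r).right_comm, (c j k n r).eq]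
    rfl

omit hc h2 in
theorem yy_add (h1 : i ≠ j) (m : ℤ) (a b : K) : yy ψ i j m (a + b) = yy ψ i j m a * yy ψ i j m b := by
  rw [yy, x0, tv_add (Fin.castSucc_inj.not.2 h1), map_mul, smul_mul']
  rfl

theorem yy_rel (h1 : i ≠ j) (h4 : j ≠ k) (h3 : i ≠ k) (m n : ℤ) (a b : K) :
    yy ψ i j m a * yy ψ j k n b = yy ψ i k (m + n) (a * b) * yy ψ j k n b * yy ψ i j m a := by
  obtain ⟨τ, h⟩ := ex_move hc h2 h1 h3 h4 (m + n) n 0
  simp only [add_sub_cancel_right, sub_zero] at h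
  simp only [← (h _).1.1, ← (h _).1.2, ← (h _).2.1, x0, ← map_mul]
  rw [tv_rel (Fin.castSucc_inj.not.2 h1) (Fin.castSucc_inj.not.2 h4) (Fin.castSucc_inj.not.2 h3)]

theorem yy_com (h1 : i ≠ j) (h5 : k ≠ l) (h3 : j ≠ k) (h4 : i ≠ l) (m n : ℤ) (a b : K) :
    Commute (yy ψ i j m a) (yy ψ k l n b) := by
  have c : ∀ {i j k l : Fin 3}, i ≠ j → k ≠ l → j ≠ k → i ≠ l → ∀ (τ : MulAut F) a b,
      Commute (τ (x0 ψ i j a)) (τ (x0 ψ k l b)) := fun h1 h2 h3 h4 τ a b =>
    ((tv_com (Fin.castSucc_inj.not.2 h1) (Fin.castSucc_inj.not.2 h2) (Fin.castSucc_inj.not.2 h3)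
      (Fin.castSucc_inj.not.2 h4) a b).map (ψ 0)).map τ
  have c1 : ∀ {i j k : Fin 3}, i ≠ j → i ≠ k → j ≠ k → ∀ m n a b, Commute (yy ψ i j m a) (yy ψ i k n b) :=
    fun h1 h3 h4 m n a b => by
      obtain ⟨τ, h⟩ := ex_move hc h2 h1 h3 h4 0 (-m) (-n)
      simp only [zero_sub, neg_neg] at h
      rw [← (h _).1.1, ← (h _).1.2]
      exact c h1 h3 h1.symm h3 τ a b
  have c2 : ∀ {i j k : Fin 3}, i ≠ j → i ≠ k → j ≠ k → ∀ m n a b, Commute (yy ψ i j m a) (yy ψ k j n b) :=
    fun h1 h3 h4 m n a b => by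
      obtain ⟨τ, h⟩ := ex_move hc h2 h1 h3 h4 m 0 n
      simp only [sub_zero] at h
      rw [← (h _).1.1, ← (h _).2.2]
      exact c h1 h4.symm h4 h1 τ a b
  obtain ⟨t, t1, t2⟩ := third i j h1
  rcases three i j t k h1 t1 t2 with rfl | rfl | rfl <;> rcases three _ _ _ l h1 t1 t2 with rfl | rfl | rfl <;>
    try contradiction
  · have e := yy_rel hc h2 t1 t2.symm h1 m 0 a 1
    rw [add_zero, mul_one, ← mul_inv_eq_iff_eq_mul, ← mul_inv_eq_iff_eq_mul] at e
    have a1 := (c1 h1 t1 t2 n m b a).symm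
    have a2 := (c2 h1 t1 t2 n 0 b 1).symm
    rw [← e]
    exact ((a1.mul_left a2).mul_left a1.inv_left).mul_left a2.inv_left
  · exact c1 h1 t1 t2 m n a b
  · exact c2 h1 t1 t2 m n a b

theorem centre_dies [Finite F] [Finite K] (p : ℕ) [Fact p.Prime] [CharP K p] (u : Kˣ) :
    ψ 1 (dg ![u, u⁻¹, 1, 1]) = ψ 0 (dg ![u, u⁻¹, 1, 1]) := by
  classical
  let M := Nat.card (MulAut F)
  have : Finite (MulAut F) := Finite.of_injective _ MulEquiv.toEquiv_injective
  have : NeZero M := ⟨Nat.card_pos.ne'⟩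
  let y : Fin 3 → Fin 3 → ZMod M → K → F := fun i j m a => yy ψ i j m.val a
  have hy : ∀ i j (m : ℤ) a, y i j m a = yy ψ i j m a := fun i j m a => by
    simp only [y, yy, ZMod.val_intCast, M, zpow_mod_natCard]
  let φ := fun i j (h : i ≠ j) (m : ZMod M) => MonoidHom.mk' (M := Multiplicative K)
    (fun a => y i j m a.toAdd) fun a b => yy_add h _ _ _
  let X : Fin 3 → Fin 3 → AddMonoidAlgebra K (ZMod M) → F := fun i j r => if h : i = j then 1 else
    MonoidHom.noncommPiCoprod (φ i j h) (fun m n _ a b => yy_com hc h2 h h (Ne.symm h) h _ _ _ _)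
      fun m => .ofAdd (r.coeff m)
  have hX : ∀ {i j}, i ≠ j → ∀ (m : ℤ) a, X i j (.single m a) = yy ψ i j m a := fun {i j} h m a => by
    have e : (fun n => Multiplicative.ofAdd ((AddMonoidAlgebra.single (m : ZMod M) a).coeff n)) =
        Pi.mulSingle (m : ZMod M) (.ofAdd a) := funext fun n => by
      rcases eq_or_ne (m : ZMod M) n with rfl | e
      · simp
      · simp [e.symm]
    simp only [X, dif_neg h]
    rw [e]
    exact (MonoidHom.noncommPiCoprod_mulSingle (φ i j h) _ _).trans (hy i j m a)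
  let S : St (AddMonoidAlgebra K (ZMod M)) F := St.ofGen X (fun r => ∃ (m : ℤ) (a : K), r = .single m a)
    (fun P h0 h1 h r => AddMonoidAlgebra.induction_linear r h0 h1 fun m a => h _ (by
      obtain ⟨m, rfl⟩ := ZMod.intCast_surjective m
      exact ⟨m, a, rfl⟩))
    (fun h a b => by
      simp only [X, dif_neg h, ← map_mul]
      congr 1)
    (by
      rintro i j k l h1 h5 h3 h4 _ _ ⟨m, a, rfl⟩ ⟨n, b, rfl⟩
      rw [hX h1, hX h5]
      exact yy_com hc h2 h1 h5 h3 h4 m n a b)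
    (by
      rintro i j k h1 h4 h3 _ _ ⟨m, a, rfl⟩ ⟨n, b, rfl⟩
      rw [AddMonoidAlgebra.single_mul_single, ← Int.cast_add, hX h1, hX h4, hX h3]
      exact yy_rel hc h2 h1 h4 h3 m n a b)
  let U : ℤ → Kˣ → (AddMonoidAlgebra K (ZMod M))ˣ := fun m a => ⟨.single m a, .single (-m : ℤ) (a⁻¹ : Kˣ),
    by simp [AddMonoidAlgebra.single_mul_single, AddMonoidAlgebra.one_def], by simp [AddMonoidAlgebra.single_mul_single, AddMonoidAlgebra.one_def]⟩
  have hw : ∀ m a, S.w 0 1 (U m a) = yy ψ 0 1 m a * yy ψ 1 0 (-m) (-a⁻¹ : Kˣ) * yy ψ 0 1 m a := fun m a => by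
    rw [← hX (by decide), ← hX (by decide)]
    simp [St.w, S, St.ofGen, U, AddMonoidAlgebra.single_neg]
  obtain ⟨-, d, e⟩ := sg_pair hc h2 (a := 0) (b := 1) (by decide) (by decide)
  have w0 : ∀ a, S.w 0 1 (U 0 a) = ψ 0 (Wu a) := fun a => by simp [hw, yy, x0, Wu]
  have w1 : ∀ a, S.w 0 1 (U 1 a) = ψ 1 (Wu a) := fun a => by
    have e1 : ∀ c, yy ψ 0 1 1 c = ψ 1 (tv 0 1 c) := fun c => by rw [yy, zpow_one]; exact (d c).1
    have e2 : ∀ c, yy ψ 1 0 (-1) c = ψ 1 (tv 1 0 c) := fun c => by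
      rw [yy, _root_.zpow_neg, zpow_one, inv_smul_eq_iff]
      exact (e c).2.symm
    rw [hw, e1, e2, Wu, map_mul, map_mul]
  have : Finite (AddMonoidAlgebra K (ZMod M)) := Finite.of_injective _ (DFunLike.coe_injective.comp AddMonoidAlgebra.coeff_injective)
  have : CharP (AddMonoidAlgebra K (ZMod M)) p := charP_of_injective_algebraMap (algebraMap K _).injective p
  obtain ⟨n, hn⟩ := S.c_finite p (U 0 u) (U 1 1)
  have := Fintype.ofFinite K
  have hu : U 0 u ^ (Fintype.card K - 1) = 1 := Units.ext (by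
    simp [U, AddMonoidAlgebra.single_pow, FiniteField.pow_card_sub_one_eq_one, AddMonoidAlgebra.one_def])
  have c1 : S.c (U 0 u) (U 1 1) ^ (Fintype.card K - 1) = 1 := by
    have := map_pow (S.cl (U 1 1)) (U 0 u) (Fintype.card K - 1)
    rw [hu, map_one] at this
    exact this.symm
  obtain ⟨k, -, hk⟩ := FiniteField.card K p
  have c2 : S.c (U 0 u) (U 1 1) = 1 := by
    have := pow_gcd_eq_one.2 ⟨hn, c1⟩
    rwa [Nat.Coprime.gcd_eq_one, pow_one] at this
    refine Nat.Coprime.pow_left _ ?_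
    rw [hk, (Fact.out : p.Prime).coprime_iff_not_dvd]
    exact fun h => (Fact.out : p.Prime).not_dvd_one ((Nat.dvd_sub_iff_right (Nat.one_le_pow _ _
      (Fact.out : p.Prime).pos) (dvd_pow_self p k.pos.ne')).1 h)
  have m1 : U 0 u * U 1 1 = U 1 u := Units.ext (by simp [U, AddMonoidAlgebra.single_mul_single])
  have m2 : (-1 : (AddMonoidAlgebra K (ZMod M))ˣ) = U 0 (-1) :=
    Units.ext (by simp [U, AddMonoidAlgebra.one_def, AddMonoidAlgebra.single_neg])
  rw [St.c, mul_inv_eq_one, m1, St.h, St.h, St.h, ← mul_assoc, mul_left_inj, m2, w0, w0,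
    w1, w1, ← map_mul, Wu_mul] at c2
  have m3 : Wu (1 : Kˣ) * Wu (-1) = 1 := by
    rw [Wu_mul]
    exact Units.ext (by ext i j; fin_cases i <;> fin_cases j <;> simp [dg])
  rw [← Wu_mul, map_mul, ← c2, mul_assoc, ← map_mul, m3, map_one, mul_one, Wu_mul]

end Pool.Agent.Lib.MP_b138e1_al
end

-- part Pool.Agent.Lib.MP_b138e1_al.Idem
section

/-! Idempotent matrices: generic rank one idempotents, joins, flags. -/

set_option autoImplicit false

namespace Pool.Agent.Lib.MP_b138e1_al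

open Matrix Finset

variable {K : Type} [Field K]

abbrev Mat (K : Type) := Matrix (Fin 4) (Fin 4) K

def Le (P Q : Mat K) : Prop := P * Q = P ∧ Q * P = P

def R1 (O : Mat K) : Prop := ∃ v φ : Fin 4 → K, φ ⬝ᵥ v = 1 ∧ O = vecMulVec v φ

def Jn (P O : Mat K) : Mat K := P + ((1 - P) * O).trace⁻¹ • ((1 - P) * O * (1 - P))

def cn (g : GL4 K) : Mat K →ₐ[K] Mat K where
  toFun M := g.1 * M * (g⁻¹).1
  map_one' := by rw [mul_one, Units.mul_inv]
  map_mul' M N := by simp only [mul_assoc, Units.inv_mul_cancel_left]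
  map_zero' := by simp
  map_add' M N := by rw [mul_add, add_mul]
  commutes' c := by rw [Algebra.algebraMap_eq_smul_one, mul_smul_comm, smul_mul_assoc, mul_one, Units.mul_inv]

theorem cn_apply (g : GL4 K) (M : Mat K) : cn g M = g.1 * M * (g⁻¹).1 := rfl

theorem cn_mul (g h : GL4 K) (M : Mat K) : cn (g * h) M = cn g (cn h M) := by
  simp only [cn_apply, _root_.mul_inv_rev, Units.val_mul, mul_assoc]

theorem cn_one (M : Mat K) : cn 1 M = M := by simp [cn_apply]

theorem cn_trace (g : GL4 K) (M : Mat K) : (cn g M).trace = M.trace := by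
  rw [cn_apply, trace_mul_comm, ← mul_assoc, Units.inv_mul, one_mul]

variable {P Q T O A B : Mat K}

theorem Le.cn (h : Le P Q) (g : GL4 K) : Le (cn g P) (cn g Q) :=
  ⟨by rw [← map_mul, h.1], by rw [← map_mul, h.2]⟩

theorem Le.trans (h : Le P Q) (h' : Le Q T) : Le P T :=
  ⟨by rw [← h.1, mul_assoc, h'.1], by rw [← h.2, ← mul_assoc, h'.2]⟩

theorem le_one' : Le P 1 := ⟨mul_one _, one_mul _⟩

theorem zero_le' : Le 0 P := ⟨zero_mul _, mul_zero _⟩

theorem R1.trace (h : R1 O) : O.trace = 1 := by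
  obtain ⟨v, φ, e, rfl⟩ := h
  rw [trace_vecMulVec, dotProduct_comm, e]

theorem R1.sand (h : R1 O) (M : Mat K) : O * M * O = (M * O).trace • O := by
  obtain ⟨v, φ, -, rfl⟩ := h
  rw [vecMulVec_mul, vecMulVec_mul_vecMulVec, mul_vecMulVec, trace_vecMulVec, vecMulVec_smul,
    ← dotProduct_mulVec, dotProduct_comm]

theorem R1.idem (h : R1 O) : Le O O := by
  have := h.sand 1
  rw [mul_one, one_mul, h.trace, one_smul] at this
  exact ⟨this, this⟩

section jn
variable (hP : Le P P) (hO : R1 O) (ht : ((1 - P) * O).trace ≠ 0)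
include hP

theorem jn_left : Le P (Jn P O) :=
  ⟨by simp [Jn, mul_add, ← mul_assoc, mul_sub, hP.1], by simp [Jn, add_mul, mul_assoc, sub_mul, hP.1]⟩

include hO ht

omit hP in
theorem jn_right : Le O (Jn P O) := by
  constructor
  · rw [Jn, mul_add, mul_smul_comm, ← mul_assoc, ← mul_assoc, hO.sand, smul_mul_assoc, smul_smul,
      inv_mul_cancel₀ ht, one_smul, ← mul_add, add_sub_cancel, mul_one]
  · rw [Jn, add_mul, smul_mul_assoc, mul_assoc, mul_assoc, ← mul_assoc O, hO.sand, mul_smul_comm, smul_smul,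
      inv_mul_cancel₀ ht, one_smul, ← add_mul, add_sub_cancel, one_mul]

omit hP hO ht in
theorem jn_le (h1 : Le P T) (h2 : Le O T) : Le (Jn P O) T := by
  have a : O * (1 - P) * T = O * (1 - P) := by rw [mul_sub, mul_one, sub_mul, h2.1, mul_assoc, h1.1]
  have b : T * ((1 - P) * O) = (1 - P) * O := by rw [sub_mul, one_mul, mul_sub, h2.2, ← mul_assoc, h1.2]
  exact ⟨by rw [Jn, add_mul, smul_mul_assoc, h1.1, mul_assoc _ O, mul_assoc, a],
    by rw [Jn, mul_add, mul_smul_comm, h1.2, ← mul_assoc T, b]⟩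

theorem jn_idem : Le (Jn P O) (Jn P O) := jn_le (jn_left hP) (jn_right hO ht)

omit hO in
theorem jn_trace : (Jn P O).trace = P.trace + 1 := by
  rw [Jn, trace_add, trace_smul, trace_mul_comm _ (1 - P), ← mul_assoc,
    show (1 - P) * (1 - P) = 1 - P by simp [mul_sub, sub_mul, hP.1], smul_eq_mul, inv_mul_cancel₀ ht]

end jn

theorem avoid {ι V V' : Type} [AddCommGroup V] [Module K V] [AddCommGroup V'] [Module K V'] [Nontrivial V]
    (s : Finset ι) (f : ι → V →ₗ[K] V') (h : ∀ i ∈ s, f i ≠ 0) (hc : s.card < ENat.card K) :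
    ∃ w, ∀ i ∈ s, f i w ≠ 0 := by
  classical
  have := Submodule.iUnion_ssubset_of_forall_ne_top_of_card_lt s
    (fun i => if i ∈ s then LinearMap.ker (f i) else ⊥) (fun i => by
      split_ifs with c
      · exact fun e => h i c (LinearMap.ker_eq_top.1 e)
      · exact bot_ne_top) hc
  obtain ⟨w, -, hw⟩ := Set.exists_of_ssubset this
  exact ⟨w, fun i hi e => hw (Set.mem_biUnion hi (by simpa [hi] using e))⟩

/-- a rank one idempotent below `T` in general position with respect to finitely many idempotents -/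
theorem generic (s : Finset (Mat K)) (hT : Le T T) (h0 : 0 ∈ s) (hs : ∀ P ∈ s, Le P T ∧ P ≠ T)
    (hc : s.card < ENat.card K) : ∃ O, R1 O ∧ Le O T ∧ ∀ P ∈ s, ((1 - P) * O).trace ≠ 0 := by
  obtain ⟨w, hw⟩ := avoid s (fun P => toLin' (T - P))
    (fun P hP e => (hs P hP).2 (sub_eq_zero.1 (toLin'.map_eq_zero_iff.1 e)).symm) hc
  obtain ⟨ψ, hψ⟩ := avoid s (fun P => (dotProductBilin K K).flip ((T - P) *ᵥ w))
    (fun P hP e => hw P hP (dotProduct_eq_zero_iff.1 fun v => by
      rw [dotProduct_comm]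
      exact LinearMap.congr_fun e v)) hc
  simp only [LinearMap.flip_apply, dotProductBilin_apply_apply] at hψ
  have n := hψ 0 h0
  rw [sub_zero] at n
  refine ⟨_, ⟨(ψ ⬝ᵥ T *ᵥ w)⁻¹ • T *ᵥ w, ψ ᵥ* T, ?_, rfl⟩, ⟨?_, ?_⟩, fun P hP => ?_⟩
  · rw [dotProduct_smul, ← dotProduct_mulVec, mulVec_mulVec, hT.1, smul_eq_mul, inv_mul_cancel₀ n]
  · rw [vecMulVec_mul, vecMul_vecMul, hT.1]
  · rw [mul_vecMulVec, mulVec_smul, mulVec_mulVec, hT.1]
  · rw [mul_vecMulVec, trace_vecMulVec, mulVec_smul, mulVec_mulVec, smul_dotProduct, dotProduct_comm _ (ψ ᵥ* T),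
      ← dotProduct_mulVec, mulVec_mulVec, sub_mul, one_mul, (hs P hP).1.1, mul_sub, hT.1, (hs P hP).1.2]
    exact mul_ne_zero (inv_ne_zero n) (hψ P hP)

/-- the field is large and of characteristic not at most four -/
def Big (K : Type) [Field K] : Prop := (∀ n : ℕ, 0 < n → n ≤ 4 → (n : K) ≠ 0) ∧ (100 : ℕ) < ENat.card K

variable (hK : Big K)
include hK

theorem tr_zero (h : Le P P) (e : P.trace = 0) : P = 0 := by
  have i : IsIdempotentElem (toLin' P) := by
    rw [IsIdempotentElem, Module.End.mul_eq_comp, ← toLin'_mul, h.1]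
  have t := (LinearMap.IsIdempotentElem.isProj_range _ i).trace
  rw [trace_toLin'_eq, e] at t
  have l := (LinearMap.range (toLin' P)).finrank_le
  rw [Module.finrank_fin_fun] at l
  by_contra c
  refine hK.1 _ (Nat.pos_of_ne_zero fun z => c ?_) l t.symm
  rwa [Submodule.finrank_eq_zero, LinearMap.range_eq_bot, toLin'.map_eq_zero_iff] at z

theorem ins (hA : Le A A) (hB : Le B B) (h : Le A B) (n : A.trace ≠ B.trace) (n' : B.trace ≠ 0) :
    ∃ M, Le M M ∧ Le A M ∧ Le M B ∧ M.trace = A.trace + 1 := by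
  classical
  obtain ⟨O, o1, o2, o3⟩ := generic {0, A} hB (by simp) (by
    simp only [mem_insert, mem_singleton, forall_eq_or_imp, forall_eq]
    exact ⟨⟨zero_le', fun e => n' (by simp [← e])⟩, h, fun e => n (by rw [e])⟩)
    (lt_of_le_of_lt (by exact_mod_cast card_le_two.trans (by norm_num)) hK.2)
  have t := o3 A (by simp)
  exact ⟨_, jn_idem hA o1 t, jn_left hA, jn_le h o2, jn_trace hA t⟩

omit hK in
theorem Le.sub (hA : Le A A) (hB : Le B B) (h : Le A B) : Le (B - A) (B - A) := by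
  have : (B - A) * (B - A) = B - A := by simp [mul_sub, sub_mul, hA.1, hB.1, h.1, h.2]
  exact ⟨this, this⟩

theorem r1_of (h : Le P P) (e : P.trace = 1) : R1 P := by
  obtain ⟨O, o1, o2, -⟩ := generic {0} h (by simp) (by
    simp only [mem_singleton, forall_eq]
    exact ⟨zero_le', fun c => by simp [← c] at e⟩) (lt_of_le_of_lt (by simp) hK.2)
  have := tr_zero hK (o1.idem.sub h o2) (by rw [trace_sub, e, o1.trace, sub_self])
  rwa [sub_eq_zero.1 this]

omit hK in
theorem frame (E : Fin 4 → Mat K) (h : ∀ i, R1 (E i)) (ho : ∀ i j, i ≠ j → E i * E j = 0) :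
    ∃ g : GL4 K, ∀ i, cn g (single i i 1) = E i := by
  choose v φ e1 e2 using h
  have k : of φ * (of v)ᵀ = (1 : Mat K) := by
    ext i j
    show φ i ⬝ᵥ v j = _
    by_cases e : i = j
    · rw [e, e1, one_apply_eq]
    · have := congrArg (fun M : Mat K => φ i ⬝ᵥ M *ᵥ v j) (ho i j e)
      simpa [e2, vecMulVec_mul_vecMulVec, smul_mulVec, vecMulVec_mulVec, e1, one_apply_ne e] using this
  refine ⟨⟨(of v)ᵀ, of φ, mul_eq_one_comm.1 k, k⟩, fun i => ?_⟩
  ext a b
  simp [cn_apply, e2, mul_apply, single_apply, vecMulVec_apply, ite_and]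

/-- a full flag of idempotents -/
def Flag (P : Fin 4 → Mat K) : Prop := ∀ r, (P r).trace = r.1 ∧ ∀ s, r ≤ s → Le (P r) (P s)

def Dp (σ : Equiv.Perm (Fin 4)) (r : Fin 4) : Mat K := diagonal fun j => if σ.symm j < r then 1 else 0

theorem Flag.conj {P : Fin 4 → Mat K} (h : Flag P) (σ : Equiv.Perm (Fin 4)) :
    ∃ g : GL4 K, ∀ r, cn g (Dp σ r) = P r := by
  have i := fun r => (h r).2 r le_rfl
  have e0 : P 0 = 0 := tr_zero hK (i 0) (by simpa using (h 0).1)
  have a := (h 1).2 2 (by decide)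
  have b := (h 2).2 3 (by decide)
  have c := (h 1).2 3 (by decide)
  have one : Le (1 : Mat K) 1 := le_one'
  let E : Fin 4 → Mat K := ![P 1, P 2 - P 1, P 3 - P 2, 1 - P 3]
  obtain ⟨g, hg⟩ := frame (fun j => E (σ.symm j)) (fun j => by
    generalize σ.symm j = t
    fin_cases t
    · exact r1_of hK (i 1) (by simpa [E] using (h 1).1)
    · exact r1_of hK ((i 1).sub (i 2) a) (by simp [E, (h _).1]; norm_num)
    · exact r1_of hK ((i 2).sub (i 3) b) (by simp [E, (h _).1]; norm_num)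
    · exact r1_of hK ((i 3).sub one le_one') (by simp [E, (h _).1]; norm_num)) fun j k n => by
      have n' := σ.symm.injective.ne n
      generalize σ.symm j = s at n'
      generalize σ.symm k = t at n'
      fin_cases s <;> fin_cases t <;>
        simp [E, mul_sub, sub_mul, (i _).1, a.1, a.2, b.1, b.2, c.1, c.2] at n' ⊢
  refine ⟨g, fun r => ?_⟩
  have e : (Dp σ r : Mat K) = ∑ t, if t < r then single (σ t) (σ t) 1 else 0 := by
    rw [← σ.symm.sum_comp]
    ext a b
    simp only [Dp, diagonal_apply, Matrix.sum_apply, apply_ite (fun M : Mat K => M a b), single_apply,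
      Equiv.apply_symm_apply, Matrix.zero_apply]
    rw [sum_eq_single a (fun c _ n => by simp [n]) (by simp)]
    split_ifs <;> simp_all
  rw [e, map_sum]
  simp only [apply_ite (cn g), hg, map_zero, Equiv.symm_apply_apply]
  fin_cases r <;> simp [Fin.sum_univ_four, E, e0]

omit hK in
theorem flag3 {A B C : Mat K} (a : Le A A) (b : Le B B) (c : Le C C) (h1 : Le A B) (h2 : Le B C)
    (t1 : A.trace = 1) (t2 : B.trace = 2) (t3 : C.trace = 3) : Flag ![0, A, B, C] := by
  have := h1.trans h2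
  intro r
  fin_cases r <;> refine ⟨by simp [*], fun s => ?_⟩ <;> fin_cases s <;> simp [zero_le', *]

theorem flag2 {r s : Fin 4} (l : r < s) (a : Le A A) (b : Le B B) (h : Le A B) (t1 : A.trace = r.1)
    (t2 : B.trace = s.1) : ∃ P, Flag P ∧ P r = A ∧ P s = B := by
  have n1 : (1 : K) ≠ 0 := one_ne_zero
  have n2 : (2 : K) ≠ 0 := by exact_mod_cast hK.1 2 (by norm_num) (by norm_num)
  have n3 : (3 : K) ≠ 0 := by exact_mod_cast hK.1 3 (by norm_num) (by norm_num)
  have n4 : (4 : K) ≠ 0 := by exact_mod_cast hK.1 4 (by norm_num) (by norm_num)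
  have one : Le (1 : Mat K) 1 := le_one'
  have z : Le (0 : Mat K) 0 := zero_le'
  have up : ∀ {A : Mat K}, Le A A → A.trace = 2 → ∃ C, Le C C ∧ Le A C ∧ C.trace = 3 := fun a t => by
    obtain ⟨M, m1, m2, -, m4⟩ := ins hK a one le_one' (by
      rw [t, trace_one, Fintype.card_fin]
      exact fun e => n2 (by push_cast at e; linear_combination -e)) (by simpa using n4)
    exact ⟨M, m1, m2, by rw [m4, t]; norm_num⟩
  have dn : ∀ {A : Mat K}, Le A A → A.trace ≠ 0 → ∃ C, Le C C ∧ Le C A ∧ C.trace = 1 := fun a t => by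
    obtain ⟨M, m1, -, m3, m4⟩ := ins hK z a zero_le' (by simpa using t.symm) t
    exact ⟨M, m1, m3, by simpa using m4⟩
  have mid : ∀ {A B : Mat K}, Le A A → Le B B → Le A B → A.trace = 1 → B.trace = 3 ∨ B.trace = 4 →
      ∃ C, Le C C ∧ Le A C ∧ Le C B ∧ C.trace = 2 := fun a b h t t' => by
    obtain ⟨M, m1, m2, m3, m4⟩ := ins hK a b h (by
      rcases t' with t' | t' <;> rw [t, t']
      exacts [fun e => n2 (by linear_combination -e), fun e => n3 (by linear_combination -e)])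
      (by rcases t' with t' | t' <;> rw [t'] <;> assumption)
    exact ⟨M, m1, m2, m3, by rw [m4, t]; norm_num⟩
  fin_cases r <;> fin_cases s <;> simp at l t1 t2
  · obtain ⟨C, c1, c2, -, c4⟩ := mid b one le_one' t2 (by simp)
    obtain ⟨D, d1, d2, d3⟩ := up c1 c4
    exact ⟨_, flag3 b c1 d1 c2 d2 t2 c4 d3, (tr_zero hK a t1).symm, rfl⟩
  · obtain ⟨C, c1, c2, c3⟩ := dn b (t2 ▸ n2)
    obtain ⟨D, d1, d2, d3⟩ := up b t2
    exact ⟨_, flag3 c1 b d1 c2 d2 c3 t2 d3, (tr_zero hK a t1).symm, rfl⟩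
  · obtain ⟨C, c1, c2, c3⟩ := dn b (t2 ▸ n3)
    obtain ⟨D, d1, d2, d3, d4⟩ := mid c1 b c2 c3 (Or.inl t2)
    exact ⟨_, flag3 c1 d1 b d2 d3 c3 d4 t2, (tr_zero hK a t1).symm, rfl⟩
  · obtain ⟨D, d1, d2, d3⟩ := up b t2
    exact ⟨_, flag3 a b d1 h d2 t1 t2 d3, rfl, rfl⟩
  · obtain ⟨D, d1, d2, d3, d4⟩ := mid a b h t1 (Or.inl t2)
    exact ⟨_, flag3 a d1 b d2 d3 t1 d4 t2, rfl, rfl⟩
  · obtain ⟨C, c1, c2, c3⟩ := dn a (t1 ▸ n2)
    exact ⟨_, flag3 c1 a b c2 h c3 t1 t2, rfl, rfl⟩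

omit hK in
theorem flag_conj (g : GL4 K) (σ : Equiv.Perm (Fin 4)) : Flag fun r => cn g (Dp σ r) := fun r => by
  refine ⟨?_, fun s h => Le.cn ⟨?_, ?_⟩ g⟩
  · rw [cn_trace, Dp, trace_diagonal, ← Equiv.sum_comp σ, Fin.sum_univ_four]
    fin_cases r <;> simp <;> norm_num
  all_goals
    rw [Dp, Dp, diagonal_mul_diagonal]
    congr 1
    ext j
    have := fun a : σ.symm j < r => a.trans_le h
    split_ifs <;> simp_all

end Pool.Agent.Lib.MP_b138e1_al
end

-- part Pool.Agent.Lib.MP_b138e1_al.Toep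
section

/-! Determinants of finite rank perturbations of the identity; the central extension. -/

set_option autoImplicit false

namespace Pool.Agent.Lib.MP_b138e1_al

open scoped Classical

section fdet
variable {K W : Type} [Field K] [AddCommGroup W] [Module K W] {q q' : Module.End K W} {U U' : Submodule K W}

def Good (q : Module.End K W) (U : Submodule K W) : Prop := FiniteDimensional K U ∧ ∀ w, q w - w ∈ U

theorem Good.inv (h : Good q U) : ∀ w ∈ U, q w ∈ U := fun w hw => by simpa using U.add_mem (h.2 w) hw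

noncomputable def fdet (q : Module.End K W) : K :=
  if h : ∃ U, Good q U then LinearMap.det (q.restrict h.choose_spec.inv) else 1

theorem det_le (h : Good q U) (h' : Good q U') (l : U ≤ U') :
    LinearMap.det (q.restrict h'.inv) = LinearMap.det (q.restrict h.inv) := by
  have := h.1
  have := h'.1
  have he : U.comap U'.subtype ≤ (U.comap U'.subtype).comap (q.restrict h'.inv) := fun w hw => h.inv _ hw
  rw [LinearMap.det_eq_det_mul_det _ _ he, ← LinearMap.det_conj _ (Submodule.comapSubtypeEquivOfLe l),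
    show (U.comap U'.subtype).mapQ _ (q.restrict h'.inv) he = LinearMap.id from
      Submodule.linearMap_qext _ (LinearMap.ext fun w => (Submodule.Quotient.eq _).2 (h.2 w)),
    LinearMap.det_id, mul_one]
  rfl

theorem Good.left (h : Good q U) (f : FiniteDimensional K U') : Good q (U ⊔ U') :=
  have := h.1
  ⟨inferInstance, fun w => Submodule.mem_sup_left (h.2 w)⟩

theorem fdet_eq (h : Good q U) : fdet q = LinearMap.det (q.restrict h.inv) := by
  have e : ∃ U, Good q U := ⟨U, h⟩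
  rw [fdet, dif_pos e, ← det_le e.choose_spec (e.choose_spec.left h.1) le_sup_left,
    det_le h (e.choose_spec.left h.1) le_sup_right]

theorem Good.mul (h : Good q U) (h' : Good q' U) : Good (q * q') U :=
  ⟨h.1, fun w => by simpa using U.add_mem (h.2 (q' w)) (h'.2 w)⟩

theorem fdet_mul (h : Good q U) (h' : Good q' U') : fdet (q * q') = fdet q * fdet q' := by
  have a := h.left h'.1
  have b : Good q' (U ⊔ U') := sup_comm U' U ▸ h'.left h.1
  rw [fdet_eq a, fdet_eq b, fdet_eq (a.mul b), ← LinearMap.det_comp]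
  rfl

theorem good_one : Good (1 : Module.End K W) ⊥ := ⟨inferInstance, fun w => by simp⟩

theorem fdet_one : fdet (1 : Module.End K W) = 1 := by
  rw [fdet_eq good_one]
  exact LinearMap.det_id

theorem Good.conj (h : Good q U) (g : (Module.End K W)ˣ) :
    Good (g * q * g⁻¹ : Module.End K W) (U.map (g : Module.End K W)) ∧
      fdet (g * q * g⁻¹ : Module.End K W) = fdet q := by
  have := h.1
  have e : ∀ w, (g : Module.End K W) ((g⁻¹ : (Module.End K W)ˣ).1 w) = w := fun w =>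
    LinearMap.congr_fun g.mul_inv w
  have e' : ∀ w, (g⁻¹ : (Module.End K W)ˣ).1 ((g : Module.End K W) w) = w := fun w =>
    LinearMap.congr_fun g.inv_mul w
  have a : Good (g * q * g⁻¹ : Module.End K W) (U.map (g : Module.End K W)) :=
    ⟨inferInstance, fun w => ⟨_, h.2 ((g⁻¹ : (Module.End K W)ˣ).1 w), by simp [e]⟩⟩
  refine ⟨a, ?_⟩
  rw [fdet_eq a, fdet_eq h, ← LinearMap.det_conj _
    (Submodule.equivMapOfInjective (g : Module.End K W) (Function.LeftInverse.injective e') U)]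
  congr 1
  ext ⟨_, w, hw, rfl⟩
  have : (Submodule.equivMapOfInjective (g : Module.End K W) (Function.LeftInverse.injective e') U).symm
      ⟨_, w, hw, rfl⟩ = ⟨w, hw⟩ := by rw [LinearEquiv.symm_apply_eq]; rfl
  simp [this, e']

theorem fdet_line {v : W} (hv : v ≠ 0) {c : K} (h : ∀ w, q w - w ∈ K ∙ v) (e : q v = c • v) : fdet q = c := by
  have a : Good q (K ∙ v) := ⟨inferInstance, h⟩
  rw [fdet_eq a, show q.restrict a.inv = c • LinearMap.id from LinearMap.ext fun ⟨w, hw⟩ => by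
    obtain ⟨t, rfl⟩ := Submodule.mem_span_singleton.1 hw
    exact Subtype.ext (by simp [e, smul_comm t c])]
  simp [finrank_span_singleton hv]

variable (K W) in
/-- invertible finite rank perturbations of the identity -/
def TT : Subgroup (Module.End K W)ˣ where
  carrier := {q | ∃ U, Good q.1 U}
  mul_mem' := fun ⟨U, h⟩ ⟨U', h'⟩ => ⟨_, (h.left h'.1).mul (sup_comm U' U ▸ h'.left h.1)⟩
  one_mem' := ⟨_, good_one⟩
  inv_mem' := fun {q} ⟨U, h⟩ => ⟨U, h.1, fun w => by
    have := U.neg_mem (h.2 ((q⁻¹ : (Module.End K W)ˣ).1 w))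
    rwa [neg_sub, show q.1 ((q⁻¹ : (Module.End K W)ˣ).1 w) = w from LinearMap.congr_fun q.mul_inv w] at this⟩

variable (χ : K →* ℤ)

noncomputable def sgn : TT K W →* ℤ where
  toFun q := χ (fdet q.1.1)
  map_one' := by simp [fdet_one]
  map_mul' := fun ⟨_, _, h⟩ ⟨_, _, h'⟩ => by simp [fdet_mul h h']

variable (W) in
noncomputable def T1 : Subgroup (Module.End K W)ˣ := (sgn χ).ker.map (TT K W).subtype

theorem mem_T1 {q : (Module.End K W)ˣ} : q ∈ T1 W χ ↔ q ∈ TT K W ∧ χ (fdet q.1) = 1 :=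
  ⟨by rintro ⟨q, h, rfl⟩; exact ⟨q.2, h⟩, fun h => ⟨⟨q, h.1⟩, h.2, rfl⟩⟩

instance : (T1 W χ).Normal := ⟨fun q h g => by
  obtain ⟨⟨U, h1⟩, h2⟩ := (mem_T1 χ).1 h
  exact (mem_T1 χ).2 ⟨⟨_, (h1.conj g).1⟩, (congrArg χ (h1.conj g).2).trans h2⟩⟩

variable (W) in
abbrev Gam : Type := (Module.End K W)ˣ ⧸ T1 W χ

theorem mk_eq {q q' : TT K W} : (q.1 : Gam W χ) = q'.1 ↔ sgn χ q = sgn χ q' := by
  rw [QuotientGroup.eq, mem_T1]
  have e : sgn χ q⁻¹ * sgn χ q = 1 := by rw [← map_mul, inv_mul_cancel, map_one]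
  have e' : χ (fdet (q.1⁻¹ * q'.1).1) = sgn χ q⁻¹ * sgn χ q' := map_mul (sgn χ) q⁻¹ q'
  rw [e']
  exact ⟨fun h => mul_left_cancel₀ (left_ne_zero_of_mul_eq_one e) (e.trans h.2.symm),
    fun h => ⟨(q⁻¹ * q').2, h ▸ e⟩⟩

theorem mk_central {q : (Module.End K W)ˣ} (h : q ∈ TT K W) : (q : Gam W χ) ∈ Subgroup.center (Gam W χ) := by
  refine Subgroup.mem_center_iff.2 fun g => ?_
  obtain ⟨g, rfl⟩ := QuotientGroup.mk_surjective g
  obtain ⟨U, hU⟩ := id h
  rw [← mul_inv_eq_iff_eq_mul]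
  exact (mk_eq χ (q := ⟨g * q * g⁻¹, _, (hU.conj g).1⟩) (q' := ⟨q, h⟩)).2 (congrArg χ (hU.conj g).2)

theorem mk_two {q z : TT K W} (h : sgn χ z = -1) : (q.1 : Gam W χ) = 1 ∨ (q.1 : Gam W χ) = z.1 := by
  have e : sgn χ q * sgn χ q⁻¹ = 1 := by rw [← map_mul, mul_inv_cancel, map_one]
  exact (Int.eq_one_or_neg_one_of_mul_eq_one e).imp
    (fun a => (mk_eq χ (q' := 1)).2 (a.trans (map_one _).symm)) fun a => (mk_eq χ).2 (a.trans h.symm)

end fdet

variable {K : Type} [Field K]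

def dd (k i : Fin 4) : ℕ := if i < k then 1 else 0

abbrev WW (K : Type) := ℕ × Fin 4 → K

abbrev WP (K : Type) (M : ℕ) := ZMod M × Fin 4 → K

/-- block action of a matrix on one-sided sequences, the blocks being shifted according to `k` -/
def thM (k : Fin 4) : Matrix (Fin 4) (Fin 4) K →* Module.End K (WW K) where
  toFun g :=
    { toFun := fun w p => if dd k p.2 ≤ p.1 then ∑ j, g p.2 j * w (p.1 - dd k p.2 + dd k j, j) else w p
      map_add' := fun w w' => funext fun p => by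
        split_ifs with c <;> simp [c, mul_add, Finset.sum_add_distrib]
      map_smul' := fun c w => funext fun p => by
        split_ifs with e <;> simp [e, Finset.mul_sum, mul_left_comm] }
  map_one' := LinearMap.ext fun w => funext fun p => by
    by_cases c : dd k p.2 ≤ p.1 <;> simp [c, Matrix.one_apply]
  map_mul' g g' := LinearMap.ext fun w => funext fun p => by
    by_cases c : dd k p.2 ≤ p.1
    · simp only [LinearMap.coe_mk, AddHom.coe_mk, Module.End.mul_apply, c, if_true, le_add_iff_nonneg_left,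
        zero_le, add_tsub_cancel_right, Matrix.mul_apply, Finset.sum_mul, Finset.mul_sum, mul_assoc]
      exact Finset.sum_comm
    · simp [c]

theorem thM_apply (k : Fin 4) (g : Matrix (Fin 4) (Fin 4) K) (w : WW K) (n : ℕ) (i : Fin 4) :
    thM k g w (n, i) = if dd k i ≤ n then ∑ j, g i j * w (n - dd k i + dd k j, j) else w (n, i) := rfl

/-- the same action on periodic sequences -/
def gaM (M : ℕ) (k : Fin 4) : Matrix (Fin 4) (Fin 4) K →* Module.End K (WP K M) where
  toFun g :=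
    { toFun := fun w p => ∑ j, g p.2 j * w (p.1 - dd k p.2 + dd k j, j)
      map_add' := fun w w' => funext fun p => by simp [mul_add, Finset.sum_add_distrib]
      map_smul' := fun c w => funext fun p => by simp [Finset.mul_sum, mul_left_comm] }
  map_one' := LinearMap.ext fun w => funext fun p => by simp [Matrix.one_apply]
  map_mul' g g' := LinearMap.ext fun w => funext fun p => by
    simp only [LinearMap.coe_mk, AddHom.coe_mk, Module.End.mul_apply, add_sub_cancel_right,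
      Matrix.mul_apply, Finset.sum_mul, Finset.mul_sum, mul_assoc]
    exact Finset.sum_comm

theorem dd_le (k i : Fin 4) : dd k i ≤ 1 := by unfold dd; split_ifs <;> simp

theorem dd_lev : ∀ k l i j : Fin 4, ((i < k ↔ i < l) ↔ (j < k ↔ j < l)) →
    dd k j + dd l i = dd l j + dd k i := by decide

def Ub (K : Type) [Field K] (b : ℕ) : Submodule K (WW K) where
  carrier := {w | ∀ n i, b ≤ n → w (n, i) = 0}
  add_mem' h h' n i e := by simp [h n i e, h' n i e]
  zero_mem' _ _ _ := rfl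
  smul_mem' c _ h n i e := by simp [h n i e]

instance (b : ℕ) : FiniteDimensional K (Ub K b) :=
  FiniteDimensional.of_injective (V₂ := Fin b × Fin 4 → K)
    ((LinearMap.funLeft K K fun p => (p.1.1, p.2)).comp (Ub K b).subtype) fun w w' e =>
      Subtype.ext (funext fun ⟨n, i⟩ => by
        by_cases c : b ≤ n
        · rw [w.2 n i c, w'.2 n i c]
        · exact congrFun e (⟨n, not_le.1 c⟩, i))

def th (k : Fin 4) : GL4 K →* (Module.End K (WW K))ˣ := Units.map (thM k)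

theorem th_lev {k l : Fin 4} {g : GL4 K} (h : Lev k l g) : th k g * (th l g)⁻¹ ∈ TT K (WW K) := by
  refine ⟨Ub K 1, inferInstance, fun w n i hn => ?_⟩
  obtain ⟨w, rfl⟩ : ∃ w', w = (th l g).1 w' := ⟨_, (LinearMap.congr_fun (th l g).mul_inv w).symm⟩
  have e : (th k g * (th l g)⁻¹).1 ((th l g).1 w) = (th k g).1 w :=
    LinearMap.congr_fun (congrArg Units.val (inv_mul_cancel_right (th k g) (th l g))) w
  rw [e, Pi.sub_apply, sub_eq_zero]
  show thM k g w (n, i) = thM l g w (n, i)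
  have a := dd_le k i
  have b := dd_le l i
  rw [thM_apply, thM_apply, if_pos (a.trans hn), if_pos (b.trans hn)]
  refine Finset.sum_congr rfl fun j _ => ?_
  by_cases c : (i < k ↔ i < l) ↔ (j < k ↔ j < l)
  · have := dd_lev k l i j c
    rw [show n - dd k i + dd k j = n - dd l i + dd l j by omega]
  · simp [h i j c]

theorem th_det (u : Kˣ) : fdet (th 0 (dg ![u, u⁻¹, 1, 1]) * (th 1 (dg ![u, u⁻¹, 1, 1]))⁻¹).1 = u := by
  set g : GL4 K := dg ![u, u⁻¹, 1, 1] with hg
  have e : ∀ w, (th 0 g * (th 1 g)⁻¹).1 ((th 1 g).1 w) = (th 0 g).1 w := fun w =>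
    LinearMap.congr_fun (congrArg Units.val (inv_mul_cancel_right (th 0 g) (th 1 g))) w
  have a : ∀ k w n i, (th k g).1 w (n, i) = if dd k i ≤ n then g.1 i i * w (n, i) else w (n, i) :=
    fun k w n i => by
      show thM k g w (n, i) = _
      rw [thM_apply]
      split_ifs with c
      · rw [Finset.sum_eq_single i (fun j _ e => by simp [hg, dg, Matrix.diagonal_apply_ne _ e.symm]) (by simp),
          Nat.sub_add_cancel c]
      · rfl
  have b : ∀ w, (th 0 g).1 w - (th 1 g).1 w = ((u - 1) * w (0, 0)) • Pi.single (0, 0) 1 := fun w =>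
    funext fun ⟨n, i⟩ => by
      rw [Pi.sub_apply, a, a]
      rcases n with _ | n
      · fin_cases i <;> simp [dd, hg, dg, sub_mul]
      · simp [(dd_le _ _).trans (Nat.le_add_left 1 n)]
  have c : (th 1 g).1 (Pi.single (0, 0) 1) = Pi.single (0, 0) 1 := funext fun ⟨n, i⟩ => by
    rw [a]
    split_ifs with c
    · rw [Pi.single_eq_of_ne, mul_zero]
      rintro ⟨⟩
      simp [dd] at c
    · rfl
  refine fdet_line (v := Pi.single (0, 0) 1) (by simp) (fun w => ?_) ?_
  · obtain ⟨w, rfl⟩ : ∃ w', w = (th 1 g).1 w' := ⟨_, (LinearMap.congr_fun (th 1 g).mul_inv w).symm⟩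
    rw [e, b]
    exact Submodule.smul_mem _ _ (Submodule.mem_span_singleton_self _)
  · have := b (Pi.single (0, 0) 1)
    rw [← e, c, sub_eq_iff_eq_add] at this
    rw [this]
    simp [sub_smul]

def per {M : ℕ} (w : WP K M) : WW K := fun p => w (p.1, p.2)

/-- `q` is, far from the boundary, a banded operator inducing `γ` on periodic sequences -/
def Band (q : Module.End K (WW K)) (γ : ∀ M : ℕ+, Module.End K (WP K M)) : Prop :=
  ∃ b, ∀ n i, b ≤ n → (∀ w w' : WW K, (∀ m j, n ≤ m + b → m ≤ n + b → w (m, j) = w' (m, j)) →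
    q w (n, i) = q w' (n, i)) ∧ ∀ (M : ℕ+) (w : WP K M), q (per w) (n, i) = per (γ M w) (n, i)

theorem band_one : Band (1 : Module.End K (WW K)) 1 :=
  ⟨0, fun n i _ => ⟨fun _ _ h => h n i le_rfl le_rfl, fun _ _ => rfl⟩⟩

theorem Band.mul {q q' : Module.End K (WW K)} {γ γ' : ∀ M : ℕ+, Module.End K (WP K M)} (h : Band q γ)
    (h' : Band q' γ') : Band (q * q') (γ * γ') := by
  obtain ⟨b, h⟩ := h
  obtain ⟨b', h'⟩ := h'
  refine ⟨b + b', fun n i hn => ⟨fun w w' e => (h n i (by omega)).1 _ _ fun m j a1 a2 =>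
    (h' m j (by omega)).1 _ _ fun m' j' b1 b2 => e m' j' (by omega) (by omega), fun M w => ?_⟩⟩
  exact ((h n i (by omega)).1 _ _ fun m j a1 a2 => (h' m j (by omega)).2 M w).trans ((h n i (by omega)).2 M _)

theorem band_th (k : Fin 4) (g : Matrix (Fin 4) (Fin 4) K) : Band (thM k g) fun M => gaM M k g := by
  refine ⟨1, fun n i hn => ⟨fun w w' e => ?_, fun M w => ?_⟩⟩
  · have a := dd_le k i
    rw [thM_apply, thM_apply, if_pos (a.trans hn), if_pos (a.trans hn)]
    exact Finset.sum_congr rfl fun j _ => by rw [e _ j (by omega) (by have := dd_le k j; omega)]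
  · rw [thM_apply, if_pos ((dd_le k i).trans hn)]
    simp [per, gaM, Nat.cast_sub ((dd_le k i).trans hn)]

theorem Band.good {q : Module.End K (WW K)} (h : Band q 1) : ∃ U, Good q U := by
  obtain ⟨b, h⟩ := h
  refine ⟨Ub K b, inferInstance, fun w n i hn => ?_⟩
  let M : ℕ+ := ⟨n + b + 1, by omega⟩
  have e : ∀ m j, m ≤ n + b → w (m, j) = per (M := M) (fun p => w (p.1.val, p.2)) (m, j) := fun m j a => by
    simp only [per]
    rw [ZMod.val_natCast_of_lt (n := M) (show m < n + b + 1 by omega)]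
  rw [Pi.sub_apply, (h n i hn).1 _ _ fun m j _ a => e m j a, (h n i hn).2, e n i (by omega), sub_eq_zero]
  rfl

end Pool.Agent.Lib.MP_b138e1_al
end
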