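import Pool.Agent.Lib.MP_b138e1_al.Approx
import Pool.Agent.Lib.MP_b138e1_al.Split
import Pool.Agent.Lib.MP_b138e1_al.Toep

-- part Pool.Agent.Lib.MP_b138e1_al.Coset
section

/-! A closed labelled cover of a coset complex gives compatible free actions of the local groups. -/

set_option autoImplicit false

namespace Pool.Agent.Lib.MP_b138e1_al

open scoped Classical
open Finset

structure Setup {V : Type} (X : Cx V) (G Q : Type) [Group G] [Group Q] where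
  π : G →* Q
  surj : Function.Surjective π
  H : Fin 4 → Subgroup G
  Z : Subgroup G
  zc : Z ≤ Subgroup.center G
  zH : ∀ i, Z ≤ H i
  zk : ∀ z ∈ Z, π z = 1
  kz : ∀ i, ∀ h ∈ H i, π h = 1 → h ∈ Z
  int : ∀ i j, ∀ h ∈ H i, ∀ h' ∈ H j, π h = π h' → ∃ c ∈ H i, c ∈ H j ∧ π c = π h
  v : Q → Cham V
  ch : ∀ C, C ∈ X.ch ↔ ∃ q, v q = C
  vi : ∀ q q' i, v q i = v q' i ↔ ∃ h ∈ H i, π h = q⁻¹ * q'

variable {V : Type} {X : Cx V} {G Q : Type} [Group G] [Group Q] (S : Setup X G Q)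

namespace Setup

theorem exs (a : V) : ∃ g, S.v (S.π g) (X.col a) = a := by
  obtain ⟨C, hC, e⟩ := X.cover a
  obtain ⟨q, rfl⟩ := (S.ch C).1 hC
  obtain ⟨g, rfl⟩ := S.surj q
  exact ⟨g, e⟩

noncomputable def s (a : V) : G := (S.exs a).choose

theorem vch (q : Q) : S.v q ∈ X.ch := (S.ch _).2 ⟨q, rfl⟩

theorem colv {q : Q} {i : Fin 4} {a : V} (h : S.v q i = a) : X.col a = i := h ▸ X.col_ch _ (S.vch q) i

theorem lift {g : G} {i : Fin 4} {a : V} (h : S.v (S.π g) i = a) :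
    ∃ n, S.π n = 1 ∧ (S.s a)⁻¹ * (n⁻¹ * g) ∈ S.H i := by
  have e : S.v (S.π (S.s a)) (X.col a) = a := (S.exs a).choose_spec
  rw [S.colv h] at e
  obtain ⟨k, hk, e'⟩ := (S.vi _ _ i).1 (e.trans h.symm)
  exact ⟨g * k⁻¹ * (S.s a)⁻¹, by simp [e'], by simpa [mul_assoc] using hk⟩

def L (a b : V) (l : G) : Prop :=
  S.π l = 1 ∧ ∃ g, (S.s a)⁻¹ * g ∈ S.H (X.col a) ∧ (S.s b)⁻¹ * (l⁻¹ * g) ∈ S.H (X.col b)

variable {S}

theorem L.uniq {a b : V} {l l' : G} (h : S.L a b l) (h' : S.L a b l') : l⁻¹ * l' ∈ S.Z := by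
  obtain ⟨e, g, a1, a2⟩ := h
  obtain ⟨e', g', b1, b2⟩ := h'
  have c1 := mul_mem (inv_mem a1) b1
  have c2 := mul_mem (inv_mem a2) b2
  obtain ⟨c, d1, d2, d3⟩ := S.int _ _ _ c1 _ c2 (by simp [e, e', mul_assoc])
  have z1 := S.kz _ _ (mul_mem (inv_mem d1) c1) (by rw [map_mul, map_inv, d3, inv_mul_cancel])
  have z2 := S.kz _ _ (mul_mem (inv_mem d2) c2) (by rw [map_mul, map_inv, d3]; simp [e, e', mul_assoc])
  have z3 := mul_mem (inv_mem z2) z1
  have : l⁻¹ * l' = (c⁻¹ * (((S.s b)⁻¹ * (l⁻¹ * g))⁻¹ * ((S.s b)⁻¹ * (l'⁻¹ * g'))))⁻¹ *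
      (c⁻¹ * (((S.s a)⁻¹ * g)⁻¹ * ((S.s a)⁻¹ * g'))) := by
    have k2 := Subgroup.mem_center_iff.1 (S.zc z3) (l'⁻¹ * g')
    rw [← mul_inv_eq_iff_eq_mul] at k2
    rw [← k2]
    group
  exact this ▸ z3

theorem L.mulZ {a b : V} {l z : G} (h : S.L a b l) (hz : z ∈ S.Z) : S.L a b (l * z) := by
  obtain ⟨e, g, a1, a2⟩ := h
  refine ⟨by simp [e, S.zk z hz], g, a1, ?_⟩
  have k := Subgroup.mem_center_iff.1 (S.zc (inv_mem hz))
  rw [mul_inv_rev, mul_assoc, ← k, ← mul_assoc]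
  exact mul_mem a2 (S.zH _ (inv_mem hz))

theorem L.key {a b : V} {l g : G} {j : Fin 4} (h : S.L a b l) (h1 : (S.s a)⁻¹ * g ∈ S.H (X.col a))
    (h2 : S.v (S.π g) j = b) : (S.s b)⁻¹ * (l⁻¹ * g) ∈ S.H j := by
  obtain ⟨n, n1, n2⟩ := S.lift h2
  have z := h.uniq (l' := n) ⟨n1, g, h1, S.colv h2 ▸ n2⟩
  have k := Subgroup.mem_center_iff.1 (S.zc z)
  rw [show l⁻¹ * g = (l⁻¹ * n) * (n⁻¹ * g) by group, ← k, ← mul_assoc]
  exact mul_mem n2 (S.zH _ z)

theorem exch {C : Cham V} (hC : C ∈ X.ch) (i : Fin 4) :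
    ∃ g, S.v (S.π g) = C ∧ (S.s (C i))⁻¹ * g ∈ S.H (X.col (C i)) := by
  obtain ⟨q, rfl⟩ := (S.ch C).1 hC
  obtain ⟨g, rfl⟩ := S.surj q
  obtain ⟨n, n1, n2⟩ := S.lift (g := g) (i := i) rfl
  exact ⟨n⁻¹ * g, by simp [n1], by rwa [X.col_ch _ hC]⟩

variable (S)

def Λ : Labels X G where
  L := S.L
  inv := fun {_ _ l} ⟨e, g, a1, a2⟩ => ⟨by simp [e], l⁻¹ * g, a2, by simpa using a1⟩
  mul := fun {a b c l l'} t h h' => by
    obtain ⟨C, hC, i, j, k, -, -, -, rfl, rfl, rfl⟩ := tri_iff.1 t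
    obtain ⟨g, rfl, hg⟩ := exch (S := S) hC i
    have k1 := h.key hg rfl
    have k2 := h'.key (j := k) (g := l⁻¹ * g) (by rwa [X.col_ch _ hC j]) (by simp [h.1])
    exact ⟨by simp [h.1, h'.1], g, hg, by rw [X.col_ch _ hC k]; simpa [mul_assoc] using k2⟩
  ex := fun {a b} t => by
    obtain ⟨C, hC, i, j, -, rfl, rfl⟩ := adj_iff.1 t
    obtain ⟨g, rfl, hg⟩ := exch (S := S) hC i
    obtain ⟨n, n1, n2⟩ := S.lift (g := g) (i := j) rfl
    exact ⟨n, n1, g, hg, by rwa [X.col_ch _ hC j]⟩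

variable {S} (Y : Str S.Λ)

def Om (i : Fin 4) : Type :=
  {p : Pt V × G // p.1 ∈ Y.P ∧ S.v (S.π p.2) i = p.1.1 ∧ (S.s p.1.1)⁻¹ * p.2 ∈ S.H i}

def Rel (i j : Fin 4) (p q : Pt V × G) : Prop :=
  (i = j ∧ p = q) ∨ (i ≠ j ∧ Y.E p.1 q.1 (p.2 * q.2⁻¹))

variable {Y} {i j k : Fin 4}

theorem Rel.symm {p q : Pt V × G} (h : Rel Y i j p q) : Rel Y j i q p :=
  h.imp (fun a => ⟨a.1.symm, a.2.symm⟩) fun a => ⟨a.1.symm, by simpa using Y.symm a.2⟩

theorem Rel.pi {p q : Pt V × G} (h : Rel Y i j p q) : S.π p.2 = S.π q.2 := by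
  rcases h with ⟨-, rfl⟩ | ⟨-, h⟩
  · rfl
  · simpa [mul_inv_eq_one] using (Y.lab h).1

theorem Rel.func {p : Pt V × G} {q q' : Om Y j} (h : Rel Y i j p q.1) (h' : Rel Y i j p q'.1) : q = q' := by
  have e := h.pi.symm.trans h'.pi
  rcases h with ⟨rfl, h⟩ | ⟨n, h⟩
  · exact Subtype.ext (h.symm.trans (h'.resolve_right fun a => a.1 rfl).2)
  have := Y.func h (h'.resolve_left fun a => n a.1).2 (by rw [← q.2.2.1, ← q'.2.2.1, e])
  exact Subtype.ext (Prod.ext this.1 (by simpa using this.2))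

theorem closed (hw : Y.w = 0) {C : Cham V} (hC : C ∈ X.ch) {x : Pt V} (hx : x ∈ Y.P) (e : x.1 = C i)
    (h1 : i ≠ j) (h2 : i ≠ k) (h3 : j ≠ k) : Y.cl x (C j) (C k) := by
  by_contra c
  have a := Y.nc_le h1 h2 h3
  have b := card_le_N (X := X) (P := Y.P) (s := {C}) (Q := fun _ => True) (i := i)
    (A := fun C x => ¬ Y.cl x (C j) (C k)) hx (by simp [hC, e, c])
  rw [hw] at a
  have := b.trans a
  norm_num [pr] at this

theorem Rel.tot (hw : Y.w = 0) (p : Om Y i) (j : Fin 4) : ∃ q : Om Y j, Rel Y i j p.1 q.1 := by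
  by_cases e : i = j
  · subst e
    exact ⟨p, Or.inl ⟨rfl, rfl⟩⟩
  obtain ⟨k, -, h2, -, h3, -⟩ := ex_others i j e
  obtain ⟨y, l, a1, a2, -⟩ := (closed hw (S.vch _) p.2.1 p.2.2.1.symm e h2 h3).has
  have l1 : S.L _ _ l := Y.lab a2
  exact ⟨⟨(y, l⁻¹ * p.1.2), Str.mem' a2, by simp [l1.1, a1], l1.key (by rw [S.colv p.2.2.1]; exact p.2.2.2) a1.symm⟩,
    Or.inr ⟨e, by simpa using a2⟩⟩

theorem Rel.trans (hw : Y.w = 0) {p : Om Y i} {q : Om Y j} {r : Om Y k} (h : Rel Y i j p.1 q.1)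
    (h' : Rel Y j k q.1 r.1) : Rel Y i k p.1 r.1 := by
  by_cases e : i = k
  · subst e
    exact Or.inl ⟨rfl, congrArg _ (h.symm.func h')⟩
  have e1 := h.pi
  have e2 := h'.pi
  rcases h with ⟨rfl, h⟩ | ⟨n, h⟩
  · rwa [h]
  rcases h' with ⟨rfl, h'⟩ | ⟨n', h'⟩
  · exact Or.inr ⟨n, h' ▸ h⟩
  have c := closed hw (S.vch _) q.2.1 q.2.2.1.symm (Ne.symm n) n' e
  rw [← e1, p.2.2.1, e1, e2, r.2.2.1] at c
  exact Or.inr ⟨e, by simpa [mul_assoc] using c.edge (Y.symm h) h'⟩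

noncomputable def eqv (hw : Y.w = 0) (i j : Fin 4) : Om Y i ≃ Om Y j where
  toFun p := (Rel.tot hw p j).choose
  invFun q := (Rel.tot hw q i).choose
  left_inv p := (Rel.tot hw _ i).choose_spec.func (Rel.tot hw p j).choose_spec.symm
  right_inv q := (Rel.tot hw _ j).choose_spec.func (Rel.tot hw q i).choose_spec.symm

theorem eqv_rel (hw : Y.w = 0) (p : Om Y i) : Rel Y i j p.1 (eqv hw i j p).1 := (Rel.tot hw p j).choose_spec

def rt (h : S.H i) (p : Om Y i) : Om Y i :=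
  ⟨(p.1.1, p.1.2 * h⁻¹), p.2.1, p.2.2.1 ▸ (S.vi _ _ i).2 ⟨h, h.2, by simp⟩,
    by rw [← mul_assoc]; exact mul_mem p.2.2.2 (inv_mem h.2)⟩

theorem rt_one (p : Om Y i) : rt 1 p = p := Subtype.ext (by simp [rt])

theorem rt_mul (h h' : S.H i) (p : Om Y i) : rt (h * h') p = rt h (rt h' p) :=
  Subtype.ext (by simp [rt, mul_assoc])

noncomputable def act (hw : Y.w = 0) (i : Fin 4) : S.H i →* Equiv.Perm (Om Y 0) :=
  MonoidHom.toHomPerm
    { toFun := fun h p => (eqv hw 0 i).symm (rt h (eqv hw 0 i p))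
      map_one' := funext fun p => by rw [rt_one, Equiv.symm_apply_apply]; rfl
      map_mul' := fun h h' => funext fun p => by
        show _ = (eqv hw 0 i).symm (rt h (eqv hw 0 i ((eqv hw 0 i).symm _)))
        rw [rt_mul, Equiv.apply_symm_apply] }

theorem act_apply (hw : Y.w = 0) (h : S.H i) (p : Om Y 0) :
    act hw i h p = (eqv hw 0 i).symm (rt h (eqv hw 0 i p)) := rfl

theorem act_eq (hw : Y.w = 0) {c : G} (h : c ∈ S.H i) (h' : c ∈ S.H j) :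
    act hw i ⟨c, h⟩ = act hw j ⟨c, h'⟩ := Equiv.ext fun p => by
  rw [act_apply, act_apply, eq_comm, Equiv.symm_apply_eq]
  have a : Rel Y i j (eqv hw 0 i p).1 (eqv hw 0 j p).1 := (eqv_rel hw p).symm.trans hw (eqv_rel hw p)
  have b : Rel Y i j (rt ⟨c, h⟩ (eqv hw 0 i p)).1 (rt ⟨c, h'⟩ (eqv hw 0 j p)).1 :=
    a.imp (fun a => ⟨a.1, by simp [rt, a.2]⟩) fun a => ⟨a.1, by simpa [rt, mul_assoc] using a.2⟩
  set q := (eqv hw 0 i).symm (rt ⟨c, h⟩ (eqv hw 0 i p))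
  have d := eqv_rel (j := i) hw q
  rw [Equiv.apply_symm_apply] at d
  exact (d.trans hw b).func (eqv_rel hw q)

theorem actions [Fintype V] [∀ i, Finite (S.H i)] {R : ℕ} (hm : X.Mix (lam0 R)) (ht : X.LinkTransitive)
    (hc : X.Cone R) (hs : Sofic G) :
    ∃ (F : Type) (_ : Group F) (_ : Finite F) (φ : ∀ i, S.H i →* F),
      (∀ i j c (h : c ∈ S.H i) (h' : c ∈ S.H j), φ i ⟨c, h⟩ = φ j ⟨c, h'⟩) ∧
      (∀ z (h : z ∈ S.Z), φ 0 ⟨z, S.zH 0 h⟩ ∈ Subgroup.center F) ∧ ∀ h, φ 0 h = 1 → h = 1 := by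
  have : Finite S.Z := Finite.of_injective _ (Subgroup.inclusion_injective (S.zH 0))
  obtain ⟨Y, hw, x, hx⟩ := closed_cover (Λ := S.Λ) hm ht hc hs S.Z (fun _ => L.uniq) L.mulZ ⟨_, S.vch 1⟩
  have : Finite (Om Y 0) := Finite.of_injective
    (fun p : Om Y 0 => ((⟨p.1.1, p.2.1⟩ : Y.P), (⟨_, p.2.2.2⟩ : S.H 0))) fun p q e => by
      simp only [Prod.mk.injEq, Subtype.mk.injEq] at e
      exact Subtype.ext (Prod.ext e.1 (by simpa [e.1] using e.2))
  let F := Subgroup.centralizer {σ | ∃ z, ∃ h : z ∈ S.Z, act hw 0 ⟨z, S.zH 0 h⟩ = σ}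
  have hF : ∀ i h, act hw i h ∈ F := by
    rintro i h _ ⟨z, hz, rfl⟩
    rw [act_eq hw _ (S.zH i hz), ← map_mul, ← map_mul]
    exact congrArg _ (Subtype.ext (Subgroup.mem_center_iff.1 (S.zc hz) _).symm)
  refine ⟨F, inferInstance, inferInstance, fun i => (act hw i).codRestrict F (hF i),
    fun i j c h h' => Subtype.ext (act_eq hw h h'), fun z hz => Subgroup.mem_center_iff.2 fun g =>
      Subtype.ext (g.2 _ ⟨z, hz, rfl⟩).symm, fun h e => ?_⟩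
  obtain ⟨p, -⟩ := Rel.tot hw (⟨(x, S.s x.1), hx, (S.exs x.1).choose_spec, by simp⟩ : Om Y (X.col x.1)) 0
  have := DFunLike.congr_fun (Subtype.ext_iff.1 e) p
  simp only [MonoidHom.codRestrict_apply, act_apply, OneMemClass.coe_one, Equiv.Perm.coe_one, id,
    Equiv.symm_apply_eq] at this
  simpa [rt] using congrArg (fun p : Om Y 0 => p.1.2) this

end Setup

end Pool.Agent.Lib.MP_b138e1_al
end

-- part Pool.Agent.Lib.MP_b138e1_al.Final
section

/-! A central extension of a residually finite group by a group of order two that is not sofic. -/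

set_option autoImplicit false

namespace Pool.Agent.Lib.MP_b138e1_al

open scoped Classical

variable {K : Type} [Field K] [Fintype K]

section
variable {G : Type} [Group G] (Z : Subgroup G) (zc : Z ≤ Subgroup.center G) (θ : Fin 4 → GL4 K →* G)

def HH (k : Fin 4) : Subgroup (G × GL4 K × GL4 K) where
  carrier := {x | ∃ g, io k g = x.2 ∧ (θ k g)⁻¹ * x.1 ∈ Z}
  one_mem' := ⟨1, map_one _, by simp⟩
  mul_mem' := fun {x y} ⟨g, a, b⟩ ⟨g', a', b'⟩ => ⟨g * g', by simp [a, a'], by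
    rw [show (θ k (g * g'))⁻¹ * (x * y).1 = (θ k g')⁻¹ * ((θ k g)⁻¹ * x.1) * y.1 by simp [mul_assoc],
      Subgroup.mem_center_iff.1 (zc b), mul_assoc]
    exact mul_mem b b'⟩
  inv_mem' := fun {x} ⟨g, a, b⟩ => ⟨g⁻¹, by simp [a], by
    rw [show (θ k g⁻¹)⁻¹ * x⁻¹.1 = x.1 * ((θ k g)⁻¹ * x.1)⁻¹ * x.1⁻¹ by simp,
      Subgroup.mem_center_iff.1 (zc (inv_mem b)), mul_inv_cancel_right]
    exact inv_mem b⟩

omit [Fintype K] in
theorem io_inj {k l : Fin 4} {g g' : GL4 K} (h : io k g = io l g') : g = g' := congrArg Prod.fst h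

include zc in
theorem rigid [Finite Z] (hK : Big K) (p : ℕ) [Fact p.Prime] [CharP K p] (hq : 1 ≤ lam0 100 ^ 2 * Fintype.card K)
    (hθ : ∀ k l g, Lev k l g → θ k g * (θ l g)⁻¹ ∈ Z) (hs : Sofic (G × GL4 K × GL4 K)) (u : Kˣ) :
    θ 1 (dg ![u, u⁻¹, 1, 1]) = θ 0 (dg ![u, u⁻¹, 1, 1]) := by
  have sw : ∀ {k l g x}, Lev k l g → (θ k g)⁻¹ * x ∈ Z → (θ l g)⁻¹ * x ∈ Z := fun {k l g x} h b => by
    have := hθ k l g h
    rw [show (θ l g)⁻¹ * x = (θ l g)⁻¹ * (θ k g * (θ l g)⁻¹) * θ l g * ((θ k g)⁻¹ * x) by group,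
      Subgroup.mem_center_iff.1 (zc this), inv_mul_cancel_right]
    exact mul_mem this b
  let S : Setup (XX K) (G × GL4 K × GL4 K) (GL4 K × GL4 K) :=
    { π := MonoidHom.snd _ _
      surj := fun q => ⟨(1, q), rfl⟩
      H := HH Z zc θ
      Z := Z.prod ⊥
      zc := fun x h => Subgroup.mem_center_iff.2 fun y =>
        Prod.ext (Subgroup.mem_center_iff.1 (zc h.1) _) (by simp [Subgroup.mem_bot.1 h.2])
      zH := fun i x h => ⟨1, by simp [Subgroup.mem_bot.1 h.2], by simpa using h.1⟩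
      zk := fun x h => h.2
      kz := fun i x ⟨g, a, b⟩ e => ⟨by
        rw [io_inj (g' := 1) (l := i) (a.trans (e.trans (map_one _).symm))] at b
        simpa using b, e⟩
      int := fun i j x ⟨g, a, b⟩ y ⟨g', a', _⟩ e => by
        have e' := a.trans (e.trans a'.symm)
        obtain rfl := io_inj e'
        exact ⟨x, ⟨g, a, b⟩, ⟨g, e' ▸ a, sw ((io_lev hK.two).1 e') b⟩, rfl⟩
      v := vv
      ch := fun _ => mem_XX
      vi := fun q q' i => vv_eq.trans ⟨fun ⟨g, h⟩ => ⟨(θ i g, io i g), ⟨g, rfl, by simp⟩, h⟩,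
        fun ⟨_, ⟨g, a, _⟩, h⟩ => ⟨g, a.trans h⟩⟩ }
  have : ∀ i, Finite (S.H i) := fun i => Finite.of_surjective
    (fun x : GL4 K × Z => (⟨(θ i x.1 * x.2, io i x.1), x.1, rfl, by simp⟩ : S.H i))
    fun ⟨x, g, a, b⟩ => ⟨(g, ⟨_, b⟩), Subtype.ext (Prod.ext (by simp) a)⟩
  obtain ⟨F, _, _, φ, h1, h2, h3⟩ := S.actions (XX_mix hK (lam0_pos 100) hq) XX_trans (XX_cone hK) hs
  let ψ : Fin 4 → GL4 K →* F := fun k =>
    (φ k).comp (((θ k).prod (io k)).codRestrict _ fun g => ⟨g, rfl, by simp⟩)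
  have key : ∀ k l g (h : Lev k l g), ψ k g * (ψ l g)⁻¹ =
      φ 0 ⟨(θ k g * (θ l g)⁻¹, 1), S.zH 0 ⟨hθ k l g h, rfl⟩⟩ := fun k l g h => by
    have e := (io_lev hK.two).2 h
    rw [h1 0 l (θ k g * (θ l g)⁻¹, 1) _ (S.zH l ⟨hθ k l g h, rfl⟩), mul_inv_eq_iff_eq_mul]
    refine (h1 k l _ _ ⟨g, e.symm, sw h (by simp)⟩).trans (Eq.trans (congrArg _ (Subtype.ext ?_)) (map_mul _ _ _))
    exact Prod.ext (inv_mul_cancel_right _ (θ l g)).symm (e.trans (one_mul _).symm)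
  have := centre_dies (ψ := ψ) (fun k l g h => by
    rw [key k l g h]
    exact h2 (_, 1) ⟨hθ k l g h, rfl⟩) hK.two p u
  have e := key 1 0 _ (lev_dg ![u, u⁻¹, 1, 1])
  rw [this, mul_inv_cancel] at e
  exact mul_inv_eq_one.1 (congrArg (·.1.1) (h3 _ e.symm))

end

omit [Fintype K] in
theorem ga_lev (M : ℕ) {k l : Fin 4} {g : GL4 K} (h : Lev k l g) : gaM M k g.1 = gaM M l g.1 :=
  LinearMap.ext fun w => funext fun ⟨n, i⟩ => by
    show ∑ j, g.1 i j * w (n - dd k i + dd k j, j) = ∑ j, g.1 i j * w (n - dd l i + dd l j, j)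
    refine Finset.sum_congr rfl fun j _ => ?_
    by_cases c : (i < k ↔ i < l) ↔ (j < k ↔ j < l)
    · have := congrArg (Nat.cast : ℕ → ZMod M) (dd_lev k l i j c)
      push_cast at this
      rw [show n - dd k i + dd k j = n - dd l i + dd l j by linear_combination this]
    · simp [h i j c]

variable (χ : K →* ℤ)

abbrev PP (K : Type) [Field K] := ∀ M : ℕ+, (Module.End K (WP K M))ˣ

noncomputable def big (k : Fin 4) : GL4 K →* Gam (WW K) χ × PP K :=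
  ((QuotientGroup.mk' _).comp (th k)).prod (MonoidHom.pi fun M => Units.map (gaM M k))

noncomputable def G0 : Subgroup (Gam (WW K) χ × PP K) := Subgroup.closure (⋃ k, Set.range (big χ k))

omit [Fintype K] in
theorem G0_ker {x : Gam (WW K) χ × PP K} (h : x ∈ G0 χ) (e : x.2 = 1) : ∃ q ∈ TT K (WW K), x.1 = q := by
  have : ∃ q : (Module.End K (WW K))ˣ, x.1 = q ∧ Band q.1 fun M => (x.2 M).1 := by
    clear e
    induction h using Subgroup.closure_induction'' with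
    | mem x hx =>
      obtain ⟨_, ⟨k, rfl⟩, g, rfl⟩ := hx
      exact ⟨th k g, rfl, band_th k g.1⟩
    | inv_mem x hx =>
      obtain ⟨_, ⟨k, rfl⟩, g, rfl⟩ := hx
      rw [← map_inv]
      exact ⟨th k g⁻¹, rfl, band_th k (g⁻¹).1⟩
    | one => exact ⟨1, rfl, band_one⟩
    | mul x y _ _ a b =>
      obtain ⟨q, a1, a2⟩ := a
      obtain ⟨r, b1, b2⟩ := b
      exact ⟨q * r, by simp [a1, b1], a2.mul b2⟩
  obtain ⟨q, a, b⟩ := this
  rw [e] at b
  exact ⟨q, b.good, a⟩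

theorem nonsofic (hK : Big K) (p : ℕ) [Fact p.Prime] [CharP K p] (hq : 1 ≤ lam0 100 ^ 2 * Fintype.card K)
    (u : Kˣ) (hu : χ u = -1) : ∃ (G : Type) (_ : Group G) (Z : Subgroup G) (_ : Z.Normal),
      Group.FG G ∧ Nat.card Z = 2 ∧ Group.ResiduallyFinite (G ⧸ Z) ∧ ¬ Sofic G := by
  let f : G0 χ →* PP K := (MonoidHom.snd _ _).comp (G0 χ).subtype
  let θ : Fin 4 → GL4 K →* G0 χ := fun k => (big χ k).codRestrict _ fun g =>
    Subgroup.subset_closure (Set.mem_iUnion.2 ⟨k, g, rfl⟩)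
  have hθ : ∀ k l g, Lev k l g → θ k g * (θ l g)⁻¹ ∈ f.ker := fun k l g h => by
    rw [MonoidHom.mem_ker, map_mul, map_inv, mul_inv_eq_one]
    exact funext fun M => Units.ext (ga_lev M h)
  set D : GL4 K := dg ![u, u⁻¹, 1, 1] with hD
  let z : TT K (WW K) := ⟨_, th_lev (k := 0) (l := 1) (g := D) (lev_dg _)⟩
  have hz : sgn χ z = -1 := (congrArg χ (th_det u)).trans hu
  have zc : f.ker ≤ Subgroup.center _ := fun x h => Subgroup.mem_center_iff.2 fun y => by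
    obtain ⟨q, a, b⟩ := G0_ker χ x.2 h
    refine Subtype.ext (Prod.ext (Subgroup.mem_center_iff.1 (b ▸ mk_central χ a) _) ?_)
    simp [show x.1.2 = 1 from h]
  have two : ∀ x ∈ f.ker, x = 1 ∨ x = θ 0 D * (θ 1 D)⁻¹ := fun x h => by
    obtain ⟨q, a, b⟩ := G0_ker χ x.2 h
    exact (mk_two χ (q := ⟨q, a⟩) hz).imp (fun e => Subtype.ext (Prod.ext (b.trans e) h))
      fun e => Subtype.ext (Prod.ext (b.trans e) (h.trans (hθ 0 1 D (lev_dg _)).symm))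
  have ne : θ 0 D * (θ 1 D)⁻¹ ≠ 1 := fun e => by
    have := (mk_eq χ (q := z) (q' := 1)).1 (congrArg (·.1.1) e)
    rw [hz, map_one] at this
    norm_num at this
  have : Finite f.ker := (Set.toFinite {1, θ 0 D * (θ 1 D)⁻¹}).subset two
  let f' : G0 χ × GL4 K × GL4 K →* PP K × GL4 K × GL4 K := f.prodMap (MonoidHom.id _)
  have : Group.FG (G0 χ) := by
    have : Finite (⋃ k, Set.range (big χ k)) := Set.finite_iUnion fun k => Set.finite_range _
    exact Group.closure_finite_fg _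
  refine ⟨_, inferInstance, f'.ker, inferInstance, inferInstance, ?_, ?_,
    fun hs => ne (mul_inv_eq_one.2 (rigid f.ker zc θ hK p hq hθ hs u).symm)⟩
  · refine Nat.card_eq_two_iff.2 ⟨1, ⟨(θ 0 D * (θ 1 D)⁻¹, 1), Prod.ext (hθ 0 1 D (lev_dg _)) rfl⟩,
      fun e => ne (congrArg (·.1.1) e).symm, Set.eq_univ_of_forall fun x => ?_⟩
    have e := Prod.ext_iff.1 x.2
    exact (two x.1.1 e.1).imp (fun a => Subtype.ext (Prod.ext a e.2)) fun a => Subtype.ext (Prod.ext a e.2)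
  · refine Group.residuallyFinite_of_forall_exists_finite_monoidHom.{0} fun g hg => ?_
    obtain ⟨g, rfl⟩ := QuotientGroup.mk_surjective g
    obtain ⟨M, hM⟩ : ∃ M : ℕ+, (f g.1 M, g.2) ≠ 1 := by
      by_contra! c
      exact hg ((QuotientGroup.eq_one_iff _).2 (Prod.ext (funext fun M => (Prod.ext_iff.1 (c M)).1)
        (Prod.ext_iff.1 (c 1)).2))
    have : Finite (Module.End K (WP K M)) := Finite.of_injective _ DFunLike.coe_injective
    exact ⟨_, inferInstance, inferInstance, (((Pi.evalMonoidHom _ M).prodMap (MonoidHom.id _)).comp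
      (QuotientGroup.kerLift f')), hM⟩

theorem exists_nonsofic : ∃ (G : Type) (_ : Group G) (Z : Subgroup G) (_ : Z.Normal),
    Group.FG G ∧ Nat.card Z = 2 ∧ Group.ResiduallyFinite (G ⧸ Z) ∧ ¬ Sofic G := by
  obtain ⟨n, hn⟩ := exists_nat_ge (1 / lam0 100 ^ 2)
  obtain ⟨p, hp, pp⟩ := Nat.exists_infinite_primes (n + 101)
  have : Fact p.Prime := ⟨pp⟩
  have hK : Big (ZMod p) := ⟨fun m a b e => by
    have := Nat.le_of_dvd a ((ZMod.natCast_eq_zero_iff _ _).1 e)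
    omega, by
    rw [ENat.card_eq_coe_fintype_card, ZMod.card]
    exact_mod_cast (by omega : 100 < p)⟩
  obtain ⟨u, hu⟩ := quadraticChar_exists_neg_one' (F := ZMod p) (by rw [ZMod.ringChar_zmod_n]; omega)
  refine nonsofic (quadraticChar (ZMod p)).toMonoidHom hK p ?_ u hu
  rw [div_le_iff₀ (pow_pos (lam0_pos _) 2), mul_comm] at hn
  refine hn.trans (mul_le_mul_of_nonneg_left ?_ (by positivity))
  rw [ZMod.card]
  exact_mod_cast (by omega : n ≤ p)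

end Pool.Agent.Lib.MP_b138e1_al
end
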