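import Mathlib

/-! Gromov hyperbolic groups. -/

set_option autoImplicit false

namespace Pool.Agent.Lib.MP_b138e1_al

/-- the word metric: graph distance in the Cayley graph of `G` with respect to `S` -/
noncomputable def wordDist {G : Type} [Group G] (S : Finset G) (x y : G) : ℝ :=
  ((SimpleGraph.mulCayley (S : Set G)).dist x y : ℝ)

/-- `G` has a finite generating set whose word metric satisfies Gromov's four-point condition -/
def GromovHyperbolic (G : Type) [Group G] : Prop :=
  ∃ S : Finset G, Subgroup.closure (S : Set G) = ⊤ ∧ ∃ δ : ℝ, 0 ≤ δ ∧ ∀ x y z w : G,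
    wordDist S x y + wordDist S z w ≤
      max (wordDist S x z + wordDist S y w) (wordDist S x w + wordDist S y z) + 2 * δ

end Pool.Agent.Lib.MP_b138e1_al
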