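import Pool.Agent.Lib.MP_b138e1_al.Mix

/-! The edge move. -/

set_option autoImplicit false

namespace Pool.Agent.Lib.MP_b138e1_al

open scoped Classical
open Finset

variable {V : Type} {X : Cx V} {G : Type} [Group G] {Λ : Labels X G} (Y : Str Λ)

/-- no missing edge is supported by most of the paths of length two -/
def Str.EdgeMin : Prop :=
  ∀ C ∈ X.ch, ∀ i j k l : Fin 4, i ≠ j → i ≠ k → i ≠ l → j ≠ k → j ≠ l → k ≠ l →
    ∀ y z m, y.1 = C j → z.1 = C k → ¬ Y.E y z m →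
      pr (X.star {C j, C k}) (fun D => Y.via y (D i) z m) +
        pr (X.star {C j, C k}) (fun D => Y.via y (D l) z m) ≤ 7 / 5

/-- join `y` and `z`, dropping their old edges in these directions -/
def Str.join (y z : Pt V) (m : G) (hy : y ∈ Y.P) (hz : z ∈ Y.P) (hne : y.1 ≠ z.1)
    (hl : Λ.L y.1 z.1 m) : Str Λ where
  P := Y.P
  E x x' g := (x = y ∧ x' = z ∧ g = m) ∨ (x = z ∧ x' = y ∧ g = m⁻¹) ∨
    (Y.E x x' g ∧ ¬ (x = y ∧ x'.1 = z.1) ∧ ¬ (x' = y ∧ x.1 = z.1) ∧ ¬ (x = z ∧ x'.1 = y.1) ∧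
      ¬ (x' = z ∧ x.1 = y.1))
  symm := by
    rintro x x' g (⟨rfl, rfl, rfl⟩ | ⟨rfl, rfl, rfl⟩ | ⟨a, b, c, d, e⟩)
    · exact Or.inr (Or.inl ⟨rfl, rfl, rfl⟩)
    · exact Or.inl ⟨rfl, rfl, inv_inv _⟩
    · exact Or.inr (Or.inr ⟨Y.symm a, c, b, e, d⟩)
  func := by
    rintro x u u' g g' (⟨a1, a2, a3⟩ | ⟨a1, a2, a3⟩ | ⟨a, b, c, d, e⟩)
      (⟨b1, b2, b3⟩ | ⟨b1, b2, b3⟩ | ⟨a', b', c', d', e'⟩) h
    · exact ⟨a2.trans b2.symm, a3.trans b3.symm⟩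
    · exact absurd (congrArg Prod.fst (a1.symm.trans b1)) hne
    · exact absurd ⟨a1, a2 ▸ h.symm⟩ b'
    · exact absurd (congrArg Prod.fst (b1.symm.trans a1)) hne
    · exact ⟨a2.trans b2.symm, a3.trans b3.symm⟩
    · exact absurd ⟨a1, a2 ▸ h.symm⟩ d'
    · exact absurd ⟨b1, b2 ▸ h⟩ b
    · exact absurd ⟨b1, b2 ▸ h⟩ d
    · exact Y.func a a' h
  mem := by
    rintro x x' g (⟨rfl, -⟩ | ⟨rfl, -⟩ | ⟨a, -⟩)
    exacts [hy, hz, Y.mem a]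
  lab := by
    rintro x x' g (⟨rfl, rfl, rfl⟩ | ⟨rfl, rfl, rfl⟩ | ⟨a, -⟩)
    exacts [hl, Λ.inv hl, Y.lab a]

noncomputable def Str.tau (i j k : Fin 4) : ℝ := N X Y.P i fun C x => Y.cl x (C j) (C k)

variable {Y}

theorem Str.nc_eq (i j k : Fin 4) : Y.nc i j k = N X Y.P i (fun _ _ => True) - Y.tau i j k := by
  rw [N_split fun C x => Y.cl x (C j) (C k)]
  simp [Str.nc, Str.tau]

theorem Str.tau_swap (i j k : Fin 4) : Y.tau i j k = Y.tau i k j :=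
  le_antisymm (N_mono fun _ _ _ _ _ a => a.symm) (N_mono fun _ _ _ _ _ a => a.symm)

theorem Str.tau_move (i j k : Fin 4) : Y.tau i j k = Y.tau j i k := by
  have : ∀ i j, Y.tau i j k ≤ Y.tau j i k := fun i j => Y.rebase fun C _ x _ e a => by
    obtain ⟨y, g, a1, a2, -⟩ := a.has
    exact ⟨y, g, a1, a2, e ▸ (a1 ▸ a).move a2⟩
  exact le_antisymm (this i j) (this j i)

theorem three_perm : ∀ l i j k i' j' k' : Fin 4, i ≠ l → j ≠ l → k ≠ l → i ≠ j → i ≠ k → j ≠ k →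
    i' ≠ l → j' ≠ l → k' ≠ l → i' ≠ j' → i' ≠ k' → j' ≠ k' →
    (i' = i ∧ j' = j ∧ k' = k) ∨ (i' = i ∧ j' = k ∧ k' = j) ∨ (i' = j ∧ j' = i ∧ k' = k) ∨
    (i' = j ∧ j' = k ∧ k' = i) ∨ (i' = k ∧ j' = i ∧ k' = j) ∨ (i' = k ∧ j' = j ∧ k' = i) := by
  decide +kernel

theorem Str.tau_perm {l i j k : Fin 4} (σ : Equiv.Perm (Fin 4)) (h : σ 3 = l) (h1 : i ≠ l) (h2 : j ≠ l)
    (h3 : k ≠ l) (h4 : i ≠ j) (h5 : i ≠ k) (h6 : j ≠ k) : Y.tau (σ 0) (σ 1) (σ 2) = Y.tau i j k := by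
  subst h
  rcases three_perm (σ 3) i j k (σ 0) (σ 1) (σ 2) h1 h2 h3 h4 h5 h6 (by simp) (by simp) (by simp)
    (by simp) (by simp) (by simp) with ⟨a, b, c⟩ | ⟨a, b, c⟩ | ⟨a, b, c⟩ | ⟨a, b, c⟩ | ⟨a, b, c⟩ |
    ⟨a, b, c⟩ <;> rw [a, b, c]
  · exact tau_swap _ _ _
  · exact tau_move _ _ _
  · rw [tau_swap, tau_move]
  · rw [tau_move, tau_swap]
  · rw [tau_move, tau_swap, tau_move]

theorem card_perm3 : ∀ l : Fin 4, (univ.filter fun σ : Equiv.Perm (Fin 4) => σ 3 = l).card = 6 := by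
  decide

theorem sum_perm3 (l : Fin 4) (t : ℝ) :
    ∑ σ : Equiv.Perm (Fin 4), (if σ 3 = l then t else 0) = 6 * t := by
  rw [← sum_filter, sum_const, card_perm3, nsmul_eq_mul]
  norm_num

section join
variable {y z : Pt V} {m : G} {hy : y ∈ Y.P} {hz : z ∈ Y.P} {hne : y.1 ≠ z.1} {hl : Λ.L y.1 z.1 m}

theorem join_keep {x x' : Pt V} {g : G} (e : Y.E x x' g) (h1 : ¬ (x.1 = y.1 ∧ x'.1 = z.1))
    (h2 : ¬ (x.1 = z.1 ∧ x'.1 = y.1)) : (Y.join y z m hy hz hne hl).E x x' g :=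
  Or.inr (Or.inr ⟨e, fun a => h1 ⟨a.1 ▸ rfl, a.2⟩, fun a => h2 ⟨a.2, a.1 ▸ rfl⟩,
    fun a => h2 ⟨a.1 ▸ rfl, a.2⟩, fun a => h1 ⟨a.2, a.1 ▸ rfl⟩⟩)

theorem join_keep' {x x' : Pt V} {g : G} (e : Y.E x x' g) {t : Fin 4}
    (ht : t = X.col y.1 ∨ t = X.col z.1) (h1 : X.col x.1 ≠ t) (h2 : X.col x'.1 ≠ t) :
    (Y.join y z m hy hz hne hl).E x x' g :=
  join_keep e (fun a => by rcases ht with rfl | rfl; exacts [h1 (a.1 ▸ rfl), h2 (a.2 ▸ rfl)])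
    fun a => by rcases ht with rfl | rfl; exacts [h2 (a.2 ▸ rfl), h1 (a.1 ▸ rfl)]

theorem join_gain {j k t : Fin 4} (h1 : j ≠ k) (h2 : j ≠ t) (h3 : k ≠ t) {C₀ : Cham V} (hC₀ : C₀ ∈ X.ch)
    (ey : y.1 = C₀ j) (ez : z.1 = C₀ k) (hn : ¬ Y.E y z m) :
    Y.tau j k t + (X.star {C₀ j, C₀ k}).card * (3 * pr (X.star {C₀ j, C₀ k})
      (fun D => Y.via y (D t) z m) - 2) ≤ (Y.join y z m hy hz hne hl).tau j k t := by
  set s := X.star {C₀ j, C₀ k} with hs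
  set Y' := Y.join y z m hy hz hne hl
  have cy : X.col y.1 = j := ey ▸ X.col_ch C₀ hC₀ j
  have cz : X.col z.1 = k := ez ▸ X.col_ch C₀ hC₀ k
  have hsn : s.Nonempty := ⟨C₀, (mem_star2 hC₀).2 ⟨hC₀, rfl, rfl⟩⟩
  have a1 : Y.tau j k t ≤ N X Y.P j (fun C x => Y'.cl x (C k) (C t) ∧ ¬ (x = y ∧ C ∈ s)) +
      N X Y.P j (fun C x => (x = y ∨ ∃ g, Y.E x z g) ∧ C ∈ s ∧ ¬ Y.via y (C t) z m) :=
    N_or fun C hC x _ ex ⟨u, v, g, h, eu, ev, b1, b2, b3⟩ => by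
      have cx : X.col x.1 = j := ex ▸ X.col_ch C hC j
      have cu : X.col u.1 = k := eu ▸ X.col_ch C hC k
      have cv : X.col v.1 = t := ev ▸ X.col_ch C hC t
      have k2 : Y'.E x v h := join_keep' b2 (Or.inr rfl) (by rwa [cx, cz]) (by rw [cv, cz]; exact h3.symm)
      have k3 : Y'.E u v (g⁻¹ * h) :=
        join_keep' b3 (Or.inl rfl) (by rw [cu, cy]; exact h1.symm) (by rw [cv, cy]; exact h2.symm)
      by_cases c : C ∈ s
      · have c' := (mem_star2 hC₀).1 c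
        by_cases c1 : x = y
        · refine Or.inr ⟨Or.inl c1, c, fun ⟨v', p, q, d1, d2, d3, d4⟩ => hn ?_⟩
          subst c1
          obtain ⟨rfl, rfl⟩ := Y.func d2 b2 (d1.trans ev.symm)
          obtain ⟨rfl, d5⟩ := Y.func d3 (Y.symm b3) (by rw [eu, ez, c'.2.2])
          rw [d4, d5]
          simpa using b1
        by_cases c2 : u = z
        · refine Or.inr ⟨Or.inr ⟨g, c2 ▸ b1⟩, c, fun ⟨v', p, q, d1, d2, d3, d4⟩ => c1 ?_⟩
          subst c2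
          obtain ⟨rfl, -⟩ := Y.func (Y.symm d3) b3 (d1.trans ev.symm)
          exact (Y.func (Y.symm b2) (Y.symm d2) (by rw [ex, ey, c'.2.1])).1
        refine Or.inl ⟨⟨u, v, g, h, eu, ev, Or.inr (Or.inr ⟨b1, fun a => c1 a.1, fun a => ?_,
          fun a => ?_, fun a => c2 a.1⟩), k2, k3⟩, fun a => c1 a.1⟩
        · exact h1 (by rw [← cx, a.2, cz])
        · exact h1 (by rw [← cx, a.1, cz])
      · refine Or.inl ⟨⟨u, v, g, h, eu, ev, join_keep b1 (fun a => c ((mem_star2 hC₀).2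
          ⟨hC, by rw [← ex, a.1, ey], by rw [← eu, a.2, ez]⟩)) fun a => h1 (by rw [← cx, a.1, cz]),
          k2, k3⟩, fun a => c a.2⟩
  have a2 : N X Y.P j (fun C x => (x = y ∨ ∃ g, Y.E x z g) ∧ C ∈ s ∧ ¬ Y.via y (C t) z m) ≤
      N X Y.P j (fun C x => x = y ∧ C ∈ s ∧ ¬ Y.via y (C t) z m) +
      N X Y.P j (fun C x => (∃ g, Y.E x z g) ∧ C ∈ s ∧ ¬ Y.via y (C t) z m) :=
    N_or fun _ _ _ _ _ a => a.1.imp (fun b => ⟨b, a.2⟩) fun b => ⟨b, a.2⟩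
  have a3 : N X Y.P j (fun C x => x = y ∧ C ∈ s ∧ ¬ Y.via y (C t) z m) ≤
      s.card * pr s fun C => ¬ Y.via y (C t) z m :=
    N_le_card (fun _ _ _ _ _ a => a.2) fun _ _ _ _ _ a b => a.1.trans b.1.symm
  have a4 : N X Y.P j (fun C x => (∃ g, Y.E x z g) ∧ C ∈ s ∧ ¬ Y.via y (C t) z m) ≤
      s.card * pr s fun C => ¬ Y.via y (C t) z m :=
    N_le_card (fun _ _ _ _ _ a => a.2) fun _ _ _ e e' ⟨⟨_, a⟩, _⟩ ⟨⟨_, b⟩, _⟩ =>
      (Y.func (Y.symm a) (Y.symm b) (e.trans e'.symm)).1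
  have a5 : s.card * pr s (fun C => Y.via y (C t) z m) ≤
      N X Y.P j (fun C x => Y'.cl x (C k) (C t) ∧ x = y ∧ C ∈ s) :=
    card_le_N hy fun C c ⟨v, p, q, d1, d2, d3, d4⟩ => by
      have c' := (mem_star2 hC₀).1 c
      have cv : X.col v.1 = t := d1 ▸ X.col_ch C c'.1 t
      refine ⟨c'.1, ey.trans c'.2.1.symm, ⟨z, v, m, p, ez.trans c'.2.2.symm, d1, Or.inl ⟨rfl, rfl, rfl⟩,
        join_keep' d2 (Or.inr rfl) (by rwa [cy, cz]) (by rw [cv, cz]; exact h3.symm),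
        join_keep' (by simpa [d4] using Y.symm d3) (Or.inl rfl) (by rw [cz, cy]; exact h1.symm)
          (by rw [cv, cy]; exact h2.symm)⟩, rfl, c⟩
  have a6 : Y'.tau j k t = _ := N_split fun C x => x = y ∧ C ∈ s
  rw [pr_not hsn] at a3 a4
  have : Y'.P = Y.P := rfl
  rw [this] at a6
  nlinarith

end join

theorem Str.edgeMin_or : Y.EdgeMin ∨ ∃ Y' : Str Λ, Y'.w < Y.w ∧ Y.d Y' ≤ 80 * (Y.w - Y'.w) := by
  by_cases h : Y.EdgeMin
  · exact Or.inl h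
  right
  simp only [Str.EdgeMin, not_forall, not_le] at h
  obtain ⟨C, hC, i, j, k, l, h1, h2, h3, h4, h5, h6, y, z, m, ey, ez, hn, h⟩ := h
  set s := X.star {C j, C k} with hs
  have cy : X.col y.1 = j := ey ▸ X.col_ch C hC j
  have cz : X.col z.1 = k := ez ▸ X.col_ch C hC k
  obtain ⟨D, hD, v, p, q, d1, d2, d3, rfl⟩ := pr_exists (s := s) (A := fun D => Y.via y (D l) z m)
    (by linarith [pr_le_one (s := s) (A := fun D => Y.via y (D i) z m)])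
  have hD' := (mem_star2 hC).1 hD
  have hne : y.1 ≠ z.1 := by rw [ey, ez]; exact ch_ne hC h4
  have hl : Λ.L y.1 z.1 (p * q) := Λ.mul (by
    rw [ey, ez, ← hD'.2.1, ← hD'.2.2]
    exact d1 ▸ tri_ch hD'.1 h5 h4 h6.symm) (Y.lab d2) (Y.lab d3)
  set Y' := Y.join y z (p * q) (Y.mem d2) (Str.mem' d3) hne hl with hY'
  have g1 : _ ≤ Y'.tau j k i := join_gain h4 h1.symm h2.symm hC ey ez hn
  have g2 : _ ≤ Y'.tau j k l := join_gain h4 h5 h6 hC ey ez hn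
  rw [← hs] at g1 g2
  set α := pr s fun D => Y.via y (D i) z (p * q)
  set β := pr s fun D => Y.via y (D l) z (p * q)
  have hs0 : (0 : ℝ) < s.card := by exact_mod_cast card_pos.2 ⟨D, hD⟩
  have key : ∀ σ : Equiv.Perm (Fin 4), Y'.nc (σ 0) (σ 1) (σ 2) +
      ((if σ 3 = l then s.card * (3 * α - 2) else 0) + if σ 3 = i then s.card * (3 * β - 2) else 0) ≤
      Y.nc (σ 0) (σ 1) (σ 2) := fun σ => by
    rw [Str.nc_eq, Str.nc_eq, show Y'.P = Y.P from rfl]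
    by_cases c1 : σ 3 = l
    · rw [if_pos c1, if_neg (c1 ▸ h3.symm), Str.tau_perm σ c1 h5 h6 h3 h4 h1.symm h2.symm,
        Str.tau_perm σ c1 h5 h6 h3 h4 h1.symm h2.symm]
      linarith
    by_cases c2 : σ 3 = i
    · rw [if_neg c1, if_pos c2, Str.tau_perm σ c2 h1.symm h2.symm h3.symm h4 h5 h6,
        Str.tau_perm σ c2 h1.symm h2.symm h3.symm h4 h5 h6]
      linarith
    have c3 : σ 3 = X.col y.1 ∨ σ 3 = X.col z.1 := by
      rw [cy, cz]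
      exact other_two i l j k _ h3 h1 h2 h5.symm h6.symm h4 c2 c1
    have : Y.tau (σ 0) (σ 1) (σ 2) ≤ Y'.tau (σ 0) (σ 1) (σ 2) :=
      N_mono fun D hD x _ ex ⟨u, v, g, h, eu, ev, b1, b2, b3⟩ => by
        have cx : X.col x.1 ≠ σ 3 := by rw [ex, X.col_ch D hD]; simp
        have cu : X.col u.1 ≠ σ 3 := by rw [eu, X.col_ch D hD]; simp
        have cv : X.col v.1 ≠ σ 3 := by rw [ev, X.col_ch D hD]; simp
        exact ⟨u, v, g, h, eu, ev, join_keep' b1 c3 cx cu, join_keep' b2 c3 cx cv,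
          join_keep' b3 c3 cu cv⟩
    rw [if_neg c1, if_neg c2]
    linarith
  have hw := sum_le_sum fun σ (_ : σ ∈ univ) => key σ
  rw [sum_add_distrib, sum_add_distrib, sum_perm3, sum_perm3] at hw
  change Y'.w + _ ≤ Y.w at hw
  have hd : Y.d Y' ≤ 24 * (4 * s.card) := Str.d_le fun a b _ => by
    have n0 : Y.new Y' a = 0 := N_false fun _ _ x hx _ e => e hx
    have one : ∀ A : Cham V → Pt V → Prop, (∀ D x x', x.1 = D a → x'.1 = D a → A D x → A D x' → x = x') →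
        N X Y.P a (fun D x => A D x ∧ D ∈ s) ≤ s.card := fun A hA =>
      (N_le_card (s := s) (Q := fun _ => True) (fun _ _ _ _ _ e => ⟨e.2, trivial⟩)
        fun D x x' e e' f f' => hA D x x' e e' f.1 f'.1).trans (mul_le_of_le_one_right hs0.le pr_le_one)
    have o1 := one (fun _ x => x = y) fun _ _ _ _ _ e e' => e.trans e'.symm
    have o2 := one (fun _ x => x = z) fun _ _ _ _ _ e e' => e.trans e'.symm
    have o3 := one (fun _ x => ∃ g, Y.E x y g) fun _ _ _ e e' ⟨_, f⟩ ⟨_, f'⟩ =>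
      (Y.func (Y.symm f) (Y.symm f') (e.trans e'.symm)).1
    have o4 := one (fun _ x => ∃ g, Y.E x z g) fun _ _ _ e e' ⟨_, f⟩ ⟨_, f'⟩ =>
      (Y.func (Y.symm f) (Y.symm f') (e.trans e'.symm)).1
    have ms : ∀ D ∈ X.ch, ∀ a b, y.1 = D a → z.1 = D b → D ∈ s := fun D hD a b e e' =>
      mem_star.2 ⟨hD, by
        simp only [mem_insert, mem_singleton, forall_eq_or_imp, forall_eq, ← ey, ← ez]
        exact ⟨by rw [e, X.col_ch D hD], by rw [e', X.col_ch D hD]⟩⟩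
    have l1 : Y.lost Y' a b ≤ N X Y.P a (fun D x => (x = y ∧ D ∈ s) ∨ (x = z ∧ D ∈ s)) +
        N X Y.P a (fun D x => ((∃ g, Y.E x y g) ∧ D ∈ s) ∨ ((∃ g, Y.E x z g) ∧ D ∈ s)) :=
      N_or fun D hD x _ ex ⟨u, g, eu, b1, b2⟩ => by
        by_contra hc
        simp only [not_or] at hc
        refine b2 (Or.inr (Or.inr ⟨b1, ?_, ?_, ?_, ?_⟩)) <;> rintro ⟨rfl, e⟩
        · exact hc.1.1 ⟨rfl, ms D hD a b ex (e ▸ eu)⟩
        · exact hc.2.1 ⟨⟨g, b1⟩, ms D hD b a eu (e ▸ ex)⟩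
        · exact hc.1.2 ⟨rfl, ms D hD b a (e ▸ eu) ex⟩
        · exact hc.2.2 ⟨⟨g, b1⟩, ms D hD a b (e ▸ ex) eu⟩
    have l2 := N_or (X := X) (P := Y.P) (i := a) (A := fun D x => (x = y ∧ D ∈ s) ∨ (x = z ∧ D ∈ s))
      fun _ _ _ _ _ e => e
    have l3 := N_or (X := X) (P := Y.P) (i := a)
      (A := fun D x => ((∃ g, Y.E x y g) ∧ D ∈ s) ∨ ((∃ g, Y.E x z g) ∧ D ∈ s)) fun _ _ _ _ _ e => e
    linarith
  exact ⟨Y', by nlinarith, by nlinarith⟩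

end Pool.Agent.Lib.MP_b138e1_al
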